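import Pool.Agent.Lib.MP_4b8564_nt.GT.Rough

/-!
Both signs of `S(1,1;c)` for `c = g w p q`, `w` one of two given primes, `p` and `q` primes of the
same colour.
-/

open Finset

noncomputable section

namespace Pool.Agent.Lib.MP_4b8564_nt.GT

open Sg Sg.KlooAux Sg.CountAux RoughAux

namespace ColourAux

/-- van der Waerden's theorem in finite form -/
theorem mono_ap (r L : ℕ) : ∃ K : ℕ, 0 < K ∧ ∀ f : ℕ → Fin r, ∃ a d : ℕ, 0 < d ∧
    ∀ j ≤ L, a + j * d ≤ K ∧ f (a + j * d) = f a := by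
  classical
  rcases Nat.eq_zero_or_pos r with rfl | hr
  · exact ⟨1, one_pos, fun f => (f 0).elim0⟩
  have hr' : (0 : ℝ) < r := by exact_mod_cast hr
  obtain ⟨M, hM, h⟩ := szem (L + 1) (1 / r) (by positivity)
  refine ⟨M, hM, fun f => ?_⟩
  obtain ⟨i, -, hi⟩ := exists_le_card_fiber_of_nsmul_le_card_of_maps_to (s := range M)
    (t := (univ : Finset (Fin r))) (f := f) (b := (1 / r * M : ℝ)) (fun _ _ => mem_univ _)
    ⟨⟨0, hr⟩, mem_univ _⟩ (by
      rw [card_univ, Fintype.card_fin, card_range, nsmul_eq_mul]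
      exact le_of_eq (by field_simp))
  obtain ⟨a, d, hd, h2⟩ := h _ (filter_subset _ _) hi
  refine ⟨a, d, hd, fun j hj => ?_⟩
  have h3 := mem_filter.1 (h2 j (by omega))
  have h4 := mem_filter.1 (h2 0 (by omega))
  rw [zero_mul, add_zero] at h4
  exact ⟨(mem_range.1 h3.1).le, h3.2.trans h4.2.symm⟩

theorem labels {g t u : ℕ} (hg : Squarefree g) (pt : t.Prime) (pu : u.Prime) (t4 : t % 4 = 3)
    (u4 : u % 4 = 3) (t3 : 3 < t) (u3 : 3 < u) (ct : Nat.Coprime g t) (cu : Nat.Coprime g u)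
    (ctu : Nat.Coprime t u) :
    ∃ a : ℕ, Nat.Coprime a (g * t * u) ∧ 0 < R (g * t) (a * a) ∧ R (g * u) (a * a) < 0 := by
  have g0 : 0 < g := Nat.pos_of_ne_zero hg.ne_zero
  obtain ⟨α, a1, a2⟩ := both_signs pt t4 t3 g ct (R g t) (R_ne_sqf g hg t ct.symm)
  obtain ⟨β, b1, b2⟩ := both_signs pu u4 u3 g cu (-R g u)
    (neg_ne_zero.2 (R_ne_sqf g hg u cu.symm))
  obtain ⟨b, e1, e2⟩ := Nat.chineseRemainder ctu α β
  obtain ⟨a, e3, e4⟩ := Nat.chineseRemainder (Nat.Coprime.mul_left ct.symm cu.symm) b 1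
  obtain ⟨l1, l2⟩ := label g0 pt ct a1 ((e3.of_mul_right u).trans e1) e4
  obtain ⟨l3, l4⟩ := label g0 pu cu b1 ((e3.of_mul_left t).trans e2) e4
  refine ⟨a, Nat.Coprime.mul_right l1 (Nat.Coprime.coprime_mul_left_right l3), l2 ▸ a2, ?_⟩
  rw [l4]
  linarith

theorem pair {m m' n n' p d : ℕ} (on : Odd n) (on' : Odd n') (e : m' * n = m * n') (m0 : 0 < m)
    (m0' : 0 < m') (hm : m ∣ d) (hm' : m' ∣ d) (hp : m < p) (hp' : m' < p) (hd : 0 < d)
    (hpr : ∀ i ≤ n * n', (p + i * d).Prime) (sm : 0 < R m (p * p)) (sm' : R m' (p * p) < 0) (ε : ℝ)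
    (hε : ε ≠ 0) : ∃ w i i', (w = m ∨ w = m') ∧ i < i' ∧ i' ≤ n * n' ∧
      0 < ε * R (w * (p + i * d) * (p + i' * d)) 1 := by
  set τ : ℕ → ℝ := fun i => R (p + i * d) (1 * (m * n') * d) with hτ
  have τne : ∀ i ≤ n * n', τ i ≠ 0 := fun i hi => R_ne (hpr i hi) _
  by_contra hn
  push Not at hn
  have E : ∀ w, (w = m ∨ w = m') → w ∣ d → 0 < w → w < p → ∀ D s : ℕ, 0 < D → w * D = m * n' →
      s * D = n * n' → ∀ k < s, ε * (R w (p * p) * (τ (k * D) * τ (k * D + D))) ≤ 0 ∧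
        ε * (τ (k * D) * τ (k * D + D)) ≠ 0 := by
    intro w hw hwd w0 wp D s hD e1 e2 k hk
    have b : k * D + D ≤ n * n' := by nlinarith
    have h1 := hn w (k * D) (k * D + D) hw (by omega) b
    rw [edge w0.ne' hwd hD hd wp (hpr _ (by omega)) (hpr _ b) (Nat.coprime_one_left _), e1,
      one_mul p] at h1
    exact ⟨h1, mul_ne_zero hε (mul_ne_zero (τne _ (by omega)) (τne _ b))⟩
  have a : ∀ k < n, 0 < -ε * (τ (k * n') * τ (k * n' + n')) := fun k hk => by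
    obtain ⟨h1, h2⟩ := E m (.inl rfl) hm m0 hp n' n on'.pos rfl rfl k hk
    have h3 : ε * (τ (k * n') * τ (k * n' + n')) ≤ 0 :=
      nonpos_of_mul_nonpos_right' (by linarith) sm
    have := lt_of_le_of_ne h3 h2
    linarith
  have b : ∀ k < n', 0 < ε * (τ (k * n) * τ (k * n + n)) := fun k hk => by
    obtain ⟨h1, h2⟩ := E m' (.inr rfl) hm' m0' hp' n n' on.pos e (mul_comm _ _) k hk
    have h3 : 0 ≤ ε * (τ (k * n) * τ (k * n + n)) :=
      nonneg_of_mul_nonneg_right' (a := -R m' (p * p)) (by linarith) (by linarith)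
    exact lt_of_le_of_ne h3 h2.symm
  have a' := chain τ (-ε) n' n (τne 0 (Nat.zero_le _)) a
  have b' := chain τ ε n n' (τne 0 (Nat.zero_le _)) b
  rw [on.neg_pow] at a'
  rw [mul_comm n' n] at b'
  have c : 0 < ε ^ n * ε ^ n' := by
    rw [← pow_add]
    exact Even.pow_pos (on.add_odd on') hε
  nlinarith [mul_pos a' b', mul_nonneg c.le (mul_self_nonneg (τ 0 * τ (n * n')))]

end ColourAux

open ColourAux in
open Classical in
theorem colour_signs {g t u : ℕ} (hg : Squarefree g) (pt : t.Prime) (pu : u.Prime) (t4 : t % 4 = 3)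
    (u4 : u % 4 = 3) (t3 : 3 < t) (tu : t < u) (hgt : ¬ t ∣ g) (hgu : ¬ u ∣ g) (r y : ℕ) :
    ∃ A : ℕ, ∃ δ : ℝ, 0 < δ ∧ ∃ X₀ : ℕ, ∀ col : ℕ → Fin r, ∀ X : ℕ, X₀ ≤ X → ∀ ε : ℝ, ε ≠ 0 →
      δ * X / Real.log X ^ A ≤ (((Icc 1 X).filter fun c => Squarefree c ∧
        (∃ w p q : ℕ, (w = t ∨ w = u) ∧ p.Prime ∧ q.Prime ∧ y < p ∧ p < q ∧ col p = col q ∧
          c = g * w * p * q) ∧ 0 < ε * KS c).card : ℝ) := by
  have g0 : 0 < g := Nat.pos_of_ne_zero hg.ne_zero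
  have ct : Nat.Coprime g t := ((Nat.Prime.coprime_iff_not_dvd pt).2 hgt).symm
  have cu : Nat.Coprime g u := ((Nat.Prime.coprime_iff_not_dvd pu).2 hgu).symm
  obtain ⟨a, ha, sm, sm'⟩ := ColourAux.labels hg pt pu t4 u4 t3 (by omega) ct cu
    ((Nat.coprime_primes pt pu).2 tu.ne)
  have m0 : 0 < g * t := Nat.mul_pos g0 pt.pos
  have m0' : 0 < g * u := Nat.mul_pos g0 pu.pos
  have L0 : 0 < g * t * u := Nat.mul_pos m0 pu.pos
  have d1 : g * t ∣ g * t * u := Dvd.intro _ rfl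
  have d2 : g * u ∣ g * t * u := ⟨t, by ring⟩
  have l1 := Nat.le_of_dvd L0 d1
  have l2 := Nat.le_of_dvd L0 d2
  obtain ⟨K, K0, hK⟩ := mono_ap r (t * u)
  obtain ⟨c, hc, Y₀, hY⟩ := many_APc (K + 1) (by omega) (g * t * u) a (g * t * u + y) L0 ha
  obtain ⟨X₀, hX⟩ := ExactAux.scale c hc (g * t * u) (K + 1) Y₀ L0
  have hI : (0 : ℝ) < (idx {g * t, g * u} K).card + 1 := by positivity
  have hL' : (0 : ℝ) < (g * t * u : ℕ) := by exact_mod_cast L0
  refine ⟨K + 1, c / (4 * (g * t * u : ℕ)) / ((idx {g * t, g * u} K).card + 1), by positivity, X₀,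
    fun col X h ε hε => ?_⟩
  obtain ⟨Y, h1, h2, h3⟩ := hX X h
  have h4 := h3.trans (hY Y h1)
  have fin : ∀ Gd : Finset ℕ, (APc (g * t * u) a (g * t * u + y) (K + 1) Y).card ≤
      (idx {g * t, g * u} K).card * Gd.card →
      c / (4 * (g * t * u : ℕ)) / ((idx {g * t, g * u} K).card + 1) * X / Real.log X ^ (K + 1) ≤
        (Gd.card : ℝ) := fun Gd hG => by
    have a1 : ((APc (g * t * u) a (g * t * u + y) (K + 1) Y).card : ℝ) ≤
        (idx {g * t, g * u} K).card * Gd.card := by exact_mod_cast hG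
    have b : (0 : ℝ) ≤ Gd.card := by positivity
    rw [div_mul_eq_mul_div, div_right_comm, div_le_iff₀ hI]
    nlinarith
  refine fin _ (RoughAux.count _ _ _ _ _ _ (fun w hw => ?_) _ fun x hx => ?_)
  · rw [mem_insert, mem_singleton] at hw
    rcases hw with rfl | rfl
    exacts [m0, m0']
  obtain ⟨d0, f⟩ := of_mem hx
  obtain ⟨-, -, -, c0⟩ := f 0 (Nat.zero_le _)
  obtain ⟨-, -, -, c1⟩ := f 1 K0
  rw [zero_mul, add_zero] at c0
  rw [one_mul] at c1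
  have dv : g * t * u ∣ x.2 := by
    have := (Nat.modEq_iff_dvd' (Nat.le_add_right x.1 x.2)).1 (c0.trans c1.symm)
    rwa [Nat.add_sub_cancel_left] at this
  obtain ⟨b, e, e0, he⟩ := hK fun j => col (x.1 + j * x.2)
  have eq : ∀ i, x.1 + b * x.2 + i * (e * x.2) = x.1 + (b + i * e) * x.2 := fun i => by ring
  have hb : b ≤ K := by simpa using (he 0 (Nat.zero_le _)).1
  obtain ⟨-, -, B0, c2⟩ := f b hb
  have r1 : R (g * t) ((x.1 + b * x.2) * (x.1 + b * x.2)) = R (g * t) (a * a) :=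
    R_congr ((ZMod.natCast_eq_natCast_iff _ _ _).2 ((c2.of_dvd d1).mul (c2.of_dvd d1)))
  have r2 : R (g * u) ((x.1 + b * x.2) * (x.1 + b * x.2)) = R (g * u) (a * a) :=
    R_congr ((ZMod.natCast_eq_natCast_iff _ _ _).2 ((c2.of_dvd d2).mul (c2.of_dvd d2)))
  obtain ⟨w, i, i', hw, hi, hi', s⟩ := pair (m := g * t) (m' := g * u) (n := t) (n' := u)
    (p := x.1 + b * x.2) (d := e * x.2) (pt.odd_of_ne_two (by omega))
    (pu.odd_of_ne_two (by omega)) (by ring) m0 m0' ((d1.trans dv).mul_left e)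
    ((d2.trans dv).mul_left e) (by omega) (by omega) (Nat.mul_pos e0 d0)
    (fun i hi => eq i ▸ (f _ (he i hi).1).2.1) (r1 ▸ sm) (r2 ▸ sm') ε hε
  rw [eq, eq] at s
  have lt0 : b + i * e < b + i' * e := by nlinarith
  obtain ⟨u1, u2, u3, -⟩ := f _ (he i (by omega)).1
  obtain ⟨v1, v2, v3, -⟩ := f _ (he i' hi').1
  have hcol := (he i (by omega)).2.trans (he i' hi').2.symm
  refine ⟨_, mem_nxt (m := w) (by simpa using hw) lt0 (he i' hi').1, ?_⟩
  have lt : x.1 + (b + i * e) * x.2 < x.1 + (b + i' * e) * x.2 := by nlinarith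
  generalize x.1 + (b + i * e) * x.2 = p at *
  generalize x.1 + (b + i' * e) * x.2 = q at *
  have w1 : Squarefree w ∧ w ≤ g * t * u := by
    rcases hw with rfl | rfl
    exacts [⟨(Nat.squarefree_mul ct).2 ⟨hg, pt.squarefree⟩, l1⟩,
      ⟨(Nat.squarefree_mul cu).2 ⟨hg, pu.squarefree⟩, l2⟩]
  have w0 : 0 < w := Nat.pos_of_ne_zero w1.1.ne_zero
  have sq : Squarefree (w * p * q) :=
    (Nat.squarefree_mul (Nat.Coprime.mul_left (cop w0 v2 (by omega))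
      ((Nat.coprime_primes u2 v2).2 lt.ne))).2
      ⟨(Nat.squarefree_mul (cop w0 u2 (by omega))).2 ⟨w1.1, u2.squarefree⟩, v2.squarefree⟩
  have : NeZero (w * p * q) := ⟨sq.ne_zero⟩
  refine mem_filter.2 ⟨mem_Icc.2 ⟨Nat.pos_of_ne_zero sq.ne_zero, le_trans ?_ h2⟩, sq, ?_, ?_⟩
  · exact Nat.mul_le_mul (Nat.mul_le_mul w1.2 u1) v1
  · rcases hw with rfl | rfl
    exacts [⟨t, p, q, .inl rfl, u2, v2, by omega, lt, hcol, rfl⟩,
      ⟨u, p, q, .inr rfl, u2, v2, by omega, lt, hcol, rfl⟩]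
  · rwa [KS_eq_S, ← R_eq]

end Pool.Agent.Lib.MP_4b8564_nt.GT
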