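import Pool.Agent.Lib.MP_4b8564_nt.GT.BoxLF
import Pool.Agent.Lib.MP_4b8564_nt.Sg.Expand

open Finset Combinatorics
open scoped Classical

noncomputable section

namespace Pool.Agent.Lib.MP_4b8564_nt.GT

namespace LFcoreAux

theorem card_fam (P : Finset ℕ) (hP : ∀ p ∈ P, p.Prime) (R : ℕ) : (Sg.fam P R).card ≤ R := by
  have h : (Sg.fam P R).card ≤ (Ioc 0 R).card := by
    refine card_le_card_of_injOn (fun S => ∏ p ∈ S, p) (fun S hS => ?_) fun S hS S' hS' h => ?_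
    · obtain ⟨h1, h2⟩ := Sg.ExpandAux.mem_fam.1 (mem_coe.1 hS)
      exact mem_coe.2 (mem_Ioc.2 ⟨prod_pos fun p hp => (hP p (h1 hp)).pos, h2⟩)
    · obtain ⟨h1, -⟩ := Sg.ExpandAux.mem_fam.1 (mem_coe.1 hS)
      obtain ⟨h1', -⟩ := Sg.ExpandAux.mem_fam.1 (mem_coe.1 hS')
      rw [← Nat.primeFactors_prod fun p hp => hP p (h1 hp),
        ← Nat.primeFactors_prod fun p hp => hP p (h1' hp)]
      exact congrArg Nat.primeFactors h
  simpa using h

theorem abs_gp {p : ℕ} (hp : 2 ≤ p) (m : ℕ) : |Sg.gp p m| ≤ 1 := by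
  have h2 : (2 : ℝ) ≤ p := by exact_mod_cast hp
  unfold Sg.gp
  split_ifs
  · simp
  · rw [abs_of_nonneg (div_nonneg zero_le_one (by linarith)), div_le_one (by linarith)]
    linarith

theorem abs_beta (P : Finset ℕ) (hP : ∀ p ∈ P, p.Prime) (R m : ℕ) : |Sg.beta P R m| ≤ R := by
  calc |Sg.beta P R m| ≤ ∑ S ∈ Sg.fam P R, |Sg.gS S m| := abs_sum_le_sum_abs _ _
    _ ≤ ∑ _S ∈ Sg.fam P R, (1 : ℝ) := sum_le_sum fun S hS => by
        rw [Sg.gS, abs_prod]
        exact prod_le_one (fun _ _ => abs_nonneg _) fun p hp =>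
          abs_gp (hP p ((Sg.ExpandAux.mem_fam.1 hS).1 hp)).two_le m
    _ ≤ R := by
        rw [sum_const, nsmul_eq_mul, mul_one]
        exact_mod_cast card_fam P hP R

theorem prime_PP {w R p : ℕ} (hp : p ∈ Sg.PP w R) : p.Prime := (mem_filter.1 hp).2

theorem nu_bound (w R b N : ℕ) (hR : 1 ≤ R) (x : ZMod N) :
    0 ≤ nu w R b N x ∧ nu w R b N x ≤ (R : ℝ) ^ 2 := by
  have hG := Sg.one_le_GG (Sg.PP w R) (fun p hp => (prime_PP hp).two_le) R hR
  refine ⟨div_nonneg (sq_nonneg _) (by linarith), ?_⟩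
  refine (div_le_self (sq_nonneg _) hG).trans ?_
  rw [← sq_abs]
  gcongr
  exact abs_beta _ (fun p hp => prime_PP hp) R _

theorem euler (w R n m : ℕ) (hn : n ≤ m) :
    ∏ p ∈ Sg.PP w R, (1 + 4 * 5 ^ n / (p : ℝ) ^ 2) ≤ Real.exp (8 * 5 ^ m / ((w : ℝ) + 1)) := by
  refine (Real.prod_one_add_le_exp_sum _ fun p => by positivity).trans (Real.exp_le_exp.2 ?_)
  have h5 : (5 : ℝ) ^ n ≤ 5 ^ m := pow_le_pow_right₀ (by norm_num) hn
  calc ∑ p ∈ Sg.PP w R, 4 * 5 ^ n / (p : ℝ) ^ 2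
      ≤ ∑ p ∈ Ioo w (R + 1), 4 * 5 ^ n / (p : ℝ) ^ 2 := by
        refine sum_le_sum_of_subset_of_nonneg (fun p hp => ?_) fun _ _ _ => by positivity
        have := mem_Ioc.1 (mem_filter.1 hp).1
        exact mem_Ioo.2 ⟨this.1, by omega⟩
    _ = 4 * 5 ^ n * ∑ p ∈ Ioo w (R + 1), ((p : ℝ) ^ 2)⁻¹ := by
        rw [mul_sum]; rfl
    _ ≤ 4 * 5 ^ m * (2 / ((w : ℝ) + 1)) := by
        gcongr
        exact sum_Ioo_inv_sq_le w (R + 1)
    _ = 8 * 5 ^ m / ((w : ℝ) + 1) := by ring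

variable {V : Type} [Fintype V] [DecidableEq V] {N : ℕ} [NeZero N]

theorem av_form (hN : N.Prime) (a : V → ℤ) (v : V) (h0 : a v ≠ 0) (h1 : |a v| < N)
    (f : ZMod N → ℝ) : av (fun z : V → ZMod N => f (∑ v, (a v : ZMod N) * z v)) = av f := by
  have : Fact N.Prime := ⟨hN⟩
  have ha : (a v : ZMod N) ≠ 0 := fun h => by
    have := Int.le_of_dvd (abs_pos.2 h0)
      ((dvd_abs _ _).2 ((ZMod.intCast_zmod_eq_zero_iff_dvd _ _).1 h))
    omega
  rw [av_update v]
  refine (av_congr fun x => ?_).trans (av_const _)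
  have e : ∀ t : ZMod N, ∑ u, (a u : ZMod N) * Function.update x v t u =
      (a v : ZMod N) * t + ∑ u ∈ univ.erase v, (a u : ZMod N) * x u := fun t => by
    rw [← add_sum_erase univ _ (mem_univ v), Function.update_self]
    congr 1
    exact sum_congr rfl fun u hu => by rw [Function.update_of_ne (ne_of_mem_erase hu)]
  simp only [e]
  exact av_equiv ((Equiv.mulLeft₀ _ ha).trans (Equiv.addRight _)) f

theorem dn_form (hN : N.Prime) (a : V → ℤ) (v : V) (h0 : a v ≠ 0) (h1 : |a v| < N)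
    (A : ZMod N → Prop) : dn (fun z : V → ZMod N => A (∑ v, (a v : ZMod N) * z v)) = dn A :=
  av_form hN a v h0 h1 fun x => if A x then 1 else 0

theorem dn_edge (K : ℕ) : dn (fun x : ZMod N => ¬ (K ≤ x.val ∧ x.val + K < N)) ≤ 2 * K / N := by
  rw [dn_eq_card, ZMod.card]
  refine div_le_div_of_nonneg_right ?_ (Nat.cast_nonneg _)
  have h3 : ∀ s : Finset (ZMod N), (∀ x ∈ s, ¬ (K ≤ x.val ∧ x.val + K < N)) →
      (s.card : ℝ) ≤ 2 * K := fun s hs => by
    have h : s.card ≤ (range K ∪ Ico (N - K) N).card := by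
      refine card_le_card_of_injOn ZMod.val (fun x hx => ?_) fun x _ y _ h =>
        ZMod.val_injective N h
      have h1 := hs x (mem_coe.1 hx)
      have h2 := ZMod.val_lt x
      simp only [coe_union, coe_range, coe_Ico, Set.mem_union, Set.mem_Iio, Set.mem_Ico]
      omega
    have h2 := card_union_le (range K) (Ico (N - K) N)
    rw [card_range, Nat.card_Ico] at h2
    have h4 : s.card ≤ 2 * K := by omega
    exact_mod_cast h4
  exact h3 _ fun x hx => by simpa only [mem_filter, mem_univ, true_and] using hx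

omit [DecidableEq V] in
theorem val_shift (a : V → ℤ) (B L : ℕ) (ha : ∀ v, |a v| ≤ B) (z : V → ZMod N) (h : V → Fin L)
    (h1 : B * Fintype.card V * L ≤ (∑ v, (a v : ZMod N) * z v).val)
    (h2 : (∑ v, (a v : ZMod N) * z v).val + B * Fintype.card V * L < N) :
    (((∑ v, (a v : ZMod N) * (z v + ((h v : ℕ) : ZMod N))).val : ℕ) : ℤ) =
      ((∑ v, (a v : ZMod N) * z v).val : ℤ) + ∑ v, a v * ((h v : ℕ) : ℤ) := by
  have hd : |∑ v, a v * ((h v : ℕ) : ℤ)| ≤ (B * Fintype.card V * L : ℕ) := by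
    calc |∑ v, a v * ((h v : ℕ) : ℤ)| ≤ ∑ v, |a v * ((h v : ℕ) : ℤ)| := abs_sum_le_sum_abs _ _
      _ ≤ ∑ _v : V, (B : ℤ) * L := sum_le_sum fun v _ => by
          rw [abs_mul, Nat.abs_cast]
          have : ((h v : ℕ) : ℤ) ≤ L := by exact_mod_cast (h v).2.le
          exact mul_le_mul (ha v) this (Nat.cast_nonneg _) (Nat.cast_nonneg _)
      _ = _ := by simp only [sum_const, card_univ, nsmul_eq_mul]; push_cast; ring
  have e : ∑ v, (a v : ZMod N) * (z v + ((h v : ℕ) : ZMod N)) =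
      ((((∑ v, (a v : ZMod N) * z v).val : ℤ) + ∑ v, a v * ((h v : ℕ) : ℤ) : ℤ) : ZMod N) := by
    push_cast
    simp only [mul_add, sum_add_distrib, ZMod.natCast_val, ZMod.cast_id', id_eq]
  rw [e, ZMod.val_intCast]
  have := abs_le.1 hd
  exact Int.emod_eq_of_lt (by omega) (by omega)

theorem gS_eq (U : Finset ℕ) (n : ℕ) : Sg.gS U n = ∏ p ∈ U, gz p (n : ℤ) :=
  prod_congr rfl fun p _ => by simp only [Sg.gp, gz, Int.natCast_dvd_natCast]

theorem av_shift {H : Type} [Fintype H] [Nonempty H] (t : H → V → ZMod N)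
    (F : (V → ZMod N) → ℝ) : av F = av fun z => av fun h => F (z + t h) := by
  rw [av_comm]
  exact ((av_congr fun h => av_equiv (Equiv.addRight (t h)) F).trans (av_const _)).symm

end LFcoreAux

open LFcoreAux in
theorem lf_core (V : Type) [Fintype V] [DecidableEq V] (m B : ℕ) (ε : ℝ) (hε : 0 < ε) :
    ∃ w R₀ : ℕ, ∀ (N : ℕ) [NeZero N], N.Prime → ∀ R b : ℕ, R₀ ≤ R → R ^ (8 * m + 2) ≤ N →
      ∀ (T : Type) (a : T → V → ℤ) (S : Finset T), S.card ≤ m → Sep a S B →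
        |av (fun z : V → ZMod N => ∏ s ∈ S, nu w R b N (∑ v, (a s v : ZMod N) * z v)) - 1| ≤ ε := by
  have hlog : 0 < Real.log (1 + ε / 3) := Real.log_pos (by linarith)
  obtain ⟨w₀, hw₀⟩ := exists_nat_ge (8 * 5 ^ m / Real.log (1 + ε / 3))
  obtain ⟨R₁, hR₁⟩ := exists_nat_ge (6 * Fintype.card V * (1 + m * B) / ε)
  refine ⟨w₀ + B + 4, R₁ + B + 1, fun N _ hN R b hR hRN T a S hm hS => ?_⟩
  set w := w₀ + B + 4 with hw
  set n := Fintype.card V with hn
  have hR1 : 1 ≤ R := by omega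
  have hR1' : (1 : ℝ) ≤ R := by exact_mod_cast hR1
  have hBN : B < N := by
    have : R ≤ R ^ (8 * m + 2) := Nat.le_self_pow (by omega) R
    omega
  obtain ⟨e, he0, he, hexp⟩ := Sg.expand (Sg.PP w R) (fun p hp => (prime_PP hp).two_le) R hR1
  set L := R ^ (6 * m + 1) with hL
  have hL0 : 0 < L := by positivity
  have : Nonempty (Fin L) := ⟨⟨0, hL0⟩⟩
  set K := B * n * L with hK
  have hP : ∀ p ∈ Sg.PP w R, p.Prime ∧ 5 ≤ p ∧ B < p ∧ ¬ (p : ℤ) ∣ (primorial w : ℕ) :=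
    fun p hp => by
      have h1 := (mem_Ioc.1 (mem_filter.1 hp).1).1
      refine ⟨prime_PP hp, by omega, by omega, fun h => ?_⟩
      have := (prime_PP hp).dvd_primorial_iff.1 (Int.natCast_dvd_natCast.1 h)
      omega
  have hE : ∏ p ∈ Sg.PP w R, (1 + 4 * 5 ^ S.card / (p : ℝ) ^ 2) - 1 ≤ ε / 3 := by
    have h1 : 8 * 5 ^ m / ((w : ℝ) + 1) ≤ Real.log (1 + ε / 3) := by
      rw [div_le_iff₀ hlog] at hw₀
      rw [div_le_iff₀ (by positivity), mul_comm (Real.log _)]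
      refine hw₀.trans (mul_le_mul_of_nonneg_right ?_ hlog.le)
      have : w₀ ≤ w + 1 := by omega
      exact_mod_cast this
    have h2 := (euler w R S.card m hm).trans (Real.exp_le_exp.2 h1)
    rw [Real.exp_log (by linarith)] at h2
    linarith
  have hRε : 6 * (n : ℝ) * (1 + m * B) ≤ ε * R := by
    rw [div_le_iff₀ hε] at hR₁
    refine hR₁.trans ?_
    rw [mul_comm]
    have : R₁ ≤ R := by omega
    gcongr
  have hR0 : (0 : ℝ) < R := by linarith
  have hE2 : 2 * (n : ℝ) * ((R ^ 2 : ℕ) : ℝ) ^ (3 * S.card) / L ≤ 2 * n / R := by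
    rw [div_le_div_iff₀ (by exact_mod_cast hL0) hR0, hL]
    push_cast
    rw [← pow_mul, mul_assoc, ← pow_succ]
    exact mul_le_mul_of_nonneg_left (pow_le_pow_right₀ hR1' (by omega)) (by positivity)
  set F : (V → ZMod N) → ℝ := fun z => ∏ s ∈ S, nu w R b N (∑ v, (a s v : ZMod N) * z v) with hF
  have hF0 : ∀ z, 0 ≤ F z := fun z => prod_nonneg fun s _ => (nu_bound w R b N hR1 _).1
  have hF1 : ∀ z, F z ≤ (R : ℝ) ^ (2 * m) := fun z => by
    calc F z ≤ ∏ _s ∈ S, (R : ℝ) ^ 2 :=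
          prod_le_prod (fun s _ => (nu_bound w R b N hR1 _).1) fun s _ => (nu_bound w R b N hR1 _).2
      _ = (R : ℝ) ^ (2 * S.card) := by rw [prod_const, ← pow_mul]
      _ ≤ _ := pow_le_pow_right₀ hR1' (by omega)
  let bad : T → (V → ZMod N) → Prop := fun s z =>
    ¬ (K ≤ (∑ v, (a s v : ZMod N) * z v).val ∧ (∑ v, (a s v : ZMod N) * z v).val + K < N)
  obtain ⟨Bad, hBad⟩ : ∃ Bad : (V → ZMod N) → Prop, ∀ z, Bad z ↔ ∃ s ∈ S, bad s z :=
    ⟨_, fun _ => Iff.rfl⟩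
  have hbad : dn Bad ≤ m * (2 * K / N) := by
    refine ((dn_congr hBad).le.trans (dn_exists_le S bad)).trans ?_
    calc ∑ s ∈ S, dn (bad s) ≤ ∑ _s ∈ S, (2 * K / N : ℝ) := sum_le_sum fun s hs => by
          obtain ⟨v, hv⟩ := hS.2.1 s hs
          have h1 : |a s v| < N := (hS.1 s v).trans_lt (by exact_mod_cast hBN)
          exact (dn_form hN (a s) v hv h1 fun x => ¬ (K ≤ x.val ∧ x.val + K < N)).le.trans
            (dn_edge K)
      _ ≤ _ := by
          rw [sum_const, nsmul_eq_mul]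
          gcongr
  have hone : (1 : ℝ) ≤ (R : ℝ) ^ (2 * m) := one_le_pow₀ hR1'
  have key : ∀ z : V → ZMod N,
      |av (fun h : V → Fin L => F (z + fun v => ((h v : ℕ) : ZMod N))) - 1| ≤
        (ε / 3 + 2 * n / R) + (R : ℝ) ^ (2 * m) * if Bad z then 1 else 0 := by
    intro z
    split_ifs with hz
    · have h1 : 0 ≤ av (fun h : V → Fin L => F (z + fun v => ((h v : ℕ) : ZMod N))) :=
        av_nonneg fun h => hF0 _
      have h2 : av (fun h : V → Fin L => F (z + fun v => ((h v : ℕ) : ZMod N))) ≤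
          (R : ℝ) ^ (2 * m) := av_le_of_le fun h => hF1 _
      have h3 : 0 ≤ ε / 3 + 2 * n / R := by positivity
      rw [abs_le]
      constructor <;> linarith
    · have hb := box_lf a S B hS (Sg.PP w R) (primorial w : ℕ) b hP (R ^ 2) L
        (Nat.one_le_pow _ _ hR1) hL0 e he0 he fun s => ((∑ v, (a s v : ZMod N) * z v).val : ℤ)
      rw [mul_zero, add_zero]
      refine le_trans (le_of_eq (congrArg (fun t : ℝ => |t - 1|) ?_))
        (hb.trans (add_le_add hE hE2))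
      unfold bav
      refine av_congr fun h => ?_
      simp only [hF]
      refine prod_congr rfl fun s hs => ?_
      have hg : ¬ bad s z := fun h => hz ((hBad z).2 ⟨s, hs, h⟩)
      obtain ⟨g1, g2⟩ := not_not.1 hg
      have hv := val_shift (a s) B L (hS.1 s) z h g1 g2
      simp only [Pi.add_apply]
      rw [nu, hexp]
      refine sum_congr rfl fun U _ => ?_
      rw [gS_eq, ← hv]
      push_cast
      rfl
  have hN0 : (0 : ℝ) < N := by exact_mod_cast hN.pos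
  have hfin : (R : ℝ) ^ (2 * m) * (m * (2 * K / N)) ≤ 2 * n * (m * B) / R := by
    have h1 : ((R : ℝ)) ^ (8 * m + 2) ≤ N := by exact_mod_cast hRN
    have h2 : (R : ℝ) ^ (2 * m) * (m * (2 * K / N)) =
        2 * n * (m * B) * (R : ℝ) ^ (8 * m + 1) / N := by
      rw [hK, hL]
      push_cast
      rw [show 8 * m + 1 = 2 * m + (6 * m + 1) by ring, pow_add]
      ring
    rw [h2, div_le_div_iff₀ hN0 hR0, mul_assoc, ← pow_succ]
    gcongr
  rw [av_shift (fun (h : V → Fin L) v => ((h v : ℕ) : ZMod N)) F, ← av_const (X := V → ZMod N) 1,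
    ← av_sub]
  refine (abs_av_le _).trans ((av_mono key).trans ?_)
  rw [av_add, av_const, av_const_mul]
  have h4 : (R : ℝ) ^ (2 * m) * av (fun z => if Bad z then (1 : ℝ) else 0) ≤
      2 * n * (m * B) / R :=
    (mul_le_mul_of_nonneg_left hbad (by positivity)).trans hfin
  have h5 : 2 * (n : ℝ) / R + 2 * n * (m * B) / R ≤ ε / 3 := by
    rw [← add_div, div_le_iff₀ hR0]
    linarith
  linarith

end Pool.Agent.Lib.MP_4b8564_nt.GT
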