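import Pool.Agent.Lib.MP_4b8564_nt.GT.Defs

open Finset Combinatorics
open scoped Classical

noncomputable section

namespace Pool.Agent.Lib.MP_4b8564_nt.GT

variable {X Y : Type} [Fintype X] [Fintype Y]

theorem av_const [Nonempty X] (c : ℝ) : av (fun _ : X => c) = c := by
  simp [av]

theorem av_mono {f g : X → ℝ} (h : ∀ x, f x ≤ g x) : av f ≤ av g :=
  div_le_div_of_nonneg_right (sum_le_sum fun x _ => h x) (Nat.cast_nonneg _)

theorem av_congr {f g : X → ℝ} (h : ∀ x, f x = g x) : av f = av g := by rw [funext h]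

theorem av_zero : av (fun _ : X => (0 : ℝ)) = 0 := by simp [av]

theorem av_nonneg {f : X → ℝ} (h : ∀ x, 0 ≤ f x) : 0 ≤ av f :=
  div_nonneg (sum_nonneg fun x _ => h x) (Nat.cast_nonneg _)

theorem av_add (f g : X → ℝ) : av (fun x => f x + g x) = av f + av g := by
  simp [av, sum_add_distrib, add_div]

theorem av_sub (f g : X → ℝ) : av (fun x => f x - g x) = av f - av g := by
  simp [av, sum_sub_distrib, sub_div]

theorem av_neg (f : X → ℝ) : av (fun x => -f x) = -av f := by
  simp [av, neg_div]

theorem av_const_mul (c : ℝ) (f : X → ℝ) : av (fun x => c * f x) = c * av f := by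
  simp [av, ← mul_sum, mul_div_assoc]

theorem av_mul_const (c : ℝ) (f : X → ℝ) : av (fun x => f x * c) = av f * c := by
  simp only [mul_comm _ c, av_const_mul]

theorem av_sum {κ : Type} (s : Finset κ) (f : κ → X → ℝ) :
    av (fun x => ∑ k ∈ s, f k x) = ∑ k ∈ s, av (f k) := by
  simp only [av]; rw [sum_comm, sum_div]

theorem abs_av_le (f : X → ℝ) : |av f| ≤ av fun x => |f x| := by
  simp only [av, abs_div, Nat.abs_cast]
  exact div_le_div_of_nonneg_right (abs_sum_le_sum_abs _ _) (Nat.cast_nonneg _)

theorem av_le_of_le [Nonempty X] {f : X → ℝ} {c : ℝ} (h : ∀ x, f x ≤ c) : av f ≤ c :=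
  (av_mono h).trans (av_const c).le

theorem le_av_of_le [Nonempty X] {f : X → ℝ} {c : ℝ} (h : ∀ x, c ≤ f x) : c ≤ av f :=
  (av_const c).ge.trans (av_mono h)

theorem abs_av_le_of_le [Nonempty X] {f : X → ℝ} {c : ℝ} (h : ∀ x, |f x| ≤ c) : |av f| ≤ c :=
  (abs_av_le f).trans (av_le_of_le h)

theorem av_equiv (e : X ≃ Y) (f : Y → ℝ) : av (fun x => f (e x)) = av f := by
  simp only [av, Fintype.card_congr e, Equiv.sum_comp e f]

theorem av_prod (f : X × Y → ℝ) : av f = av fun x => av fun y => f (x, y) := by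
  simp only [av, Fintype.card_prod, Nat.cast_mul, Fintype.sum_prod_type, ← sum_div, div_div]
  rw [mul_comm]

theorem av_comm (f : X → Y → ℝ) :
    av (fun x => av fun y => f x y) = av fun y => av fun x => f x y := by
  simp only [av, ← sum_div, div_div]
  rw [sum_comm, mul_comm]

theorem av_mul_av (f : X → ℝ) (g : Y → ℝ) : av f * av g = av fun x => av fun y => f x * g y := by
  simp only [av_const_mul, av_mul_const]

theorem av_sumElim {ι κ α : Type} [Fintype ι] [DecidableEq ι] [Fintype κ] [DecidableEq κ]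
    [Fintype α] (f : (ι ⊕ κ → α) → ℝ) :
    av f = av fun x : ι → α => av fun y : κ → α => f (Sum.elim x y) := by
  rw [← av_equiv (Equiv.sumArrowEquivProdArrow ι κ α).symm f, av_prod]
  rfl

/-- averaging over one coordinate first -/
theorem av_update {ι : Type} [Fintype ι] [DecidableEq ι] [Nonempty X] (j : ι) (f : (ι → X) → ℝ) :
    av f = av fun x : ι → X => av fun a : X => f (Function.update x j a) := by
  let e : (ι → X) × X ≃ (ι → X) × X :=
    { toFun := fun z => (Function.update z.1 j z.2, z.1 j)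
      invFun := fun z => (Function.update z.1 j z.2, z.1 j)
      left_inv := fun z => by simp
      right_inv := fun z => by simp }
  have h := av_equiv e fun z => f z.1
  rw [av_prod, av_prod] at h
  simp only [av_const] at h
  exact h.symm

theorem exists_av_le [Nonempty X] (f : X → ℝ) : ∃ x, av f ≤ f x := by
  obtain ⟨x, -, hx⟩ := exists_max_image univ f univ_nonempty
  exact ⟨x, av_le_of_le fun y => hx y (mem_univ y)⟩

theorem exists_le_av [Nonempty X] (f : X → ℝ) : ∃ x, f x ≤ av f := by
  obtain ⟨x, -, hx⟩ := exists_min_image univ f univ_nonempty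
  exact ⟨x, le_av_of_le fun y => hx y (mem_univ y)⟩

/-- weighted Cauchy-Schwarz -/
theorem av_mul_sq_le (a a' b : X → ℝ) (h : ∀ x, |a x| ≤ a' x) :
    av (fun x => a x * b x) ^ 2 ≤ av a' * av fun x => a' x * b x ^ 2 := by
  have h0 : ∀ x, 0 ≤ a' x := fun x => (abs_nonneg _).trans (h x)
  have key : (∑ x, a x * b x) ^ 2 ≤ (∑ x, a' x) * ∑ x, a' x * b x ^ 2 := by
    refine sum_sq_le_sum_mul_sum_of_sq_le_mul univ (fun x _ => h0 x)
      (fun x _ => mul_nonneg (h0 x) (sq_nonneg _)) fun x _ => ?_
    have : a x ^ 2 ≤ a' x ^ 2 := by rw [← sq_abs]; gcongr; exact h x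
    nlinarith [sq_nonneg (b x)]
  simp only [av, div_pow, div_mul_div_comm, ← sq]
  exact div_le_div_of_nonneg_right key (by positivity)

theorem dn_eq_card (A : X → Prop) : dn A = ((univ.filter A).card : ℝ) / Fintype.card X := by
  simp [dn, av]

theorem dn_nonneg (A : X → Prop) : 0 ≤ dn A := av_nonneg fun x => by split_ifs <;> norm_num

theorem dn_le_one (A : X → Prop) : dn A ≤ 1 := by
  cases isEmpty_or_nonempty X
  · simp [dn, av]
  · exact av_le_of_le fun x => by split_ifs <;> norm_num

theorem dn_mono {A B : X → Prop} (h : ∀ x, A x → B x) : dn A ≤ dn B :=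
  av_mono fun x => by
    by_cases hA : A x
    · simp [hA, h x hA]
    · simp only [hA, if_false]; split_ifs <;> norm_num

theorem dn_congr {A B : X → Prop} (h : ∀ x, A x ↔ B x) : dn A = dn B :=
  le_antisymm (dn_mono fun x => (h x).1) (dn_mono fun x => (h x).2)

theorem dn_true [Nonempty X] : dn (fun _ : X => True) = 1 := by
  simp only [dn, if_true, av_const]

theorem dn_false : dn (fun _ : X => False) = 0 := by
  simp only [dn, if_false, av_zero]

theorem dn_and_add (A B : X → Prop) :
    dn (fun x => A x ∧ B x) + dn (fun x => A x ∧ ¬ B x) = dn A := by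
  simp only [dn, ← av_add]
  exact av_congr fun x => by by_cases hA : A x <;> by_cases hB : B x <;> simp [hA, hB]

theorem dn_not [Nonempty X] (A : X → Prop) : dn (fun x => ¬ A x) = 1 - dn A := by
  have := dn_and_add (fun _ : X => True) A
  simp only [true_and, dn_true] at this
  linarith

theorem dn_or_le (A B : X → Prop) : dn (fun x => A x ∨ B x) ≤ dn A + dn B := by
  simp only [dn, ← av_add]
  exact av_mono fun x => by by_cases hA : A x <;> by_cases hB : B x <;> simp [hA, hB]

theorem exists_of_dn_pos {A : X → Prop} (h : 0 < dn A) : ∃ x, A x := by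
  by_contra hn
  push Not at hn
  rw [dn_congr (B := fun _ => False) fun x => by simp [hn x], dn_false] at h
  exact lt_irrefl _ h

theorem dn_equiv (e : X ≃ Y) (A : Y → Prop) : dn (fun x => A (e x)) = dn A :=
  av_equiv e fun y => if A y then 1 else 0

theorem dn_comm (A : X → Y → Prop) :
    av (fun x => dn fun y => A x y) = av fun y => dn fun x => A x y :=
  av_comm fun x y => if A x y then 1 else 0

theorem dn_prod (A : X × Y → Prop) : dn A = av fun x => dn fun y => A (x, y) :=
  av_prod fun z => if A z then 1 else 0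

theorem dn_sumElim {ι κ α : Type} [Fintype ι] [DecidableEq ι] [Fintype κ] [DecidableEq κ]
    [Fintype α] (A : (ι ⊕ κ → α) → Prop) :
    dn A = av fun x : ι → α => dn fun y : κ → α => A (Sum.elim x y) :=
  av_sumElim fun z => if A z then 1 else 0

theorem markov [Nonempty X] (f : X → ℝ) (M t : ℝ) (hf : ∀ x, f x ≤ M) (ht : 0 ≤ t) :
    av f - t ≤ M * dn fun x => t ≤ f x := by
  have : av f ≤ av fun x => t + M * if t ≤ f x then 1 else 0 := av_mono fun x => by
    split_ifs with h
    · linarith [hf x]
    · linarith [not_le.1 h]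
  rw [av_add, av_const, av_const_mul] at this
  unfold dn
  linarith

theorem dn_exists_le {κ : Type} (s : Finset κ) (B : κ → X → Prop) :
    dn (fun x => ∃ k ∈ s, B k x) ≤ ∑ k ∈ s, dn (B k) := by
  simp only [dn, ← av_sum]
  refine av_mono fun x => ?_
  split_ifs with h
  · obtain ⟨k, hk, hB⟩ := h
    refine le_trans ?_ (single_le_sum (f := fun k => if B k x then (1 : ℝ) else 0)
      (fun k _ => by split_ifs <;> norm_num) hk)
    simp [hB]
  · exact sum_nonneg fun k _ => by split_ifs <;> norm_num

theorem pigeon {κ : Type} [Fintype κ] [Nonempty κ] (A : X → Prop) (B : κ → X → Prop)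
    (h : ∀ x, A x → ∃ k, B k x) : ∃ k, dn A / Fintype.card κ ≤ dn (B k) := by
  obtain ⟨k, hk⟩ := exists_av_le fun k => dn (B k)
  refine ⟨k, le_trans ?_ hk⟩
  refine div_le_div_of_nonneg_right ((dn_mono fun x hx => ?_).trans (dn_exists_le univ B))
    (Nat.cast_nonneg _)
  obtain ⟨k, hk⟩ := h x hx
  exact ⟨k, mem_univ k, hk⟩

end Pool.Agent.Lib.MP_4b8564_nt.GT
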