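import Pool.Agent.Lib.MP_4b8564_nt.GT.Opp

/-!
For a prime `t ≡ 3 mod 4`, `t > 3`, the sums `S(a,a;t)` take both signs.
-/

open Finset

noncomputable section

namespace Pool.Agent.Lib.MP_4b8564_nt.GT

open Sg Sg.KlooAux Sg.CountAux

namespace BothAux

theorem orth (t : ℕ) [NeZero t] (z : ZMod t) :
    ∑ a : ZMod t, ZMod.stdAddChar (a * z) = if z = 0 then (t : ℂ) else 0 := by
  have h := AddChar.sum_mulShift z (ZMod.isPrimitive_stdAddChar t)
  rw [ZMod.card] at h
  rw [h]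
  split_ifs <;> simp

/-- Fourier inversion: the number of solutions of `x + x⁻¹ = v`. -/
theorem inv_sum (t : ℕ) [NeZero t] (v : ZMod t) :
    ∑ a : ZMod t, T t a * ZMod.stdAddChar (a * -v) =
      ∑ x : (ZMod t)ˣ, if (x : ZMod t) + ((x⁻¹ : (ZMod t)ˣ) : ZMod t) + -v = 0 then (t : ℂ) else 0 := by
  unfold T
  simp_rw [sum_mul, ← AddChar.map_add_eq_mul, ← mul_add]
  rw [sum_comm]
  exact sum_congr rfl fun x _ => orth t _

theorem T_zero (t : ℕ) [hp : Fact t.Prime] : (T t 0).re = t - 1 := by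
  unfold T
  simp only [zero_mul, AddChar.map_zero_eq_one, sum_const, card_univ, ZMod.card_units,
    nsmul_eq_mul, mul_one, Complex.natCast_re]
  rw [Nat.cast_sub hp.out.one_le, Nat.cast_one]

theorem sum_T (t : ℕ) [hp : Fact t.Prime] (h4 : t % 4 = 3) : ∑ a : ZMod t, (T t a).re = 0 := by
  have h := inv_sum t 0
  simp only [neg_zero, mul_zero, AddChar.map_zero_eq_one, mul_one, add_zero] at h
  rw [← Complex.re_sum, h, sum_eq_zero, Complex.zero_re]
  intro x _
  rw [if_neg]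
  intro e
  have h1 : (x : ZMod t) * x = -1 := by
    have h2 : (x : ZMod t) * ((x⁻¹ : (ZMod t)ˣ) : ZMod t) = 1 := x.mul_inv
    linear_combination (x : ZMod t) * e - h2
  exact (ZMod.exists_sq_eq_neg_one_iff.1 ⟨x, h1.symm⟩) h4

theorem exists_neg (t : ℕ) [hp : Fact t.Prime] (h4 : t % 4 = 3) :
    ∃ a : ZMod t, a ≠ 0 ∧ (T t a).re < 0 := by
  by_contra hc
  push Not at hc
  have h1 := sum_T t h4
  have h2 : (2 : ℝ) ≤ t := by exact_mod_cast hp.out.two_le
  have h3 : (T t 0).re ≤ ∑ a : ZMod t, (T t a).re :=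
    single_le_sum (f := fun a : ZMod t => (T t a).re) (fun a _ => by
      by_cases h : a = 0
      · rw [h, T_zero]; linarith
      · exact hc a h) (mem_univ 0)
  rw [T_zero] at h3
  linarith

theorem exists_pos (t : ℕ) [hp : Fact t.Prime] (h4 : t % 4 = 3) (h3 : 3 < t) :
    ∃ a : ZMod t, a ≠ 0 ∧ 0 < (T t a).re := by
  by_contra hc
  push Not at hc
  have h1 := sum_T t h4
  have n2 : (2 : ZMod t) ≠ 0 := fun e => by
    have := Nat.le_of_dvd two_pos ((ZMod.natCast_eq_zero_iff 2 t).1 (by exact_mod_cast e))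
    omega
  have n3 : (3 : ZMod t) ≠ 0 := fun e => by
    have := Nat.le_of_dvd three_pos ((ZMod.natCast_eq_zero_iff 3 t).1 (by exact_mod_cast e))
    omega
  set u : (ZMod t)ˣ := Units.mk0 2 n2 with hu
  have hne : u ≠ u⁻¹ := fun e => by
    have a : (u : ZMod t) * ((u⁻¹ : (ZMod t)ˣ) : ZMod t) = 1 := u.mul_inv
    rw [← e] at a
    have b : (u : ZMod t) = 2 := rfl
    rw [b] at a
    exact n3 (by linear_combination a)
  set v : ZMod t := (u : ZMod t) + ((u⁻¹ : (ZMod t)ˣ) : ZMod t) with hv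
  have h := congrArg Complex.re (inv_sum t v)
  rw [Complex.re_sum, Complex.re_sum] at h
  have t0 : (0 : ℝ) ≤ t := Nat.cast_nonneg t
  have low : (t : ℝ) + t ≤ ∑ x : (ZMod t)ˣ,
      (if (x : ZMod t) + ((x⁻¹ : (ZMod t)ˣ) : ZMod t) + -v = 0 then (t : ℂ) else 0).re := by
    refine le_trans ?_ (sum_le_sum_of_subset_of_nonneg (subset_univ {u, u⁻¹}) fun x _ _ => ?_)
    · rw [sum_pair hne, if_pos (by rw [hv]; ring), if_pos (by rw [hv, inv_inv]; ring)]
      simp
    · split_ifs <;> simp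
  have up : ∑ a : ZMod t, (T t a * ZMod.stdAddChar (a * -v)).re ≤
      ∑ a : ZMod t, (-(T t a).re + if a = 0 then 2 * ((t : ℝ) - 1) else 0) := by
    refine sum_le_sum fun a _ => ?_
    rw [Complex.mul_re, T_im, zero_mul, sub_zero]
    by_cases e : a = 0
    · rw [if_pos e, e, zero_mul, AddChar.map_zero_eq_one, T_zero, Complex.one_re]
      linarith
    · rw [if_neg e, add_zero]
      have a1 := hc a e
      have a2 := Complex.abs_re_le_norm (ZMod.stdAddChar (a * -v))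
      rw [AddChar.norm_apply] at a2
      nlinarith [(abs_le.1 a2).1]
  rw [sum_add_distrib, sum_neg_distrib, h1, sum_ite_eq' univ (0 : ZMod t), if_pos (mem_univ _)] at up
  linarith

theorem sq_or (t : ℕ) [hp : Fact t.Prime] (h4 : t % 4 = 3) {w : ZMod t} (hw : w ≠ 0) :
    ∃ z : ZMod t, z ≠ 0 ∧ (z * z = w ∨ z * z = -w) := by
  have h1 : ¬ IsSquare (-1 : ZMod t) := fun h => (ZMod.exists_sq_eq_neg_one_iff.1 h) h4
  have h2 : IsSquare w ∨ IsSquare (-w) := by
    by_cases h : IsSquare w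
    · exact Or.inl h
    · right
      have a := quadraticChar_neg_one_iff_not_isSquare.2 h
      have b := quadraticChar_neg_one_iff_not_isSquare.2 h1
      refine (quadraticChar_one_iff_isSquare (neg_ne_zero.2 hw)).1 ?_
      rw [← neg_one_mul, map_mul, a, b]
      norm_num
  rcases h2 with ⟨z, hz⟩ | ⟨z, hz⟩
  · exact ⟨z, fun e => hw (by rw [hz, e, mul_zero]), Or.inl hz.symm⟩
  · exact ⟨z, fun e => (neg_ne_zero.2 hw) (by rw [hz, e, mul_zero]), Or.inr hz.symm⟩

end BothAux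

open BothAux in
/-- Every sign is reached by a square multiple of a given twist. -/
theorem both_signs {t : ℕ} (hp : t.Prime) (h4 : t % 4 = 3) (h3 : 3 < t) (v : ℕ)
    (hv : Nat.Coprime v t) (σ : ℝ) (hσ : σ ≠ 0) :
    ∃ α : ℕ, Nat.Coprime α t ∧ 0 < σ * R t (α * α * v) := by
  have := Fact.mk hp
  have hv0 : (v : ZMod t) ≠ 0 := by
    rw [Ne, ZMod.natCast_eq_zero_iff]
    exact (Nat.Prime.coprime_iff_not_dvd hp).1 hv.symm
  have key : ∀ a : ZMod t, a ≠ 0 → ∃ α : ℕ, Nat.Coprime α t ∧ R t (α * α * v) = (T t a).re := by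
    intro a ha
    obtain ⟨z, hz, h⟩ := sq_or t h4 (w := (a * v)⁻¹) (inv_ne_zero (mul_ne_zero ha hv0))
    refine ⟨z.val, ?_, ?_⟩
    · refine ((Nat.Prime.coprime_iff_not_dvd hp).2 ?_).symm
      rw [← ZMod.natCast_eq_zero_iff, ZMod.natCast_zmod_val]
      exact hz
    · rw [R_eq, S]
      push_cast
      rw [ZMod.natCast_zmod_val]
      rcases h with h | h
      · rw [h]
        congr 2
        field_simp
      · rw [h, ← T_neg t a]
        congr 2
        field_simp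
  rcases lt_or_gt_of_ne hσ with h | h
  · obtain ⟨a, ha, s⟩ := exists_neg t h4
    obtain ⟨α, h1, h2⟩ := key a ha
    exact ⟨α, h1, h2 ▸ mul_pos_of_neg_of_neg h s⟩
  · obtain ⟨a, ha, s⟩ := exists_pos t h4 h3
    obtain ⟨α, h1, h2⟩ := key a ha
    exact ⟨α, h1, h2 ▸ mul_pos h s⟩

end Pool.Agent.Lib.MP_4b8564_nt.GT
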