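import Pool.Agent.Lib.MP_4b8564_nt.GT.Av

open Finset Combinatorics
open scoped Classical

noncomputable section

namespace Pool.Agent.Lib.MP_4b8564_nt.GT

variable {V : Type} [Fintype V] [DecidableEq V]

namespace BoxAux

theorem sum_per (q : ℕ) (g : ℕ → ℝ) (hg : ∀ n, g (q + n) = g n) (h0 : ∑ i ∈ range q, g i = 0)
    (r m : ℕ) : ∑ i ∈ range (q * m + r), g i = ∑ i ∈ range r, g i := by
  induction m with
  | zero => simp
  | succ m ih =>
    have : q * (m + 1) + r = q + (q * m + r) := by ring
    rw [this, sum_range_add, h0, zero_add]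
    simp only [hg]
    exact ih

theorem one_dim (q L : ℕ) (hq : 0 < q) (hL : 0 < L) (f : ℕ → ℝ) (hf : ∀ n, f (q + n) = f n)
    (h1 : ∀ n, |f n| ≤ 1) :
    |av (fun a : Fin L => f a) - av (fun b : Fin q => f b)| ≤ 2 * q / L := by
  have hq' : (0 : ℝ) < q := by exact_mod_cast hq
  have hL' : (0 : ℝ) < L := by exact_mod_cast hL
  have : Nonempty (Fin q) := ⟨⟨0, hq⟩⟩
  set m := av (fun b : Fin q => f b) with hm
  have hm1 : |m| ≤ 1 := abs_av_le_of_le fun b => h1 b
  have hms : ∑ i ∈ range q, f i = q * m := by
    rw [hm, av, Fintype.card_fin, Fin.sum_univ_eq_sum_range (fun i => f i) q]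
    field_simp
  have h0 : ∑ i ∈ range q, (f i - m) = 0 := by
    rw [sum_sub_distrib, hms]; simp
  have key := sum_per q (fun i => f i - m) (fun n => by simp only [hf]) h0 (L % q) (L / q)
  rw [Nat.div_add_mod] at key
  have hb : |∑ i ∈ range (L % q), (f i - m)| ≤ 2 * q := by
    refine (abs_sum_le_sum_abs _ _).trans ?_
    refine (sum_le_card_nsmul _ _ 2 fun i _ => ?_).trans ?_
    · have := h1 i
      have h2 := abs_sub (f i) m
      linarith
    · have : ((L % q : ℕ) : ℝ) ≤ q := by exact_mod_cast (Nat.mod_lt L hq).le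
      simp only [card_range, nsmul_eq_mul]
      linarith
  have he : av (fun a : Fin L => f a) - m = (∑ i ∈ range L, (f i - m)) / L := by
    rw [av, Fintype.card_fin, Fin.sum_univ_eq_sum_range (fun i => f i) L, sum_sub_distrib]
    simp only [sum_const, card_range, nsmul_eq_mul]
    field_simp
  rw [he, key, abs_div, abs_of_pos hL']
  exact div_le_div_of_nonneg_right hb hL'.le

/-- the point with coordinates from `h` on `S` and from `k` off `S` -/
def mix {q L : ℕ} (S : Finset V) (h : V → Fin L) (k : V → Fin q) : V → ℤ :=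
  fun v => if v ∈ S then ((h v : ℕ) : ℤ) else ((k v : ℕ) : ℤ)

omit [Fintype V] in
theorem mix_left {q L : ℕ} (S : Finset V) (j : V) (hj : j ∉ S) (h : V → Fin L) (k : V → Fin q)
    (a : Fin L) :
    mix (insert j S) (Function.update h j a) k = Function.update (mix S h k) j ((a : ℕ) : ℤ) := by
  funext v
  by_cases hv : v = j
  · subst hv; simp [mix]
  · simp [mix, hv]

omit [Fintype V] in
theorem mix_right {q L : ℕ} (S : Finset V) (j : V) (hj : j ∉ S) (h : V → Fin L) (k : V → Fin q)
    (b : Fin q) :
    mix S h (Function.update k j b) = Function.update (mix S h k) j ((b : ℕ) : ℤ) := by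
  funext v
  by_cases hv : v = j
  · subst hv; simp [mix, hj]
  · simp [mix, hv]

theorem hybrid (q L : ℕ) (hq : 0 < q) (hL : 0 < L) (F : (V → ℤ) → ℝ) (hF : Per q F)
    (h1 : ∀ x, |F x| ≤ 1) (S : Finset V) :
    |(av fun h : V → Fin L => av fun k : V → Fin q => F (mix S h k)) - bav q F|
      ≤ S.card * (2 * q / L) := by
  have : Nonempty (Fin q) := ⟨⟨0, hq⟩⟩
  have : Nonempty (Fin L) := ⟨⟨0, hL⟩⟩
  induction S using Finset.induction_on with
  | empty =>
    have : (av fun h : V → Fin L => av fun k : V → Fin q => F (mix ∅ h k)) = bav q F := by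
      rw [← av_const (X := V → Fin L) (bav q F)]
      refine av_congr fun h => av_congr fun k => ?_
      congr 1
    rw [this]; simp
  | insert j S hj ih =>
    have e1 : (av fun h : V → Fin L => av fun k : V → Fin q => F (mix (insert j S) h k))
        = av fun h : V → Fin L => av fun k : V → Fin q => av fun a : Fin L =>
          F (Function.update (mix S h k) j ((a : ℕ) : ℤ)) := by
      rw [av_update j]
      refine av_congr fun h => ?_
      rw [av_comm]
      exact av_congr fun k => av_congr fun a => by rw [mix_left S j hj]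
    have e2 : (av fun h : V → Fin L => av fun k : V → Fin q => F (mix S h k))
        = av fun h : V → Fin L => av fun k : V → Fin q => av fun b : Fin q =>
          F (Function.update (mix S h k) j ((b : ℕ) : ℤ)) := by
      refine av_congr fun h => ?_
      rw [av_update j]
      exact av_congr fun k => av_congr fun b => by rw [mix_right S j hj]
    have hd : |(av fun h : V → Fin L => av fun k : V → Fin q => F (mix (insert j S) h k))
        - (av fun h : V → Fin L => av fun k : V → Fin q => F (mix S h k))| ≤ 2 * q / L := by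
      rw [e1, e2, ← av_sub]
      refine abs_av_le_of_le fun h => ?_
      rw [← av_sub]
      refine abs_av_le_of_le fun k => ?_
      refine one_dim q L hq hL (fun n => F (Function.update (mix S h k) j ((n : ℕ) : ℤ)))
        (fun n => hF _ _ fun v => ?_) fun n => h1 _
      by_cases hv : v = j
      · subst hv; simp
      · simp [hv]
    rw [card_insert_of_notMem hj, Nat.cast_succ]
    have := abs_sub_le (av fun h : V → Fin L => av fun k : V → Fin q => F (mix (insert j S) h k))
      (av fun h : V → Fin L => av fun k : V → Fin q => F (mix S h k)) (bav q F)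
    linarith

end BoxAux

theorem bav_per (q L : ℕ) (hq : 0 < q) (hL : 0 < L) (F : (V → ℤ) → ℝ) (hF : Per q F)
    (h1 : ∀ x, |F x| ≤ 1) : |bav L F - bav q F| ≤ 2 * Fintype.card V * q / L := by
  have : Nonempty (Fin q) := ⟨⟨0, hq⟩⟩
  have h := BoxAux.hybrid q L hq hL F hF h1 univ
  have e : (av fun h : V → Fin L => av fun k : V → Fin q => F (BoxAux.mix univ h k))
      = bav L F := by
    refine av_congr fun h => ?_
    rw [← av_const (X := V → Fin q) (F fun v => ((h v : ℕ) : ℤ))]
    refine av_congr fun k => ?_
    congr 1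
    funext v
    simp [BoxAux.mix]
  rw [e, card_univ] at h
  refine h.trans (le_of_eq ?_)
  ring

end Pool.Agent.Lib.MP_4b8564_nt.GT
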