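import Pool.Agent.Lib.MP_4b8564_nt.GT.Av

open Finset Combinatorics
open scoped Classical

noncomputable section

namespace Pool.Agent.Lib.MP_4b8564_nt.GT

variable {V : Type} [Fintype V] [DecidableEq V]

namespace CrtAux

/-- the pair of residues -/
def res (q q' : ℕ) (hq : 0 < q) (hq' : 0 < q') (x : Fin (q * q')) : Fin q × Fin q' :=
  (⟨x % q, Nat.mod_lt _ hq⟩, ⟨x % q', Nat.mod_lt _ hq'⟩)

theorem res_bij (q q' : ℕ) (hq : 0 < q) (hq' : 0 < q') (h : q.Coprime q') :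
    Function.Bijective (res q q' hq hq') := by
  rw [Fintype.bijective_iff_injective_and_card]
  refine ⟨fun x y hxy => ?_, by simp⟩
  have h1 : (x : ℕ) ≡ y [MOD q] := congrArg (fun z : Fin q × Fin q' => (z.1 : ℕ)) hxy
  have h2 : (x : ℕ) ≡ y [MOD q'] := congrArg (fun z : Fin q × Fin q' => (z.2 : ℕ)) hxy
  exact Fin.ext (Nat.ModEq.eq_of_lt_of_lt
    ((Nat.modEq_and_modEq_iff_modEq_mul h).1 ⟨h1, h2⟩) x.2 y.2)

theorem dvd_sub_mod (q x : ℕ) : (q : ℤ) ∣ (x : ℤ) - ((x % q : ℕ) : ℤ) := by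
  rw [Int.natCast_mod]
  exact Int.dvd_self_sub_emod

theorem two (q q' : ℕ) (hq : 0 < q) (hq' : 0 < q') (h : q.Coprime q')
    (F G : (V → ℤ) → ℝ) (hF : Per q F) (hG : Per q' G) :
    bav (q * q') (fun x => F x * G x) = bav q F * bav q' G := by
  let e : (V → Fin (q * q')) ≃ (V → Fin q) × (V → Fin q') :=
    (Equiv.piCongrRight fun _ => Equiv.ofBijective _ (res_bij q q' hq hq' h)).trans
      (Equiv.arrowProdEquivProdArrow V (fun _ => Fin q) fun _ => Fin q')
  have key := av_equiv e fun z =>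
    F (fun v => ((z.1 v : ℕ) : ℤ)) * G fun v => ((z.2 v : ℕ) : ℤ)
  rw [av_prod] at key
  unfold bav
  rw [av_mul_av, ← key]
  refine av_congr fun x => ?_
  exact congrArg₂ (· * ·) (hF _ _ fun v => dvd_sub_mod q (x v))
    (hG _ _ fun v => dvd_sub_mod q' (x v))

omit [Fintype V] [DecidableEq V] in
theorem per_prod (P : Finset ℕ) (F : ℕ → (V → ℤ) → ℝ) (hF : ∀ p ∈ P, Per p (F p)) :
    Per (∏ p ∈ P, p) (fun h => ∏ p ∈ P, F p h) := fun x y hxy =>
  prod_congr rfl fun p hp => hF p hp x y fun v =>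
    (Int.natCast_dvd_natCast.2 (dvd_prod_of_mem (fun p => p) hp)).trans (hxy v)

end CrtAux

theorem bav_crt (P : Finset ℕ) (hP : ∀ p ∈ P, p.Prime) (F : ℕ → (V → ℤ) → ℝ)
    (hF : ∀ p ∈ P, Per p (F p)) :
    bav (∏ p ∈ P, p) (fun h => ∏ p ∈ P, F p h) = ∏ p ∈ P, bav p (F p) := by
  induction P using Finset.induction_on with
  | empty =>
    simp only [prod_empty]
    exact av_const 1
  | insert a s ha ih =>
    have hP' : ∀ p ∈ s, p.Prime := fun p hp => hP p (mem_insert_of_mem hp)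
    have hF' : ∀ p ∈ s, Per p (F p) := fun p hp => hF p (mem_insert_of_mem hp)
    have ha' : a.Prime := hP a (mem_insert_self a s)
    simp only [prod_insert ha]
    rw [← ih hP' hF']
    refine CrtAux.two a _ ha'.pos (prod_pos fun p hp => (hP' p hp).pos) ?_ _ _
      (hF a (mem_insert_self a s)) (CrtAux.per_prod s F hF')
    exact Nat.Coprime.prod_right fun p hp =>
      (Nat.coprime_primes ha' (hP' p hp)).2 fun h => ha (h ▸ hp)

end Pool.Agent.Lib.MP_4b8564_nt.GT
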