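import Pool.Agent.Lib.MP_4b8564_nt.GT.Local
import Pool.Agent.Lib.MP_4b8564_nt.GT.Box
import Pool.Agent.Lib.MP_4b8564_nt.GT.Crt

open Finset Combinatorics
open scoped Classical

noncomputable section

namespace Pool.Agent.Lib.MP_4b8564_nt.GT

namespace BoxLFAux

theorem mem_fam {P U : Finset ℕ} {Y : ℕ} : U ∈ Sg.fam P Y ↔ U ⊆ P ∧ ∏ p ∈ U, p ≤ Y := by
  simp [Sg.fam]

theorem card_fam (P : Finset ℕ) (hP : ∀ p ∈ P, p.Prime) (Y : ℕ) : (Sg.fam P Y).card ≤ Y := by
  have h : (Sg.fam P Y).card ≤ (Icc 1 Y).card := by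
    refine card_le_card_of_injOn (fun U => ∏ p ∈ U, p) (fun U hU => ?_) fun U hU U' hU' h => ?_
    · obtain ⟨h1, h2⟩ := mem_fam.1 (mem_coe.1 hU)
      exact mem_coe.2 (mem_Icc.2 ⟨one_le_prod' fun p hp => (hP p (h1 hp)).one_le, h2⟩)
    · have h1 := (mem_fam.1 (mem_coe.1 hU)).1
      have h2 := (mem_fam.1 (mem_coe.1 hU')).1
      have h3 : ∏ p ∈ U, p = ∏ p ∈ U', p := h
      rw [← Nat.primeFactors_prod fun p hp => hP p (h1 hp), h3,
        Nat.primeFactors_prod fun p hp => hP p (h2 hp)]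
  simpa using h

theorem abs_gz (p : ℕ) (hp : 2 ≤ p) (m : ℤ) : |gz p m| ≤ 1 := by
  have h : (2 : ℝ) ≤ p := by exact_mod_cast hp
  unfold gz
  split_ifs
  · simp
  · rw [abs_of_nonneg (by apply div_nonneg <;> linarith), div_le_one (by linarith)]
    linarith

theorem gz_congr (p : ℕ) {m m' : ℤ} (h : (p : ℤ) ∣ m - m') : gz p m = gz p m' := by
  have h1 : (p : ℤ) ∣ m ↔ (p : ℤ) ∣ m' := by
    constructor
    · intro h2; simpa using dvd_sub h2 h
    · intro h2; simpa using dvd_add h h2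
  simp only [gz, h1]

variable {I : Type} [Fintype I]

/-- the places at which `p` occurs -/
def pl (u : I → Finset ℕ) (p : ℕ) : Finset I := univ.filter fun s => p ∈ u s

theorem swap {M : Type} [CommMonoid M] (u : I → Finset ℕ) (f : I → ℕ → M) :
    ∏ s, ∏ p ∈ u s, f s p = ∏ p ∈ univ.biUnion u, ∏ s ∈ pl u p, f s p := by
  refine prod_comm' fun s p => ?_
  simp only [mem_univ, true_and, pl, mem_filter, mem_biUnion]
  exact ⟨fun h => ⟨h, s, h⟩, fun h => h.1⟩

theorem pl_nonempty {u : I → Finset ℕ} {p : ℕ} (hp : p ∈ univ.biUnion u) : (pl u p).Nonempty := by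
  obtain ⟨s, -, hs⟩ := mem_biUnion.1 hp
  exact ⟨s, by simp [pl, hs]⟩

theorem prod_union_le (u : I → Finset ℕ) :
    ∏ p ∈ univ.biUnion u, p ≤ ∏ s, ∏ p ∈ u s, p := by
  rw [swap u fun _ p => p]
  refine prod_le_prod' fun p hp => ?_
  rw [prod_const]
  exact Nat.le_self_pow (card_pos.2 (pl_nonempty hp)).ne' p

/-- the local weight -/
def wt (p : ℕ) (T : Finset I) : ℝ := if T = ∅ then 1 else 4 ^ T.card * (4 / (p : ℝ) ^ 2)

omit [Fintype I] in
theorem wt_nonneg (p : ℕ) (T : Finset I) : 0 ≤ wt p T := by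
  unfold wt; split_ifs <;> positivity

theorem sum_wt (p : ℕ) : ∑ T : Finset I, wt p T ≤ 1 + 4 * 5 ^ Fintype.card I / (p : ℝ) ^ 2 := by
  have h1 : ∑ T : Finset I, (4 : ℝ) ^ T.card = 5 ^ Fintype.card I := by
    have := prod_add (fun _ : I => (4 : ℝ)) (fun _ => 1) univ
    simp only [prod_const, one_pow, mul_one, powerset_univ, card_univ] at this
    rw [← this]; norm_num
  calc ∑ T : Finset I, wt p T
      ≤ ∑ T : Finset I, ((if T = ∅ then 1 else 0) + 4 ^ T.card * (4 / (p : ℝ) ^ 2)) := by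
        refine sum_le_sum fun T _ => ?_
        unfold wt
        split_ifs
        · exact le_add_of_nonneg_right (by positivity)
        · simp
    _ = _ := by
        rw [sum_add_distrib, ← sum_mul, h1, sum_ite_eq']
        simp only [mem_univ, if_true]
        ring

theorem sum_prod_wt (P : Finset ℕ) (A : Finset (I → Finset ℕ)) (hA : ∀ u ∈ A, ∀ s, u s ⊆ P) :
    ∑ u ∈ A, ∏ p ∈ P, wt p (pl u p) ≤
      ∏ p ∈ P, (1 + 4 * 5 ^ Fintype.card I / (p : ℝ) ^ 2) := by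
  let φ : (I → Finset ℕ) → (P → Finset I) := fun u p => pl u p
  have inj : Set.InjOn φ A := by
    intro u hu u' hu' h
    funext s
    ext p
    by_cases hp : p ∈ P
    · have h1 := Finset.ext_iff.1 (congrFun h ⟨p, hp⟩) s
      simpa [φ, pl] using h1
    · exact ⟨fun h1 => absurd (hA u hu s h1) hp, fun h1 => absurd (hA u' hu' s h1) hp⟩
  calc ∑ u ∈ A, ∏ p ∈ P, wt p (pl u p) = ∑ t ∈ A.image φ, ∏ p : P, wt p (t p) := by
        rw [sum_image inj]
        exact sum_congr rfl fun u _ => (prod_coe_sort P fun p => wt p (pl u p)).symm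
    _ ≤ ∑ t : P → Finset I, ∏ p : P, wt p (t p) :=
        sum_le_sum_of_subset_of_nonneg (subset_univ _) fun t _ _ =>
          prod_nonneg fun p _ => wt_nonneg _ _
    _ = ∏ p : P, ∑ T : Finset I, wt p T := by
        rw [prod_univ_sum, Fintype.piFinset_univ]
    _ ≤ ∏ p : P, (1 + 4 * 5 ^ Fintype.card I / ((p : ℕ) : ℝ) ^ 2) :=
        prod_le_prod (fun p _ => sum_nonneg fun T _ => wt_nonneg _ _) fun p _ => sum_wt _
    _ = _ := prod_coe_sort P fun p => 1 + 4 * 5 ^ Fintype.card I / (p : ℝ) ^ 2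

theorem core {V : Type} [Fintype V] [DecidableEq V] (P : Finset ℕ)
    (hP : ∀ p ∈ P, p.Prime ∧ 5 ≤ p) (G : ℕ → I → (V → ℤ) → ℝ)
    (hG1 : ∀ p ∈ P, ∀ s h, |G p s h| ≤ 1) (hGp : ∀ p ∈ P, ∀ s, Per p (G p s))
    (hGm : ∀ p ∈ P, ∀ T : Finset I, T.Nonempty →
      |bav p fun h => ∏ s ∈ T, G p s h| ≤ 4 / (p : ℝ) ^ 2)
    (Y L : ℕ) (hY : 1 ≤ Y) (hL : 0 < L)
    (e : Finset ℕ → ℝ) (he0 : e ∅ = 1) (he : ∀ U, |e U| ≤ 4 ^ U.card) :
    |bav L (fun h : V → ℤ => ∏ s, ∑ U ∈ Sg.fam P Y, e U * ∏ p ∈ U, G p s h) - 1| ≤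
      (∏ p ∈ P, (1 + 4 * 5 ^ Fintype.card I / (p : ℝ) ^ 2) - 1) +
        2 * Fintype.card V * (Y : ℝ) ^ (3 * Fintype.card I) / L := by
  set A := Fintype.piFinset fun _ : I => Sg.fam P Y with hA
  have hmem : ∀ u ∈ A, ∀ s, u s ⊆ P ∧ ∏ p ∈ u s, p ≤ Y := fun u hu s =>
    mem_fam.1 (Fintype.mem_piFinset.1 hu s)
  let E : (I → Finset ℕ) → ℝ := fun u => ∏ s, e (u s)
  let Φ : (I → Finset ℕ) → (V → ℤ) → ℝ := fun u h =>
    ∏ p ∈ univ.biUnion u, ∏ s ∈ pl u p, G p s h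
  let M : (I → Finset ℕ) → ℝ := fun u =>
    ∏ p ∈ univ.biUnion u, bav p fun h => ∏ s ∈ pl u p, G p s h
  have hQ : ∀ u ∈ A, univ.biUnion u ⊆ P := fun u hu p hp => by
    obtain ⟨s, -, hs⟩ := mem_biUnion.1 hp
    exact (hmem u hu s).1 hs
  have e1 : bav L (fun h : V → ℤ => ∏ s, ∑ U ∈ Sg.fam P Y, e U * ∏ p ∈ U, G p s h) =
      ∑ u ∈ A, E u * bav L (Φ u) := by
    simp only [bav, ← av_const_mul, ← av_sum]
    refine av_congr fun h => ?_
    rw [prod_univ_sum]
    refine sum_congr rfl fun u _ => ?_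
    rw [prod_mul_distrib, swap u fun s p => G p s _]
  have hYn : ∀ u ∈ A, ∏ s, ∏ p ∈ u s, p ≤ Y ^ Fintype.card I := fun u hu =>
    (prod_le_prod' fun s _ => (hmem u hu s).2).trans (by rw [prod_const, card_univ])
  have hE4 : ∀ u, |E u| ≤ ∏ s, ∏ _p ∈ u s, (4 : ℝ) := fun u => by
    simp only [E, abs_prod, prod_const]
    exact prod_le_prod (fun s _ => abs_nonneg _) fun s _ => he _
  have hE : ∀ u ∈ A, |E u| ≤ (Y : ℝ) ^ Fintype.card I := fun u hu => by
    have h6 : ∏ s, ∏ p ∈ u s, (p : ℝ) ≤ (Y : ℝ) ^ Fintype.card I := by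
      have h7 := (Nat.cast_le (α := ℝ)).2 (hYn u hu)
      simpa only [Nat.cast_prod, Nat.cast_pow] using h7
    refine (hE4 u).trans (le_trans ?_ h6)
    refine prod_le_prod (fun s _ => by positivity) fun s _ =>
      prod_le_prod (fun p _ => by norm_num) fun p hp => ?_
    have : (5 : ℝ) ≤ p := by exact_mod_cast (hP p ((hmem u hu s).1 hp)).2
    linarith
  have hF : ∀ u ∈ A, ∀ p ∈ univ.biUnion u, Per p fun h => ∏ s ∈ pl u p, G p s h :=
    fun u hu p hp x y hxy => prod_congr rfl fun s _ => hGp p (hQ u hu hp) s x y hxy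
  have herr : ∀ u ∈ A, |bav L (Φ u) - M u| ≤
      2 * Fintype.card V * (Y : ℝ) ^ Fintype.card I / L := fun u hu => by
    have hpr : ∀ p ∈ univ.biUnion u, p.Prime := fun p hp => (hP p (hQ u hu hp)).1
    have h1 := bav_per (∏ p ∈ univ.biUnion u, p) L (prod_pos fun p hp => (hpr p hp).pos) hL (Φ u)
      (fun x y hxy => prod_congr rfl fun p hp => hF u hu p hp x y fun v =>
        (Int.natCast_dvd_natCast.2 (dvd_prod_of_mem (fun p => p) hp)).trans (hxy v))
      (fun x => by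
        simp only [Φ, abs_prod]
        exact prod_le_one (fun p _ => prod_nonneg fun s _ => abs_nonneg _) fun p hp =>
          prod_le_one (fun s _ => abs_nonneg _) fun s _ => hG1 p (hQ u hu hp) s x)
    have h2 := bav_crt (univ.biUnion u) hpr (fun p h => ∏ s ∈ pl u p, G p s h) (hF u hu)
    have h3 : ((∏ p ∈ univ.biUnion u, p : ℕ) : ℝ) ≤ (Y : ℝ) ^ Fintype.card I := by
      exact_mod_cast (prod_union_le u).trans (hYn u hu)
    rw [show M u = _ from h2.symm]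
    refine h1.trans ?_
    gcongr
  have hmain : ∀ u ∈ A, |E u * M u| ≤ ∏ p ∈ P, wt p (pl u p) := fun u hu => by
    rw [← prod_subset (hQ u hu) fun p _ hp => by
      have : pl u p = ∅ := by
        refine filter_eq_empty_iff.2 fun s _ hs => hp (mem_biUnion.2 ⟨s, mem_univ s, hs⟩)
      simp [wt, this]]
    rw [abs_mul]
    refine (mul_le_mul_of_nonneg_right (hE4 u) (abs_nonneg _)).trans ?_
    rw [swap u fun _ _ => (4 : ℝ)]
    simp only [M, abs_prod, ← prod_mul_distrib, prod_const]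
    refine prod_le_prod (fun p _ => by positivity) fun p hp => ?_
    rw [wt, if_neg (pl_nonempty hp).ne_empty]
    exact mul_le_mul_of_nonneg_left (hGm p (hQ u hu hp) _ (pl_nonempty hp)) (by positivity)
  have h0 : (fun _ => ∅) ∈ A :=
    Fintype.mem_piFinset.2 fun s => mem_fam.2 ⟨empty_subset _, by simpa using hY⟩
  have hb : (univ.biUnion fun _ : I => (∅ : Finset ℕ)) = ∅ := by ext p; simp
  have h1 : |∑ u ∈ A, E u * M u - 1| ≤
      ∏ p ∈ P, (1 + 4 * 5 ^ Fintype.card I / (p : ℝ) ^ 2) - 1 := by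
    have h2 := sum_prod_wt P A fun u hu s => (hmem u hu s).1
    rw [← add_sum_erase A _ h0] at h2 ⊢
    have h3 : E (fun _ => ∅) * M (fun _ => ∅) = 1 := by simp only [E, M, he0, hb]; simp
    have h4 : ∏ p ∈ P, wt p (pl (fun _ : I => (∅ : Finset ℕ)) p) = 1 :=
      prod_eq_one fun p _ => by simp [wt, pl]
    rw [h4] at h2
    rw [h3, add_sub_cancel_left]
    have h5 := (abs_sum_le_sum_abs _ _).trans (sum_le_sum (s := A.erase fun _ => ∅)
      fun u hu => hmain u (mem_of_mem_erase hu))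
    linarith
  have hc : (A.card : ℝ) ≤ (Y : ℝ) ^ Fintype.card I := by
    rw [hA, Fintype.card_piFinset, prod_const, card_univ]
    exact_mod_cast Nat.pow_le_pow_left (card_fam P (fun p hp => (hP p hp).1) Y) _
  have h2 : |∑ u ∈ A, E u * (bav L (Φ u) - M u)| ≤
      2 * Fintype.card V * (Y : ℝ) ^ (3 * Fintype.card I) / L := by
    refine (abs_sum_le_sum_abs _ _).trans ((sum_le_card_nsmul A _ ((Y : ℝ) ^ Fintype.card I *
      (2 * Fintype.card V * (Y : ℝ) ^ Fintype.card I / L)) fun u hu => ?_).trans ?_)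
    · rw [abs_mul]
      exact mul_le_mul (hE u hu) (herr u hu) (abs_nonneg _) (by positivity)
    · rw [nsmul_eq_mul]
      refine (mul_le_mul_of_nonneg_right hc (by positivity)).trans (le_of_eq ?_)
      ring
  have e2 : ∑ u ∈ A, E u * bav L (Φ u) - 1 =
      (∑ u ∈ A, E u * M u - 1) + ∑ u ∈ A, E u * (bav L (Φ u) - M u) := by
    simp only [mul_sub, sum_sub_distrib]; ring
  rw [e1, e2]
  exact (abs_add_le _ _).trans (add_le_add h1 h2)

end BoxLFAux

theorem box_lf {T V : Type} [Fintype V] [DecidableEq V] (a : T → V → ℤ) (S : Finset T) (B : ℕ)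
    (hS : Sep a S B) (P : Finset ℕ) (W b : ℤ)
    (hP : ∀ p ∈ P, p.Prime ∧ 5 ≤ p ∧ B < p ∧ ¬ (p : ℤ) ∣ W) (Y L : ℕ) (hY : 1 ≤ Y) (hL : 0 < L)
    (e : Finset ℕ → ℝ) (he0 : e ∅ = 1) (he : ∀ U, |e U| ≤ 4 ^ U.card) (c : T → ℤ) :
    |bav L (fun h : V → ℤ => ∏ s ∈ S, ∑ U ∈ Sg.fam P Y,
        e U * ∏ p ∈ U, gz p (W * (c s + ∑ v, a s v * h v) + b)) - 1| ≤
      (∏ p ∈ P, (1 + 4 * 5 ^ S.card / (p : ℝ) ^ 2) - 1) +
        2 * Fintype.card V * (Y : ℝ) ^ (3 * S.card) / L := by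
  have h := BoxLFAux.core (I := S) (V := V) P (fun p hp => ⟨(hP p hp).1, (hP p hp).2.1⟩)
    (fun p s h => gz p (W * (c s + ∑ v, a s v * h v) + b))
    (fun p hp s h => BoxLFAux.abs_gz p (hP p hp).1.two_le _)
    (fun p _ s x y hxy => BoxLFAux.gz_congr p (by
      have : W * (c s + ∑ v, a s v * x v) + b - (W * (c s + ∑ v, a s v * y v) + b) =
          W * ∑ v, a s v * (x v - y v) := by
        simp only [mul_sub, sum_sub_distrib]; ring
      rw [this]
      exact (dvd_sum fun v _ => (hxy v).mul_left _).mul_left _))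
    (fun p hp T' hT' => by
      have h1 := local_mean a S B hS p (hP p hp).1 (hP p hp).2.2.1 W b (hP p hp).2.2.2 c
        (T'.map (Function.Embedding.subtype _)) (fun s hs => by
          obtain ⟨s', -, rfl⟩ := mem_map.1 hs
          exact s'.2)
      simp only [card_map, prod_map, Function.Embedding.coe_subtype] at h1
      rcases (Nat.succ_le_of_lt (card_pos.2 hT')).eq_or_lt with h2 | h2
      · rw [h1.1 h2.symm, abs_zero]; positivity
      · exact h1.2 h2)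
    Y L hY hL e he0 he
  rw [Fintype.card_coe] at h
  refine le_of_eq_of_le (congrArg (fun F => |bav L F - 1|) (funext fun x => ?_)) h
  exact (prod_coe_sort S fun s => ∑ U ∈ Sg.fam P Y,
    e U * ∏ p ∈ U, gz p (W * (c s + ∑ v, a s v * x v) + b)).symm

end Pool.Agent.Lib.MP_4b8564_nt.GT
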