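import Pool.Agent.Lib.MP_4b8564_nt.GT.Subs

open Finset Combinatorics
open scoped Classical

noncomputable section

namespace Pool.Agent.Lib.MP_4b8564_nt.GT

theorem corr8 {Y Z : Type} [Fintype Y] [Nonempty Y] [Fintype Z] [Nonempty Z]
    (a c : Y → Z → Prop) (H : Z → Prop) (δ σ θ : ℝ) (hσ : 0 < σ) (hσθ : σ < θ) (hθ : θ ≤ 1)
    (h1 : ∀ w, δ - σ ^ 2 / 2 ≤ dn fun y => a y w) (h2 : ∀ w, H w → θ ≤ dn fun y => c y w) :
    (∃ y, δ + σ ^ 2 / 2 ≤ dn (a y)) ∨
      ∃ y, δ - 2 * σ ≤ dn (a y) ∧ θ / 2 * dn H ≤ dn fun w => H w ∧ c y w := by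
  by_cases hinc : ∃ y, δ + σ ^ 2 / 2 ≤ dn (a y)
  · exact Or.inl hinc
  right
  push Not at hinc
  have hlow : δ - σ ^ 2 / 2 ≤ av fun y => dn (a y) := by
    have := dn_comm a
    have h3 : δ - σ ^ 2 / 2 ≤ av fun w => dn fun y => a y w := le_av_of_le h1
    exact h3.trans this.ge
  have hup : (av fun y => dn (a y)) ≤
      δ + σ ^ 2 / 2 - (2 * σ + σ ^ 2 / 2) * dn fun y => dn (a y) < δ - 2 * σ := by
    have : (av fun y => dn (a y)) ≤ av fun y => δ + σ ^ 2 / 2 -
        (2 * σ + σ ^ 2 / 2) * if dn (a y) < δ - 2 * σ then 1 else 0 := av_mono fun y => by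
      split_ifs with h
      · linarith
      · linarith [hinc y]
    rw [av_sub, av_const, av_const_mul] at this
    unfold dn at this ⊢
    convert this
  have ht0 : 0 ≤ dn fun y => dn (a y) < δ - 2 * σ := dn_nonneg _
  have ht : (dn fun y => dn (a y) < δ - 2 * σ) < θ / 2 := by
    have h4 : σ * (2 * dn fun y => dn (a y) < δ - 2 * σ) ≤ σ * σ := by
      nlinarith [mul_nonneg (sq_nonneg σ) ht0]
    have := le_of_mul_le_mul_left h4 hσ
    linarith
  have hG : θ / 2 ≤ dn fun y => θ / 2 * dn H ≤ dn fun w => H w ∧ c y w := by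
    rcases (dn_nonneg H).eq_or_lt with h0 | h0
    · rw [dn_congr (B := fun _ => True) fun y => by
        simp only [← h0, mul_zero, iff_true]; exact dn_nonneg _, dn_true]
      linarith
    · have hm := markov (fun y => dn fun w => H w ∧ c y w) (dn H) (θ / 2 * dn H)
        (fun y => dn_mono fun w hw => hw.1) (mul_nonneg (by linarith) h0.le)
      have h5 : θ * dn H ≤ av fun y => dn fun w => H w ∧ c y w := by
        rw [dn_comm fun y w => H w ∧ c y w]
        unfold dn
        rw [← av_const_mul]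
        refine av_mono fun w => ?_
        by_cases hw : H w
        · have := h2 w hw
          unfold dn at this
          simpa [hw] using this
        · simp [hw, av_zero]
      have h6 : dn H * (θ / 2) ≤
          dn H * dn fun y => θ / 2 * dn H ≤ dn fun w => H w ∧ c y w := by linarith
      exact le_of_mul_le_mul_left h6 h0
  by_contra hn
  push Not at hn
  have := dn_mono (A := fun y => θ / 2 * dn H ≤ dn fun w => H w ∧ c y w)
    (B := fun y => dn (a y) < δ - 2 * σ) fun y hy => by
      by_contra hb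
      exact absurd hy (not_le.2 (hn y (not_lt.1 hb)))
  linarith

end Pool.Agent.Lib.MP_4b8564_nt.GT
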