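import Pool.Agent.Lib.MP_4b8564_nt.GT.Subs

open Finset Combinatorics
open scoped Classical

noncomputable section

namespace Pool.Agent.Lib.MP_4b8564_nt.GT

namespace Corr11Aux

theorem noVar_le (α : Type) [Fintype α] [Nonempty α] (m : ℕ) :
    dn (fun w : Fin m → Option α => ¬ HasVar w) ≤
      ((Fintype.card α : ℝ) / (Fintype.card α + 1)) ^ m := by
  rw [dn_eq_card, div_pow]
  have h1 : (Fintype.card (Fin m → Option α) : ℝ) = ((Fintype.card α : ℝ) + 1) ^ m := by
    simp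
  rw [h1]
  refine div_le_div_of_nonneg_right ?_ (by positivity)
  obtain ⟨a⟩ := ‹Nonempty α›
  have h2 : (univ : Finset (Fin m → α)).card = Fintype.card α ^ m := by simp
  rw [← Nat.cast_pow, ← h2, Nat.cast_le]
  refine card_le_card_of_injOn (fun w => sub w a) (fun _ _ => by simp) ?_
  intro w hw w' hw' h
  simp only [coe_filter, mem_univ, true_and, Set.mem_ofPred_eq, HasVar, not_exists] at hw hw'
  funext i
  have h3 := congrFun h i
  obtain ⟨b, hb⟩ := Option.ne_none_iff_exists'.1 (hw i)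
  obtain ⟨b', hb'⟩ := Option.ne_none_iff_exists'.1 (hw' i)
  simp only [sub, hb, hb', Option.getD_some] at h3
  rw [hb, hb', h3]

theorem line_of {α ι : Type} (A : (ι → Option α) → Prop) (w : ι → Option α) (hw : HasVar w)
    (hA : A w) (hC : ∀ a, A fun i => some (sub w a i)) : HasLine A := by
  refine ⟨fun i => (w i).map some, ?_, ?_⟩
  · obtain ⟨i, hi⟩ := hw
    exact ⟨i, by simp [hi]⟩
  · rintro (_ | a)
    · have : sub (fun i => (w i).map some) none = w := by
        funext i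
        cases h : w i <;> simp [sub, h]
      rwa [this]
    · have : sub (fun i => (w i).map some) (some a) = fun i => some (sub w a i) := by
        funext i
        cases h : w i <;> simp [sub, h]
      rw [this]
      exact hC a

/-- split the failure of `∀ a, C a` by the first failing letter -/
theorem split {α X : Type} [Fintype α] [Fintype X] (e : α → ℕ) (he : Function.Injective e)
    (C : α → X → Prop) (B : X → Prop) :
    ∑ a₀, dn (fun x => B x ∧ (¬ C a₀ x ∧ ∀ a, e a < e a₀ → C a x)) =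
      dn fun x => B x ∧ ¬ ∀ a, C a x := by
  simp only [dn, ← av_sum]
  refine av_congr fun x => ?_
  by_cases h : B x ∧ ¬ ∀ a, C a x
  · obtain ⟨hB, hC⟩ := h
    have hne : (univ.filter fun a => ¬ C a x).Nonempty := by
      obtain ⟨a, ha⟩ := not_forall.1 hC
      exact ⟨a, by simp [ha]⟩
    obtain ⟨a₀, ha₀, hmin⟩ := exists_min_image _ e hne
    simp only [mem_filter, mem_univ, true_and] at ha₀ hmin
    have hlt : ∀ a, e a < e a₀ → C a x := fun a ha => by
      by_contra hc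
      exact absurd (hmin a hc) (not_le.2 ha)
    rw [if_pos ⟨hB, hC⟩, sum_eq_single a₀]
    · rw [if_pos ⟨hB, ha₀, hlt⟩]
    · intro b _ hb
      refine if_neg ?_
      rintro ⟨-, h1, h2⟩
      have h3 : e a₀ < e b := lt_of_le_of_ne (hmin b h1) fun h => hb (he h).symm
      exact ha₀ (h2 a₀ h3)
    · intro h
      exact absurd (mem_univ _) h
  · rw [if_neg h]
    refine sum_eq_zero fun a _ => if_neg ?_
    rintro ⟨hB, h1, -⟩
    exact h ⟨hB, fun hc => h1 (hc a)⟩

end Corr11Aux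

open Corr11Aux in
theorem corr11 (α : Type) [Fintype α] [Nonempty α] (δ₁ θ σ : ℝ) (hδ : 0 < δ₁) (hθ : 0 < θ)
    (hθ1 : θ ≤ 1) (hσ : σ = δ₁ * θ / 48) :
    ∃ m₀ : ℕ, ∀ m, m₀ ≤ m → ∀ (A : (Fin m → Option α) → Prop) (δ : ℝ), δ₁ ≤ δ → ¬ HasLine A →
      δ - 2 * σ ≤ dn A →
      θ / 2 * dn (fun w : Fin m → Option α => HasVar w) ≤
        dn (fun w : Fin m → Option α => HasVar w ∧ ∀ a, A fun i => some (sub w a i)) →
      ∃ D : α → (Fin m → Option α) → Prop, (∀ a, Ins a (D a)) ∧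
        σ * δ₁ / Fintype.card α ≤ dn (fun w => ∀ a, D a w) ∧
        (δ + 3 * σ) * dn (fun w => ∀ a, D a w) ≤ dn fun w => A w ∧ ∀ a, D a w := by
  have hσ0 : 0 < σ := by rw [hσ]; positivity
  have hk : (0 : ℝ) < Fintype.card α := by exact_mod_cast Fintype.card_pos
  have hr : (Fintype.card α : ℝ) / (Fintype.card α + 1) < 1 := by
    rw [div_lt_one (by positivity)]; linarith
  obtain ⟨m₀, hm₀⟩ := exists_pow_lt_of_lt_one hσ0 hr
  refine ⟨m₀, fun m hm A δ hδ₁ hA hdA hH => ?_⟩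
  have hs : dn (fun w : Fin m → Option α => ¬ HasVar w) ≤ σ :=
    (noVar_le α m).trans ((pow_le_pow_of_le_one (by positivity) hr.le hm).trans hm₀.le)
  let C : α → (Fin m → Option α) → Prop := fun a w => A fun i => some (sub w a i)
  have hCi : ∀ a, Ins a (C a) := fun a w w' h => by simp only [C, h]
  have hσδ : σ ≤ δ / 48 := by rw [hσ]; nlinarith
  have hA1 := dn_le_one A
  have hσ1 : σ ≤ 1 / 46 := by linarith
  have hHv : 1 - σ ≤ dn (fun w : Fin m → Option α => HasVar w) := by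
    have := dn_not (fun w : Fin m → Option α => HasVar w)
    linarith
  have hC : θ / 4 ≤ dn (fun w => ∀ a, C a w) := by
    have h1 : dn (fun w : Fin m → Option α => HasVar w ∧ ∀ a, A fun i => some (sub w a i)) ≤
        dn (fun w => ∀ a, C a w) := dn_mono fun w hw => hw.2
    nlinarith
  have hnC : dn (fun w => ¬ ∀ a, C a w) ≤ 1 - θ / 4 := by
    rw [dn_not]; linarith
  have hAC : dn (fun w => A w ∧ ∀ a, C a w) ≤ σ :=
    le_trans (dn_mono fun w hw hv => hA (line_of A w hv hw.1 hw.2)) hs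
  have hAnC : δ - 3 * σ ≤ dn (fun w => A w ∧ ¬ ∀ a, C a w) := by
    have := dn_and_add A fun w => ∀ a, C a w
    linarith
  have hxy : dn (fun w => A w ∧ ¬ ∀ a, C a w) ≤ dn (fun w => ¬ ∀ a, C a w) :=
    dn_mono fun w hw => hw.2
  let e : α → ℕ := fun a => (Fintype.equivFin α a : ℕ)
  have he : Function.Injective e := fun a b h => (Fintype.equivFin α).injective (Fin.ext h)
  let P : α → (Fin m → Option α) → Prop := fun a₀ w => ¬ C a₀ w ∧ ∀ a, e a < e a₀ → C a w
  have h1 : ∑ a₀, dn (fun w => A w ∧ P a₀ w) = dn (fun w => A w ∧ ¬ ∀ a, C a w) :=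
    split e he C A
  have h2 : ∑ a₀, dn (P a₀) = dn (fun w => ¬ ∀ a, C a w) := by
    have := split e he C fun _ => True
    simpa only [true_and] using this
  have h3 : σ * δ₁ ≤ ∑ a₀, (dn (fun w => A w ∧ P a₀ w) - (δ + 3 * σ) * dn (P a₀)) := by
    rw [sum_sub_distrib, ← mul_sum, h1, h2]
    generalize dn (fun w => A w ∧ ¬ ∀ a, C a w) = x at *
    generalize dn (fun w => ¬ ∀ a, C a w) = y at *
    have h4 : (δ + 6 * σ) * y ≤ (δ + 6 * σ) * (1 - θ / 4) :=
      mul_le_mul_of_nonneg_left hnC (by linarith)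
    have h5 : 48 * σ ≤ δ * θ := by rw [hσ]; nlinarith
    have h6 : 0 ≤ σ * θ := by positivity
    have h7 : (δ + 6 * σ) * y ≤ x := by nlinarith
    have h8 : σ * (δ - 3 * σ) ≤ σ * y := mul_le_mul_of_nonneg_left (hAnC.trans hxy) hσ0.le
    have h9 : σ * δ₁ ≤ σ * (3 * (δ - 3 * σ)) := mul_le_mul_of_nonneg_left (by linarith) hσ0.le
    nlinarith
  obtain ⟨a₀, ha₀⟩ := exists_av_le fun a₀ =>
    dn (fun w => A w ∧ P a₀ w) - (δ + 3 * σ) * dn (P a₀)
  have h4 : σ * δ₁ / Fintype.card α ≤ dn (fun w => A w ∧ P a₀ w) - (δ + 3 * σ) * dn (P a₀) :=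
    le_trans (div_le_div_of_nonneg_right h3 hk.le) ha₀
  let D : α → (Fin m → Option α) → Prop := fun a w =>
    (a = a₀ → ¬ C a w) ∧ (e a < e a₀ → C a w)
  have hD : ∀ w, (∀ a, D a w) ↔ P a₀ w := fun w =>
    ⟨fun h => ⟨(h a₀).1 rfl, fun a ha => (h a).2 ha⟩,
      fun h a => ⟨fun ha => ha ▸ h.1, h.2 a⟩⟩
  have h5 : 0 ≤ σ * δ₁ / Fintype.card α := by positivity
  have h6 : 0 ≤ (δ + 3 * σ) * dn (P a₀) := mul_nonneg (by linarith) (dn_nonneg _)
  have h7 : dn (fun w => A w ∧ P a₀ w) ≤ dn (P a₀) := dn_mono fun w hw => hw.2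
  refine ⟨D, fun a w w' h => ?_, ?_, ?_⟩
  · simp only [D, hCi a w w' h]
  · rw [dn_congr hD]
    linarith
  · rw [dn_congr hD, dn_congr (A := fun w => A w ∧ ∀ a, D a w) (B := fun w => A w ∧ P a₀ w)
      fun w => by rw [hD]]
    linarith

end Pool.Agent.Lib.MP_4b8564_nt.GT
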