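import Pool.Agent.Lib.MP_4b8564_nt.GT.Av

open Finset Combinatorics
open scoped Classical

noncomputable section

namespace Pool.Agent.Lib.MP_4b8564_nt.GT

variable {ι X : Type} [Fintype ι] [DecidableEq ι] [Fintype X] [Nonempty X]

theorem LF.mono {ν : ι → (ι → X) → ℝ} {η η' : ℝ} (h : LF ν η) (hη : η ≤ η') : LF ν η' :=
  fun T hT => (h T hT).trans hη

theorem Cut.mono {j : ι} {h : (ι → X) → ℝ} {η η' : ℝ} (H : Cut j h η) (hη : η ≤ η') :
    Cut j h η' := fun u hu hu' => (H u hu hu').trans hη

/-- replacing one majorant by 1 -/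
theorem LF.update_one {ν : ι → (ι → X) → ℝ} {η : ℝ} (h : LF ν η) (j₀ : ι) :
    LF (Function.update ν j₀ fun _ => 1) η := by
  intro T hT
  have key := h (T.filter fun t => t.1 ≠ j₀) fun t ht => hT t (mem_filter.1 ht).1
  have e : ∀ z : (ι → X) × (ι → X),
      ∏ t ∈ T, Function.update ν j₀ (fun _ => (1 : ℝ)) t.1 (t.2.piecewise z.2 z.1) =
        ∏ t ∈ T.filter (fun t => t.1 ≠ j₀), ν t.1 (t.2.piecewise z.2 z.1) := by
    intro z
    rw [prod_filter]
    refine prod_congr rfl fun t _ => ?_
    by_cases ht : t.1 = j₀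
    · rw [ht]; simp
    · rw [Function.update_of_ne ht, if_pos ht]
  rw [av_congr e]
  exact key

namespace LfauxAux

theorem av_fst (f : (ι → X) → ℝ) : av (fun z : (ι → X) × (ι → X) => f z.1) = av f := by
  rw [av_prod]
  simp only [av_const]

theorem av_coord (j : ι) (F : X → ℝ) : av (fun y : ι → X => F (y j)) = av F := by
  rw [av_update j]
  simp only [Function.update_self, av_const]

theorem first {ν : ι → (ι → X) → ℝ} {η : ℝ} (h : LF ν η) (s : Finset ι) :
    |av (fun x : ι → X => ∏ j ∈ s, ν j x) - 1| ≤ η := by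
  have key := h (s ×ˢ {∅}) fun t ht => by
    rw [mem_singleton.1 (mem_product.1 ht).2]
    exact notMem_empty _
  have e : ∀ z : (ι → X) × (ι → X),
      ∏ t ∈ s ×ˢ ({∅} : Finset (Finset ι)), ν t.1 (t.2.piecewise z.2 z.1) = ∏ j ∈ s, ν j z.1 := by
    intro z
    rw [prod_product]
    simp
  rw [av_congr e, av_fst fun x => ∏ j ∈ s, ν j x] at key
  exact key

theorem second {ν : ι → (ι → X) → ℝ} {η : ℝ} (h : LF ν η) (j₀ : ι) :
    |av (fun x : ι → X =>
      av (fun a : X => ∏ j ∈ univ.erase j₀, ν j (Function.update x j₀ a)) ^ 2) - 1| ≤ η := by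
  have key := h (univ.erase j₀ ×ˢ {∅, {j₀}}) fun t ht => by
    obtain ⟨h1, h2⟩ := mem_product.1 ht
    rcases mem_insert.1 h2 with h3 | h3
    · rw [h3]; exact notMem_empty _
    · rw [mem_singleton.1 h3, mem_singleton]; exact (mem_erase.1 h1).1
  have e : ∀ z : (ι → X) × (ι → X),
      ∏ t ∈ univ.erase j₀ ×ˢ ({∅, {j₀}} : Finset (Finset ι)), ν t.1 (t.2.piecewise z.2 z.1) =
        (∏ j ∈ univ.erase j₀, ν j z.1) *
          ∏ j ∈ univ.erase j₀, ν j (Function.update z.1 j₀ (z.2 j₀)) := by
    intro z
    rw [prod_product, ← prod_mul_distrib]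
    refine prod_congr rfl fun j _ => ?_
    rw [prod_pair (singleton_ne_empty j₀).symm]
    simp [piecewise_singleton]
  rw [av_congr e, av_prod] at key
  have e2 : ∀ x : ι → X,
      av (fun y : ι → X => (∏ j ∈ univ.erase j₀, ν j x) *
          ∏ j ∈ univ.erase j₀, ν j (Function.update x j₀ (y j₀))) =
        (∏ j ∈ univ.erase j₀, ν j x) *
          av fun b : X => ∏ j ∈ univ.erase j₀, ν j (Function.update x j₀ b) := by
    intro x
    rw [av_const_mul, av_coord j₀ fun b => ∏ j ∈ univ.erase j₀, ν j (Function.update x j₀ b)]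
  rw [av_congr e2, av_update j₀] at key
  simp only [Function.update_idem, av_mul_const, ← sq] at key
  exact key

end LfauxAux

theorem LF.mean {ν : ι → (ι → X) → ℝ} {η : ℝ} (h : LF ν η) (j : ι) : |av (ν j) - 1| ≤ η := by
  have key := LfauxAux.first h {j}
  simpa only [prod_singleton] using key

/-- the densified majorant is close to 1 in mean square -/
theorem LF.dens_sq {ν : ι → (ι → X) → ℝ} {η : ℝ} (h : LF ν η) (j₀ : ι) :
    av (fun x : ι → X =>
      (av (fun a : X => ∏ j ∈ univ.erase j₀, ν j (Function.update x j₀ a)) - 1) ^ 2) ≤ 3 * η := by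
  have h1 := LfauxAux.first h (univ.erase j₀)
  have h2 := LfauxAux.second h j₀
  rw [av_update j₀] at h1
  set P : (ι → X) → ℝ :=
    fun x => av fun a : X => ∏ j ∈ univ.erase j₀, ν j (Function.update x j₀ a) with hP
  have e : ∀ x, (P x - 1) ^ 2 = P x ^ 2 - 2 * P x + 1 := fun x => by ring
  have e' : av (fun x => (P x - 1) ^ 2) = av (fun x => P x ^ 2) - 2 * av P + 1 := by
    rw [av_congr e, av_add, av_sub, av_const_mul, av_const]
  have h1' : |av P - 1| ≤ η := h1
  have h2' : |av (fun x => P x ^ 2) - 1| ≤ η := h2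
  have goal : av (fun x => (P x - 1) ^ 2) ≤ 3 * η := by
    rw [e']
    linarith [(abs_le.1 h1').1, (abs_le.1 h2').2]
  exact goal

/-- the dense counting lemma -/
theorem counting0 (g g' : ι → (ι → X) → ℝ) (η : ℝ) (hg : ∀ j, Indep j (g j))
    (hg' : ∀ j, Indep j (g' j)) (h0 : ∀ j x, 0 ≤ g j x ∧ g j x ≤ 1)
    (h0' : ∀ j x, 0 ≤ g' j x ∧ g' j x ≤ 1) (hc : ∀ j, Cut j (fun x => g j x - g' j x) η) :
    |av (fun x => ∏ j, g j x) - av fun x => ∏ j, g' j x| ≤ Fintype.card ι * η := by
  have main : ∀ M : Finset ι,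
      |av (fun x => ∏ j, (if j ∈ M then g j else g' j) x) - av fun x => ∏ j, g' j x| ≤
        M.card * η := by
    intro M
    induction M using Finset.induction_on with
    | empty => simp
    | insert j₀ M hj ih =>
      have hu := hc j₀ (fun j => if j ∈ M then g j else g' j)
        (fun i _ => by
          by_cases hi : i ∈ M
          · simpa only [if_pos hi] using hg i
          · simpa only [if_neg hi] using hg' i)
        (fun i x => by
          by_cases hi : i ∈ M
          · simpa only [if_pos hi] using h0 i x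
          · simpa only [if_neg hi] using h0' i x)
      have e : ∀ x : ι → X, (g j₀ x - g' j₀ x) *
          ∏ i ∈ univ.erase j₀, (if i ∈ M then g i else g' i) x =
          ∏ j, (if j ∈ insert j₀ M then g j else g' j) x -
            ∏ j, (if j ∈ M then g j else g' j) x := by
        intro x
        rw [← mul_prod_erase univ (fun j => (if j ∈ insert j₀ M then g j else g' j) x)
          (mem_univ j₀), ← mul_prod_erase univ (fun j => (if j ∈ M then g j else g' j) x)
          (mem_univ j₀), if_pos (mem_insert_self j₀ M), if_neg hj, sub_mul]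
        congr 2
        refine prod_congr rfl fun i hi => ?_
        simp only [mem_insert, (mem_erase.1 hi).1, false_or]
      rw [av_congr e, av_sub] at hu
      rw [card_insert_of_notMem hj]
      push_cast
      have := abs_sub_le (av fun x => ∏ j, (if j ∈ insert j₀ M then g j else g' j) x)
        (av fun x => ∏ j, (if j ∈ M then g j else g' j) x) (av fun x => ∏ j, g' j x)
      linarith
  simpa only [mem_univ, if_true, card_univ] using main univ

end Pool.Agent.Lib.MP_4b8564_nt.GT
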