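import Pool.Agent.Lib.MP_4b8564_nt.GT.Slf
import Pool.Agent.Lib.MP_4b8564_nt.GT.Lfaux

open Finset Combinatorics
open scoped Classical

noncomputable section

namespace Pool.Agent.Lib.MP_4b8564_nt.GT

namespace CountingAux

variable {ι X : Type} [Fintype ι] [DecidableEq ι] [Fintype X] [Nonempty X]

/-- densification at the place `j₀` -/
def den (j₀ : ι) (g : ι → (ι → X) → ℝ) (x : ι → X) : ℝ :=
  av fun a : X => ∏ j ∈ univ.erase j₀, g j (Function.update x j₀ a)

omit [Nonempty X] in
theorem den_indep (j₀ : ι) (g : ι → (ι → X) → ℝ) : Indep j₀ (den j₀ g) := fun x a => by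
  simp only [den, Function.update_idem]

theorem av_den (j₀ : ι) (g : ι → (ι → X) → ℝ) (h : (ι → X) → ℝ) (hh : Indep j₀ h) :
    av (fun x => h x * ∏ j ∈ univ.erase j₀, g j x) = av fun x => h x * den j₀ g x := by
  rw [av_update j₀]
  refine av_congr fun x => ?_
  simp only [hh x, den, av_const_mul]

omit [Nonempty X] in
theorem den_nonneg (j₀ : ι) {g : ι → (ι → X) → ℝ} (h : ∀ j x, 0 ≤ g j x) (x : ι → X) :
    0 ≤ den j₀ g x := av_nonneg fun _ => prod_nonneg fun j _ => h j _

omit [Nonempty X] in
theorem den_mono (j₀ : ι) {g g' : ι → (ι → X) → ℝ} (h : ∀ j x, 0 ≤ g j x ∧ g j x ≤ g' j x)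
    (x : ι → X) : den j₀ g x ≤ den j₀ g' x :=
  av_mono fun _ => prod_le_prod (fun j _ => (h j _).1) fun j _ => (h j _).2

theorem den_le_one (j₀ : ι) {g : ι → (ι → X) → ℝ} (h : ∀ j x, 0 ≤ g j x ∧ g j x ≤ 1)
    (x : ι → X) : den j₀ g x ≤ 1 :=
  av_le_of_le fun _ => prod_le_one (fun j _ => (h j _).1) fun j _ => (h j _).2

theorem av_two (j₀ : ι) (g₁ g₂ : ι → (ι → X) → ℝ) (h : (ι → X) → ℝ) (hh : Indep j₀ h) :
    av (fun z : (ι → X) × X => h z.1 *
      ∏ j ∈ univ.erase j₀, (g₁ j z.1 * g₂ j (Function.update z.1 j₀ z.2))) =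
    av fun x => h x * (den j₀ g₁ x * den j₀ g₂ x) := by
  have h1 : Indep j₀ fun x => h x * den j₀ g₂ x := fun x a => by
    simp only [hh x a, den_indep j₀ g₂ x a]
  have h2 := av_den j₀ g₁ _ h1
  rw [av_prod]
  refine Eq.trans (av_congr fun x => ?_) (h2.trans (av_congr fun x => by ring))
  simp only [prod_mul_distrib, ← mul_assoc, av_const_mul, den]
  ring

omit [Fintype X] [Nonempty X] in
theorem prod_upd (j₀ : ι) (g : ι → (ι → X) → ℝ) (h : (ι → X) → ℝ) (x : ι → X) :
    ∏ j, Function.update g j₀ h j x = h x * ∏ j ∈ univ.erase j₀, g j x := by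
  rw [← mul_prod_erase univ _ (mem_univ j₀), Function.update_self]
  congr 1
  exact prod_congr rfl fun j hj => by rw [Function.update_of_ne (ne_of_mem_erase hj)]

theorem aux (ι : Type) [Fintype ι] [DecidableEq ι] (M : Finset ι) : ∀ ε : ℝ, 0 < ε →
    ∃ η : ℝ, 0 < η ∧
    ∀ (X : Type) [Fintype X] [Nonempty X] (ν g g' : ι → (ι → X) → ℝ),
      (∀ j, j ∉ M → ∀ x, ν j x = 1) → (∀ j, Indep j (ν j)) →
      (∀ j, Indep j (g j)) → (∀ j, Indep j (g' j)) → (∀ j x, 0 ≤ g j x ∧ g j x ≤ ν j x) →
      (∀ j x, 0 ≤ g' j x ∧ g' j x ≤ 1) → LF ν η → (∀ j, Cut j (fun x => g j x - g' j x) η) →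
      |av (fun x => ∏ j, g j x) - av fun x => ∏ j, g' j x| ≤ ε := by
  induction M using Finset.induction_on with
  | empty =>
    intro ε hε
    refine ⟨ε / (Fintype.card ι + 1), by positivity, fun X _ _ ν g g' hM _ hg hg' h0 h0' _ hc => ?_⟩
    refine (counting0 g g' _ hg hg'
      (fun j x => ⟨(h0 j x).1, (h0 j x).2.trans (hM j (notMem_empty j) x).le⟩) h0' hc).trans ?_
    rw [mul_div_assoc', div_le_iff₀ (by positivity)]
    nlinarith
  | insert j₀ M _ ih =>
    intro ε hε
    obtain ⟨δ, hδ⟩ : ∃ δ : ℝ, δ = ε ^ 2 / 8 := ⟨_, rfl⟩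
    have hδ0 : 0 < δ := by rw [hδ]; positivity
    obtain ⟨η₁, hη₁, H₁⟩ := ih (δ / 8) (by positivity)
    obtain ⟨η₂, hη₂, H₂⟩ := slf ι (δ / 16) (by positivity)
    obtain ⟨η, hη, e1, e2, e3, e4, e5, e6⟩ : ∃ η : ℝ, 0 < η ∧ η ≤ η₁ ∧ η ≤ η₂ ∧ η ≤ ε / 2 ∧
        η ≤ 1 ∧ η ≤ δ / 12 ∧ η ≤ δ ^ 2 / 48 :=
      ⟨min (min (min η₁ η₂) (min (ε / 2) 1)) (min (δ / 12) (δ ^ 2 / 48)), by positivity,
        by simp, by simp, by simp, by simp, by simp, by simp⟩
    refine ⟨η, hη, fun X _ _ ν g g' hM hν hg hg' h0 h0' hL hc => ?_⟩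
    have hν0 : ∀ j x, 0 ≤ ν j x := fun j x => (h0 j x).1.trans (h0 j x).2
    have hG0 := den_nonneg j₀ fun j x => (h0 j x).1
    have hG1 := den_mono j₀ h0
    have hG'0 := den_nonneg j₀ fun j x => (h0' j x).1
    have hG'1 := den_le_one j₀ h0'
    -- the induction hypothesis with a bounded weight at the place `j₀`
    have k2 : ∀ h : (ι → X) → ℝ, Indep j₀ h → (∀ x, 0 ≤ h x ∧ h x ≤ 1) →
        |av fun x => h x * (den j₀ g x - den j₀ g' x)| ≤ δ / 8 := by
      intro h hh hb
      have key := H₁ X (Function.update ν j₀ fun _ => 1) (Function.update g j₀ h)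
        (Function.update g' j₀ h) ?_ ?_ ?_ ?_ ?_ ?_ ((hL.update_one j₀).mono e1) ?_
      · simp only [prod_upd] at key
        rw [av_den j₀ g h hh, av_den j₀ g' h hh, ← av_sub] at key
        simpa only [mul_sub] using key
      · intro j hj x
        by_cases e : j = j₀
        · rw [e, Function.update_self]
        · rw [Function.update_of_ne e]
          exact hM j (by simp [e, hj]) x
      · intro j
        by_cases e : j = j₀
        · rw [e, Function.update_self]; exact fun _ _ => rfl
        · rw [Function.update_of_ne e]; exact hν j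
      · intro j
        by_cases e : j = j₀
        · rw [e, Function.update_self]; exact hh
        · rw [Function.update_of_ne e]; exact hg j
      · intro j
        by_cases e : j = j₀
        · rw [e, Function.update_self]; exact hh
        · rw [Function.update_of_ne e]; exact hg' j
      · intro j x
        by_cases e : j = j₀
        · rw [e, Function.update_self, Function.update_self]; exact hb x
        · rw [Function.update_of_ne e, Function.update_of_ne e]; exact h0 j x
      · intro j x
        by_cases e : j = j₀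
        · rw [e, Function.update_self]; exact hb x
        · rw [Function.update_of_ne e]; exact h0' j x
      · intro j
        by_cases e : j = j₀
        · rw [e, Function.update_self, Function.update_self]
          intro u _ _
          simp only [sub_self, zero_mul, av_zero, abs_zero]
          exact hη₁.le
        · rw [Function.update_of_ne e, Function.update_of_ne e]
          exact (hc j).mono e1
    -- mean square of the difference
    have k4 : av (fun x => (den j₀ g x - den j₀ g' x) ^ 2) ≤ 3 * δ / 4 := by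
      have a1 := k2 (fun x => min (den j₀ g x) 1)
        (fun x a => by simp only [den_indep j₀ g x a])
        (fun x => ⟨le_min (hG0 x) zero_le_one, min_le_right _ _⟩)
      have a2 := k2 (den j₀ g') (den_indep j₀ g') fun x => ⟨hG'0 x, hG'1 x⟩
      have a3 : av (fun x => (den j₀ ν x - 1) ^ 2) ≤ 3 * η := hL.dens_sq j₀
      have a4 : av (fun x => (den j₀ g x - den j₀ g' x) ^ 2) ≤
          av fun x => (min (den j₀ g x) 1 * (den j₀ g x - den j₀ g' x) -
            den j₀ g' x * (den j₀ g x - den j₀ g' x)) +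
            ((1 + 2 / δ) * (den j₀ ν x - 1) ^ 2 + δ / 8) := av_mono fun x => by
        have b0 : den j₀ ν x - 1 ≤ 2 / δ * (den j₀ ν x - 1) ^ 2 + δ / 8 := by
          have : 0 ≤ 2 / δ * (den j₀ ν x - 1 - δ / 4) ^ 2 := by positivity
          have e : 2 / δ * (den j₀ ν x - 1 - δ / 4) ^ 2 =
              2 / δ * (den j₀ ν x - 1) ^ 2 + δ / 8 - (den j₀ ν x - 1) := by
            field_simp; ring
          linarith
        have b1 : 0 ≤ 2 / δ * (den j₀ ν x - 1) ^ 2 := by positivity
        have b2 := hG0 x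
        have b3 := hG1 x
        have b4 := hG'0 x
        have b5 := hG'1 x
        rcases le_total (den j₀ g x) 1 with h | h
        · rw [min_eq_left h]
          nlinarith [sq_nonneg (den j₀ ν x - 1)]
        · rw [min_eq_right h]
          have b6 : (den j₀ g x - 1) * (den j₀ g x - den j₀ g' x) ≤
              (den j₀ ν x - 1) * den j₀ ν x :=
            mul_le_mul (by linarith) (by linarith) (by linarith) (by linarith)
          nlinarith
      rw [av_add, av_sub, av_add, av_const_mul, av_const] at a4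
      have a5 : (1 + 2 / δ) * av (fun x => (den j₀ ν x - 1) ^ 2) ≤ (1 + 2 / δ) * (3 * η) :=
        mul_le_mul_of_nonneg_left a3 (by positivity)
      have a6 : 2 / δ * (3 * η) ≤ δ / 8 := by
        rw [div_mul_eq_mul_div, div_le_iff₀ hδ0]; nlinarith
      have a7 := (abs_le.1 a1).2
      have a8 := (abs_le.1 a2).1
      linarith
    -- strong linear forms
    have k5 : av (fun x => (ν j₀ x - 1) * (den j₀ g x - den j₀ g' x) ^ 2) ≤ δ / 4 := by
      have hi : Indep j₀ fun x => ν j₀ x - 1 := fun x a => by simp only [hν j₀ x a]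
      have t : ∀ c : Bool → Bool, |av fun x => (ν j₀ x - 1) *
          (den j₀ (if c false then g else g') x * den j₀ (if c true then g else g') x)| ≤
          δ / 16 := by
        intro c
        rw [← av_two j₀ _ _ _ hi]
        refine H₂ X ν hν hν0 (hL.mono e2) j₀ (fun b => if c b then g else g') (fun b _ => c b)
          (fun b j _ => ?_) fun b j x => ?_
        · cases c b
          · exact hg' j
          · exact hg j
        · cases c b
          · exact h0' j x
          · exact h0 j x
      have t1 := (abs_le.1 (t fun _ => true)).2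
      have t2 := (abs_le.1 (t id)).1
      have t3 := (abs_le.1 (t fun _ => false)).2
      simp only [if_true, id, Bool.false_eq_true, if_false] at t1 t2 t3
      have e : av (fun x => (ν j₀ x - 1) * (den j₀ g x - den j₀ g' x) ^ 2) =
          av (fun x => (ν j₀ x - 1) * (den j₀ g x * den j₀ g x)) -
            2 * av (fun x => (ν j₀ x - 1) * (den j₀ g' x * den j₀ g x)) +
            av fun x => (ν j₀ x - 1) * (den j₀ g' x * den j₀ g' x) := by
        rw [← av_const_mul, ← av_sub, ← av_add]
        exact av_congr fun x => by ring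
      linarith
    have k6 : |av fun x => g j₀ x * (den j₀ g x - den j₀ g' x)| ≤ ε / 2 := by
      have c1 := av_mul_sq_le (g j₀) (ν j₀) (fun x => den j₀ g x - den j₀ g' x)
        fun x => by rw [abs_of_nonneg (h0 j₀ x).1]; exact (h0 j₀ x).2
      have c2 : av (ν j₀) ≤ 2 := by linarith [(abs_le.1 (hL.mean j₀)).2]
      have c3 : av (fun x => ν j₀ x * (den j₀ g x - den j₀ g' x) ^ 2) ≤ δ := by
        have e : av (fun x => ν j₀ x * (den j₀ g x - den j₀ g' x) ^ 2) =
            av (fun x => (den j₀ g x - den j₀ g' x) ^ 2) +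
              av fun x => (ν j₀ x - 1) * (den j₀ g x - den j₀ g' x) ^ 2 := by
          rw [← av_add]
          exact av_congr fun x => by ring
        linarith
      have c4 := mul_le_mul c2 c3 (av_nonneg fun x => mul_nonneg (hν0 j₀ x) (sq_nonneg _))
        (by norm_num)
      refine abs_le_of_sq_le_sq (c1.trans (c4.trans ?_)) (by positivity)
      rw [hδ]; nlinarith
    have k7 := hc j₀ g' (fun i _ => hg' i) h0'
    have hd : Indep j₀ fun x => g j₀ x - g' j₀ x := fun x a => by
      simp only [hg j₀ x a, hg' j₀ x a]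
    rw [av_den j₀ g' _ hd] at k7
    have e : av (fun x => ∏ j, g j x) - av (fun x => ∏ j, g' j x) =
        av (fun x => g j₀ x * (den j₀ g x - den j₀ g' x)) +
          av fun x => (g j₀ x - g' j₀ x) * den j₀ g' x := by
      simp only [← mul_prod_erase univ _ (mem_univ j₀)]
      rw [av_den j₀ g _ (hg j₀), av_den j₀ g' _ (hg' j₀), ← av_sub, ← av_add]
      exact av_congr fun x => by ring
    rw [e]
    refine (abs_add_le _ _).trans ?_
    linarith

end CountingAux

/-- the counting lemma, by densification -/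
theorem counting (ι : Type) [Fintype ι] [DecidableEq ι] (ε : ℝ) (hε : 0 < ε) : ∃ η : ℝ, 0 < η ∧
    ∀ (X : Type) [Fintype X] [Nonempty X] (ν g g' : ι → (ι → X) → ℝ), (∀ j, Indep j (ν j)) →
      (∀ j, Indep j (g j)) → (∀ j, Indep j (g' j)) → (∀ j x, 0 ≤ g j x ∧ g j x ≤ ν j x) →
      (∀ j x, 0 ≤ g' j x ∧ g' j x ≤ 1) → LF ν η → (∀ j, Cut j (fun x => g j x - g' j x) η) →
      |av (fun x => ∏ j, g j x) - av fun x => ∏ j, g' j x| ≤ ε := by
  obtain ⟨η, hη, H⟩ := CountingAux.aux ι univ ε hε
  exact ⟨η, hη, fun X _ _ ν g g' => H X ν g g' fun j hj => absurd (mem_univ j) hj⟩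

end Pool.Agent.Lib.MP_4b8564_nt.GT
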