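import Pool.Agent.Lib.MP_4b8564_nt.Sg.Defs

/-!
Working definitions for progressions of primes (none of them occurs in the final statement).
-/

open Finset Combinatorics
open scoped Classical

noncomputable section

namespace Pool.Agent.Lib.MP_4b8564_nt.GT

/-- average over a finite type -/
def av {X : Type} [Fintype X] (f : X → ℝ) : ℝ := (∑ x, f x) / Fintype.card X

/-- density of a predicate on a finite type -/
def dn {X : Type} [Fintype X] (A : X → Prop) : ℝ := av fun x => if A x then 1 else 0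

/-! ### density Hales-Jewett -/

/-- substitute the letter `a` for the variable of a word -/
def sub {α ι : Type} (w : ι → Option α) (a : α) : ι → α := fun i => (w i).getD a

/-- the word has a variable -/
def HasVar {α ι : Type} (w : ι → Option α) : Prop := ∃ i, w i = none

/-- `A` contains a combinatorial line -/
def HasLine {α ι : Type} (A : (ι → α) → Prop) : Prop :=
  ∃ w : ι → Option α, HasVar w ∧ ∀ a, A (sub w a)

/-- the density Hales-Jewett theorem for the alphabet `α` -/
def DHJ (α : Type) [Fintype α] : Prop :=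
  ∀ δ : ℝ, 0 < δ → ∃ n : ℕ, ∀ A : (Fin n → α) → Prop, δ ≤ dn A → HasLine A

/-- composition of subspaces -/
def comp {η η' α ι : Type} (V : Subspace η α ι) (U : Subspace η' α η) : Subspace η' α ι where
  idxFun i := (V.idxFun i).elim Sum.inl U.idxFun
  proper e := by
    obtain ⟨j, hj⟩ := U.proper e
    obtain ⟨i, hi⟩ := V.proper j
    exact ⟨i, by simp [hi, hj]⟩

/-- a subspace over `α` read over the alphabet with one more letter -/
def lift {η α ι : Type} (V : Subspace η α ι) : Subspace η (Option α) ι where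
  idxFun i := (V.idxFun i).map some id
  proper e := by
    obtain ⟨i, hi⟩ := V.proper e
    exact ⟨i, by simp [hi]⟩

/-- a subspace on the left block, a point on the right block -/
def left {η α ι κ : Type} (V : Subspace η α ι) (y : κ → α) : Subspace η α (ι ⊕ κ) where
  idxFun := Sum.elim V.idxFun fun k => Sum.inl (y k)
  proper e := by
    obtain ⟨i, hi⟩ := V.proper e
    exact ⟨Sum.inl i, hi⟩

/-- a point on the left block, a subspace on the right block -/
def right {η α ι κ : Type} (x : ι → α) (V : Subspace η α κ) : Subspace η α (ι ⊕ κ) where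
  idxFun := Sum.elim (fun i => Sum.inl (x i)) V.idxFun
  proper e := by
    obtain ⟨i, hi⟩ := V.proper e
    exact ⟨Sum.inr i, hi⟩

/-- subspaces on both blocks -/
def both {η η' α ι κ : Type} (U : Subspace η α ι) (V : Subspace η' α κ) :
    Subspace (η ⊕ η') α (ι ⊕ κ) where
  idxFun := Sum.elim (fun i => (U.idxFun i).map id Sum.inl) fun k => (V.idxFun k).map id Sum.inr
  proper := by
    rintro (e | e)
    · obtain ⟨i, hi⟩ := U.proper e
      exact ⟨Sum.inl i, by simp [hi]⟩
    · obtain ⟨i, hi⟩ := V.proper e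
      exact ⟨Sum.inr i, by simp [hi]⟩

/-- the subspace given by a bijection of the coordinates -/
def ofEquiv {η α ι : Type} (e : ι ≃ η) : Subspace η α ι where
  idxFun i := Sum.inr (e i)
  proper j := ⟨e.symm j, by simp⟩

/-- `D` does not distinguish the letter `a` from the new letter -/
def Ins {α ι : Type} (a : α) (D : (ι → Option α) → Prop) : Prop :=
  ∀ w w', sub w a = sub w' a → (D w ↔ D w')

/-- dual form of: `D` is almost tiled by subspaces of dimension `m` -/
def Incr {β ι : Type} [Fintype β] [Fintype ι] [DecidableEq ι] (m : ℕ) (D : (ι → β) → Prop) (b : ℝ) : Prop :=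
  ∀ f : (ι → β) → ℝ, (∀ w, |f w| ≤ 1) →
    (∀ V : Subspace (Fin m) β ι, (∀ x, D (V x)) → av (fun x => f (V x)) ≤ 0) →
      av (fun w => if D w then f w else 0) ≤ b

/-! ### relative Szemerédi -/

section Rel

variable {ι X : Type} [Fintype ι] [DecidableEq ι] [Fintype X]

/-- `g` does not depend on the coordinate `j` -/
def Indep (j : ι) (g : (ι → X) → ℝ) : Prop := ∀ x a, g (Function.update x j a) = g x

/-- the cut norm of `h` at the place `j` is at most `ε` -/
def Cut (j : ι) (h : (ι → X) → ℝ) (ε : ℝ) : Prop :=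
  ∀ u : ι → (ι → X) → ℝ, (∀ i, i ≠ j → Indep i (u i)) → (∀ i x, 0 ≤ u i x ∧ u i x ≤ 1) →
    |av fun x => h x * ∏ i ∈ univ.erase j, u i x| ≤ ε

/-- the linear forms condition: every subproduct of the two-fold blow-up has mean close to 1 -/
def LF (ν : ι → (ι → X) → ℝ) (η : ℝ) : Prop :=
  ∀ T : Finset (ι × Finset ι), (∀ t ∈ T, t.1 ∉ t.2) →
    |av (fun z : (ι → X) × (ι → X) => ∏ t ∈ T, ν t.1 (t.2.piecewise z.2 z.1)) - 1| ≤ η

end Rel

/-- the form `∑ (j - i) x_i` -/
def psi (k N : ℕ) (j : Fin k) (x : Fin k → ZMod N) : ZMod N :=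
  ∑ i : Fin k, (((j : ℕ) : ZMod N) - ((i : ℕ) : ZMod N)) * x i

/-- normalised count of `k`-term progressions (trivial ones included) -/
def lam (k N : ℕ) [NeZero N] (f : ZMod N → ℝ) : ℝ :=
  av fun z : ZMod N × ZMod N => ∏ j : Fin k, f (z.1 + ((j : ℕ) : ZMod N) * z.2)

/-! ### the majorant -/

/-- `gp` at integers -/
def gz (p : ℕ) (m : ℤ) : ℝ := if (p : ℤ) ∣ m then -1 else 1 / ((p : ℝ) - 1)

/-- average over the box `[0, L)^V` -/
def bav {V : Type} [Fintype V] [DecidableEq V] (L : ℕ) (F : (V → ℤ) → ℝ) : ℝ :=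
  av fun h : V → Fin L => F fun v => ((h v : ℕ) : ℤ)

/-- `F` is periodic modulo `q` -/
def Per {V : Type} (q : ℕ) (F : (V → ℤ) → ℝ) : Prop :=
  ∀ x y : V → ℤ, (∀ v, (q : ℤ) ∣ x v - y v) → F x = F y

/-- a system of forms with small coefficients, each with a variable missing from any other -/
def Sep {T V : Type} (a : T → V → ℤ) (S : Finset T) (B : ℕ) : Prop :=
  (∀ s v, |a s v| ≤ B) ∧ (∀ s ∈ S, ∃ v, a s v ≠ 0) ∧
    ∀ s ∈ S, ∀ s' ∈ S, s ≠ s' → ∃ v, a s v ≠ 0 ∧ a s' v = 0

/-- the majorant on `ℤ/N` -/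
def nu (w R b N : ℕ) (x : ZMod N) : ℝ :=
  Sg.beta (Sg.PP w R) R (primorial w * x.val + b) ^ 2 / Sg.GG (Sg.PP w R) R

/-- `k`-term progressions of primes in `(3, Y]`, as pairs (first term, difference) -/
def APk (k Y : ℕ) : Finset (ℕ × ℕ) :=
  (range (Y + 1) ×ˢ range (Y + 1)).filter fun t =>
    3 < t.1 ∧ 0 < t.2 ∧ ∀ j < k, t.1 + j * t.2 ≤ Y ∧ (t.1 + j * t.2).Prime

end Pool.Agent.Lib.MP_4b8564_nt.GT
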