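import Pool.Agent.Lib.MP_4b8564_nt.GT.Av

open Finset Combinatorics
open scoped Classical

noncomputable section

namespace Pool.Agent.Lib.MP_4b8564_nt.GT

namespace DenseAux

variable {X : Type} [Fintype X]

/-- all correlations of `h` with members of `F` are at most `t` -/
def Sml (F : Set (X → ℝ)) (h : X → ℝ) (t : ℝ) : Prop := ∀ φ ∈ F, |av fun x => h x * φ x| ≤ t

theorem convex_cut (F : Set (X → ℝ)) (t : ℝ) : Convex ℝ {h | Sml F h t} := by
  intro h hh k hk a b ha hb hab φ hφ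
  have e : (av fun x => (a • h + b • k) x * φ x) =
      a * (av fun x => h x * φ x) + b * av fun x => k x * φ x := by
    rw [← av_const_mul, ← av_const_mul, ← av_add]
    exact av_congr fun x => by simp only [Pi.add_apply, Pi.smul_apply, smul_eq_mul]; ring
  rw [e]
  calc _ ≤ |a * av fun x => h x * φ x| + |b * av fun x => k x * φ x| := abs_add_le _ _
    _ = a * |av fun x => h x * φ x| + b * |av fun x => k x * φ x| := by
        rw [abs_mul, abs_mul, abs_of_nonneg ha, abs_of_nonneg hb]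
    _ ≤ a * t + b * t := by
        gcongr
        · exact hh φ hφ
        · exact hk φ hφ
    _ = t := by rw [← add_mul, hab, one_mul]

theorem closed_cut (F : Set (X → ℝ)) (t : ℝ) : IsClosed {h | Sml F h t} := by
  have e : {h | Sml F h t} = ⋂ φ ∈ F, {h : X → ℝ | |av fun x => h x * φ x| ≤ t} := by
    ext h; simp [Sml]
  rw [e]
  refine isClosed_biInter fun φ _ => isClosed_le ?_ continuous_const
  unfold av
  fun_prop

theorem cut_smul {F : Set (X → ℝ)} {h : X → ℝ} {t : ℝ} (hh : Sml F h t) (c : ℝ) :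
    Sml F (fun x => c * h x) (|c| * t) := by
  intro φ hφ
  simp only [mul_assoc, av_const_mul, abs_mul]
  exact mul_le_mul_of_nonneg_left (hh φ hφ) (abs_nonneg c)

/-- a continuous functional is the correlation with a function -/
theorem exists_rep [Nonempty X] (L : (X → ℝ) →L[ℝ] ℝ) :
    ∃ ψ : X → ℝ, ∀ k : X → ℝ, (av fun x => k x * ψ x) = L k := by
  refine ⟨fun x => Fintype.card X * L (Pi.single x 1), fun k => ?_⟩
  have hc : (Fintype.card X : ℝ) ≠ 0 := by exact_mod_cast Fintype.card_ne_zero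
  have h1 : L k = ∑ x, k x * L (Pi.single x 1) := by
    conv_lhs => rw [← Finset.univ_sum_single k, map_sum]
    refine Finset.sum_congr rfl fun x _ => ?_
    rw [← smul_eq_mul, ← map_smul, ← Pi.single_smul, smul_eq_mul, mul_one]
  rw [h1, av, div_eq_iff hc, Finset.sum_mul]
  exact Finset.sum_congr rfl fun x _ => by ring

/-- separation of `f - [0,1]` from the ball of the cut norm -/
theorem separate [Nonempty X] (F : Set (X → ℝ)) {ε : ℝ} (hε : 0 < ε) (f : X → ℝ)
    (hn : ∀ g : X → ℝ, (∀ x, 0 ≤ g x ∧ g x ≤ 1) → ¬ Sml F (fun x => f x - g x) ε) :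
    ∃ ψ : X → ℝ, (∀ h, Sml F h ε → (av fun x => h x * ψ x) ≤ 1) ∧
      ∀ g : X → ℝ, (∀ x, 0 ≤ g x ∧ g x ≤ 1) → 1 < av fun x => (f x - g x) * ψ x := by
  obtain ⟨L, u, v, h1, h2, h3⟩ := geometric_hahn_banach_compact_closed
    (s := Set.Icc (fun x => f x - 1) f) (t := {h | Sml F h ε}) (convex_Icc _ _) isCompact_Icc
    (convex_cut F ε) (closed_cut F ε) (by
      rw [Set.disjoint_left]
      intro k hk hc
      refine hn (fun x => f x - k x) (fun x => ⟨by linarith [hk.2 x], by linarith [hk.1 x]⟩) ?_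
      simpa using hc)
  have hv : v < 0 := by
    have := h3 0 (fun φ _ => by simpa [av] using hε.le)
    rwa [map_zero] at this
  obtain ⟨ψ, hψ⟩ := exists_rep L
  have e : ∀ k : X → ℝ, (av fun x => k x * (v⁻¹ * ψ x)) = L k / v := fun k => by
    rw [← hψ, div_eq_inv_mul, ← av_const_mul]
    exact av_congr fun x => by ring
  refine ⟨fun x => v⁻¹ * ψ x, fun h hh => ?_, fun g hg => ?_⟩
  · rw [e, div_le_one_of_neg hv]
    exact (h3 h hh).le
  · rw [e, one_lt_div_of_neg hv]
    exact (h1 _ ⟨fun x => by linarith [(hg x).2], fun x => by linarith [(hg x).1]⟩).trans h2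

theorem dual_bound {F : Set (X → ℝ)} {ε : ℝ} (hε : 0 < ε) {ψ : X → ℝ}
    (hψ : ∀ h, Sml F h ε → (av fun x => h x * ψ x) ≤ 1) {h : X → ℝ} {t : ℝ} (ht : 0 < t)
    (hh : Sml F h t) : |av fun x => h x * ψ x| ≤ ε⁻¹ * t := by
  have hc : 0 < ε / t := by positivity
  have key : ∀ c : ℝ, |c| = ε / t → c * (av fun x => h x * ψ x) ≤ 1 := fun c hc' => by
    have h1 := cut_smul hh c
    rw [hc', div_mul_cancel₀ _ ht.ne'] at h1
    have h2 := hψ _ h1
    simp only [mul_assoc, av_const_mul] at h2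
    exact h2
  have h1 := key (ε / t) (abs_of_pos hc)
  have h2 := key (-(ε / t)) (by rw [abs_neg, abs_of_pos hc])
  have h3 : ε / t * |av fun x => h x * ψ x| ≤ 1 := by
    rcases abs_cases (av fun x => h x * ψ x) with h4 | h4 <;> rw [h4.1] <;> linarith
  rw [div_mul_eq_mul_div, div_le_one ht] at h3
  rw [inv_mul_eq_div, le_div_iff₀ hε]
  linarith

end DenseAux

open DenseAux in
/-- the dense model theorem -/
theorem dense_model (ε : ℝ) (hε : 0 < ε) : ∃ η : ℝ, 0 < η ∧
    ∀ (X : Type) [Fintype X] [Nonempty X] (F : Set (X → ℝ)), (fun _ => 1) ∈ F →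
      (∀ φ ∈ F, ∀ x, |φ x| ≤ 1) →
      (∀ φ ∈ F, ∀ φ' ∈ F, ∀ (h : X → ℝ) (t : ℝ), (∀ χ ∈ F, |av fun x => h x * χ x| ≤ t) →
        |av fun x => h x * (φ x * φ' x)| ≤ t) →
      ∀ ν f : X → ℝ, (∀ x, 0 ≤ f x ∧ f x ≤ ν x) → (∀ φ ∈ F, |av fun x => (ν x - 1) * φ x| ≤ η) →
        ∃ f' : X → ℝ, (∀ x, 0 ≤ f' x ∧ f' x ≤ 1) ∧
          ∀ φ ∈ F, |av fun x => (f x - f' x) * φ x| ≤ ε := by
  obtain ⟨P, hP⟩ := exists_polynomial_near_of_continuousOn (-ε⁻¹) ε⁻¹ (fun t : ℝ => max t 0)
    (by fun_prop) (1 / 6) (by norm_num)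
  set R : ℝ := ∑ i ∈ range (P.natDegree + 1), |P.coeff i| * ε⁻¹ ^ i with hR
  have hR0 : 0 ≤ R := sum_nonneg fun i _ => by positivity
  set η : ℝ := min 1 (1 / (2 * (R + 1))) with hη
  have hη0 : 0 < η := by positivity
  have hη1 : η ≤ 1 := min_le_left _ _
  have hη2 : R * η ≤ 1 / 2 := by
    have h1 : η ≤ 1 / (2 * (R + 1)) := min_le_right _ _
    rw [le_div_iff₀ (by positivity)] at h1
    nlinarith
  refine ⟨η, hη0, ?_⟩
  intro X _ _ F h1F hFb hFm ν f hf hν
  by_contra hn
  obtain ⟨ψ, hψ1, hψ2⟩ := separate F hε f fun g hg hc => hn ⟨g, hg, hc⟩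
  have hmul : ∀ (h : X → ℝ) (t : ℝ), 0 < t → Sml F h t →
      Sml F (fun x => h x * ψ x) (ε⁻¹ * t) := by
    intro h t ht hh χ hχ
    have h2 : Sml F (fun x => h x * χ x) t := fun φ hφ => by
      simpa only [mul_assoc] using hFm χ hχ φ hφ h t hh
    have h3 := dual_bound hε hψ1 ht h2
    rwa [av_congr (g := fun x => h x * ψ x * χ x) fun x => by ring] at h3
  have hpow : ∀ i : ℕ, Sml F (fun x => (ν x - 1) * ψ x ^ i) (ε⁻¹ ^ i * η) := by
    intro i
    induction i with
    | zero => simpa only [Sml, pow_zero, mul_one, one_mul] using hν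
    | succ i ih =>
      have h2 := hmul _ _ (by positivity) ih
      simpa only [pow_succ, mul_assoc, mul_comm ε⁻¹, mul_left_comm ε⁻¹] using h2
  have hsup : ∀ y, |ψ y| ≤ ε⁻¹ := by
    intro y
    have hc : (Fintype.card X : ℝ) ≠ 0 := by exact_mod_cast Fintype.card_ne_zero
    have e : ∀ φ : X → ℝ,
        (av fun x => (if x = y then (Fintype.card X : ℝ) else 0) * φ x) = φ y := fun φ => by
      simp only [av, ite_mul, zero_mul, sum_ite_eq', mem_univ, if_true]
      field_simp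
    have h2 := dual_bound hε hψ1 one_pos
      (h := fun x => if x = y then (Fintype.card X : ℝ) else 0)
      (fun φ hφ => by rw [e]; exact hFb φ hφ y)
    rwa [e, mul_one] at h2
  have hpoly : (av fun x => (ν x - 1) * P.eval (ψ x)) ≤ R * η := by
    simp only [Polynomial.eval_eq_sum_range, mul_sum]
    rw [av_sum, hR, sum_mul]
    refine sum_le_sum fun i _ => ?_
    rw [av_congr (g := fun x => P.coeff i * ((ν x - 1) * ψ x ^ i * 1)) fun x => by ring,
      av_const_mul, mul_assoc]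
    refine (le_abs_self _).trans ?_
    rw [abs_mul]
    exact mul_le_mul_of_nonneg_left (hpow i _ h1F) (abs_nonneg _)
  have hmean : (av fun x => ν x - 1) ≤ 1 := by
    have h2 := hν _ h1F
    simp only [mul_one] at h2
    exact ((le_abs_self _).trans h2).trans hη1
  have h2 := hψ2 (fun x => if 0 < ψ x then 1 else 0) fun x => by split_ifs <;> norm_num
  have h3 : (av fun x => (f x - if 0 < ψ x then 1 else 0) * ψ x) ≤
      av fun x => (ν x - 1) * P.eval (ψ x) + (1 / 6 * (ν x - 1) + 1 / 3) := by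
    refine av_mono fun x => ?_
    have h4 := abs_lt.1 (hP (ψ x) (abs_le.1 (hsup x)))
    obtain ⟨h5, h6⟩ := hf x
    have h7 : (f x - if 0 < ψ x then 1 else 0) * ψ x ≤ (ν x - 1) * max (ψ x) 0 := by
      split_ifs with h
      · rw [max_eq_left h.le]
        exact mul_le_mul_of_nonneg_right (by linarith) h.le
      · rw [max_eq_right (not_lt.1 h), mul_zero, sub_zero]
        exact mul_nonpos_of_nonneg_of_nonpos h5 (not_lt.1 h)
    have h8 : 0 ≤ ν x := h5.trans h6
    nlinarith [mul_nonneg h8 (sub_nonneg.2 h4.1.le), h4.2]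
  rw [av_add, av_add, av_const_mul, av_const] at h3
  linarith


end Pool.Agent.Lib.MP_4b8564_nt.GT
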