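import Pool.Agent.Lib.MP_4b8564_nt.GT.Av

open Finset Combinatorics
open scoped Classical

noncomputable section

namespace Pool.Agent.Lib.MP_4b8564_nt.GT

variable {k N : ℕ} [NeZero N]

namespace PsiAux

theorem psi_update (j i : Fin k) (x : Fin k → ZMod N) (a : ZMod N) :
    psi k N j (Function.update x i a) =
      psi k N j x + (((j : ℕ) : ZMod N) - ((i : ℕ) : ZMod N)) * (a - x i) := by
  have h : ∀ l : Fin k, (((j : ℕ) : ZMod N) - ((l : ℕ) : ZMod N)) * Function.update x i a l =
      (((j : ℕ) : ZMod N) - ((l : ℕ) : ZMod N)) * x l +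
        if l = i then (((j : ℕ) : ZMod N) - ((i : ℕ) : ZMod N)) * (a - x i) else 0 := by
    intro l
    by_cases hl : l = i
    · subst hl
      simp only [Function.update_self, if_true]
      ring
    · simp [Function.update_of_ne hl, hl]
  simp only [psi, h, sum_add_distrib, sum_ite_eq', mem_univ, if_true]

theorem cast_ne (hkN : k < N) {i j : Fin k} (h : i ≠ j) :
    ((j : ℕ) : ZMod N) - ((i : ℕ) : ZMod N) ≠ 0 := by
  intro h0
  have h1 := (ZMod.natCast_eq_natCast_iff' _ _ _).1 (sub_eq_zero.1 h0)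
  rw [Nat.mod_eq_of_lt (j.2.trans hkN), Nat.mod_eq_of_lt (i.2.trans hkN)] at h1
  exact h (Fin.ext h1.symm)

theorem psi_eq (j : Fin k) (x : Fin k → ZMod N) :
    psi k N j x = -(∑ i : Fin k, ((i : ℕ) : ZMod N) * x i) + ((j : ℕ) : ZMod N) * ∑ i, x i := by
  simp only [psi, sub_mul, sum_sub_distrib, mul_sum]
  ring

end PsiAux

open PsiAux

theorem indep_psi (j : Fin k) (f : ZMod N → ℝ) : Indep j fun x => f (psi k N j x) := by
  intro x a
  simp only [psi_update, sub_self, zero_mul, add_zero]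

theorem av_psi (hk : 2 ≤ k) (hN : N.Prime) (hkN : k < N) (j : Fin k) (f : ZMod N → ℝ) :
    av (fun x : Fin k → ZMod N => f (psi k N j x)) = av f := by
  haveI : Fact N.Prime := ⟨hN⟩
  haveI : Nontrivial (Fin k) := Fin.nontrivial_iff_two_le.2 hk
  obtain ⟨i, hi⟩ := exists_ne j
  rw [av_update i]
  refine (av_congr fun x => ?_).trans (av_const (av f))
  simp only [psi_update]
  exact av_equiv ((Equiv.subRight (x i)).trans
    ((Equiv.mulLeft₀ _ (cast_ne hkN hi)).trans (Equiv.addLeft (psi k N j x)))) f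

theorem av_prod_psi (hk : 2 ≤ k) (f : ZMod N → ℝ) :
    av (fun x : Fin k → ZMod N => ∏ j, f (psi k N j x)) = lam k N f := by
  obtain ⟨i0, hi0⟩ : ∃ i : Fin k, (i : ℕ) = 0 := ⟨⟨0, by omega⟩, rfl⟩
  obtain ⟨i1, hi1⟩ : ∃ i : Fin k, (i : ℕ) = 1 := ⟨⟨1, by omega⟩, rfl⟩
  have hne : i0 ≠ i1 := fun h => by rw [h] at hi0; omega
  rw [av_update i0, av_update i1]
  refine (av_congr fun x => ?_).trans (av_const (lam k N f))
  have key : ∀ (a b : ZMod N) (j : Fin k),
      psi k N j (Function.update (Function.update x i1 b) i0 a) =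
        (-(∑ i : Fin k, ((i : ℕ) : ZMod N) * x i) + x i1 - b) +
          ((j : ℕ) : ZMod N) * ((∑ i, x i) + (b - x i1) - x i0 + a) := by
    intro a b j
    rw [psi_update, psi_update, psi_eq, Function.update_of_ne hne, hi0, hi1]
    push_cast
    ring
  simp only [key]
  rw [lam, av_prod]
  rw [← av_equiv (Equiv.subLeft (-(∑ i : Fin k, ((i : ℕ) : ZMod N) * x i) + x i1))
    fun c => av fun d : ZMod N => ∏ j : Fin k, f ((c, d).1 + ((j : ℕ) : ZMod N) * (c, d).2)]
  refine av_congr fun b => ?_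
  exact av_equiv (Equiv.addLeft ((∑ i, x i) + (b - x i1) - x i0))
    fun d : ZMod N => ∏ j : Fin k,
      f ((-(∑ i : Fin k, ((i : ℕ) : ZMod N) * x i) + x i1 - b) + ((j : ℕ) : ZMod N) * d)

/-- the cut norms at two places agree (swap the places and rescale the variables) -/
theorem cut_psi (hN : N.Prime) (hkN : k < N) (j j' : Fin k) (h : ZMod N → ℝ) (ε : ℝ)
    (H : Cut j (fun x : Fin k → ZMod N => h (psi k N j x)) ε) :
    Cut j' (fun x : Fin k → ZMod N => h (psi k N j' x)) ε := by
  haveI : Fact N.Prime := ⟨hN⟩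
  set σ : Equiv.Perm (Fin k) := Equiv.swap j j' with hσ
  have hσσ : ∀ i, σ (σ i) = i := fun i => Equiv.swap_apply_self j j' i
  have hσj : σ j = j' := Equiv.swap_apply_left j j'
  have hσne : ∀ i, i ≠ j → σ i ≠ j' := fun i hi h0 => hi (σ.injective (h0.trans hσj.symm))
  obtain ⟨lam', hl0, hl⟩ : ∃ l : Fin k → ZMod N, (∀ i, l i ≠ 0) ∧
      ∀ i : Fin k, (((j : ℕ) : ZMod N) - ((i : ℕ) : ZMod N)) * l i =
        ((j' : ℕ) : ZMod N) - ((σ i : ℕ) : ZMod N) := by
    refine ⟨fun i => if i = j then 1 else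
      (((j' : ℕ) : ZMod N) - ((σ i : ℕ) : ZMod N)) / (((j : ℕ) : ZMod N) - ((i : ℕ) : ZMod N)),
      fun i => ?_, fun i => ?_⟩
    · by_cases hi : i = j
      · simp [hi]
      · simp only [hi, if_false]
        exact div_ne_zero (cast_ne hkN (hσne i hi)) (cast_ne hkN hi)
    · by_cases hi : i = j
      · simp [hi, hσj]
      · simp only [hi, if_false]
        exact mul_div_cancel₀ _ (cast_ne hkN hi)
  let Φ : (Fin k → ZMod N) ≃ (Fin k → ZMod N) :=
    { toFun := fun x i => lam' i * x (σ i)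
      invFun := fun y l => y (σ l) / lam' (σ l)
      left_inv := fun x => by
        funext l
        simp only [hσσ]
        exact mul_div_cancel_left₀ _ (hl0 _)
      right_inv := fun y => by
        funext i
        simp only [hσσ]
        exact mul_div_cancel₀ _ (hl0 _) }
  have hΦ : ∀ x, psi k N j (Φ x) = psi k N j' x := by
    intro x
    unfold psi
    rw [← Equiv.sum_comp σ fun i : Fin k => (((j' : ℕ) : ZMod N) - ((i : ℕ) : ZMod N)) * x i]
    refine sum_congr rfl fun i _ => ?_
    show _ * (lam' i * x (σ i)) = _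
    rw [← mul_assoc, hl]
  have hupd : ∀ (y : Fin k → ZMod N) (i : Fin k) (a : ZMod N),
      Φ.symm (Function.update y i a) = Function.update (Φ.symm y) (σ i) (a / lam' i) := by
    intro y i a
    funext l
    show Function.update y i a (σ l) / lam' (σ l) = _
    by_cases hli : l = σ i
    · subst hli
      simp only [hσσ, Function.update_self]
    · have : σ l ≠ i := fun h0 => hli (by rw [← h0, hσσ])
      rw [Function.update_of_ne this, Function.update_of_ne hli]
      rfl
  intro u hu hu01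
  have H1 := H (fun i y => u (σ i) (Φ.symm y))
    (fun i hi y a => by
      show u (σ i) (Φ.symm (Function.update y i a)) = u (σ i) (Φ.symm y)
      rw [hupd]
      exact hu (σ i) (hσne i hi) _ _)
    (fun i y => hu01 _ _)
  rw [← av_equiv Φ] at H1
  simp only [hΦ, Equiv.symm_apply_apply] at H1
  have hp : ∀ x, ∏ i ∈ univ.erase j, u (σ i) x = ∏ i ∈ univ.erase j', u i x := by
    intro x
    refine prod_equiv σ (fun i => ?_) fun i _ => rfl
    simp only [mem_erase, mem_univ, and_true]
    exact ⟨hσne i, fun h0 hi => h0 (hi ▸ hσj)⟩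
  simpa only [hp] using H1

end Pool.Agent.Lib.MP_4b8564_nt.GT
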