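import Pool.Agent.Lib.MP_4b8564_nt.GT.Dense
import Pool.Agent.Lib.MP_4b8564_nt.GT.Psi

open Finset Combinatorics
open scoped Classical

noncomputable section

namespace Pool.Agent.Lib.MP_4b8564_nt.GT

namespace DenseArithAux

variable {k N : ℕ} [NeZero N]

/-- the test function on the cyclic group attached to a family of weights -/
def tf (j : Fin k) (u : Fin k → (Fin k → ZMod N) → ℝ) (s : ZMod N) : ℝ :=
  N * av fun x : Fin k → ZMod N => if psi k N j x = s then ∏ i ∈ univ.erase j, u i x else 0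

/-- admissible families of weights -/
def Adm (j : Fin k) (u : Fin k → (Fin k → ZMod N) → ℝ) : Prop :=
  (∀ i, i ≠ j → Indep i (u i)) ∧ ∀ i x, 0 ≤ u i x ∧ u i x ≤ 1

theorem pair (j : Fin k) (u : Fin k → (Fin k → ZMod N) → ℝ) (h : ZMod N → ℝ) :
    av (fun s => h s * tf j u s) = av fun x => h (psi k N j x) * ∏ i ∈ univ.erase j, u i x := by
  have hN : (N : ℝ) ≠ 0 := Nat.cast_ne_zero.2 (NeZero.ne N)
  simp only [tf, ← av_const_mul]
  rw [av_comm]
  refine av_congr fun x => ?_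
  simp only [av, mul_ite, mul_zero, sum_ite_eq, mem_univ, if_true, ZMod.card]
  field_simp

theorem mass (hk : 2 ≤ k) (hN : N.Prime) (hkN : k < N) (j : Fin k) (s : ZMod N) :
    (N : ℝ) * av (fun x : Fin k → ZMod N => if psi k N j x = s then (1 : ℝ) else 0) = 1 := by
  have h0 : (N : ℝ) ≠ 0 := Nat.cast_ne_zero.2 (NeZero.ne N)
  rw [av_psi hk hN hkN j fun t => if t = s then (1 : ℝ) else 0]
  simp only [av, sum_ite_eq', mem_univ, if_true, ZMod.card]
  field_simp

omit [NeZero N] in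
theorem psi_add (j : Fin k) (x z : Fin k → ZMod N) :
    psi k N j (x + z) = psi k N j x + psi k N j z := by
  simp only [psi, Pi.add_apply, mul_add, sum_add_distrib]

theorem abs_tf (hk : 2 ≤ k) (hN : N.Prime) (hkN : k < N) {j : Fin k}
    {u : Fin k → (Fin k → ZMod N) → ℝ} (hu : Adm j u) (s : ZMod N) : |tf j u s| ≤ 1 := by
  rw [abs_of_nonneg, ← mass hk hN hkN j s]
  · refine mul_le_mul_of_nonneg_left (av_mono fun x => ?_) (Nat.cast_nonneg _)
    split_ifs
    · exact prod_le_one (fun i _ => (hu.2 i x).1) fun i _ => (hu.2 i x).2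
    · exact le_rfl
  · refine mul_nonneg (Nat.cast_nonneg _) (av_nonneg fun x => ?_)
    split_ifs
    · exact prod_nonneg fun i _ => (hu.2 i x).1
    · exact le_rfl

omit [NeZero N] in
theorem Adm.shift {j : Fin k} {u v : Fin k → (Fin k → ZMod N) → ℝ} (hu : Adm j u) (hv : Adm j v)
    (z : Fin k → ZMod N) : Adm j fun i x => u i x * v i (x + z) := by
  refine ⟨fun i hi x a => ?_, fun i x => ⟨mul_nonneg (hu.2 i x).1 (hv.2 i _).1,
    mul_le_one₀ (hu.2 i x).2 (hv.2 i _).1 (hv.2 i _).2⟩⟩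
  have e : Function.update x i a + z = Function.update (x + z) i (a + z i) := by
    funext l
    by_cases hl : l = i
    · subst hl
      simp
    · simp [hl]
  simp only [e, hu.1 i hi x a, hv.1 i hi (x + z) _]

theorem tf_psi (j : Fin k) (v : Fin k → (Fin k → ZMod N) → ℝ) (x : Fin k → ZMod N) :
    tf j v (psi k N j x) = av fun z : Fin k → ZMod N =>
      (N * if psi k N j z = 0 then (1 : ℝ) else 0) * ∏ i ∈ univ.erase j, v i (x + z) := by
  rw [tf, ← av_equiv (Equiv.addLeft x), ← av_const_mul]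
  refine av_congr fun z => ?_
  simp only [Equiv.coe_addLeft, psi_add, add_eq_left]
  split_ifs <;> simp

theorem prod_le (hk : 2 ≤ k) (hN : N.Prime) (hkN : k < N) {j : Fin k}
    {u v : Fin k → (Fin k → ZMod N) → ℝ} (hu : Adm j u) (hv : Adm j v) (h : ZMod N → ℝ) (t : ℝ)
    (H : ∀ w, Adm j w → |av fun s => h s * tf j w s| ≤ t) :
    |av fun s => h s * (tf j u s * tf j v s)| ≤ t := by
  have e : av (fun s => h s * (tf j u s * tf j v s)) = av fun z : Fin k → ZMod N =>
      (N * if psi k N j z = 0 then (1 : ℝ) else 0) *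
        av fun s => h s * tf j (fun i x => u i x * v i (x + z)) s := by
    rw [av_congr (g := fun s => (h s * tf j v s) * tf j u s) fun s => by ring,
      pair j u fun s => h s * tf j v s]
    simp only [pair, tf_psi, ← av_const_mul, ← av_mul_const]
    rw [av_comm]
    refine av_congr fun z => av_congr fun x => ?_
    rw [prod_mul_distrib]
    ring
  rw [e]
  refine (abs_av_le _).trans ((av_mono (g := fun z : Fin k → ZMod N =>
    (N * if psi k N j z = 0 then (1 : ℝ) else 0) * t) fun z => ?_).trans_eq ?_)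
  · have p : (0 : ℝ) ≤ N * if psi k N j z = 0 then (1 : ℝ) else 0 :=
      mul_nonneg (Nat.cast_nonneg _) (by split_ifs <;> norm_num)
    rw [abs_mul, abs_of_nonneg p]
    exact mul_le_mul_of_nonneg_left (H _ (hu.shift hv z)) p
  · rw [av_mul_const, av_const_mul, mass hk hN hkN, one_mul]

end DenseArithAux

open DenseArithAux in
theorem dense_arith (k : ℕ) (hk : 2 ≤ k) (ε : ℝ) (hε : 0 < ε) : ∃ η : ℝ, 0 < η ∧
    ∀ (N : ℕ) [NeZero N], N.Prime → k < N → ∀ ν f : ZMod N → ℝ, (∀ x, 0 ≤ f x ∧ f x ≤ ν x) →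
      (∀ j, Cut j (fun x : Fin k → ZMod N => ν (psi k N j x) - 1) η) →
      ∃ f' : ZMod N → ℝ, (∀ x, 0 ≤ f' x ∧ f' x ≤ 1) ∧ |av f - av f'| ≤ ε ∧
        ∀ j, Cut j (fun x : Fin k → ZMod N => f (psi k N j x) - f' (psi k N j x)) ε := by
  obtain ⟨η, hη, H⟩ := dense_model ε hε
  refine ⟨η, hη, fun N _ hN hkN ν f hf hν => ?_⟩
  let j : Fin k := ⟨0, by omega⟩
  have one : (fun _ => 1) ∈ {φ : ZMod N → ℝ | ∃ u, Adm j u ∧ φ = tf j u} :=
    ⟨fun _ _ => 1, ⟨fun _ _ _ _ => rfl, fun _ _ => ⟨zero_le_one, le_rfl⟩⟩, funext fun s => by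
      simp only [tf, prod_const_one, mass hk hN hkN]⟩
  obtain ⟨f', h1, h2⟩ := H (ZMod N) {φ | ∃ u, Adm j u ∧ φ = tf j u} one
    (by rintro _ ⟨u, hu, rfl⟩ s; exact abs_tf hk hN hkN hu s)
    (by
      rintro _ ⟨u, hu, rfl⟩ _ ⟨v, hv, rfl⟩ h t ht
      exact prod_le hk hN hkN hu hv h t fun w hw => ht _ ⟨w, hw, rfl⟩)
    ν f hf (by
      rintro _ ⟨u, hu, rfl⟩
      rw [pair j u fun s => ν s - 1]
      exact hν j u hu.1 hu.2)
  refine ⟨f', h1, ?_, fun j' => cut_psi hN hkN j j' (fun s => f s - f' s) ε fun u u1 u2 => ?_⟩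
  · simpa only [mul_one, av_sub] using h2 _ one
  · rw [← pair j u fun s => f s - f' s]
    exact h2 _ ⟨u, ⟨u1, u2⟩, rfl⟩

end Pool.Agent.Lib.MP_4b8564_nt.GT
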