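import Pool.Agent.Lib.MP_4b8564_nt.GT.Step

open Finset Combinatorics
open scoped Classical

noncomputable section

namespace Pool.Agent.Lib.MP_4b8564_nt.GT

theorem dhj_option {α : Type} [Fintype α] [Nonempty α] (h : DHJ α) : DHJ (Option α) := by
  intro δ hδ
  obtain ⟨γ, hγ, hs⟩ := step h δ hδ
  have key : ∀ j : ℕ, ∃ n : ℕ, ∀ A : (Fin n → Option α) → Prop, δ ≤ dn A →
      1 + γ - j * γ ≤ dn A → HasLine A := by
    intro j
    induction j with
    | zero => exact ⟨0, fun A _ h2 => absurd (h2.trans (dn_le_one A)) (by simpa using hγ)⟩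
    | succ j ih =>
      obtain ⟨m, hm⟩ := ih
      obtain ⟨n, hn⟩ := hs m
      refine ⟨n, fun A h1 h2 => by_contra fun hA => ?_⟩
      obtain ⟨V, hV⟩ := hn A h1 hA
      refine hA (hasLine_of_comp V (hm _ (by linarith) ?_))
      push_cast at h2
      linarith
  obtain ⟨j, hj⟩ := exists_nat_ge ((1 + γ) / γ)
  obtain ⟨n, hn⟩ := key j
  refine ⟨n, fun A h1 => hn A h1 ?_⟩
  rw [div_le_iff₀ hγ] at hj
  linarith [dn_nonneg A]

namespace DhjAux

theorem transport {α β : Type} [Fintype α] [Fintype β] (e : α ≃ β) (h : DHJ α) : DHJ β := by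
  intro δ hδ
  obtain ⟨n, hn⟩ := h δ hδ
  refine ⟨n, fun A hA => ?_⟩
  rw [← dn_equiv ((Equiv.refl (Fin n)).arrowCongr e) A] at hA
  obtain ⟨w, ⟨i, hi⟩, hw⟩ := hn _ hA
  refine ⟨fun i => (w i).map e, ⟨i, by simp [hi]⟩, fun b => ?_⟩
  convert hw (e.symm b) using 1
  funext i
  cases hwi : w i <;> simp [sub, hwi]

theorem base : DHJ (Fin 1) := by
  intro δ hδ
  refine ⟨1, fun A hA => ?_⟩
  obtain ⟨x, hx⟩ := exists_of_dn_pos (hδ.trans_le hA)
  exact ⟨fun _ => none, ⟨0, rfl⟩, fun a => (congrArg A (funext fun i => Subsingleton.elim _ _)).mp hx⟩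

end DhjAux

/-- the density Hales-Jewett theorem -/
theorem dhj (k : ℕ) : DHJ (Fin (k + 1)) := by
  induction k with
  | zero => exact DhjAux.base
  | succ k ih => exact DhjAux.transport (finSuccEquiv (k + 1)).symm (dhj_option ih)

end Pool.Agent.Lib.MP_4b8564_nt.GT
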