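import Pool.Agent.Lib.MP_4b8564_nt.GT.Colour

/-!
Of two families `c = m p q` and `c = m' p q` at least one shows both signs of `S(1,1;c)`.
-/

open Finset

noncomputable section

namespace Pool.Agent.Lib.MP_4b8564_nt.GT

open Sg Sg.KlooAux Sg.CountAux RoughAux ColourAux

namespace DichAux

theorem run {w D s p d L : ℕ} (w0 : 0 < w) (hwd : w ∣ d) (wp : w < p) (hD : 0 < D) (hd : 0 < d)
    (e1 : w * D = L) (hpr : ∀ i ≤ s * D, (p + i * d).Prime) (hs : R w (p * p) ≠ 0) {ε : ℝ}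
    (hε : ε ≠ 0) (h : ∀ i i', i < i' → i' ≤ s * D → ε * R (w * (p + i * d) * (p + i' * d)) 1 ≤ 0) :
    0 < (-ε * R w (p * p)) ^ s *
      (R (p + 0 * d) (1 * L * d) * R (p + s * D * d) (1 * L * d)) := by
  refine chain (fun i => R (p + i * d) (1 * L * d)) _ D s (R_ne (hpr 0 (Nat.zero_le _)) _)
    fun k hk => ?_
  have b : k * D + D ≤ s * D := by nlinarith
  have h1 := h (k * D) (k * D + D) (by omega) b
  rw [edge w0.ne' hwd hD hd wp (hpr _ (by omega)) (hpr _ b) (Nat.coprime_one_left _), e1,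
    one_mul p] at h1
  have h2 := mul_ne_zero hε (mul_ne_zero hs (mul_ne_zero
    (R_ne (hpr (k * D) (by omega)) (1 * L * d)) (R_ne (hpr _ b) (1 * L * d))))
  have := lt_of_le_of_ne h1 h2
  linarith

theorem pair {m m' n n' p d : ℕ} (n0 : 0 < n) (n0' : 0 < n') (e : m' * n = m * n') (m0 : 0 < m)
    (m0' : 0 < m') (hm : m ∣ d) (hm' : m' ∣ d) (hp : m < p) (hp' : m' < p) (hd : 0 < d)
    (hpr : ∀ i ≤ n * n', (p + i * d).Prime) {ε ε' : ℝ}
    (hs : (-ε * R m (p * p)) ^ n * (-ε' * R m' (p * p)) ^ n' < 0) :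
    ∃ w η i i', (w = m ∧ η = ε ∨ w = m' ∧ η = ε') ∧ i < i' ∧ i' ≤ n * n' ∧
      0 < η * R (w * (p + i * d) * (p + i' * d)) 1 := by
  by_contra hn
  push Not at hn
  have z1 := mul_ne_zero_iff.1 (pow_ne_zero_iff n0.ne' |>.1 (left_ne_zero_of_mul hs.ne))
  have z2 := mul_ne_zero_iff.1 (pow_ne_zero_iff n0'.ne' |>.1 (right_ne_zero_of_mul hs.ne))
  have a := run (s := n) m0 hm hp n0' hd rfl hpr z1.2 (neg_ne_zero.1 z1.1)
    (hn m ε · · (.inl ⟨rfl, rfl⟩))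
  have b := run (s := n') m0' hm' hp' n0 hd e (mul_comm n n' ▸ hpr) z2.2 (neg_ne_zero.1 z2.1)
    (mul_comm n n' ▸ (hn m' ε' · · (.inr ⟨rfl, rfl⟩)))
  rw [mul_comm n' n] at b
  nlinarith [mul_pos a b, mul_nonneg (neg_nonneg.2 hs.le) (mul_self_nonneg
    (R (p + 0 * d) (1 * (m * n') * d) * R (p + n * n' * d) (1 * (m * n') * d)))]

open Classical in
/-- the moduli `w p q ≤ X` on which `S(1,1;c)` has the sign of `ε` -/
def Fam {r : ℕ} (col : ℕ → Fin r) (y w X : ℕ) (ε : ℝ) : Finset ℕ :=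
  (Icc 1 X).filter fun c => Squarefree c ∧ (∃ p q : ℕ, p.Prime ∧ q.Prime ∧ y < p ∧ p < q ∧
    col p = col q ∧ c = w * p * q) ∧ 0 < ε * KS c

theorem key {m m' n n' a K r : ℕ} (hm : Squarefree m) (hm' : Squarefree m') (n0 : 0 < n)
    (n0' : 0 < n') (e : m' * n = m * n') (ha : Nat.Coprime a (m * m')) (K0 : 0 < K)
    (hK : ∀ f : ℕ → Fin r, ∃ a d : ℕ, 0 < d ∧ ∀ j ≤ n * n', a + j * d ≤ K ∧ f (a + j * d) = f a)
    (y : ℕ) : ∃ δ : ℝ, 0 < δ ∧ ∃ X₀ : ℕ, ∀ col : ℕ → Fin r, ∀ X : ℕ, X₀ ≤ X → ∀ ε ε' : ℝ,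
      (-ε * R m (a * a)) ^ n * (-ε' * R m' (a * a)) ^ n' < 0 →
      2 * (δ * X / Real.log X ^ (K + 1)) ≤ (Fam col y m X ε).card + (Fam col y m' X ε').card := by
  classical
  have m0 : 0 < m := Nat.pos_of_ne_zero hm.ne_zero
  have m0' : 0 < m' := Nat.pos_of_ne_zero hm'.ne_zero
  have L0 : 0 < m * m' := Nat.mul_pos m0 m0'
  have d1 : m ∣ m * m' := Dvd.intro _ rfl
  have d2 : m' ∣ m * m' := Dvd.intro_left _ rfl
  have l1 := Nat.le_of_dvd L0 d1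
  have l2 := Nat.le_of_dvd L0 d2
  obtain ⟨c, hc, Y₀, hY⟩ := many_APc (K + 1) (by omega) (m * m') a (m * m' + y) L0 ha
  obtain ⟨X₀, hX⟩ := ExactAux.scale c hc (m * m') (K + 1) Y₀ L0
  have hI : (0 : ℝ) < (idx {m, m'} K).card + 1 := by positivity
  have hL' : (0 : ℝ) < (m * m' : ℕ) := by exact_mod_cast L0
  refine ⟨c / (4 * (m * m' : ℕ)) / ((idx {m, m'} K).card + 1) / 2, by positivity, X₀,
    fun col X h ε ε' hε => ?_⟩
  obtain ⟨Y, h1, h2, h3⟩ := hX X h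
  have h4 := h3.trans (hY Y h1)
  have fin : (APc (m * m') a (m * m' + y) (K + 1) Y).card ≤
      (idx {m, m'} K).card * (Fam col y m X ε ∪ Fam col y m' X ε').card →
      2 * (c / (4 * (m * m' : ℕ)) / ((idx {m, m'} K).card + 1) / 2 * X / Real.log X ^ (K + 1)) ≤
        (Fam col y m X ε).card + (Fam col y m' X ε').card := fun hG => by
    have a0 := hG.trans (Nat.mul_le_mul_left _ (card_union_le _ _))
    have a1 : ((APc (m * m') a (m * m' + y) (K + 1) Y).card : ℝ) ≤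
        (idx {m, m'} K).card * ((Fam col y m X ε).card + (Fam col y m' X ε').card) := by
      exact_mod_cast a0
    have b : (0 : ℝ) ≤ (Fam col y m X ε).card + (Fam col y m' X ε').card := by positivity
    have e2 : 2 * (c / (4 * (m * m' : ℕ)) / ((idx {m, m'} K).card + 1) / 2 * X /
        Real.log X ^ (K + 1)) = c / (4 * (m * m' : ℕ)) * X / Real.log X ^ (K + 1) /
          ((idx {m, m'} K).card + 1) := by ring
    rw [e2, div_le_iff₀ hI]
    nlinarith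
  refine fin (RoughAux.count _ _ _ _ _ _ (fun w hw => ?_) _ fun x hx => ?_)
  · rw [mem_insert, mem_singleton] at hw
    rcases hw with rfl | rfl
    exacts [m0, m0']
  obtain ⟨d0, f⟩ := of_mem hx
  obtain ⟨-, -, -, c0⟩ := f 0 (Nat.zero_le _)
  obtain ⟨-, -, -, c1⟩ := f 1 K0
  rw [zero_mul, add_zero] at c0
  rw [one_mul] at c1
  have dv : m * m' ∣ x.2 := by
    have := (Nat.modEq_iff_dvd' (Nat.le_add_right x.1 x.2)).1 (c0.trans c1.symm)
    rwa [Nat.add_sub_cancel_left] at this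
  obtain ⟨b, e', e0, he⟩ := hK fun j => col (x.1 + j * x.2)
  have eq : ∀ i, x.1 + b * x.2 + i * (e' * x.2) = x.1 + (b + i * e') * x.2 := fun i => by ring
  have hb : b ≤ K := by simpa using (he 0 (Nat.zero_le _)).1
  obtain ⟨-, -, B0, c2⟩ := f b hb
  have r1 : R m ((x.1 + b * x.2) * (x.1 + b * x.2)) = R m (a * a) :=
    R_congr ((ZMod.natCast_eq_natCast_iff _ _ _).2 ((c2.of_dvd d1).mul (c2.of_dvd d1)))
  have r2 : R m' ((x.1 + b * x.2) * (x.1 + b * x.2)) = R m' (a * a) :=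
    R_congr ((ZMod.natCast_eq_natCast_iff _ _ _).2 ((c2.of_dvd d2).mul (c2.of_dvd d2)))
  obtain ⟨w, η, i, i', hw, hi, hi', s⟩ := pair (p := x.1 + b * x.2) (d := e' * x.2) n0 n0' e m0 m0'
    ((d1.trans dv).mul_left e') ((d2.trans dv).mul_left e') (by omega) (by omega)
    (Nat.mul_pos e0 d0) (fun i hi => eq i ▸ (f _ (he i hi).1).2.1) (ε := ε) (ε' := ε')
    (by rw [r1, r2]; exact hε)
  rw [eq, eq] at s
  have lt0 : b + i * e' < b + i' * e' := by nlinarith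
  obtain ⟨u1, u2, u3, -⟩ := f _ (he i (by omega)).1
  obtain ⟨v1, v2, v3, -⟩ := f _ (he i' hi').1
  have hcol := (he i (by omega)).2.trans (he i' hi').2.symm
  refine ⟨_, mem_nxt (m := w) (by rcases hw with h | h <;> simp [h.1]) lt0 (he i' hi').1, ?_⟩
  have lt : x.1 + (b + i * e') * x.2 < x.1 + (b + i' * e') * x.2 := by nlinarith
  generalize x.1 + (b + i * e') * x.2 = p at *
  generalize x.1 + (b + i' * e') * x.2 = q at *
  have w1 : Squarefree w ∧ w ≤ m * m' := by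
    rcases hw with h | h <;> rw [h.1]
    exacts [⟨hm, l1⟩, ⟨hm', l2⟩]
  have w0 : 0 < w := Nat.pos_of_ne_zero w1.1.ne_zero
  have sq : Squarefree (w * p * q) :=
    (Nat.squarefree_mul (Nat.Coprime.mul_left (cop w0 v2 (by omega))
      ((Nat.coprime_primes u2 v2).2 lt.ne))).2
      ⟨(Nat.squarefree_mul (cop w0 u2 (by omega))).2 ⟨w1.1, u2.squarefree⟩, v2.squarefree⟩
  have : NeZero (w * p * q) := ⟨sq.ne_zero⟩
  have hf : w * p * q ∈ Fam col y w X η :=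
    mem_filter.2 ⟨mem_Icc.2 ⟨Nat.pos_of_ne_zero sq.ne_zero,
      le_trans (Nat.mul_le_mul (Nat.mul_le_mul w1.2 u1) v1) h2⟩, sq,
      ⟨p, q, u2, v2, by omega, lt, hcol, rfl⟩, by rwa [KS_eq_S, ← R_eq]⟩
  rcases hw with ⟨rfl, rfl⟩ | ⟨rfl, rfl⟩
  exacts [mem_union_left _ hf, mem_union_right _ hf]

theorem cls {w t m' : ℕ} (hm : Squarefree (w * t)) (pt : t.Prime) (t4 : t % 4 = 3)
    (t3 : 3 < t) (htm : ¬ t ∣ m') (σ : ℝ) (hσ : σ ≠ 0) : ∃ a : ℕ, Nat.Coprime a (w * t * m') ∧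
      0 < σ * R (w * t) (a * a) ∧ R m' (a * a) = R m' 1 := by
  have ct := Nat.coprime_of_squarefree_mul hm
  have hw := hm.of_mul_left
  have w0 : 0 < w := Nat.pos_of_ne_zero hw.ne_zero
  have cm := (Nat.Prime.coprime_iff_not_dvd pt).2 htm
  obtain ⟨α, a1, a2⟩ := both_signs pt t4 t3 w ct (σ * R w t)
    (mul_ne_zero hσ (R_ne_sqf w hw t ct.symm))
  obtain ⟨a, e1, e2⟩ := Nat.chineseRemainder (Nat.Coprime.mul_right ct.symm cm) α 1
  obtain ⟨l1, l2⟩ := label w0 pt ct a1 e1 (e2.of_mul_right m')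
  have e3 := e2.of_mul_left w
  refine ⟨a, Nat.Coprime.mul_right l1 ?_, by rw [l2, ← mul_assoc]; exact a2,
    R_congr ((ZMod.natCast_eq_natCast_iff _ _ _).2 (e3.mul e3))⟩
  rw [Nat.Coprime, Nat.ModEq.gcd_eq e3]
  simp

end DichAux

open DichAux in
theorem dichotomy {m m' t : ℕ} (hm : Squarefree m) (hm' : Squarefree m') (pt : t.Prime)
    (t4 : t % 4 = 3) (t3 : 3 < t) (htm : t ∣ m) (htm' : ¬ t ∣ m') (par : Odd m ∨ Even m')
    (r y : ℕ) : ∃ A : ℕ, ∃ δ : ℝ, 0 < δ ∧ ∃ X₀ : ℕ, ∀ col : ℕ → Fin r, ∀ X : ℕ, X₀ ≤ X →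
      ∃ w, (w = m ∨ w = m') ∧ δ * X / Real.log X ^ A ≤ (Fam col y w X 1).card ∧
        δ * X / Real.log X ^ A ≤ (Fam col y w X (-1)).card := by
  have m0 : 0 < m := Nat.pos_of_ne_zero hm.ne_zero
  have m0' : 0 < m' := Nat.pos_of_ne_zero hm'.ne_zero
  obtain ⟨n, n', on, n0', e⟩ : ∃ n n', Odd n ∧ 0 < n' ∧ m' * n = m * n' := by
    rcases Nat.even_or_odd m with ⟨n, rfl⟩ | h
    · obtain ⟨n', rfl⟩ := par.resolve_left (Nat.not_odd_iff_even.2 ⟨n, rfl⟩)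
      refine ⟨n, n', Nat.coprime_two_left.1 (Nat.coprime_of_squarefree_mul (two_mul n ▸ hm)),
        by omega, by ring⟩
    · exact ⟨m, m', h, m0', mul_comm _ _⟩
  obtain ⟨w, rfl⟩ := exists_eq_mul_left_of_dvd htm
  obtain ⟨K, K0, hK⟩ := ColourAux.mono_ap r (n * n')
  obtain ⟨a, a1, a2, a3⟩ := cls hm pt t4 t3 htm' 1 one_ne_zero
  obtain ⟨b, b1, b2, b3⟩ := cls hm pt t4 t3 htm' (-1) (by norm_num)
  obtain ⟨δ₁, h1, X₁, k1⟩ := key hm hm' on.pos n0' e a1 K0 hK y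
  obtain ⟨δ₂, h2, X₂, k2⟩ := key hm hm' on.pos n0' e b1 K0 hK y
  refine ⟨K + 1, min δ₁ δ₂, lt_min h1 h2, max X₁ X₂ + 1, fun col X hX => ?_⟩
  have hl : 0 ≤ Real.log X ^ (K + 1) := pow_nonneg (Real.log_natCast_nonneg X) _
  have main : ∀ ε ε' : ℝ, ε ≠ 0 → ε' ≠ 0 → 2 * (min δ₁ δ₂ * X / Real.log X ^ (K + 1)) ≤
      (Fam col y (w * t) X ε).card + (Fam col y m' X ε').card := fun ε ε' hε hε' => by
    have z : -ε * (-ε' * R m' 1) ^ n' ≠ 0 := mul_ne_zero (neg_ne_zero.2 hε) (pow_ne_zero _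
      (mul_ne_zero (neg_ne_zero.2 hε') (R_ne_sqf m' hm' 1 (Nat.coprime_one_left _))))
    obtain ⟨j, rfl⟩ := on
    have sg : ∀ s : ℝ, s ≠ 0 → (-ε * (-ε' * R m' 1) ^ n') * s < 0 →
        (-ε * s) ^ (2 * j + 1) * (-ε' * R m' 1) ^ n' < 0 := fun s hs h => by
      have : 0 < (-ε * s) ^ (2 * j) :=
        Even.pow_pos ⟨j, two_mul j⟩ (mul_ne_zero (neg_ne_zero.2 hε) hs)
      have h3 := mul_neg_of_pos_of_neg this h
      rw [pow_succ]
      linarith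
    rcases lt_or_gt_of_ne z with z | z
    · refine le_trans ?_ (k1 col X (by omega) ε ε'
        (a3 ▸ sg _ (by linarith) (mul_neg_of_neg_of_pos z (by linarith))))
      gcongr
      exact min_le_left _ _
    · refine le_trans ?_ (k2 col X (by omega) ε ε'
        (b3 ▸ sg _ (by linarith) (mul_neg_of_pos_of_neg z (by linarith))))
      gcongr
      exact min_le_right _ _
  by_contra hn
  push Not at hn
  have f : ∀ v, (v = w * t ∨ v = m') → ∃ ε : ℝ, ε ≠ 0 ∧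
      ((Fam col y v X ε).card : ℝ) < min δ₁ δ₂ * X / Real.log X ^ (K + 1) := fun v hv => by
    rcases le_or_gt (min δ₁ δ₂ * X / Real.log X ^ (K + 1)) (Fam col y v X 1).card with h | h
    exacts [⟨-1, by norm_num, hn v hv h⟩, ⟨1, one_ne_zero, h⟩]
  obtain ⟨ε, e1, e2⟩ := f _ (.inl rfl)
  obtain ⟨ε', e3, e4⟩ := f _ (.inr rfl)
  linarith [main ε ε' e1 e3]

end Pool.Agent.Lib.MP_4b8564_nt.GT
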