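import Pool.Agent.Lib.MP_4b8564_nt.GT.Dich

/-!
Among the products of distinct primes `≡ 3 mod 4` above `3`, the empty product included, at most
one `m` lacks sign changes of `S(1,1;mpq)`.
-/

namespace Pool.Agent.Lib.MP_4b8564_nt.GT

open Sg DichAux

/-- both signs occur on moduli `w p q` with arbitrarily large primes `p < q` -/
def Changes (w : ℕ) : Prop := ∀ y : ℕ, ∀ ε : ℝ, ε = 1 ∨ ε = -1 →
  ∃ p q : ℕ, p.Prime ∧ q.Prime ∧ y < p ∧ p < q ∧ Squarefree (w * p * q) ∧ 0 < ε * KS (w * p * q)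

theorem changes_or {m m' t : ℕ} (hm : Squarefree m) (hm' : Squarefree m') (pt : t.Prime)
    (t4 : t % 4 = 3) (t3 : 3 < t) (htm : t ∣ m) (htm' : ¬ t ∣ m') (par : Odd m ∨ Even m') :
    Changes m ∨ Changes m' := by
  by_contra hn
  simp only [Changes, not_or, not_forall] at hn
  obtain ⟨⟨y, ε, e, h⟩, y', ε', e', h'⟩ := hn
  obtain ⟨A, δ, hδ, X₀, k⟩ := dichotomy hm hm' pt t4 t3 htm htm' par 1 (max y y')
  obtain ⟨w, hw, k1, k2⟩ := k (fun _ => 0) (X₀ + 2) (by omega)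
  have h2 : (1 : ℝ) < (X₀ + 2 : ℕ) := by exact_mod_cast (by omega : 1 < X₀ + 2)
  have pos : 0 < δ * (X₀ + 2 : ℕ) / Real.log (X₀ + 2 : ℕ) ^ A :=
    div_pos (by positivity) (pow_pos (Real.log_pos h2) _)
  have ex : ∀ η : ℝ, η = 1 ∨ η = -1 → ∃ p q : ℕ, p.Prime ∧ q.Prime ∧ max y y' < p ∧ p < q ∧
      Squarefree (w * p * q) ∧ 0 < η * KS (w * p * q) := fun η hη => by
    have : 0 < (Fam (fun _ => (0 : Fin 1)) (max y y') w (X₀ + 2) η).card := by
      rcases hη with rfl | rfl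
      exacts [by exact_mod_cast pos.trans_le k1, by exact_mod_cast pos.trans_le k2]
    obtain ⟨c, hc⟩ := Finset.card_pos.1 this
    classical
    obtain ⟨-, a, ⟨p, q, b1, b2, b3, b4, -, rfl⟩, b⟩ := Finset.mem_filter.1 hc
    exact ⟨p, q, b1, b2, b3, b4, a, b⟩
  rcases hw with rfl | rfl
  · obtain ⟨p, q, b1, b2, b3, b⟩ := ex ε e
    exact h ⟨p, q, b1, b2, by omega, b⟩
  · obtain ⟨p, q, b1, b2, b3, b⟩ := ex ε' e'
    exact h' ⟨p, q, b1, b2, by omega, b⟩

theorem one_exception {m m' : ℕ} (hm : Squarefree m) (hm' : Squarefree m')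
    (h : ∀ t, t.Prime → t ∣ m ∨ t ∣ m' → t % 4 = 3 ∧ 3 < t) (h1 : ¬ Changes m)
    (h2 : ¬ Changes m') : m = m' := by
  have odd : ∀ w, w = m ∨ w = m' → Odd w := fun w hw => Nat.not_even_iff_odd.1 fun e => by
    have := h 2 Nat.prime_two
      (hw.imp (fun a : w = m => a ▸ e.two_dvd) fun a : w = m' => a ▸ e.two_dvd)
    omega
  rw [← Nat.prod_primeFactors_of_squarefree hm, ← Nat.prod_primeFactors_of_squarefree hm']
  congr 1
  ext t
  simp only [Nat.mem_primeFactors, hm.ne_zero, hm'.ne_zero, ne_eq, not_false_eq_true, and_true,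
    and_congr_right_iff]
  refine fun pt => ⟨fun a => by_contra fun b => ?_, fun a => by_contra fun b => ?_⟩
  · exact (changes_or hm hm' pt (h t pt (.inl a)).1 (h t pt (.inl a)).2 a b
      (.inl (odd m (.inl rfl)))).elim h1 h2
  · exact (changes_or hm' hm pt (h t pt (.inr a)).1 (h t pt (.inr a)).2 a b
      (.inl (odd m' (.inr rfl)))).elim h2 h1

end Pool.Agent.Lib.MP_4b8564_nt.GT
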