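import Pool.Agent.Lib.MP_458f0b_nt.Pois.PNTa

open Finset Filter

noncomputable section

namespace Pool.Agent.Lib.MP_4b8564_nt.GT

/-- a class modulo `W` with many primes from a given reduced class modulo `q` -/
theorem densC (q a B : ℕ) (hq : 0 < q) (ha : Nat.Coprime a q) (W : ℕ) (hW : 1 ≤ W) :
    ∃ N₀ : ℕ, ∀ N R : ℕ, N₀ ≤ N → R ^ 2 ≤ N →
      ∃ b < W, ∃ A : Finset ℕ, (∀ n ∈ A, 2 * n < N ∧ (W * n + b).Prime ∧ R < W * n + b ∧
        B < W * n + b ∧ W * n + b ≡ a [MOD q]) ∧
        (W : ℝ) * N ≤ 10 * q.totient * Nat.totient W * A.card * Real.log N := by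
  classical
  have hφ : (0 : ℝ) < q.totient := by exact_mod_cast Nat.totient_pos.2 hq
  obtain ⟨X₀, hX₀⟩ := eventually_atTop.1
    (MP_458f0b_nt.Pois.pnt_unif q hq a ha (1 / (8 * q.totient)) (by positivity))
  refine ⟨X₀ + (W + B) ^ 2 + 8 + W, fun N R hN hR => ?_⟩
  set M := (N + 1) / 2 with hM
  have hM1 : 1 ≤ M := by omega
  have hMN : M ≤ N := by omega
  have hM2 : N ≤ 2 * M := by omega
  have hWM : 1 ≤ W * M := Nat.mul_pos hW hM1
  have hNX : N ≤ W * N := Nat.le_mul_of_pos_left N hW
  have hy : W * M - 1 ≤ W * N := (Nat.sub_le _ _).trans (Nat.mul_le_mul_left W hMN)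
  have key := (abs_le.1 (hX₀ (W * N) (by omega) (W * M - 1) hy)).1
  set S := (Icc 1 (W * M - 1)).filter (fun p => p.Prime ∧ W * N < p ^ 2 ∧ p ≡ a [MOD q]) with hS
  set T := (range W).filter (fun b => Nat.Coprime W b) with hT
  have hTc : T.card = Nat.totient W := by rw [hT, Nat.totient_eq_card_coprime]
  have hbig : ∀ m ∈ S, W + B < m ∧ R < m := by
    intro m hm
    have h := (mem_filter.1 hm).2.2.1
    exact ⟨lt_of_pow_lt_pow_left₀ 2 (Nat.zero_le _) (by omega),
      lt_of_pow_lt_pow_left₀ 2 (Nat.zero_le _) (by omega)⟩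
  have hmaps : ∀ m ∈ S, m % W ∈ T := by
    intro m hm
    have h1 := (hbig m hm).1
    rw [hS, mem_filter] at hm
    rw [hT, mem_filter, mem_range]
    refine ⟨Nat.mod_lt _ hW, ?_⟩
    have hc : Nat.Coprime m W :=
      (Nat.Prime.coprime_iff_not_dvd hm.2.1).2 fun h => by
        have := Nat.le_of_dvd hW h
        omega
    have : Nat.gcd (m % W) W = 1 := by rw [← Nat.gcd_rec, Nat.gcd_comm]; exact hc
    exact Nat.Coprime.symm this
  have hTne : T.Nonempty := by
    rw [← card_pos, hTc]; exact Nat.totient_pos.2 hW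
  obtain ⟨b, hbT, hbmax⟩ := exists_max_image T (fun b => (S.filter fun m => m % W = b).card) hTne
  have hSle : S.card ≤ Nat.totient W * (S.filter fun m => m % W = b).card := by
    rw [card_eq_sum_card_fiberwise (f := fun m => m % W) (t := T) (fun m hm => hmaps m hm), ← hTc]
    calc _ ≤ ∑ _c ∈ T, (S.filter fun m => m % W = b).card := sum_le_sum fun c hc => hbmax c hc
      _ = _ := by rw [sum_const, smul_eq_mul]
  have hbW : b < W := by
    rw [hT, mem_filter, mem_range] at hbT; exact hbT.1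
  have hrec : ∀ m ∈ S.filter (fun m => m % W = b), W * (m / W) + b = m := by
    intro m hm
    rw [mem_filter] at hm
    rw [← hm.2]; exact Nat.div_add_mod m W
  refine ⟨b, hbW, (S.filter fun m => m % W = b).image (fun m => m / W), ?_, ?_⟩
  · intro n hn
    obtain ⟨m, hm, rfl⟩ := mem_image.1 hn
    rw [hrec m hm]
    have hm' := (mem_filter.1 hm).1
    have h1 := hbig m hm'
    rw [hS, mem_filter, mem_Icc] at hm'
    have hlt : m / W < M := Nat.div_lt_of_lt_mul (by omega)
    exact ⟨by omega, hm'.2.1, h1.2, by omega, hm'.2.2.2⟩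
  · have hinj : ((S.filter fun m => m % W = b).image (fun m => m / W)).card =
        (S.filter fun m => m % W = b).card := by
      apply card_image_of_injOn
      intro m hm m' hm' h
      have h' : m / W = m' / W := h
      rw [← hrec m hm, ← hrec m' hm', h']
    rw [hinj]
    have hW' : (1 : ℝ) ≤ W := by exact_mod_cast hW
    have hN8 : (8 : ℝ) ≤ N := by exact_mod_cast (by omega : 8 ≤ N)
    have hWN : (W : ℝ) ≤ N := by exact_mod_cast (by omega : W ≤ N)
    have hM2' : (N : ℝ) ≤ 2 * M := by exact_mod_cast hM2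
    have hyr : ((W * M - 1 : ℕ) : ℝ) = W * M - 1 := by rw [Nat.cast_sub hWM]; push_cast; ring
    have hlN : 0 ≤ Real.log N := Real.log_natCast_nonneg N
    have hl : Real.log ((W * N : ℕ) : ℝ) ≤ 2 * Real.log N := by
      rw [Nat.cast_mul, Real.log_mul (by linarith) (by linarith)]
      have := Real.log_le_log (by linarith) hWN
      linarith
    have a2 : (S.card : ℝ) ≤ Nat.totient W * ((S.filter fun m => m % W = b).card : ℝ) := by
      exact_mod_cast hSle
    have hS0 : (0 : ℝ) ≤ S.card := Nat.cast_nonneg _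
    have h1 : Real.log ((W * N : ℕ) : ℝ) * S.card ≤
        2 * Real.log N * (Nat.totient W * ((S.filter fun m => m % W = b).card : ℝ)) :=
      mul_le_mul hl a2 hS0 (by positivity)
    rw [hyr] at key
    have h2 : ((W : ℝ) * M - 1) / q.totient - 1 / (8 * q.totient) * ((W * N : ℕ) : ℝ)
        = (W * M - 1 - W * N / 8) / q.totient := by push_cast; field_simp
    have h3 : ((W : ℝ) * M - 1 - W * N / 8) / q.totient ≤
        2 * Real.log N * (Nat.totient W * ((S.filter fun m => m % W = b).card : ℝ)) := by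
      rw [← h2]; linarith
    rw [div_le_iff₀ hφ] at h3
    have h4 : (W : ℝ) * N ≤ W * (2 * M) := mul_le_mul_of_nonneg_left hM2' (by linarith)
    have h5 : (8 : ℝ) ≤ W * N := by nlinarith
    have h6 : 0 ≤ 2 * Real.log N * (Nat.totient W * ((S.filter fun m => m % W = b).card : ℝ)) *
        q.totient := by positivity
    nlinarith

end Pool.Agent.Lib.MP_4b8564_nt.GT
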