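import Pool.Agent.Lib.MP_4b8564_nt.GT.ProgK
import Pool.Agent.Lib.MP_4b8564_nt.GT.ExDens

open Finset Combinatorics
open scoped Classical

noncomputable section

namespace Pool.Agent.Lib.MP_4b8564_nt.GT

/-- primes above `B` in the class `a` modulo `q` -/
def PC (q a B n : ℕ) : Prop := n.Prime ∧ B < n ∧ n ≡ a [MOD q]

/-- `k`-term progressions of such primes up to `Y`, as pairs (first term, difference) -/
def APc (q a B k Y : ℕ) : Finset (ℕ × ℕ) :=
  (range (Y + 1) ×ˢ range (Y + 1)).filter fun t =>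
    0 < t.2 ∧ ∀ j < k, t.1 + j * t.2 ≤ Y ∧ PC q a B (t.1 + j * t.2)

open MajorKAux Sg in
theorem majorC (k : ℕ) (hk : 2 ≤ k) (q a B : ℕ) (hq : 0 < q) (ha : Nat.Coprime a q) :
    ∃ δ : ℝ, 0 < δ ∧ ∀ η : ℝ, 0 < η → η ≤ 1 →
    ∃ W : ℕ, 1 ≤ W ∧ ∃ N₀ : ℕ, ∀ (N : ℕ) [NeZero N], N.Prime → N₀ ≤ N →
      ∃ b < W, ∃ (A : Finset ℕ) (G : ℝ) (ν : ZMod N → ℝ),
        (∀ n ∈ A, 2 * n < N ∧ PC q a B (W * n + b)) ∧ 0 < G ∧ G ≤ 20 * q.totient * Real.log N ∧
        (∀ x, 0 ≤ ν x) ∧ (∀ x, x.val ∈ A → ν x = G) ∧ δ * N ≤ G * A.card ∧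
        LF (fun (j : Fin k) (x : Fin k → ZMod N) => ν (psi k N j x)) η := by
  obtain ⟨E, hE⟩ : ∃ E, E = 8 * (k * 2 ^ k) + 2 := ⟨_, rfl⟩
  have hE2 : 2 ≤ E := by omega
  have hQ : (0 : ℝ) < q.totient := by exact_mod_cast Nat.totient_pos.2 hq
  have hE0 : (0 : ℝ) < 10 * q.totient * (E + 1) := by positivity
  refine ⟨1 / (10 * q.totient * (E + 1)), by positivity, fun η hη hη1 => ?_⟩
  obtain ⟨w, R₀, hw⟩ := lf_psi k hk η hη
  have hW : 1 ≤ primorial w := primorial_pos w
  obtain ⟨N₁, hN₁⟩ := densC q a B hq ha (primorial w) hW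
  refine ⟨primorial w, hW, max (max N₁ (k + 1)) ((2 ^ E + R₀) ^ E), fun N _ hNp hN => ?_⟩
  obtain ⟨R, hR, h8, h9⟩ := exists_root E R₀ N (by omega) (le_of_max_le_right hN)
  have h2E : 0 < 2 ^ E := by positivity
  have hR1 : 1 ≤ R := by omega
  have hkN : k < N := le_of_max_le_right (le_of_max_le_left hN)
  obtain ⟨b, hb, A, hA, hc⟩ := hN₁ N R (le_of_max_le_left (le_of_max_le_left hN))
    ((Nat.pow_le_pow_right hR1 hE2).trans h8)
  have hf := hw N hNp R b (by omega) (hE ▸ h8)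
  have hP : ∀ p ∈ PP w R, 2 ≤ p := fun p hp => (mem_filter.mp hp).2.two_le
  have hG1 := one_le_GG (PP w R) hP R hR1
  have hG0 : 0 < GG (PP w R) R := one_pos.trans_le hG1
  have hge := GG_ge w R hR1
  have h0 : ∀ x : ZMod N, 0 ≤ nu w R b N x := fun x => div_nonneg (sq_nonneg _) hG0.le
  have hval : ∀ x : ZMod N, x.val ∈ A → nu w R b N x = GG (PP w R) R := by
    intro x hx
    obtain ⟨-, hp, hlt, -⟩ := hA _ hx
    rw [nu, beta_eq_GG _ _ _ fun p hpP hd => ?_, sq, mul_div_assoc, div_self hG0.ne', mul_one]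
    have h1 := (Nat.prime_dvd_prime_iff_eq (mem_filter.mp hpP).2 hp).mp hd
    have h2 := (mem_Ioc.mp (mem_filter.mp hpP).1).2
    omega
  have hN0 : (0 : ℝ) < N := by exact_mod_cast Nat.pos_of_ne_zero (NeZero.ne N)
  have hsum : ∑ x, nu w R b N x ≤ 2 * N := by
    have h1 := (abs_le.mp (hf.mean ⟨0, by omega⟩)).2
    rw [av_psi hk hNp hkN, av, ZMod.card, sub_le_iff_le_add, div_le_iff₀ hN0] at h1
    nlinarith
  have hup := (card_le N _ h0 A _ (fun n hn => by have := (hA n hn).1; omega) hval).trans hsum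
  have hW0 : (0 : ℝ) < primorial w := by exact_mod_cast hW
  have hφ : (Nat.totient (primorial w) : ℝ) ≤ primorial w := by
    exact_mod_cast Nat.totient_le _
  have hφ0 : (0 : ℝ) ≤ Nat.totient (primorial w) := Nat.cast_nonneg _
  have hA0 : (0 : ℝ) ≤ A.card := Nat.cast_nonneg _
  have hl0 : 0 ≤ Real.log N := Real.log_natCast_nonneg N
  have hl9 : Real.log N ≤ (E + 1) * Real.log R := by
    have : (N : ℝ) ≤ (R : ℝ) ^ (E + 1) := by exact_mod_cast h9
    have h2 := Real.log_le_log hN0 this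
    rwa [Real.log_pow, Nat.cast_succ] at h2
  refine ⟨b, hb, A, GG (PP w R) R, nu w R b N,
    fun n hn => ⟨(hA n hn).1, (hA n hn).2.1, (hA n hn).2.2.2.1, (hA n hn).2.2.2.2⟩, hG0, ?_, h0, hval, ?_, hf⟩
  · have h1 : (primorial w : ℝ) * N ≤ primorial w * (10 * q.totient * (A.card * Real.log N)) := by
      have := mul_le_mul_of_nonneg_right hφ (mul_nonneg hQ.le (mul_nonneg hA0 hl0))
      linarith
    have h2 := le_of_mul_le_mul_left h1 hW0
    have h3 := mul_le_mul_of_nonneg_left h2 hG0.le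
    have h4 := mul_le_mul_of_nonneg_right hup (mul_nonneg hQ.le hl0)
    have h5 : GG (PP w R) R * N ≤ 20 * q.totient * Real.log N * N := by linarith
    exact le_of_mul_le_mul_right h5 hN0
  · rw [div_mul_eq_mul_div, div_le_iff₀ hW0] at hge
    have h1 := mul_le_mul_of_nonneg_left hl9 (mul_nonneg hQ.le (mul_nonneg hφ0 hA0))
    have h2 := mul_le_mul_of_nonneg_right hge (mul_nonneg hA0 hE0.le)
    have h3 : (primorial w : ℝ) * N ≤
        primorial w * (GG (PP w R) R * A.card * (10 * q.totient * (E + 1))) := by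
      linarith
    rw [div_mul_eq_mul_div, one_mul, div_le_iff₀ hE0]
    exact le_of_mul_le_mul_left h3 hW0

open ProgKAux in
lemma card_TC (q a B k : ℕ) (hk : 2 ≤ k) (N : ℕ) [NeZero N] (W b Y : ℕ) (hW : 1 ≤ W) (hb : b < W)
    (hY : W * N ≤ Y) (A : Finset ℕ)
    (hA : ∀ n ∈ A, 2 * n < N ∧ PC q a B (W * n + b)) :
    (TT k N A).card ≤ N + 2 * (APc q a B k Y).card := by
  have hle : ∀ n ∈ A, W * n + b ≤ Y := by
    intro n hn
    have h1 := (hA n hn).1
    have h2 : W * (n + 1) ≤ W * N := Nat.mul_le_mul_left _ (by omega)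
    have h3 : W * (n + 1) = W * n + W := by ring
    omega
  have hmem : ∀ u e : ℕ, 0 < e → (∀ j < k, u + j * e ∈ A) → (W * u + b, W * e) ∈ APc q a B k Y := by
    intro u e he hu
    have h0 : u ∈ A := by simpa using hu 0 (by omega)
    have h1 := hle _ (hu 1 (by omega))
    have h2 := hle _ h0
    have e1 : W * (u + 1 * e) = W * u + W * e := by ring
    unfold APc
    simp only [mem_filter, mem_product, mem_range]
    refine ⟨⟨by omega, by omega⟩, Nat.mul_pos (by omega) he, fun j hj => ?_⟩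
    rw [show W * u + b + j * (W * e) = W * (u + j * e) + b by ring]
    exact ⟨hle _ (hu j hj), (hA _ (hu j hj)).2⟩
  have hT : ∀ p ∈ TT k N A, ∀ j < k, (p.1 + (j : ZMod N) * p.2).val ∈ A :=
    fun p hp => (mem_filter.1 hp).2
  have hP : ∀ p ∈ TT k N A, ∀ j < k, ((p.1 + (j : ZMod N) * p.2).val : ℤ)
      = p.1.val + j * (((p.1 + p.2).val : ℤ) - p.1.val) :=
    fun p hp => prog p.1 p.2 k fun j hj => (hA _ (hT p hp j hj)).1
  have hinj : ∀ x y : ZMod N, W * x.val + b = W * y.val + b → x = y := by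
    intro x y h
    have h1 : W * x.val = W * y.val := by omega
    exact ZMod.val_injective N (Nat.eq_of_mul_eq_mul_left (by omega) h1)
  have hsub : TT k N A ⊆ ((TT k N A).filter fun p => p.2 = 0) ∪
      (((TT k N A).filter fun p => p.1.val < (p.1 + p.2).val) ∪
        ((TT k N A).filter fun p => (p.1 + p.2).val < p.1.val)) := by
    intro p hp
    simp only [mem_union, mem_filter]
    rcases lt_trichotomy p.1.val (p.1 + p.2).val with h | h | h
    · exact Or.inr (Or.inl ⟨hp, h⟩)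
    · left
      refine ⟨hp, ?_⟩
      have := ZMod.val_injective N h
      simpa using this
    · exact Or.inr (Or.inr ⟨hp, h⟩)
  have h0 : ((TT k N A).filter fun p => p.2 = 0).card ≤ N := by
    have : ((TT k N A).filter fun p => p.2 = 0).card ≤ (univ : Finset (ZMod N)).card := by
      refine card_le_card_of_injOn (fun p => p.1) (fun _ _ => mem_coe.2 (mem_univ _)) ?_
      intro p hp q hq h
      have hp' := (mem_filter.1 (mem_coe.1 hp)).2
      have hq' := (mem_filter.1 (mem_coe.1 hq)).2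
      exact Prod.ext h (by rw [hp', hq'])
    simpa [ZMod.card] using this
  have h1 : ((TT k N A).filter fun p => p.1.val < (p.1 + p.2).val).card ≤ (APc q a B k Y).card := by
    refine card_le_card_of_injOn
      (fun p => (W * p.1.val + b, W * ((p.1 + p.2).val - p.1.val))) ?_ ?_
    · intro p hp
      obtain ⟨hp1, hp2⟩ := mem_filter.1 (mem_coe.1 hp)
      refine mem_coe.2 (hmem _ _ (by omega) fun j hj => ?_)
      have e : p.1.val + j * ((p.1 + p.2).val - p.1.val) = (p.1 + (j : ZMod N) * p.2).val := by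
        have := hP p hp1 j hj
        zify [hp2.le]
        exact this.symm
      rw [e]
      exact hT p hp1 j hj
    · intro p hp q hq h
      have hp2 := (mem_filter.1 (mem_coe.1 hp)).2
      have hq2 := (mem_filter.1 (mem_coe.1 hq)).2
      have e1 := hinj _ _ (congrArg Prod.fst h)
      have e2 := Nat.eq_of_mul_eq_mul_left (show 0 < W by omega) (congrArg Prod.snd h)
      refine Prod.ext e1 ?_
      rw [e1] at e2 hp2
      have e3 : (q.1 + p.2).val = (q.1 + q.2).val := by omega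
      exact add_left_cancel (ZMod.val_injective N e3)
  have h2 : ((TT k N A).filter fun p => (p.1 + p.2).val < p.1.val).card ≤ (APc q a B k Y).card := by
    refine card_le_card_of_injOn
      (fun p => (W * (p.1 + ((k - 1 : ℕ) : ZMod N) * p.2).val + b,
        W * (p.1.val - (p.1 + p.2).val))) ?_ ?_
    · intro p hp
      obtain ⟨hp1, hp2⟩ := mem_filter.1 (mem_coe.1 hp)
      refine mem_coe.2 (hmem _ _ (by omega) fun j hj => ?_)
      have e : (p.1 + ((k - 1 : ℕ) : ZMod N) * p.2).val + j * (p.1.val - (p.1 + p.2).val)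
          = (p.1 + ((k - 1 - j : ℕ) : ZMod N) * p.2).val := by
        have a1 := hP p hp1 (k - 1) (by omega)
        have a2 := hP p hp1 (k - 1 - j) (by omega)
        have a3 : ((k - 1 - j : ℕ) : ℤ) = ((k - 1 : ℕ) : ℤ) - j := Nat.cast_sub (by omega)
        rw [a3] at a2
        apply Nat.cast_injective (R := ℤ)
        rw [Nat.cast_add, Nat.cast_mul, Nat.cast_sub hp2.le, a1, a2]
        ring
      rw [e]
      exact hT p hp1 _ (by omega)
    · intro p hp q hq h
      have hp2 := (mem_filter.1 (mem_coe.1 hp)).2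
      have hq2 := (mem_filter.1 (mem_coe.1 hq)).2
      have e1 := hinj _ _ (congrArg Prod.fst h)
      have e2 := Nat.eq_of_mul_eq_mul_left (show 0 < W by omega) (congrArg Prod.snd h)
      have e3 : p.2 = q.2 := by
        have a1 := congrArg (Nat.cast : ℕ → ZMod N) e2
        rw [Nat.cast_sub hp2.le, Nat.cast_sub hq2.le] at a1
        simp only [ZMod.natCast_val, ZMod.cast_id', id_eq] at a1
        linear_combination -a1
      refine Prod.ext ?_ e3
      rw [e3] at e1
      exact add_right_cancel e1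
  have h3 := card_le_card hsub
  have h4 := card_union_le ((TT k N A).filter fun p => p.2 = 0)
      (((TT k N A).filter fun p => p.1.val < (p.1 + p.2).val) ∪
        ((TT k N A).filter fun p => (p.1 + p.2).val < p.1.val))
  have h5 := card_union_le ((TT k N A).filter fun p => p.1.val < (p.1 + p.2).val)
        ((TT k N A).filter fun p => (p.1 + p.2).val < p.1.val)
  omega

open ProgKAux in
/-- the Green-Tao theorem in a reduced residue class with a lower bound for the number of progressions -/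
theorem many_APc (k : ℕ) (hk : 2 ≤ k) (q a B₀ : ℕ) (hq : 0 < q) (ha : Nat.Coprime a q) :
    ∃ c : ℝ, 0 < c ∧ ∃ Y₀ : ℕ, ∀ Y : ℕ, Y₀ ≤ Y →
    c * (Y : ℝ) ^ 2 / Real.log Y ^ k ≤ (APc q a B₀ k Y).card := by
  obtain ⟨δ, hδ, hM⟩ := majorC k hk q a B₀ hq ha
  obtain ⟨η, hη, hη1, c, hc, N₀, hT⟩ := relSz k hk δ hδ
  obtain ⟨W, hW, N₁, hM⟩ := hM η hη hη1
  have hQ : (0 : ℝ) < q.totient := by exact_mod_cast Nat.totient_pos.2 hq
  set B : ℝ := (20 * q.totient) ^ k with hB
  have hB0 : 0 < B := by positivity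
  obtain ⟨N₂, hL⟩ := log_small k (c / (2 * B)) (by positivity)
  have hW0 : (0 : ℝ) < W := by exact_mod_cast hW
  refine ⟨c / (16 * B * (W : ℝ) ^ 2), by positivity, 2 * W * (N₀ + N₁ + N₂ + 1), fun Y hY => ?_⟩
  have hn : N₀ + N₁ + N₂ + 1 ≤ Y / (2 * W) := by
    rw [Nat.le_div_iff_mul_le (by omega), mul_comm]
    exact hY
  obtain ⟨N, hNp, hN1, hN2⟩ := Nat.exists_prime_lt_and_le_two_mul (Y / (2 * W)) (by omega)
  have : NeZero N := ⟨hNp.ne_zero⟩
  have hWN : W * N ≤ Y := by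
    have h1 : W * N ≤ W * (2 * (Y / (2 * W))) := Nat.mul_le_mul_left _ hN2
    have h2 : Y / (2 * W) * (2 * W) ≤ Y := Nat.div_mul_le_self _ _
    have h3 : W * (2 * (Y / (2 * W))) = Y / (2 * W) * (2 * W) := by ring
    omega
  have hYN : Y ≤ 2 * W * N := by
    have h1 := (Nat.div_lt_iff_lt_mul (show 0 < 2 * W by omega)).1 hN1
    rw [mul_comm] at h1
    exact h1.le
  obtain ⟨b, hb, A, G, ν, hA, hG0, hG1, hν0, hνA, hdens, hLF⟩ := hM N hNp (by omega)
  have hN0 : (0 : ℝ) < N := by exact_mod_cast hNp.pos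
  have hlam := hT N hNp (by omega) ν (fun x => if x.val ∈ A then G else 0)
    (fun x => by
      by_cases h : x.val ∈ A
      · simp [h, hG0.le, hνA x h]
      · simp [h, hν0 x])
    (by
      unfold av
      rw [sum_f N A (fun n hn => by have := (hA n hn).1; omega), ZMod.card, le_div_iff₀ hN0]
      exact hdens) hLF
  rw [lam_f] at hlam
  have hN1' : (1 : ℝ) < N := by exact_mod_cast hNp.one_lt
  have hcard : ((TT k N A).card : ℝ) ≤ N + 2 * (APc q a B₀ k Y).card := by
    exact_mod_cast card_TC q a B₀ k hk N W b Y hW hb hWN A hA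
  rw [le_div_iff₀ (by positivity)] at hlam
  have hlogN : 0 < Real.log N := Real.log_pos hN1'
  have hNY : (N : ℝ) ≤ Y := by
    have : N ≤ Y := le_trans (Nat.le_mul_of_pos_left N (by omega)) hWN
    exact_mod_cast this
  have hlogY : Real.log N ≤ Real.log Y := Real.log_le_log hN0 hNY
  have hG3 : G ^ k ≤ B * Real.log N ^ k := by
    have := pow_le_pow_left₀ hG0.le hG1 k
    rwa [mul_pow] at this
  have hl3 : Real.log N ^ k ≤ Real.log Y ^ k := pow_le_pow_left₀ hlogN.le hlogY k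
  have hsm := hL N (by omega)
  have hP : (0 : ℝ) ≤ (APc q a B₀ k Y).card := Nat.cast_nonneg _
  have k1 : c * (N : ℝ) ^ 2 ≤ B * Real.log N ^ k * (N + 2 * (APc q a B₀ k Y).card) :=
    hlam.trans (mul_le_mul hG3 hcard (Nat.cast_nonneg _) (by positivity))
  have k2 : B * (Real.log N ^ k * N) ≤ c / 2 * (N : ℝ) ^ 2 := by
    calc B * (Real.log N ^ k * N) ≤ B * (c / (2 * B) * N * N) := by gcongr
      _ = _ := by field_simp
  have k3 : B * (Real.log N ^ k * (APc q a B₀ k Y).card) ≤ B * (Real.log Y ^ k * (APc q a B₀ k Y).card) := by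
    gcongr
  have k4 : c * (N : ℝ) ^ 2 ≤ 4 * B * (Real.log Y ^ k * (APc q a B₀ k Y).card) := by linarith
  have k5 : (Y : ℝ) ^ 2 ≤ (2 * W * N) ^ 2 :=
    pow_le_pow_left₀ (Nat.cast_nonneg _) (by exact_mod_cast hYN) 2
  have hlY : 0 < Real.log Y ^ k := pow_pos (hlogN.trans_le hlogY) k
  rw [div_le_iff₀ hlY, div_mul_eq_mul_div, div_le_iff₀ (by positivity)]
  have k6 : c * (Y : ℝ) ^ 2 ≤ c * (2 * W * N) ^ 2 := mul_le_mul_of_nonneg_left k5 hc.le
  have k7 : c * (N : ℝ) ^ 2 * (4 * (W : ℝ) ^ 2) ≤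
      4 * B * (Real.log Y ^ k * (APc q a B₀ k Y).card) * (4 * (W : ℝ) ^ 2) :=
    mul_le_mul_of_nonneg_right k4 (by positivity)
  calc c * (Y : ℝ) ^ 2 ≤ c * (2 * W * N) ^ 2 := k6
    _ = c * (N : ℝ) ^ 2 * (4 * (W : ℝ) ^ 2) := by ring
    _ ≤ _ := k7
    _ = _ := by ring

end Pool.Agent.Lib.MP_4b8564_nt.GT
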