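import Pool.Agent.Lib.MP_4b8564_nt.GT.LFpsi
import Pool.Agent.Lib.MP_4b8564_nt.GT.Lfaux
import Pool.Agent.Lib.MP_4b8564_nt.GT.Psi
import Pool.Agent.Lib.MP_4b8564_nt.Sg.GGge
import Pool.Agent.Lib.MP_4b8564_nt.Sg.Dens

open Finset Combinatorics
open scoped Classical

noncomputable section

namespace Pool.Agent.Lib.MP_4b8564_nt.GT

namespace MajorKAux

theorem exists_root (E M N : ℕ) (hE : 0 < E) (hN : (2 ^ E + M) ^ E ≤ N) :
    ∃ R : ℕ, 2 ^ E + M ≤ R ∧ R ^ E ≤ N ∧ N ≤ R ^ (E + 1) := by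
  have hex : ∃ R : ℕ, N < (R + 1) ^ E :=
    ⟨N, (Nat.lt_succ_self N).trans_le (Nat.le_self_pow hE.ne' _)⟩
  have h0 : 0 < 2 ^ E := by positivity
  have h1 := Nat.find_spec hex
  have h2 : 2 ^ E + M ≤ Nat.find hex := by
    have := lt_of_pow_lt_pow_left₀ E (Nat.zero_le _) (hN.trans_lt h1)
    omega
  have h3 := Nat.find_min hex (show Nat.find hex - 1 < Nat.find hex by omega)
  rw [show Nat.find hex - 1 + 1 = Nat.find hex by omega] at h3
  refine ⟨_, h2, not_lt.mp h3, h1.le.trans ?_⟩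
  generalize Nat.find hex = R at h2
  calc (R + 1) ^ E ≤ (2 * R) ^ E := Nat.pow_le_pow_left (by omega) E
    _ = 2 ^ E * R ^ E := mul_pow _ _ _
    _ ≤ R * R ^ E := Nat.mul_le_mul_right _ (by omega)
    _ = R ^ (E + 1) := (pow_succ' _ _).symm

theorem card_le (N : ℕ) [NeZero N] (ν : ZMod N → ℝ) (h0 : ∀ x, 0 ≤ ν x) (A : Finset ℕ) (G : ℝ)
    (hA : ∀ n ∈ A, n < N) (hG : ∀ x : ZMod N, x.val ∈ A → ν x = G) :
    G * A.card ≤ ∑ x, ν x := by
  have hv : ∀ n ∈ A, ((n : ℕ) : ZMod N).val = n := fun n hn => ZMod.val_cast_of_lt (hA n hn)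
  calc G * A.card = ∑ n ∈ A, ν (n : ZMod N) := by
        rw [sum_congr rfl fun n hn => hG _ (by rw [hv n hn]; exact hn)]
        simp [mul_comm]
    _ = ∑ x ∈ A.image (fun n : ℕ => (n : ZMod N)), ν x := by
        rw [sum_image fun a ha b hb e => by rw [← hv a ha, ← hv b hb, e]]
    _ ≤ ∑ x, ν x := sum_le_sum_of_subset_of_nonneg (subset_univ _) fun x _ _ => h0 x

end MajorKAux

open MajorKAux Sg in
theorem majorK (k : ℕ) (hk : 2 ≤ k) : ∃ δ : ℝ, 0 < δ ∧ ∀ η : ℝ, 0 < η → η ≤ 1 →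
    ∃ W : ℕ, 1 ≤ W ∧ ∃ N₀ : ℕ, ∀ (N : ℕ) [NeZero N], N.Prime → N₀ ≤ N →
      ∃ b < W, ∃ (A : Finset ℕ) (G : ℝ) (ν : ZMod N → ℝ),
        (∀ n ∈ A, 2 * n < N ∧ (W * n + b).Prime ∧ 3 < W * n + b) ∧ 0 < G ∧ G ≤ 20 * Real.log N ∧
        (∀ x, 0 ≤ ν x) ∧ (∀ x, x.val ∈ A → ν x = G) ∧ δ * N ≤ G * A.card ∧
        LF (fun (j : Fin k) (x : Fin k → ZMod N) => ν (psi k N j x)) η := by
  obtain ⟨E, hE⟩ : ∃ E, E = 8 * (k * 2 ^ k) + 2 := ⟨_, rfl⟩
  have hE2 : 2 ≤ E := by omega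
  have hE0 : (0 : ℝ) < 10 * (E + 1) := by positivity
  refine ⟨1 / (10 * (E + 1)), by positivity, fun η hη hη1 => ?_⟩
  obtain ⟨w, R₀, hw⟩ := lf_psi k hk η hη
  have hW : 1 ≤ primorial w := primorial_pos w
  obtain ⟨N₁, hN₁⟩ := dens (primorial w) hW
  refine ⟨primorial w, hW, max (max N₁ (k + 1)) ((2 ^ E + R₀) ^ E), fun N _ hNp hN => ?_⟩
  obtain ⟨R, hR, h8, h9⟩ := exists_root E R₀ N (by omega) (le_of_max_le_right hN)
  have h2E : 0 < 2 ^ E := by positivity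
  have hR1 : 1 ≤ R := by omega
  have hkN : k < N := le_of_max_le_right (le_of_max_le_left hN)
  obtain ⟨b, hb, A, hA, hc⟩ := hN₁ N R (le_of_max_le_left (le_of_max_le_left hN))
    ((Nat.pow_le_pow_right hR1 hE2).trans h8)
  have hf := hw N hNp R b (by omega) (hE ▸ h8)
  have hP : ∀ p ∈ PP w R, 2 ≤ p := fun p hp => (mem_filter.mp hp).2.two_le
  have hG1 := one_le_GG (PP w R) hP R hR1
  have hG0 : 0 < GG (PP w R) R := one_pos.trans_le hG1
  have hge := GG_ge w R hR1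
  have h0 : ∀ x : ZMod N, 0 ≤ nu w R b N x := fun x => div_nonneg (sq_nonneg _) hG0.le
  have hval : ∀ x : ZMod N, x.val ∈ A → nu w R b N x = GG (PP w R) R := by
    intro x hx
    obtain ⟨-, hp, hlt, -⟩ := hA _ hx
    rw [nu, beta_eq_GG _ _ _ fun p hpP hd => ?_, sq, mul_div_assoc, div_self hG0.ne', mul_one]
    have h1 := (Nat.prime_dvd_prime_iff_eq (mem_filter.mp hpP).2 hp).mp hd
    have h2 := (mem_Ioc.mp (mem_filter.mp hpP).1).2
    omega
  have hN0 : (0 : ℝ) < N := by exact_mod_cast Nat.pos_of_ne_zero (NeZero.ne N)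
  have hsum : ∑ x, nu w R b N x ≤ 2 * N := by
    have h1 := (abs_le.mp (hf.mean ⟨0, by omega⟩)).2
    rw [av_psi hk hNp hkN, av, ZMod.card, sub_le_iff_le_add, div_le_iff₀ hN0] at h1
    nlinarith
  have hup := (card_le N _ h0 A _ (fun n hn => by have := (hA n hn).1; omega) hval).trans hsum
  have hW0 : (0 : ℝ) < primorial w := by exact_mod_cast hW
  have hφ : (Nat.totient (primorial w) : ℝ) ≤ primorial w := by
    exact_mod_cast Nat.totient_le _
  have hφ0 : (0 : ℝ) ≤ Nat.totient (primorial w) := Nat.cast_nonneg _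
  have hA0 : (0 : ℝ) ≤ A.card := Nat.cast_nonneg _
  have hl0 : 0 ≤ Real.log N := Real.log_natCast_nonneg N
  have hl9 : Real.log N ≤ (E + 1) * Real.log R := by
    have : (N : ℝ) ≤ (R : ℝ) ^ (E + 1) := by exact_mod_cast h9
    have h2 := Real.log_le_log hN0 this
    rwa [Real.log_pow, Nat.cast_succ] at h2
  refine ⟨b, hb, A, GG (PP w R) R, nu w R b N,
    fun n hn => ⟨(hA n hn).1, (hA n hn).2.1, (hA n hn).2.2.2⟩, hG0, ?_, h0, hval, ?_, hf⟩
  · have h1 : (primorial w : ℝ) * N ≤ primorial w * (10 * (A.card * Real.log N)) := by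
      have := mul_le_mul_of_nonneg_right hφ (mul_nonneg hA0 hl0)
      linarith
    have h2 := le_of_mul_le_mul_left h1 hW0
    have h3 := mul_le_mul_of_nonneg_left h2 hG0.le
    have h4 := mul_le_mul_of_nonneg_right hup hl0
    have h5 : GG (PP w R) R * N ≤ 20 * Real.log N * N := by linarith
    exact le_of_mul_le_mul_right h5 hN0
  · rw [div_mul_eq_mul_div, div_le_iff₀ hW0] at hge
    have h1 := mul_le_mul_of_nonneg_left hl9 (mul_nonneg hφ0 hA0)
    have h2 := mul_le_mul_of_nonneg_right hge (mul_nonneg hA0 hE0.le)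
    have h3 : (primorial w : ℝ) * N ≤
        primorial w * (GG (PP w R) R * A.card * (10 * (E + 1))) := by
      linarith
    rw [div_mul_eq_mul_div, one_mul, div_le_iff₀ hE0]
    exact le_of_mul_le_mul_left h3 hW0

end Pool.Agent.Lib.MP_4b8564_nt.GT
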