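import Pool.Agent.Lib.MP_4b8564_nt.GT.RelSz
import Pool.Agent.Lib.MP_4b8564_nt.GT.MajorK

open Finset Combinatorics
open scoped Classical

noncomputable section

namespace Pool.Agent.Lib.MP_4b8564_nt.GT

namespace ProgKAux

lemma val_add {N : ℕ} [NeZero N] (u v w : ZMod N) (e : u + w = 2 * v) (h1 : 2 * u.val < N)
    (h2 : 2 * v.val < N) (h3 : 2 * w.val < N) : u.val + w.val = 2 * v.val := by
  have h : ((u.val + w.val : ℕ) : ZMod N) = ((2 * v.val : ℕ) : ZMod N) := by
    push_cast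
    simp only [ZMod.natCast_val, ZMod.cast_id', id_eq]
    exact e
  have h' := (ZMod.natCast_eq_natCast_iff' _ _ _).1 h
  rwa [Nat.mod_eq_of_lt (by omega), Nat.mod_eq_of_lt (by omega)] at h'

lemma prog {N : ℕ} [NeZero N] (x d : ZMod N) (k : ℕ)
    (h : ∀ j < k, 2 * (x + (j : ZMod N) * d).val < N) (j : ℕ) (hj : j < k) :
    ((x + (j : ZMod N) * d).val : ℤ) = x.val + j * (((x + d).val : ℤ) - x.val) := by
  induction j using Nat.twoStepInduction with
  | zero => simp
  | one => simp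
  | more j ih1 ih2 =>
    have h1 := val_add (x + (j : ZMod N) * d) (x + ((j + 1 : ℕ) : ZMod N) * d)
      (x + ((j + 2 : ℕ) : ZMod N) * d) (by push_cast; ring) (h _ (by omega)) (h _ (by omega)) (h _ hj)
    have h2 := congrArg (Nat.cast : ℕ → ℤ) h1
    rw [Nat.cast_add, Nat.cast_mul, ih1 (by omega), ih2 (by omega)] at h2
    push_cast at h2 ⊢
    linear_combination h2

/-- pairs giving `k` values in `A` -/
def TT (k N : ℕ) [NeZero N] (A : Finset ℕ) : Finset (ZMod N × ZMod N) :=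
  univ.filter fun p => ∀ j < k, (p.1 + (j : ZMod N) * p.2).val ∈ A

lemma card_TT (k : ℕ) (hk : 2 ≤ k) (N : ℕ) [NeZero N] (W b Y : ℕ) (hW : 1 ≤ W) (hb : b < W)
    (hY : W * N ≤ Y) (A : Finset ℕ)
    (hA : ∀ n ∈ A, 2 * n < N ∧ (W * n + b).Prime ∧ 3 < W * n + b) :
    (TT k N A).card ≤ N + 2 * (APk k Y).card := by
  have hle : ∀ n ∈ A, W * n + b ≤ Y := by
    intro n hn
    have h1 := (hA n hn).1
    have h2 : W * (n + 1) ≤ W * N := Nat.mul_le_mul_left _ (by omega)
    have h3 : W * (n + 1) = W * n + W := by ring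
    omega
  have hmem : ∀ u e : ℕ, 0 < e → (∀ j < k, u + j * e ∈ A) → (W * u + b, W * e) ∈ APk k Y := by
    intro u e he hu
    have h0 : u ∈ A := by simpa using hu 0 (by omega)
    have h1 := hle _ (hu 1 (by omega))
    have h2 := hle _ h0
    have e1 : W * (u + 1 * e) = W * u + W * e := by ring
    unfold APk
    simp only [mem_filter, mem_product, mem_range]
    refine ⟨⟨by omega, by omega⟩, (hA u h0).2.2, Nat.mul_pos (by omega) he, fun j hj => ?_⟩
    rw [show W * u + b + j * (W * e) = W * (u + j * e) + b by ring]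
    exact ⟨hle _ (hu j hj), (hA _ (hu j hj)).2.1⟩
  have hT : ∀ p ∈ TT k N A, ∀ j < k, (p.1 + (j : ZMod N) * p.2).val ∈ A :=
    fun p hp => (mem_filter.1 hp).2
  have hP : ∀ p ∈ TT k N A, ∀ j < k, ((p.1 + (j : ZMod N) * p.2).val : ℤ)
      = p.1.val + j * (((p.1 + p.2).val : ℤ) - p.1.val) :=
    fun p hp => prog p.1 p.2 k fun j hj => (hA _ (hT p hp j hj)).1
  have hinj : ∀ x y : ZMod N, W * x.val + b = W * y.val + b → x = y := by
    intro x y h
    have h1 : W * x.val = W * y.val := by omega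
    exact ZMod.val_injective N (Nat.eq_of_mul_eq_mul_left (by omega) h1)
  have hsub : TT k N A ⊆ ((TT k N A).filter fun p => p.2 = 0) ∪
      (((TT k N A).filter fun p => p.1.val < (p.1 + p.2).val) ∪
        ((TT k N A).filter fun p => (p.1 + p.2).val < p.1.val)) := by
    intro p hp
    simp only [mem_union, mem_filter]
    rcases lt_trichotomy p.1.val (p.1 + p.2).val with h | h | h
    · exact Or.inr (Or.inl ⟨hp, h⟩)
    · left
      refine ⟨hp, ?_⟩
      have := ZMod.val_injective N h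
      simpa using this
    · exact Or.inr (Or.inr ⟨hp, h⟩)
  have h0 : ((TT k N A).filter fun p => p.2 = 0).card ≤ N := by
    have : ((TT k N A).filter fun p => p.2 = 0).card ≤ (univ : Finset (ZMod N)).card := by
      refine card_le_card_of_injOn (fun p => p.1) (fun _ _ => mem_coe.2 (mem_univ _)) ?_
      intro p hp q hq h
      have hp' := (mem_filter.1 (mem_coe.1 hp)).2
      have hq' := (mem_filter.1 (mem_coe.1 hq)).2
      exact Prod.ext h (by rw [hp', hq'])
    simpa [ZMod.card] using this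
  have h1 : ((TT k N A).filter fun p => p.1.val < (p.1 + p.2).val).card ≤ (APk k Y).card := by
    refine card_le_card_of_injOn
      (fun p => (W * p.1.val + b, W * ((p.1 + p.2).val - p.1.val))) ?_ ?_
    · intro p hp
      obtain ⟨hp1, hp2⟩ := mem_filter.1 (mem_coe.1 hp)
      refine mem_coe.2 (hmem _ _ (by omega) fun j hj => ?_)
      have e : p.1.val + j * ((p.1 + p.2).val - p.1.val) = (p.1 + (j : ZMod N) * p.2).val := by
        have := hP p hp1 j hj
        zify [hp2.le]
        exact this.symm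
      rw [e]
      exact hT p hp1 j hj
    · intro p hp q hq h
      have hp2 := (mem_filter.1 (mem_coe.1 hp)).2
      have hq2 := (mem_filter.1 (mem_coe.1 hq)).2
      have e1 := hinj _ _ (congrArg Prod.fst h)
      have e2 := Nat.eq_of_mul_eq_mul_left (show 0 < W by omega) (congrArg Prod.snd h)
      refine Prod.ext e1 ?_
      rw [e1] at e2 hp2
      have e3 : (q.1 + p.2).val = (q.1 + q.2).val := by omega
      exact add_left_cancel (ZMod.val_injective N e3)
  have h2 : ((TT k N A).filter fun p => (p.1 + p.2).val < p.1.val).card ≤ (APk k Y).card := by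
    refine card_le_card_of_injOn
      (fun p => (W * (p.1 + ((k - 1 : ℕ) : ZMod N) * p.2).val + b,
        W * (p.1.val - (p.1 + p.2).val))) ?_ ?_
    · intro p hp
      obtain ⟨hp1, hp2⟩ := mem_filter.1 (mem_coe.1 hp)
      refine mem_coe.2 (hmem _ _ (by omega) fun j hj => ?_)
      have e : (p.1 + ((k - 1 : ℕ) : ZMod N) * p.2).val + j * (p.1.val - (p.1 + p.2).val)
          = (p.1 + ((k - 1 - j : ℕ) : ZMod N) * p.2).val := by
        have a1 := hP p hp1 (k - 1) (by omega)
        have a2 := hP p hp1 (k - 1 - j) (by omega)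
        have a3 : ((k - 1 - j : ℕ) : ℤ) = ((k - 1 : ℕ) : ℤ) - j := Nat.cast_sub (by omega)
        rw [a3] at a2
        apply Nat.cast_injective (R := ℤ)
        rw [Nat.cast_add, Nat.cast_mul, Nat.cast_sub hp2.le, a1, a2]
        ring
      rw [e]
      exact hT p hp1 _ (by omega)
    · intro p hp q hq h
      have hp2 := (mem_filter.1 (mem_coe.1 hp)).2
      have hq2 := (mem_filter.1 (mem_coe.1 hq)).2
      have e1 := hinj _ _ (congrArg Prod.fst h)
      have e2 := Nat.eq_of_mul_eq_mul_left (show 0 < W by omega) (congrArg Prod.snd h)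
      have e3 : p.2 = q.2 := by
        have a1 := congrArg (Nat.cast : ℕ → ZMod N) e2
        rw [Nat.cast_sub hp2.le, Nat.cast_sub hq2.le] at a1
        simp only [ZMod.natCast_val, ZMod.cast_id', id_eq] at a1
        linear_combination -a1
      refine Prod.ext ?_ e3
      rw [e3] at e1
      exact add_right_cancel e1
  have h3 := card_le_card hsub
  have h4 := card_union_le ((TT k N A).filter fun p => p.2 = 0)
      (((TT k N A).filter fun p => p.1.val < (p.1 + p.2).val) ∪
        ((TT k N A).filter fun p => (p.1 + p.2).val < p.1.val))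
  have h5 := card_union_le ((TT k N A).filter fun p => p.1.val < (p.1 + p.2).val)
        ((TT k N A).filter fun p => (p.1 + p.2).val < p.1.val)
  omega

lemma sum_f (N : ℕ) [NeZero N] (A : Finset ℕ) (hA : ∀ n ∈ A, n < N) (G : ℝ) :
    ∑ x : ZMod N, (if x.val ∈ A then G else 0) = G * A.card := by
  rw [← sum_filter, sum_const, nsmul_eq_mul, mul_comm]
  congr 2
  refine card_bij (fun x _ => x.val) ?_ ?_ ?_
  · intro x hx
    exact (mem_filter.1 hx).2
  · intro x _ y _ h
    exact ZMod.val_injective N h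
  · intro n hn
    refine ⟨(n : ZMod N), ?_, ZMod.val_cast_of_lt (hA n hn)⟩
    simp only [mem_filter, mem_univ, true_and]
    rw [ZMod.val_cast_of_lt (hA n hn)]
    exact hn

lemma lam_f (k N : ℕ) [NeZero N] (A : Finset ℕ) (G : ℝ) :
    lam k N (fun x => if x.val ∈ A then G else 0) = G ^ k * (TT k N A).card / (N : ℝ) ^ 2 := by
  unfold lam TT av
  rw [Fintype.card_prod, ZMod.card, Nat.cast_mul, ← sq, card_filter, Nat.cast_sum, mul_sum]
  congr 1
  refine sum_congr rfl fun p _ => ?_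
  beta_reduce
  by_cases h : ∀ j < k, (p.1 + (j : ZMod N) * p.2).val ∈ A
  · rw [if_pos h, Finset.prod_congr rfl fun (j : Fin k) _ => if_pos (h j j.2)]
    simp
  · rw [if_neg h]
    push Not at h
    obtain ⟨j, hj, h⟩ := h
    rw [Nat.cast_zero, mul_zero]
    exact Finset.prod_eq_zero (mem_univ (⟨j, hj⟩ : Fin k)) (if_neg h)

lemma log_small (k : ℕ) (c : ℝ) (hc : 0 < c) : ∃ N₂ : ℕ, ∀ N : ℕ, N₂ ≤ N →
    Real.log N ^ k ≤ c * N := by
  have h := (Real.isLittleO_pow_log_id_atTop (n := k)).bound hc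
  obtain ⟨x, hx⟩ := Filter.eventually_atTop.1 h
  refine ⟨⌈x⌉₊, fun N hN => ?_⟩
  have h1 : x ≤ (N : ℝ) := (Nat.le_ceil x).trans (by exact_mod_cast hN)
  have h2 := hx N h1
  simp only [id, Real.norm_eq_abs, Nat.abs_cast] at h2
  exact (le_abs_self _).trans h2

end ProgKAux

open ProgKAux in
/-- the Green-Tao theorem with a lower bound for the number of progressions -/
theorem many_APk (k : ℕ) (hk : 2 ≤ k) : ∃ c : ℝ, 0 < c ∧ ∃ Y₀ : ℕ, ∀ Y : ℕ, Y₀ ≤ Y →
    c * (Y : ℝ) ^ 2 / Real.log Y ^ k ≤ (APk k Y).card := by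
  obtain ⟨δ, hδ, hM⟩ := majorK k hk
  obtain ⟨η, hη, hη1, c, hc, N₀, hT⟩ := relSz k hk δ hδ
  obtain ⟨W, hW, N₁, hM⟩ := hM η hη hη1
  set B : ℝ := 20 ^ k with hB
  have hB0 : 0 < B := by positivity
  obtain ⟨N₂, hL⟩ := log_small k (c / (2 * B)) (by positivity)
  have hW0 : (0 : ℝ) < W := by exact_mod_cast hW
  refine ⟨c / (16 * B * (W : ℝ) ^ 2), by positivity, 2 * W * (N₀ + N₁ + N₂ + 1), fun Y hY => ?_⟩
  have hn : N₀ + N₁ + N₂ + 1 ≤ Y / (2 * W) := by
    rw [Nat.le_div_iff_mul_le (by omega), mul_comm]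
    exact hY
  obtain ⟨N, hNp, hN1, hN2⟩ := Nat.exists_prime_lt_and_le_two_mul (Y / (2 * W)) (by omega)
  have : NeZero N := ⟨hNp.ne_zero⟩
  have hWN : W * N ≤ Y := by
    have h1 : W * N ≤ W * (2 * (Y / (2 * W))) := Nat.mul_le_mul_left _ hN2
    have h2 : Y / (2 * W) * (2 * W) ≤ Y := Nat.div_mul_le_self _ _
    have h3 : W * (2 * (Y / (2 * W))) = Y / (2 * W) * (2 * W) := by ring
    omega
  have hYN : Y ≤ 2 * W * N := by
    have h1 := (Nat.div_lt_iff_lt_mul (show 0 < 2 * W by omega)).1 hN1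
    rw [mul_comm] at h1
    exact h1.le
  obtain ⟨b, hb, A, G, ν, hA, hG0, hG1, hν0, hνA, hdens, hLF⟩ := hM N hNp (by omega)
  have hN0 : (0 : ℝ) < N := by exact_mod_cast hNp.pos
  have hlam := hT N hNp (by omega) ν (fun x => if x.val ∈ A then G else 0)
    (fun x => by
      by_cases h : x.val ∈ A
      · simp [h, hG0.le, hνA x h]
      · simp [h, hν0 x])
    (by
      unfold av
      rw [sum_f N A (fun n hn => by have := (hA n hn).1; omega), ZMod.card, le_div_iff₀ hN0]
      exact hdens) hLF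
  rw [lam_f] at hlam
  have hN1' : (1 : ℝ) < N := by exact_mod_cast hNp.one_lt
  have hcard : ((TT k N A).card : ℝ) ≤ N + 2 * (APk k Y).card := by
    exact_mod_cast card_TT k hk N W b Y hW hb hWN A hA
  rw [le_div_iff₀ (by positivity)] at hlam
  have hlogN : 0 < Real.log N := Real.log_pos hN1'
  have hNY : (N : ℝ) ≤ Y := by
    have : N ≤ Y := le_trans (Nat.le_mul_of_pos_left N (by omega)) hWN
    exact_mod_cast this
  have hlogY : Real.log N ≤ Real.log Y := Real.log_le_log hN0 hNY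
  have hG3 : G ^ k ≤ B * Real.log N ^ k := by
    have := pow_le_pow_left₀ hG0.le hG1 k
    rwa [mul_pow] at this
  have hl3 : Real.log N ^ k ≤ Real.log Y ^ k := pow_le_pow_left₀ hlogN.le hlogY k
  have hsm := hL N (by omega)
  have hP : (0 : ℝ) ≤ (APk k Y).card := Nat.cast_nonneg _
  have k1 : c * (N : ℝ) ^ 2 ≤ B * Real.log N ^ k * (N + 2 * (APk k Y).card) :=
    hlam.trans (mul_le_mul hG3 hcard (Nat.cast_nonneg _) (by positivity))
  have k2 : B * (Real.log N ^ k * N) ≤ c / 2 * (N : ℝ) ^ 2 := by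
    calc B * (Real.log N ^ k * N) ≤ B * (c / (2 * B) * N * N) := by gcongr
      _ = _ := by field_simp
  have k3 : B * (Real.log N ^ k * (APk k Y).card) ≤ B * (Real.log Y ^ k * (APk k Y).card) := by
    gcongr
  have k4 : c * (N : ℝ) ^ 2 ≤ 4 * B * (Real.log Y ^ k * (APk k Y).card) := by linarith
  have k5 : (Y : ℝ) ^ 2 ≤ (2 * W * N) ^ 2 :=
    pow_le_pow_left₀ (Nat.cast_nonneg _) (by exact_mod_cast hYN) 2
  have hlY : 0 < Real.log Y ^ k := pow_pos (hlogN.trans_le hlogY) k
  rw [div_le_iff₀ hlY, div_mul_eq_mul_div, div_le_iff₀ (by positivity)]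
  have k6 : c * (Y : ℝ) ^ 2 ≤ c * (2 * W * N) ^ 2 := mul_le_mul_of_nonneg_left k5 hc.le
  have k7 : c * (N : ℝ) ^ 2 * (4 * (W : ℝ) ^ 2) ≤
      4 * B * (Real.log Y ^ k * (APk k Y).card) * (4 * (W : ℝ) ^ 2) :=
    mul_le_mul_of_nonneg_right k4 (by positivity)
  calc c * (Y : ℝ) ^ 2 ≤ c * (2 * W * N) ^ 2 := k6
    _ = c * (N : ℝ) ^ 2 * (4 * (W : ℝ) ^ 2) := by ring
    _ ≤ _ := k7
    _ = _ := by ring

end Pool.Agent.Lib.MP_4b8564_nt.GT
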