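import Pool.Agent.Lib.MP_4b8564_nt.GT.Opp
import Pool.Agent.Lib.MP_4b8564_nt.GT.ProgK

/-!
Both signs of `S(1,1;c)` for moduli with exactly `k ≥ 3` prime factors.
-/

open Finset

noncomputable section

namespace Pool.Agent.Lib.MP_4b8564_nt.GT

open Sg Sg.KlooAux Sg.CountAux

namespace ExactAux

theorem bound (M : Finset ℕ) : ∃ L : ℕ, 1 ≤ L ∧ ∀ m ∈ M, ∀ m' ∈ M, m * m' ≤ L :=
  ⟨M.sup id * M.sup id + 1, by omega, fun m hm m' hm' =>
    (Nat.mul_le_mul (le_sup (f := id) hm) (le_sup (f := id) hm')).trans (Nat.le_succ _)⟩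

theorem of_mem {L Y : ℕ} {x : ℕ × ℕ} (hx : x ∈ APk (2 * L + 1) Y) :
    L < x.1 + L * x.2 ∧ 2 < x.1 + L * x.2 ∧ 0 < x.2 ∧
      ∀ i ≤ L, x.1 + L * x.2 + i * x.2 ≤ Y ∧ (x.1 + L * x.2 + i * x.2).Prime := by
  obtain ⟨h1, h2, h3⟩ := (mem_filter.1 hx).2
  have : L ≤ L * x.2 := Nat.le_mul_of_pos_right L h2
  refine ⟨by omega, by omega, h2, fun i hi => ?_⟩
  have := h3 (L + i) (by omega)
  rwa [add_mul, ← add_assoc] at this

theorem opp_odd (n : ℕ) : ∃ M : Finset ℕ, Opp (2 * n + 1) M := by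
  induction n with
  | zero => exact ⟨_, opp_one⟩
  | succ n ih =>
    obtain ⟨M, hM⟩ := ih
    obtain ⟨L, hL1, hL⟩ := bound M
    obtain ⟨c, hc, Y₀, hY⟩ := many_APk (2 * L + 1) (by omega)
    have h1 := hY (Y₀ + 2) (by omega)
    have h2 : (1 : ℝ) < (Y₀ + 2 : ℕ) := by exact_mod_cast (by omega : 1 < Y₀ + 2)
    have h3 := Real.log_pos h2
    have h4 : (0 : ℝ) < (APk (2 * L + 1) (Y₀ + 2)).card := lt_of_lt_of_le (by positivity) h1
    obtain ⟨x, hx⟩ := card_pos.1 (by exact_mod_cast h4 : 0 < (APk (2 * L + 1) (Y₀ + 2)).card)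
    obtain ⟨a, b, d, e⟩ := of_mem hx
    exact ⟨_, opp_step hM hL a b d fun i hi => (e i hi).2⟩

theorem count (M : Finset ℕ) (L Y e : ℕ) (he : 0 < e) (hM : ∀ m ∈ M, 0 < m) (Gd : Finset ℕ)
    (h : ∀ x ∈ APk (2 * L + 1) Y, ∃ c ∈ nxt M L (x.1 + L * x.2) x.2, e * c ∈ Gd) :
    (APk (2 * L + 1) Y).card ≤ (idx M L).card * Gd.card := by
  have sub : APk (2 * L + 1) Y ⊆ (idx M L).biUnion fun y => (APk (2 * L + 1) Y).filter fun x =>
      e * (y.1 * (x.1 + L * x.2 + y.2.1 * x.2) * (x.1 + L * x.2 + y.2.2 * x.2)) ∈ Gd := by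
    intro x hx
    obtain ⟨c, hc, hG⟩ := h x hx
    obtain ⟨y, hy, rfl⟩ := mem_image.1 hc
    exact mem_biUnion.2 ⟨y, hy, mem_filter.2 ⟨hx, hG⟩⟩
  refine (card_le_card sub).trans (card_biUnion_le_card_mul _ _ _ fun y hy => ?_)
  obtain ⟨m, i, i'⟩ := y
  obtain ⟨hy1, hy2⟩ := mem_filter.1 hy
  simp only [mem_product, mem_range] at hy1 hy2
  obtain ⟨hm, hi, hi'⟩ := hy1
  refine card_le_card_of_injOn
    (fun x => e * (m * (x.1 + L * x.2 + i * x.2) * (x.1 + L * x.2 + i' * x.2)))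
    (fun x hx => (mem_filter.1 hx).2) fun x hx z hz E => ?_
  obtain ⟨_, _, a, b⟩ := of_mem (mem_filter.1 hx).1
  obtain ⟨_, _, a', b'⟩ := of_mem (mem_filter.1 hz).1
  have E1 := Nat.eq_of_mul_eq_mul_left he E
  rw [mul_assoc, mul_assoc] at E1
  have E2 := Nat.eq_of_mul_eq_mul_left (hM m hm) E1
  obtain ⟨f, g⟩ := prime_pair (b i (by omega)).2 (b i' (by omega)).2 (b' i (by omega)).2
    (b' i' (by omega)).2 (by nlinarith) (by nlinarith) E2
  obtain ⟨r, rfl⟩ := Nat.exists_eq_add_of_lt hy2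
  have k : (r + 1) * x.2 = (r + 1) * z.2 := by nlinarith
  have k2 := Nat.eq_of_mul_eq_mul_left (Nat.succ_pos r) k
  rw [k2] at f
  exact Prod.ext (by omega) k2

theorem scale (c : ℝ) (hc : 0 < c) (K A Y₀ : ℕ) (hK : 0 < K) : ∃ X₀ : ℕ, ∀ X : ℕ, X₀ ≤ X →
    ∃ Y : ℕ, Y₀ ≤ Y ∧ K * Y * Y ≤ X ∧
      c / (4 * K) * X / Real.log X ^ A ≤ c * (Y : ℝ) ^ 2 / Real.log Y ^ A := by
  refine ⟨K * (Y₀ + 2) ^ 2, fun X hX => ?_⟩
  have h2 : Y₀ + 2 ≤ Nat.sqrt (X / K) :=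
    Nat.le_sqrt'.2 ((Nat.le_div_iff_mul_le hK).2 (by rwa [mul_comm]))
  have h3 := Nat.lt_succ_sqrt (X / K)
  have h4 := Nat.sqrt_le (X / K)
  have h8 := Nat.mul_div_le X K
  have h9 := Nat.lt_mul_div_succ X hK
  set Y := Nat.sqrt (X / K)
  have h10 : K * Y * Y ≤ X := by
    rw [mul_assoc]; exact (Nat.mul_le_mul_left K h4).trans h8
  refine ⟨Y, by omega, h10, ?_⟩
  have h5 : X ≤ 4 * K * Y ^ 2 := by
    have : X / K + 1 ≤ 4 * Y ^ 2 := by nlinarith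
    have := Nat.mul_le_mul_left K this
    nlinarith
  have h6 : Y ≤ X := by
    have : 1 * Y * 1 ≤ K * Y * Y := Nat.mul_le_mul (Nat.mul_le_mul_right Y hK) (by omega)
    omega
  have hY : (1 : ℝ) < Y := by exact_mod_cast (by omega : 1 < Y)
  have l1 : 0 < Real.log Y := Real.log_pos hY
  have l2 : Real.log Y ≤ Real.log X := Real.log_le_log (by linarith) (by exact_mod_cast h6)
  have h7 : (X : ℝ) ≤ 4 * K * (Y : ℝ) ^ 2 := by exact_mod_cast h5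
  have hK' : (0 : ℝ) < K := by exact_mod_cast hK
  calc c / (4 * K) * X / Real.log X ^ A
      ≤ c / (4 * K) * (4 * K * (Y : ℝ) ^ 2) / Real.log Y ^ A := by gcongr
    _ = _ := by field_simp

theorem KS_mul {e c : ℕ} (he : e = 1 ∨ e = 2) (hc : Odd c) : KS (e * c) = R c e := by
  have h0 := hc.pos
  rcases he with rfl | rfl
  · have : NeZero c := ⟨h0.ne'⟩
    rw [one_mul, KS_eq_S, R_eq]
  · have : NeZero (2 * c) := ⟨by omega⟩
    rw [KS_eq_S, ← R_eq, R_mul two_ne_zero h0.ne' (Nat.coprime_two_left.2 hc) 1 (by simp) (by simp),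
      R_eq 2, S_two, one_mul, one_mul]

end ExactAux

open ExactAux

theorem exact_signs (k : ℕ) (hk : 3 ≤ k) : ∃ A : ℕ, ∃ δ : ℝ, 0 < δ ∧ ∃ X₀ : ℕ, ∀ X : ℕ, X₀ ≤ X →
    δ * X / Real.log X ^ A ≤
      (((Icc 1 X).filter fun c => Squarefree c ∧ c.primeFactors.card = k ∧ 0 < KS c).card : ℝ) ∧
    δ * X / Real.log X ^ A ≤
      (((Icc 1 X).filter fun c => Squarefree c ∧ c.primeFactors.card = k ∧ KS c < 0).card : ℝ) := by
  obtain ⟨n, e, he, hke⟩ : ∃ n e : ℕ, (e = 1 ∨ e = 2) ∧ k = 2 * n + 1 + 2 + (e - 1) :=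
    ⟨(k - 3) / 2, (k - 3) % 2 + 1, by omega, by omega⟩
  obtain ⟨M, hM⟩ := opp_odd n
  obtain ⟨L, hL1, hL⟩ := bound M
  obtain ⟨c, hc, Y₀, hY⟩ := many_APk (2 * L + 1) (by omega)
  obtain ⟨X₀, hX⟩ := ExactAux.scale c hc (2 * L) (2 * L + 1) Y₀ (by omega)
  have pos : ∀ m ∈ M, 0 < m := fun m hm => (hM.1 m hm).2.1.pos
  have hI : (0 : ℝ) < (idx M L).card + 1 := by positivity
  have hL' : (0 : ℝ) < (2 * L : ℕ) := by exact_mod_cast (by omega : 0 < 2 * L)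
  refine ⟨2 * L + 1, c / (4 * (2 * L : ℕ)) / ((idx M L).card + 1), by positivity, X₀, fun X h => ?_⟩
  obtain ⟨Y, h1, h2, h3⟩ := hX X h
  have h4 := h3.trans (hY Y h1)
  have fin : ∀ Gd : Finset ℕ, (APk (2 * L + 1) Y).card ≤ (idx M L).card * Gd.card →
      c / (4 * (2 * L : ℕ)) / ((idx M L).card + 1) * X / Real.log X ^ (2 * L + 1) ≤
        (Gd.card : ℝ) := fun Gd hG => by
    have a : ((APk (2 * L + 1) Y).card : ℝ) ≤ (idx M L).card * Gd.card := by exact_mod_cast hG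
    have b : (0 : ℝ) ≤ Gd.card := by positivity
    rw [div_mul_eq_mul_div, div_right_comm, div_le_iff₀ hI]
    nlinarith
  have key : ∀ x ∈ APk (2 * L + 1) Y, Opp (2 * n + 1 + 2) (nxt M L (x.1 + L * x.2) x.2) ∧
      ∀ c ∈ nxt M L (x.1 + L * x.2) x.2, Nat.Coprime e c ∧ KS (e * c) = R c e ∧
        e * c ∈ Icc 1 X ∧ Squarefree (e * c) ∧ (e * c).primeFactors.card = k := by
    intro x hx
    obtain ⟨a, b, d, f⟩ := of_mem hx
    have O := opp_step hM hL a b d fun i hi => (f i hi).2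
    refine ⟨O, fun c hc => ?_⟩
    obtain ⟨s1, s2, s3⟩ := O.1 c hc
    have cop : Nat.Coprime e c := by
      rcases he with rfl | rfl
      · simp
      · exact Nat.coprime_two_left.2 s2
    refine ⟨cop, KS_mul he s2, mem_Icc.2 ⟨Nat.mul_pos (by omega) s2.pos, ?_⟩, ?_, ?_⟩
    · obtain ⟨⟨m, i, i'⟩, hy, rfl⟩ := mem_image.1 hc
      obtain ⟨hy1, hy2⟩ := mem_filter.1 hy
      simp only [mem_product, mem_range] at hy1 hy2
      obtain ⟨hm, hi, hi'⟩ := hy1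
      refine le_trans ?_ h2
      rw [mul_assoc 2, mul_assoc 2]
      exact Nat.mul_le_mul (by omega) (Nat.mul_le_mul (Nat.mul_le_mul
        ((Nat.le_mul_self m).trans (hL m hm m hm)) (f i (by omega)).1) (f i' (by omega)).1)
    · refine (Nat.squarefree_mul cop).2 ⟨?_, s1⟩
      rcases he with rfl | rfl
      · exact squarefree_one
      · exact Nat.prime_two.squarefree
    · rw [card_mul cop, s3, hke]
      rcases he with rfl | rfl
      · simp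
      · simp [Nat.prime_two.primeFactors]; omega
  constructor
  · refine fin _ (ExactAux.count M L Y e (by omega) pos _ fun x hx => ?_)
    obtain ⟨O, K⟩ := key x hx
    obtain ⟨c, hc, s⟩ := (O.2 e fun m hm => (K m hm).1).1
    obtain ⟨_, a, b, d, f⟩ := K c hc
    exact ⟨c, hc, mem_filter.2 ⟨b, d, f, a ▸ s⟩⟩
  · refine fin _ (ExactAux.count M L Y e (by omega) pos _ fun x hx => ?_)
    obtain ⟨O, K⟩ := key x hx
    obtain ⟨c, hc, s⟩ := (O.2 e fun m hm => (K m hm).1).2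
    obtain ⟨_, a, b, d, f⟩ := K c hc
    exact ⟨c, hc, mem_filter.2 ⟨b, d, f, a ▸ s⟩⟩

end Pool.Agent.Lib.MP_4b8564_nt.GT
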