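import Pool.Agent.Lib.MP_4b8564_nt.GT.Subs

open Finset Combinatorics
open scoped Classical

noncomputable section

namespace Pool.Agent.Lib.MP_4b8564_nt.GT

namespace UnionsAux

/-- a system of disjoint nonempty sets indexed by `η`, all of whose unions satisfy `c` -/
def Sys (η : Type) {ι : Type} (c : (ι → Bool) → Prop) : Prop :=
  ∃ φ : ι → Option η, (∀ e, ∃ i, φ i = some e) ∧
    ∀ s : η → Bool, (∃ e, s e = true) → c fun i => (φ i).elim false s

theorem Sys.pull {η ι κ : Type} {c : (ι → Bool) → Prop} (ψ : ι → Option κ)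
    (hψ : ∀ k, ∃ i, ψ i = some k) (h : Sys η fun u : κ → Bool => c fun i => (ψ i).elim false u) :
    Sys η c := by
  obtain ⟨φ, h1, h2⟩ := h
  refine ⟨fun i => (ψ i).bind φ, fun e => ?_, fun s hs => ?_⟩
  · obtain ⟨k, hk⟩ := h1 e
    obtain ⟨i, hi⟩ := hψ k
    exact ⟨i, by simp [hi, hk]⟩
  · convert h2 s hs using 2 with i
    cases h : ψ i <;> simp [h]

theorem Sys.equiv {η η' ι : Type} {c : (ι → Bool) → Prop} (f : η ≃ η') (h : Sys η c) :
    Sys η' c := by
  obtain ⟨φ, h1, h2⟩ := h
  refine ⟨fun i => (φ i).map f, fun e => ?_, fun s ⟨e, he⟩ => ?_⟩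
  · obtain ⟨i, hi⟩ := h1 (f.symm e)
    exact ⟨i, by simp [hi]⟩
  · convert h2 (fun a => s (f a)) ⟨f.symm e, by simpa using he⟩ using 2 with i
    cases h : φ i <;> simp [h]

theorem sys_zero {ι : Type} (c : (ι → Bool) → Prop) : Sys (Fin 0) c :=
  ⟨fun _ => none, fun e => e.elim0, fun _ ⟨e, _⟩ => e.elim0⟩

/-- the variable places of a subspace -/
def vars {η ι : Type} (V : Subspace η Bool ι) : Option ι → Option η :=
  fun o => o.bind fun i => (V.idxFun i).getRight?

theorem vars_surj {η ι : Type} (V : Subspace η Bool ι) (e : η) : ∃ o, vars V o = some e := by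
  obtain ⟨i, hi⟩ := V.proper e
  exact ⟨some i, by simp [vars, hi]⟩

theorem Sys.step {η κ ι : Type} {c : (Option ι → Bool) → Prop} (V : Subspace κ Bool ι)
    (hV : ∀ x, c fun o => o.elim true (V x))
    (h : Sys η fun u : κ → Bool => c fun o => (vars V o).elim false u) : Sys (Option η) c := by
  obtain ⟨φ, h1, h2⟩ := h
  refine ⟨fun o => o.elim (some none) fun i => (V.idxFun i).elim
    (fun b => if b then some none else none) fun k => (φ k).map some, fun e => ?_, fun s hs => ?_⟩
  · cases e with
    | none => exact ⟨none, rfl⟩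
    | some e =>
      obtain ⟨k, hk⟩ := h1 e
      obtain ⟨i, hi⟩ := V.proper k
      exact ⟨some i, by simp [hi, hk]⟩
  · cases h0 : s none with
    | true =>
      convert hV (fun k => (φ k).elim false fun e => s (some e)) using 2 with o
      cases o with
      | none => simpa using h0
      | some i =>
        simp only [Option.elim_some, Subspace.coe_apply]
        cases V.idxFun i with
        | inl b => cases b <;> simp [h0]
        | inr k => cases hk : φ k <;> simp [hk]
    | false =>
      obtain ⟨e, he⟩ := hs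
      cases e with
      | none => rw [h0] at he; exact absurd he (by simp)
      | some e =>
        convert h2 (fun e => s (some e)) ⟨e, he⟩ using 2 with o
        cases o with
        | none => simpa [vars] using h0
        | some i =>
          simp only [Option.elim_some, vars, Option.bind_some]
          cases V.idxFun i with
          | inl b => cases b <;> simp [h0]
          | inr k => cases hk : φ k <;> simp [hk]

def PP (s t : ℕ) : Prop := ∃ (ι : Type) (_ : Finite ι), ∀ c : (ι → Bool) → Prop,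
  Sys (Fin s) c ∨ Sys (Fin t) fun u => ¬ c u

theorem pp_step {s t : ℕ} (h1 : PP s (t + 1)) (h2 : PP (s + 1) t) : PP (s + 1) (t + 1) := by
  obtain ⟨A, _, hA⟩ := h1
  obtain ⟨B, _, hB⟩ := h2
  obtain ⟨ι, _, hι⟩ := Subspace.exists_mono_in_high_dimension Bool Prop (A ⊕ B)
  refine ⟨Option ι, inferInstance, fun c => ?_⟩
  obtain ⟨V, p, hp⟩ := hι fun x => c fun o => o.elim true x
  have sA : ∀ a : A, ∃ i : A ⊕ B, Sum.getLeft? i = some a := fun a => ⟨Sum.inl a, rfl⟩
  have sB : ∀ a : B, ∃ i : A ⊕ B, Sum.getRight? i = some a := fun a => ⟨Sum.inr a, rfl⟩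
  by_cases h : p
  · rcases hA fun w => c fun o => (vars V o).elim false fun k => (Sum.getLeft? k).elim false w
      with h3 | h3
    · exact Or.inl ((Sys.step V (fun x => (hp x).mpr h) (Sys.pull _ sA h3)).equiv
        (finSuccEquiv s).symm)
    · exact Or.inr (Sys.pull _ (vars_surj V) (Sys.pull _ sA h3))
  · rcases hB fun w => c fun o => (vars V o).elim false fun k => (Sum.getRight? k).elim false w
      with h3 | h3
    · exact Or.inl (Sys.pull _ (vars_surj V) (Sys.pull _ sB h3))
    · exact Or.inr ((Sys.step (c := fun u => ¬ c u) V (fun x hx => h ((hp x).mp hx))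
        (Sys.pull _ sB h3)).equiv (finSuccEquiv t).symm)

theorem pp (s t : ℕ) : PP s t := by
  induction s generalizing t with
  | zero => exact ⟨Empty, inferInstance, fun c => Or.inl (sys_zero c)⟩
  | succ s ih =>
    induction t with
    | zero => exact ⟨Empty, inferInstance, fun c => Or.inr (sys_zero _)⟩
    | succ t iht => exact pp_step (ih _) iht

end UnionsAux

open UnionsAux in
/-- the finite unions theorem -/
theorem unions (m : ℕ) : ∃ n : ℕ, ∀ c : (Fin n → Bool) → Prop, ∃ φ : Fin n → Option (Fin m),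
    (∀ e, ∃ i, φ i = some e) ∧
      ((∀ s : Fin m → Bool, (∃ e, s e = true) → c fun i => (φ i).elim false s) ∨
        ∀ s : Fin m → Bool, (∃ e, s e = true) → ¬ c fun i => (φ i).elim false s) := by
  obtain ⟨ι, _, h⟩ := pp m m
  obtain ⟨n, ⟨f⟩⟩ := Finite.exists_equiv_fin ι
  refine ⟨n, fun c => ?_⟩
  have hs : ∀ k : ι, ∃ i : Fin n, some (f.symm i) = some k := fun k => ⟨f k, by simp⟩
  rcases h fun u => c fun i => (some (f.symm i)).elim false u with h1 | h1
  · obtain ⟨φ, h2, h3⟩ := Sys.pull _ hs h1
    exact ⟨φ, h2, Or.inl h3⟩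
  · obtain ⟨φ, h2, h3⟩ := Sys.pull (c := fun u => ¬ c u) _ hs h1
    exact ⟨φ, h2, Or.inr h3⟩

end Pool.Agent.Lib.MP_4b8564_nt.GT
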