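import Pool.Agent.Lib.MP_4b8564_nt.GT.Insens
import Pool.Agent.Lib.MP_4b8564_nt.GT.Unions

open Finset Combinatorics
open scoped Classical

noncomputable section

namespace Pool.Agent.Lib.MP_4b8564_nt.GT

/-- the Graham-Rothschild theorem for lines -/
theorem gr (α : Type) [Fintype α] [Nonempty α] (m : ℕ) :
    ∃ n : ℕ, ∀ C : (Fin n → Option α) → Prop, ∃ V : Subspace (Fin m) α (Fin n),
      (∀ w, HasVar w → C (lift V w)) ∨ ∀ w, HasVar w → ¬ C (lift V w) := by
  obtain ⟨a₀⟩ := ‹Nonempty α›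
  obtain ⟨n₁, h₁⟩ := unions m
  obtain ⟨n, h₂⟩ := insens α n₁ Prop
  refine ⟨n, fun C => ?_⟩
  obtain ⟨V₀, hV⟩ := h₂ C
  obtain ⟨φ, hφ, hc⟩ := h₁ fun s => C (lift V₀ fun i => if s i = true then none else some a₀)
  let U : Subspace (Fin m) α (Fin n₁) :=
    { idxFun := fun i => (φ i).elim (Sum.inl a₀) Sum.inr
      proper := fun e => by
        obtain ⟨i, hi⟩ := hφ e
        exact ⟨i, by simp [hi]⟩ }
  have key : ∀ w : Fin m → Option α, C (lift (comp V₀ U) w) =
      C (lift V₀ fun i => if (φ i).elim false (fun e => (w e).isNone) = true then none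
        else some a₀) := by
    intro w
    rw [lift_comp, comp_apply]
    refine hV _ _ fun i => ?_
    cases h : φ i with
    | none => simp [lift, U, Subspace.coe_apply, h]
    | some e => cases hw : w e <;> simp [lift, U, Subspace.coe_apply, h, hw]
  have hs : ∀ w : Fin m → Option α, HasVar w → ∃ e, (w e).isNone = true := by
    rintro w ⟨e, he⟩
    exact ⟨e, by simp [he]⟩
  refine ⟨comp V₀ U, hc.imp (fun h w hw => ?_) fun h w hw => ?_⟩
  · rw [key]
    exact h _ (hs w hw)
  · rw [key]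
    exact h _ (hs w hw)

end Pool.Agent.Lib.MP_4b8564_nt.GT
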