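import Pool.Agent.Lib.MP_4b8564_nt.GT.Subs

open Finset Combinatorics
open scoped Classical

noncomputable section

namespace Pool.Agent.Lib.MP_4b8564_nt.GT

namespace InsensAux

/-- a line on the left block, a subspace on the right block -/
def cons {α ι κ : Type} {m : ℕ} (L : Line α ι) (V : Subspace (Fin m) α κ) :
    Subspace (Fin (m + 1)) α (ι ⊕ κ) where
  idxFun := Sum.elim (fun i => (L.idxFun i).elim (Sum.inr 0) Sum.inl)
    fun k => (V.idxFun k).map id Fin.succ
  proper e := by
    refine Fin.cases ?_ (fun e => ?_) e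
    · obtain ⟨i, hi⟩ := L.proper
      exact ⟨Sum.inl i, by simp [hi]⟩
    · obtain ⟨k, hk⟩ := V.proper e
      exact ⟨Sum.inr k, by simp [hk]⟩

/-- the points of a line over the alphabet with one more letter -/
def pt {α ι : Type} (L : Line α ι) (b : Option α) : ι → Option α :=
  fun i => (L.idxFun i).elim b some

theorem pt_some {α ι : Type} (L : Line α ι) (a : α) : pt L (some a) = fun i => some (L a i) := by
  funext i
  cases h : L.idxFun i <;> simp [pt, Line.coe_apply, h]

theorem lift_cons {α ι κ : Type} {m : ℕ} (L : Line α ι) (V : Subspace (Fin m) α κ)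
    (w : Fin (m + 1) → Option α) :
    lift (cons L V) w = Sum.elim (pt L (w 0)) (lift V fun e => w e.succ) := by
  funext i
  rcases i with i | k
  · cases h : L.idxFun i <;> simp [lift, cons, pt, Subspace.coe_apply, h]
  · cases h : V.idxFun k <;> simp [lift, cons, Subspace.coe_apply, h]

theorem aux (α : Type) [Finite α] (m : ℕ) : ∀ (κ : Type) [Finite κ],
    ∃ (ι : Type) (_ : Fintype ι), ∀ C : (ι → Option α) → κ, ∃ V : Subspace (Fin m) α ι,
      ∀ w w' : Fin m → Option α, (∀ i, w i = none ↔ w' i = none) →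
        C (lift V w) = C (lift V w') := by
  induction m with
  | zero =>
    intro κ _
    refine ⟨Fin 0, inferInstance, fun C => ⟨ofEquiv (Equiv.refl _), fun w w' _ => ?_⟩⟩
    rw [Subsingleton.elim w w']
  | succ m ih =>
    intro κ _
    obtain ⟨ι₁, _, h₁⟩ := ih (Option α → κ)
    obtain ⟨ι₀, _, h₀⟩ := Line.exists_mono_in_high_dimension α ((ι₁ → Option α) → κ)
    refine ⟨ι₀ ⊕ ι₁, inferInstance, fun C => ?_⟩
    obtain ⟨L, c, hc⟩ := h₀ fun x u => C (Sum.elim (fun i => some (x i)) u)
    obtain ⟨V, hV⟩ := h₁ fun u b => C (Sum.elim (pt L b) u)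
    refine ⟨cons L V, fun w w' hw => ?_⟩
    rw [lift_cons, lift_cons]
    have h1 := congrFun (hV (fun e => w e.succ) (fun e => w' e.succ) fun e => hw e.succ) (w 0)
    refine h1.trans ?_
    have h0 := hw 0
    cases ha : w 0 with
    | none => rw [h0.1 ha]
    | some a =>
      cases hb : w' 0 with
      | none => rw [h0.2 hb] at ha; cases ha
      | some b =>
        rw [pt_some, pt_some]
        exact (congrFun (hc a) _).trans (congrFun (hc b) _).symm

end InsensAux

theorem insens (α : Type) [Fintype α] (m : ℕ) (κ : Type) [Finite κ] :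
    ∃ n : ℕ, ∀ C : (Fin n → Option α) → κ, ∃ V : Subspace (Fin m) α (Fin n),
      ∀ w w' : Fin m → Option α, (∀ i, w i = none ↔ w' i = none) →
        C (lift V w) = C (lift V w') := by
  obtain ⟨ι, _, h⟩ := InsensAux.aux α m κ
  refine ⟨Fintype.card ι, fun C => ?_⟩
  obtain ⟨V, hV⟩ := h fun x => C fun i => x ((Fintype.equivFin ι).symm i)
  refine ⟨comp (ofEquiv (Fintype.equivFin ι).symm) V, fun w w' hw => ?_⟩
  rw [lift_comp, comp_apply, comp_apply]
  exact hV w w' hw

end Pool.Agent.Lib.MP_4b8564_nt.GT
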