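import Pool.Agent.Lib.MP_4b8564_nt.GT.LFcore

open Finset Combinatorics
open scoped Classical

noncomputable section

namespace Pool.Agent.Lib.MP_4b8564_nt.GT

namespace LFpsiAux

/-- coefficients of the blown-up forms -/
def co (k : ℕ) (t : Fin k × Finset (Fin k)) : Fin k ⊕ Fin k → ℤ :=
  Sum.elim (fun i => if i ∈ t.2 then 0 else ((t.1 : ℕ) : ℤ) - ((i : ℕ) : ℤ))
    (fun i => if i ∈ t.2 then ((t.1 : ℕ) : ℤ) - ((i : ℕ) : ℤ) else 0)

theorem diff_ne {k : ℕ} {i j : Fin k} (h : i ≠ j) : ((j : ℕ) : ℤ) - ((i : ℕ) : ℤ) ≠ 0 := by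
  intro h0
  apply h
  apply Fin.ext
  omega

theorem co_abs (k : ℕ) (t : Fin k × Finset (Fin k)) (v : Fin k ⊕ Fin k) :
    |co k t v| ≤ (k : ℤ) := by
  have hj := t.1.isLt
  rcases v with i | i
  · have hi := i.isLt
    simp only [co, Sum.elim_inl]
    split_ifs
    · simp
    · rw [abs_le]; constructor <;> omega
  · have hi := i.isLt
    simp only [co, Sum.elim_inr]
    split_ifs
    · rw [abs_le]; constructor <;> omega
    · simp

theorem co_exists (k : ℕ) (t : Fin k × Finset (Fin k)) (i : Fin k) (h : i ≠ t.1) :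
    (i ∉ t.2 ∧ co k t (Sum.inl i) ≠ 0) ∨ (i ∈ t.2 ∧ co k t (Sum.inr i) ≠ 0) := by
  by_cases hi : i ∈ t.2
  · right
    refine ⟨hi, ?_⟩
    simp only [co, Sum.elim_inr, if_pos hi]
    exact diff_ne h
  · left
    refine ⟨hi, ?_⟩
    simp only [co, Sum.elim_inl, if_neg hi]
    exact diff_ne h

theorem co_self_inl (k : ℕ) (t : Fin k × Finset (Fin k)) : co k t (Sum.inl t.1) = 0 := by
  simp [co]

theorem co_self_inr (k : ℕ) (t : Fin k × Finset (Fin k)) : co k t (Sum.inr t.1) = 0 := by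
  simp [co]

theorem sep (k : ℕ) (hk : 2 ≤ k) (T : Finset (Fin k × Finset (Fin k)))
    (hT : ∀ t ∈ T, t.1 ∉ t.2) : Sep (co k) T k := by
  refine ⟨co_abs k, fun s _ => ?_, fun s hs s' hs' hne => ?_⟩
  · have : Nontrivial (Fin k) := Fin.nontrivial_iff_two_le.mpr hk
    obtain ⟨i, hi⟩ := exists_ne s.1
    rcases co_exists k s i hi with h | h
    · exact ⟨_, h.2⟩
    · exact ⟨_, h.2⟩
  · by_cases hj : s'.1 = s.1
    · have h2 : s.2 ≠ s'.2 := fun h2 => hne (Prod.ext hj.symm h2)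
      obtain ⟨i, hi⟩ : ∃ i, ¬ (i ∈ s.2 ↔ i ∈ s'.2) := by
        by_contra hc
        apply h2
        ext i
        by_contra hc'
        exact hc ⟨i, hc'⟩
      have his : i ≠ s.1 := by
        intro h
        apply hi
        have h1 : i ∉ s.2 := h ▸ hT s hs
        have h1' : i ∉ s'.2 := by
          rw [h, ← hj]
          exact hT s' hs'
        simp [h1, h1']
      rcases co_exists k s i his with h | h
      · refine ⟨_, h.2, ?_⟩
        have h3 : i ∈ s'.2 := by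
          by_contra h3
          exact hi (by simp [h.1, h3])
        simp only [co, Sum.elim_inl, if_pos h3]
      · refine ⟨_, h.2, ?_⟩
        have h3 : i ∉ s'.2 := by
          intro h3
          exact hi (by simp [h.1, h3])
        simp only [co, Sum.elim_inr, if_neg h3]
    · rcases co_exists k s s'.1 hj with h | h
      · exact ⟨_, h.2, co_self_inl k s'⟩
      · exact ⟨_, h.2, co_self_inr k s'⟩

theorem form_eq (k N : ℕ) (t : Fin k × Finset (Fin k)) (x y : Fin k → ZMod N) :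
    ∑ v, ((co k t v : ℤ) : ZMod N) * Sum.elim x y v = psi k N t.1 (t.2.piecewise y x) := by
  rw [Fintype.sum_sum_type, psi, ← sum_add_distrib]
  refine sum_congr rfl fun i _ => ?_
  by_cases hi : i ∈ t.2
  · simp [co, hi]
  · simp [co, hi]

end LFpsiAux

theorem lf_psi (k : ℕ) (hk : 2 ≤ k) (η : ℝ) (hη : 0 < η) : ∃ w R₀ : ℕ, ∀ (N : ℕ) [NeZero N],
    N.Prime → ∀ R b : ℕ, R₀ ≤ R → R ^ (8 * (k * 2 ^ k) + 2) ≤ N →
      LF (fun (j : Fin k) (x : Fin k → ZMod N) => nu w R b N (psi k N j x)) η := by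
  obtain ⟨w, R₀, h⟩ := lf_core (Fin k ⊕ Fin k) (k * 2 ^ k) k η hη
  refine ⟨w, R₀, fun N _ hN R b hR hRN T hT => ?_⟩
  have hc : T.card ≤ k * 2 ^ k := by
    refine (card_le_univ T).trans (le_of_eq ?_)
    simp [Fintype.card_prod, Fintype.card_finset]
  have h1 := h N hN R b hR hRN _ (LFpsiAux.co k) T hc (LFpsiAux.sep k hk T hT)
  rw [av_sumElim] at h1
  rw [av_prod]
  simp only [LFpsiAux.form_eq] at h1
  exact h1

end Pool.Agent.Lib.MP_4b8564_nt.GT
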