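import Pool.Agent.Lib.MP_4b8564_nt.GT.Unif
import Pool.Agent.Lib.MP_4b8564_nt.GT.GR

open Finset Combinatorics
open scoped Classical

noncomputable section

namespace Pool.Agent.Lib.MP_4b8564_nt.GT

theorem lines7 {α : Type} [Fintype α] [Nonempty α] (h : DHJ α) (δ₁ : ℝ) (hδ : 0 < δ₁) :
    ∃ θ : ℝ, 0 < θ ∧ θ ≤ δ₁ ∧ θ ≤ 1 ∧ ∃ m₀ : ℕ, ∀ m, m₀ ≤ m → ∀ ε : ℝ, 0 < ε → ε ≤ δ₁ / 2 →
      ∃ n : ℕ, ∀ A : (Fin n → Option α) → Prop, δ₁ ≤ dn A →
        ∃ (Y : Type) (_ : Fintype Y) (_ : Nonempty Y) (V : Y → Subspace (Fin m) (Option α) (Fin n)),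
          (∀ x, dn A - ε ≤ dn fun y => A (V y x)) ∧
          ∀ w : Fin m → Option α, HasVar w →
            θ ≤ dn fun y => ∀ a, A (V y fun i => some (sub w a i)) := by
  obtain ⟨n₀, h₀⟩ := h (δ₁ / 4) (by positivity)
  have hK : (1 : ℝ) ≤ Fintype.card (Fin n₀ → Option α) := by exact_mod_cast Fintype.card_pos
  have hθ : 0 < δ₁ / 4 / Fintype.card (Fin n₀ → Option α) := by positivity
  refine ⟨min (δ₁ / 4 / Fintype.card (Fin n₀ → Option α)) 1, lt_min hθ one_pos,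
    (min_le_left _ _).trans ((div_le_self (by positivity) hK).trans (by linarith)),
    min_le_right _ _, n₀, fun m hm ε hε hε' => ?_⟩
  obtain ⟨G, hG⟩ := gr α m
  obtain ⟨n, hn⟩ := unif (Option α) G ε hε
  refine ⟨n, fun A hA => ?_⟩
  obtain ⟨Y, _, _, V, hV⟩ := hn A
  obtain ⟨U, hU⟩ := hG fun w' => min (δ₁ / 4 / Fintype.card (Fin n₀ → Option α)) 1 ≤
    dn fun y => ∀ a, A (V y fun i => some (sub w' a i))
  refine ⟨Y, inferInstance, inferInstance, fun y => comp (V y) (lift U), fun x => ?_,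
    fun w hw => ?_⟩
  · simp only [comp_apply]
    exact hV _
  rcases hU with hU | hU
  · simpa only [comp_apply, lift_some, sub_lift] using hU w hw
  exfalso
  obtain ⟨Z, -⟩ := shrink (α := α) hm fun _ => 0
  have h1 : δ₁ / 2 ≤ av fun y => dn fun z : Fin n₀ → α => A (V y fun i => some (U (Z z) i)) := by
    rw [← dn_comm]
    exact le_av_of_le fun z => le_trans (by linarith) (hV _)
  have h2 := markov (fun y => dn fun z : Fin n₀ → α => A (V y fun i => some (U (Z z) i))) 1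
    (δ₁ / 4) (fun _ => dn_le_one _) (by positivity)
  obtain ⟨w₀, h3⟩ := pigeon
    (fun y => δ₁ / 4 ≤ dn fun z : Fin n₀ → α => A (V y fun i => some (U (Z z) i)))
    (fun (w₀ : Fin n₀ → Option α) y =>
      HasVar w₀ ∧ ∀ a, A (V y fun i => some (U (Z (sub w₀ a)) i))) (fun y hy => h₀ _ hy)
  have h4 := (div_le_div_of_nonneg_right (show δ₁ / 4 ≤ _ by linarith) (by linarith)).trans h3
  obtain ⟨_, hw₀, -⟩ := exists_of_dn_pos (hθ.trans_le h4)
  refine hU (lift Z w₀) ((hasVar_lift Z w₀).2 hw₀) ((min_le_left _ _).trans (h4.trans ?_))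
  simp only [sub_lift]
  exact dn_mono fun y hy => hy.2

end Pool.Agent.Lib.MP_4b8564_nt.GT
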