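import Pool.Agent.Lib.MP_4b8564_nt.GT.Av

open Finset Combinatorics
open scoped Classical

noncomputable section

namespace Pool.Agent.Lib.MP_4b8564_nt.GT

namespace LocalAux

theorem exists_root (p : ℕ) (hp : p.Prime) (u r : ℤ) (hu : ¬ (p : ℤ) ∣ u) :
    ∃ t0 : Fin p, ∀ t : Fin p, (p : ℤ) ∣ u * ((t : ℕ) : ℤ) + r ↔ t = t0 := by
  haveI := Fact.mk hp
  have hu' : (u : ZMod p) ≠ 0 := fun h => hu ((ZMod.intCast_zmod_eq_zero_iff_dvd u p).1 h)
  refine ⟨⟨(-(r : ZMod p) / u).val, ZMod.val_lt _⟩, fun t => ?_⟩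
  rw [← ZMod.intCast_zmod_eq_zero_iff_dvd]
  push_cast
  constructor
  · intro h
    apply Fin.ext
    have : ((t : ℕ) : ZMod p) = -(r : ZMod p) / u := by
      rw [eq_div_iff hu']; linear_combination h
    show (t : ℕ) = (-(r : ZMod p) / u).val
    rw [← this, ZMod.val_cast_of_lt t.2]
  · rintro rfl
    show (u : ZMod p) * (((-(r : ZMod p) / u).val : ℕ) : ZMod p) + r = 0
    rw [ZMod.natCast_zmod_val]
    field_simp
    ring

theorem av_ite (p : ℕ) (hp : p.Prime) (u r : ℤ) (hu : ¬ (p : ℤ) ∣ u) (A C : ℝ) :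
    av (fun t : Fin p => if (p : ℤ) ∣ u * ((t : ℕ) : ℤ) + r then A else C) =
      (A - C) / p + C := by
  obtain ⟨t0, h⟩ := exists_root p hp u r hu
  have hp0 : (p : ℝ) ≠ 0 := by exact_mod_cast hp.ne_zero
  have : ∀ t : Fin p, (if (p : ℤ) ∣ u * ((t : ℕ) : ℤ) + r then A else C) =
      (if t = t0 then A - C else 0) + C := fun t => by
    by_cases ht : t = t0
    · rw [if_pos ((h t).2 ht), if_pos ht]; ring
    · rw [if_neg fun h' => ht ((h t).1 h'), if_neg ht]; ring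
  simp only [this, av, sum_add_distrib, sum_ite_eq', mem_univ, if_true, sum_const, card_univ,
    Fintype.card_fin, nsmul_eq_mul]
  field_simp

theorem p1_pos {p : ℕ} (hp : p.Prime) : (1 : ℝ) ≤ (p : ℝ) - 1 := by
  have : (2 : ℝ) ≤ p := by exact_mod_cast hp.two_le
  linarith

theorem av_gz (p : ℕ) (hp : p.Prime) (u r : ℤ) (hu : ¬ (p : ℤ) ∣ u) :
    av (fun t : Fin p => gz p (u * ((t : ℕ) : ℤ) + r)) = 0 := by
  have h1 := p1_pos hp
  have hp0 : (p : ℝ) ≠ 0 := by linarith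
  have hp1 : (p : ℝ) - 1 ≠ 0 := by linarith
  simp only [gz]
  rw [av_ite p hp u r hu]
  field_simp
  ring

theorem abs_gz {p : ℕ} (hp : p.Prime) (m : ℤ) :
    |gz p m| = if (p : ℤ) ∣ m then 1 else 1 / ((p : ℝ) - 1) := by
  have h1 := p1_pos hp
  unfold gz
  split_ifs
  · simp
  · exact abs_of_nonneg (by positivity)

theorem abs_gz_le {p : ℕ} (hp : p.Prime) (m : ℤ) : |gz p m| ≤ 1 := by
  have h1 := p1_pos hp
  rw [abs_gz hp]
  split_ifs
  · exact le_rfl
  · exact (div_le_one (by linarith)).2 h1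

theorem av_abs_gz (p : ℕ) (hp : p.Prime) (u r : ℤ) (hu : ¬ (p : ℤ) ∣ u) :
    av (fun t : Fin p => |gz p (u * ((t : ℕ) : ℤ) + r)|) = 2 / p := by
  have h1 := p1_pos hp
  have hp0 : (p : ℝ) ≠ 0 := by linarith
  have hp1 : (p : ℝ) - 1 ≠ 0 := by linarith
  simp only [abs_gz hp]
  rw [av_ite p hp u r hu]
  field_simp
  ring

theorem form_update {V : Type} [Fintype V] [DecidableEq V] {p : ℕ} (a : V → ℤ) (W b c : ℤ)
    (h : V → Fin p) (v : V) (t : Fin p) :
    W * (c + ∑ v', a v' * ((Function.update h v t v' : ℕ) : ℤ)) + b =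
      W * a v * ((t : ℕ) : ℤ) + (W * (c + ∑ v' ∈ univ.erase v, a v' * ((h v' : ℕ) : ℤ)) + b) := by
  rw [← add_sum_erase univ _ (mem_univ v), Function.update_self,
    sum_congr rfl fun v' hv' => by rw [Function.update_of_ne (ne_of_mem_erase hv')]]
  ring

theorem not_dvd {p B : ℕ} (hp : p.Prime) (hB : B < p) {W x : ℤ} (hW : ¬ (p : ℤ) ∣ W)
    (hx : x ≠ 0) (hxB : |x| ≤ B) : ¬ (p : ℤ) ∣ W * x := by
  intro h
  rcases (Nat.prime_iff_prime_int.1 hp).dvd_or_dvd h with h | h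
  · exact hW h
  · have := Int.le_of_dvd (abs_pos.2 hx) ((dvd_abs _ _).2 h)
    omega

end LocalAux

open LocalAux

theorem local_mean {T V : Type} [Fintype V] [DecidableEq V] (a : T → V → ℤ) (S : Finset T) (B : ℕ)
    (hS : Sep a S B) (p : ℕ) (hp : p.Prime) (hB : B < p) (W b : ℤ) (hW : ¬ (p : ℤ) ∣ W)
    (c : T → ℤ) (S' : Finset T) (hS' : S' ⊆ S) :
    (S'.card = 1 →
      bav p (fun h : V → ℤ => ∏ s ∈ S', gz p (W * (c s + ∑ v, a s v * h v) + b)) = 0) ∧
    (2 ≤ S'.card →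
      |bav p fun h : V → ℤ => ∏ s ∈ S', gz p (W * (c s + ∑ v, a s v * h v) + b)| ≤
        4 / (p : ℝ) ^ 2) := by
  haveI : Nonempty (Fin p) := ⟨⟨0, hp.pos⟩⟩
  obtain ⟨h1, h2, h3⟩ := hS
  constructor
  · intro hc
    obtain ⟨s, rfl⟩ := card_eq_one.1 hc
    obtain ⟨v, hv⟩ := h2 s (hS' (mem_singleton_self s))
    unfold bav
    simp only [prod_singleton]
    rw [av_update v]
    simp only [form_update, av_gz p hp _ _ (not_dvd hp hB hW hv (h1 s v)), av_zero]
  · intro hc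
    obtain ⟨s, hs, s', hs', hne⟩ := one_lt_card.1 hc
    obtain ⟨v, hv, hv'⟩ := h3 s (hS' hs) s' (hS' hs') hne
    obtain ⟨w, hw⟩ := h2 s' (hS' hs')
    unfold bav
    refine (abs_av_le _).trans ?_
    have key : ∀ f : T → ℝ, (∀ t, |f t| ≤ 1) → |∏ t ∈ S', f t| ≤ |f s| * |f s'| := fun f hf => by
      rw [← mul_prod_erase S' f hs, ← mul_prod_erase (S'.erase s) f (mem_erase.2 ⟨hne.symm, hs'⟩),
        abs_mul, abs_mul, abs_prod]
      refine mul_le_mul_of_nonneg_left (mul_le_of_le_one_right (abs_nonneg _) ?_) (abs_nonneg _)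
      exact prod_le_one (fun t _ => abs_nonneg _) fun t _ => hf t
    refine (av_mono fun h => key _ fun t => abs_gz_le hp _).trans (le_of_eq ?_)
    have e1 : av (fun h : V → Fin p =>
        |gz p (W * (c s + ∑ v, a s v * ((h v : ℕ) : ℤ)) + b)| *
          |gz p (W * (c s' + ∑ v, a s' v * ((h v : ℕ) : ℤ)) + b)|) =
        av fun h : V → Fin p =>
          2 / (p : ℝ) * |gz p (W * (c s' + ∑ v, a s' v * ((h v : ℕ) : ℤ)) + b)| := by
      rw [av_update v]
      refine av_congr fun h => ?_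
      have e2 : ∀ t : Fin p, W * (c s' + ∑ v', a s' v' * ((Function.update h v t v' : ℕ) : ℤ)) + b =
          W * (c s' + ∑ v, a s' v * ((h v : ℕ) : ℤ)) + b := fun t => by
        have := form_update (a s') W b (c s') h v (h v)
        rw [Function.update_eq_self] at this
        rw [this, form_update, hv']
        simp
      simp only [e2]
      simp only [form_update, av_mul_const, av_abs_gz p hp _ _ (not_dvd hp hB hW hv (h1 s v))]
    rw [e1, av_const_mul, av_update w]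
    simp only [form_update, av_abs_gz p hp _ _ (not_dvd hp hB hW hw (h1 s' w)), av_const]
    ring

end Pool.Agent.Lib.MP_4b8564_nt.GT
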