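import Pool.Agent.Lib.MP_4b8564_nt.GT.Subs

open Finset Combinatorics
open scoped Classical

noncomputable section

namespace Pool.Agent.Lib.MP_4b8564_nt.GT

namespace MdhjAux

/-- a word with a variable as a subspace of dimension one -/
def word {α ι : Type} (w : ι → Option α) (hw : HasVar w) : Subspace (Fin 1) α ι where
  idxFun i := (w i).elim (Sum.inr 0) Sum.inl
  proper e := by
    obtain ⟨i, hi⟩ := hw
    exact ⟨i, by simp [hi, Subsingleton.elim e 0]⟩

theorem word_apply {α ι : Type} (w : ι → Option α) (hw : HasVar w) (x : Fin 1 → α) :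
    word w hw x = sub w (x 0) := by
  funext i
  cases h : w i <;> simp [word, sub, Subspace.coe_apply, h]

end MdhjAux

theorem mdhj {α : Type} [Fintype α] [Nonempty α] (h : DHJ α) (m : ℕ) (δ : ℝ) (hδ : 0 < δ) :
    ∃ n : ℕ, ∀ A : (Fin n → α) → Prop, δ ≤ dn A →
      ∃ V : Subspace (Fin m) α (Fin n), ∀ x, A (V x) := by
  induction m generalizing δ with
  | zero =>
    refine ⟨0, fun A hA => ?_⟩
    obtain ⟨x, hx⟩ := exists_of_dn_pos (hδ.trans_le hA)
    exact ⟨ofEquiv (Equiv.refl _), fun y => (congrArg A (funext fun i => i.elim0)).mp hx⟩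
  | succ m ih =>
    obtain ⟨n₀, h₀⟩ := h (δ / 2) (half_pos hδ)
    have hK : (0 : ℝ) < Fintype.card (Fin n₀ → Option α) := Nat.cast_pos.2 Fintype.card_pos
    obtain ⟨n₁, h₁⟩ := ih (δ / 2 / Fintype.card (Fin n₀ → Option α)) (by positivity)
    refine ⟨n₁ + n₀, fun A hA => ?_⟩
    let E : Subspace (Fin n₁ ⊕ Fin n₀) α (Fin (n₁ + n₀)) := ofEquiv finSumFinEquiv.symm
    rw [← dn_ofEquiv finSumFinEquiv.symm A, dn_sumElim] at hA
    have hm := markov (fun x : Fin n₁ → α => dn fun y : Fin n₀ → α => A (E (Sum.elim x y))) 1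
      (δ / 2) (fun x => dn_le_one _) (half_pos hδ).le
    obtain ⟨w, hw⟩ := pigeon
      (fun x : Fin n₁ → α => δ / 2 ≤ dn fun y : Fin n₀ → α => A (E (Sum.elim x y)))
      (fun (w : Fin n₀ → Option α) x => HasVar w ∧ ∀ a, A (E (Sum.elim x (sub w a))))
      fun x hx => h₀ _ hx
    obtain ⟨V, hV⟩ := h₁ _ ((div_le_div_of_nonneg_right (by linarith) hK.le).trans hw)
    have hv : HasVar w := (hV fun _ => Classical.arbitrary α).1
    refine ⟨comp (comp E (both V (MdhjAux.word w hv))) (ofEquiv finSumFinEquiv), fun x => ?_⟩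
    rw [comp_apply, comp_apply, both_apply, MdhjAux.word_apply]
    exact (hV _).2 _

end Pool.Agent.Lib.MP_4b8564_nt.GT
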