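import Pool.Agent.Lib.MP_4b8564_nt.GT.Unif
import Pool.Agent.Lib.MP_4b8564_nt.GT.Mdhj

open Finset Combinatorics
open scoped Classical

noncomputable section

namespace Pool.Agent.Lib.MP_4b8564_nt.GT

theorem mstar {α : Type} [Fintype α] [Nonempty α] (h : DHJ α) (m : ℕ) (δ : ℝ) (hδ : 0 < δ) :
    ∃ n : ℕ, ∀ A : (Fin n → Option α) → Prop, δ ≤ dn A →
      ∃ V : Subspace (Fin m) (Option α) (Fin n), ∀ x : Fin m → α, A (V fun i => some (x i)) := by
  obtain ⟨M, hM⟩ := mdhj h m (δ / 2) (half_pos hδ)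
  obtain ⟨n, hn⟩ := unif (Option α) M (δ / 2) (half_pos hδ)
  refine ⟨n, fun A hA => ?_⟩
  obtain ⟨Y, _, _, V, hV⟩ := hn A
  have h1 : δ / 2 ≤ av fun x : Fin M → α => dn fun y : Y => A (V y fun i => some (x i)) :=
    le_av_of_le fun x => by linarith [hV fun i => some (x i)]
  rw [dn_comm fun (x : Fin M → α) (y : Y) => A (V y fun i => some (x i))] at h1
  obtain ⟨y, hy⟩ := exists_av_le fun y : Y => dn fun x : Fin M → α => A (V y fun i => some (x i))
  obtain ⟨U, hU⟩ := hM (fun x => A (V y fun i => some (x i))) (h1.trans hy)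
  refine ⟨comp (V y) (lift U), fun x => ?_⟩
  rw [comp_apply, lift_some]
  exact hU x

end Pool.Agent.Lib.MP_4b8564_nt.GT
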