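import Pool.Agent.Lib.MP_4b8564_nt.GT.Colour

/-!
All four sign patterns of a multiplicative function and of `S(1,1;c)` occur for moduli with
exactly `k ≥ 3` prime factors.
-/

open Finset

noncomputable section

namespace Pool.Agent.Lib.MP_4b8564_nt.GT

open Sg Sg.KlooAux Sg.CountAux RoughAux

theorem pf_mul {m p : ℕ} (h : Squarefree (m * p)) (hp : p.Prime) :
    p ∉ m.primeFactors ∧ (m * p).primeFactors = insert p m.primeFactors := by
  have hc := Nat.coprime_of_squarefree_mul h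
  refine ⟨fun e => (Nat.Prime.coprime_iff_not_dvd hp).1 hc.symm (Nat.dvd_of_mem_primeFactors e), ?_⟩
  rw [hc.primeFactors_mul, hp.primeFactors, union_comm, insert_eq]

open Classical in
theorem mult_signs (k : ℕ) (hk : 3 ≤ k) (y : ℕ) (lam : ℕ → ℝ)
    (h1 : ∀ n, ∃ t, n < t ∧ t.Prime ∧ t % 4 = 3 ∧ 0 ≤ lam t)
    (h2 : ∀ n, ∃ t, n < t ∧ t.Prime ∧ t % 4 = 3 ∧ lam t ≤ 0) (η : ℝ) :
    ∃ A : ℕ, ∃ δ : ℝ, 0 < δ ∧ ∃ X₀ : ℕ, ∀ X : ℕ, X₀ ≤ X → ∀ ε : ℝ, ε ≠ 0 →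
      δ * X / Real.log X ^ A ≤ (((Icc 1 X).filter fun c => Squarefree c ∧
        c.primeFactors.card = k ∧ (∀ p ∈ c.primeFactors, y < p) ∧
        0 ≤ η * ∏ p ∈ c.primeFactors, lam p ∧ 0 < ε * KS c).card : ℝ) := by
  obtain ⟨j, rfl⟩ : ∃ j, k = j + 1 + 1 + 1 := ⟨k - 3, by omega⟩
  obtain ⟨g, hg, go, gc, gy⟩ := exists_rg j y
  have h3 : ∀ n, ∃ t, n < t ∧ t.Prime ∧ t % 4 = 3 ∧
      0 ≤ η * (∏ p ∈ g.primeFactors, lam p) * lam t := fun n => by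
    rcases le_total 0 (η * ∏ p ∈ g.primeFactors, lam p) with h | h
    · obtain ⟨t, a1, a2, a3, a4⟩ := h1 n
      exact ⟨t, a1, a2, a3, mul_nonneg h a4⟩
    · obtain ⟨t, a1, a2, a3, a4⟩ := h2 n
      exact ⟨t, a1, a2, a3, mul_nonneg_of_nonpos_of_nonpos h a4⟩
  obtain ⟨t, a1, pt, t4, st⟩ := h3 (g + y + 3)
  obtain ⟨u, a2, pu, u4, su⟩ := h3 t
  obtain ⟨A, δ, hδ, X₀, h⟩ := colour_signs hg pt pu t4 u4 (by omega) a2
    (fun e => by have := Nat.le_of_dvd go.pos e; omega)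
    (fun e => by have := Nat.le_of_dvd go.pos e; omega) 2 y
  refine ⟨A, δ, hδ, X₀, fun X hX ε hε =>
    (h (fun p => if 0 ≤ lam p then 0 else 1) X hX ε hε).trans
      (Nat.cast_le.2 (card_le_card fun c hc => ?_))⟩
  obtain ⟨b1, b2, ⟨w, p, q, hw, pp, pq, yp, hpq, hcol, rfl⟩, b3⟩ := mem_filter.1 hc
  have pw : w.Prime ∧ y < w ∧ 0 ≤ η * (∏ p ∈ g.primeFactors, lam p) * lam w := by
    rcases hw with rfl | rfl
    exacts [⟨pt, by omega, st⟩, ⟨pu, by omega, su⟩]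
  obtain ⟨n1, e1⟩ := pf_mul b2 pq
  obtain ⟨n2, e2⟩ := pf_mul b2.of_mul_left pp
  obtain ⟨n3, e3⟩ := pf_mul b2.of_mul_left.of_mul_left pw.1
  have s : 0 ≤ lam p * lam q := by
    by_cases c1 : 0 ≤ lam p <;> by_cases c2 : 0 ≤ lam q
    · exact mul_nonneg c1 c2
    · simp [c1, c2] at hcol
    · simp [c1, c2] at hcol
    · exact mul_nonneg_of_nonpos_of_nonpos (not_le.1 c1).le (not_le.1 c2).le
  refine mem_filter.2 ⟨b1, b2, ?_, fun r hr => ?_, ?_, b3⟩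
  · rw [e1, card_insert_of_notMem n1, e2, card_insert_of_notMem n2, e3, card_insert_of_notMem n3,
      gc]
  · rw [e1, e2, e3, mem_insert, mem_insert, mem_insert] at hr
    rcases hr with rfl | rfl | rfl | hr
    exacts [by omega, yp, pw.2.1, gy r hr]
  · rw [e1, prod_insert n1, e2, prod_insert n2, e3, prod_insert n3]
    have := mul_nonneg pw.2.2 s
    linarith

end Pool.Agent.Lib.MP_4b8564_nt.GT
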