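import Pool.Agent.Lib.MP_4b8564_nt.Sg.Count

/-!
Propagation of opposite signs of twisted Kloosterman sums along a progression of primes.
-/

open Finset

noncomputable section

namespace Pool.Agent.Lib.MP_4b8564_nt.GT

open Sg Sg.KlooAux Sg.CountAux

/-- the sum `S(u⁻¹,u⁻¹;c)` -/
def R (c u : ℕ) : ℝ := if h : c = 0 then 0 else @S c ⟨h⟩ u

theorem R_eq (c : ℕ) [NeZero c] (u : ℕ) : R c u = S c u := by
  unfold R; rw [dif_neg (NeZero.ne c)]

theorem R_mul {m n : ℕ} (hm0 : m ≠ 0) (hn0 : n ≠ 0) (h : m.Coprime n) (u : ℕ)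
    (hm : Nat.Coprime u m) (hn : Nat.Coprime u n) : R (m * n) u = R m (u * n) * R n (u * m) := by
  have : NeZero m := ⟨hm0⟩
  have : NeZero n := ⟨hn0⟩
  rw [R_eq, R_eq, R_eq, S_mul h u hm hn]

theorem R_congr {c u v : ℕ} (h : (u : ZMod c) = v) : R c u = R c v := by
  by_cases hc : c = 0
  · unfold R; rw [dif_pos hc, dif_pos hc]
  · have : NeZero c := ⟨hc⟩
    rw [R_eq, R_eq, S_congr c h]

theorem R_neg {p u v : ℕ} (hp : p.Prime) (h : (u : ZMod p) = -v) : R p u = R p v := by
  have : Fact p.Prime := ⟨hp⟩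
  rw [R_eq, R_eq, S_neg p h]

theorem R_ne {p : ℕ} (hp : p.Prime) (u : ℕ) : R p u ≠ 0 := by
  have : Fact p.Prime := ⟨hp⟩
  rw [R_eq]; exact S_ne p u

theorem T_five (a : ZMod 5) : 0 < (T 5 a).re := by
  have hre : ∀ j : ℤ, (ZMod.stdAddChar (j : ZMod 5)).re = Real.cos (2 * Real.pi * j / 5) := by
    intro j
    rw [ZMod.stdAddChar_coe]
    have : (2 * Real.pi * Complex.I * j / (5 : ℕ) : ℂ) = ((2 * Real.pi * j / 5 : ℝ) : ℂ) * Complex.I := by
      push_cast; ring
    rw [this, Complex.exp_ofReal_mul_I_re]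
  obtain ⟨j, rfl⟩ := ZMod.intCast_surjective a
  let u2 : (ZMod 5)ˣ := ⟨2, 3, by decide, by decide⟩
  have hu : (univ : Finset (ZMod 5)ˣ) = {1, -1, u2, -u2} := by decide
  have e1 : (j : ZMod 5) * (((1 : (ZMod 5)ˣ) : ZMod 5) + (((1 : (ZMod 5)ˣ)⁻¹ : (ZMod 5)ˣ) : ZMod 5)) =
      ((2 * j : ℤ) : ZMod 5) := by
    push_cast; simp; ring
  have e2 : (j : ZMod 5) * (((-1 : (ZMod 5)ˣ) : ZMod 5) + (((-1 : (ZMod 5)ˣ)⁻¹ : (ZMod 5)ˣ) : ZMod 5)) =
      ((-(2 * j) : ℤ) : ZMod 5) := by
    push_cast; simp; ring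
  have e3 : (j : ZMod 5) * ((u2 : ZMod 5) + ((u2⁻¹ : (ZMod 5)ˣ) : ZMod 5)) = ((0 : ℤ) : ZMod 5) := by
    have : (u2 : ZMod 5) + ((u2⁻¹ : (ZMod 5)ˣ) : ZMod 5) = 0 := by decide
    rw [this]; simp
  have e4 : (j : ZMod 5) * (((-u2 : (ZMod 5)ˣ) : ZMod 5) + (((-u2)⁻¹ : (ZMod 5)ˣ) : ZMod 5)) =
      ((0 : ℤ) : ZMod 5) := by
    have : ((-u2 : (ZMod 5)ˣ) : ZMod 5) + (((-u2)⁻¹ : (ZMod 5)ˣ) : ZMod 5) = 0 := by decide
    rw [this]; simp
  unfold T
  rw [hu, sum_insert (by decide), sum_insert (by decide), sum_insert (by decide), sum_singleton,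
    e1, e2, e3, e4]
  simp only [Complex.add_re, hre]
  have h0 : Real.cos (2 * Real.pi * ((0 : ℤ) : ℝ) / 5) = 1 := by simp
  have h1 : Real.cos (2 * Real.pi * ((-(2 * j) : ℤ) : ℝ) / 5) =
      Real.cos (2 * Real.pi * ((2 * j : ℤ) : ℝ) / 5) := by
    rw [← Real.cos_neg]; congr 1; push_cast; ring
  rw [h0, h1]
  have h2 := Real.neg_one_le_cos (2 * Real.pi * ((2 * j : ℤ) : ℝ) / 5)
  have h3 : Real.cos (2 * Real.pi * ((2 * j : ℤ) : ℝ) / 5) ≠ -1 := by
    intro h
    obtain ⟨n, hn⟩ := Real.cos_eq_neg_one_iff.1 h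
    have h4 : Real.pi * ((5 + 10 * n : ℤ) : ℝ) = Real.pi * ((4 * j : ℤ) : ℝ) := by
      push_cast at hn ⊢; linarith
    have h5 := mul_left_cancel₀ Real.pi_ne_zero h4
    have h6 : (5 + 10 * n : ℤ) = 4 * j := by exact_mod_cast h5
    omega
  have := lt_of_le_of_ne h2 h3.symm
  linarith

/-- a family of odd squarefree moduli with `j` prime factors on which every twist takes both signs -/
def Opp (j : ℕ) (M : Finset ℕ) : Prop :=
  (∀ m ∈ M, Squarefree m ∧ Odd m ∧ m.primeFactors.card = j) ∧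
    ∀ u : ℕ, (∀ m ∈ M, Nat.Coprime u m) → (∃ m ∈ M, 0 < R m u) ∧ ∃ m ∈ M, R m u < 0

theorem opp_one : Opp 1 {3, 5} := by
  constructor
  · intro m hm
    simp only [mem_insert, mem_singleton] at hm
    rcases hm with rfl | rfl
    · exact ⟨Nat.prime_three.squarefree, by decide, by simp [Nat.prime_three.primeFactors]⟩
    · exact ⟨Nat.prime_five.squarefree, by decide, by simp [Nat.prime_five.primeFactors]⟩
  · intro u hu
    refine ⟨⟨5, by simp, ?_⟩, ⟨3, by simp, ?_⟩⟩
    · rw [R_eq]; exact T_five _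
    · rw [R_eq, S_three u (hu 3 (by simp))]; norm_num

/-- index set of the next family -/
def idx (M : Finset ℕ) (L : ℕ) : Finset (ℕ × ℕ × ℕ) :=
  (M ×ˢ range (L + 1) ×ˢ range (L + 1)).filter fun x => x.2.1 < x.2.2

/-- the next family -/
def nxt (M : Finset ℕ) (L p d : ℕ) : Finset ℕ :=
  (idx M L).image fun x => x.1 * (p + x.2.1 * d) * (p + x.2.2 * d)

theorem dvd_step {m L p d : ℕ} (hm : Squarefree m) (hL : m ≤ L) (hp : L < p)
    (hpr : ∀ i ≤ L, (p + i * d).Prime) : m ∣ d := by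
  rw [← Nat.prod_primeFactors_of_squarefree hm]
  refine Finset.prod_primes_dvd d (fun l hl => (Nat.prime_of_mem_primeFactors hl).prime) fun l hl => ?_
  have hl1 := Nat.prime_of_mem_primeFactors hl
  have hl2 : l ≤ L := (Nat.le_of_mem_primeFactors hl).trans hL
  have : Fact l.Prime := ⟨hl1⟩
  by_contra hd
  have hd' : (d : ZMod l) ≠ 0 := fun h => hd ((ZMod.natCast_eq_zero_iff d l).1 h)
  set i : ZMod l := -(p : ZMod l) / d with hi
  have h1 : ((p + i.val * d : ℕ) : ZMod l) = 0 := by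
    push_cast
    rw [ZMod.natCast_zmod_val, hi]
    field_simp
    ring
  have h2 := (ZMod.natCast_eq_zero_iff _ l).1 h1
  have h3 := (Nat.prime_dvd_prime_iff_eq hl1 (hpr i.val ((ZMod.val_lt i).le.trans hl2))).1 h2
  have : p ≤ p + i.val * d := Nat.le_add_right _ _
  omega

theorem edge {t D p d i u : ℕ} (ht : t ≠ 0) (htd : t ∣ d) (hD : 0 < D) (hd : 0 < d) (htp : t < p)
    (h1 : (p + i * d).Prime) (h2 : (p + (i + D) * d).Prime)
    (hu : Nat.Coprime u (t * (p + i * d) * (p + (i + D) * d))) :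
    R (t * (p + i * d) * (p + (i + D) * d)) u =
      R t (u * p * p) * (R (p + i * d) (u * (t * D) * d) * R (p + (i + D) * d) (u * (t * D) * d)) := by
  have lt : p + i * d < p + (i + D) * d := by nlinarith
  have cop : ∀ r : ℕ, r.Prime → t < r → Nat.Coprime t r := fun r hr h =>
    Nat.Coprime.symm ((Nat.Prime.coprime_iff_not_dvd hr).2 fun h' => by
      have := Nat.le_of_dvd (Nat.pos_of_ne_zero ht) h'; omega)
  have c1 := cop _ h1 (by omega)
  have c2 := cop _ h2 (by omega)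
  have c3 : Nat.Coprime (p + i * d) (p + (i + D) * d) := (Nat.coprime_primes h1 h2).2 lt.ne
  have u1 := Nat.Coprime.coprime_mul_right_right hu
  have u2 := Nat.Coprime.coprime_mul_left_right hu
  have u3 := Nat.Coprime.coprime_mul_right_right u1
  have u4 := Nat.Coprime.coprime_mul_left_right u1
  rw [R_mul (mul_ne_zero ht h1.ne_zero) h2.ne_zero (Nat.Coprime.mul_left c2 c3) u u1 u2,
    R_mul ht h1.ne_zero c1 _ (Nat.Coprime.mul_left u3 c2.symm) (Nat.Coprime.mul_left u4 c3.symm),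
    mul_assoc]
  have z0 : (d : ZMod t) = 0 := (ZMod.natCast_eq_zero_iff d t).2 htd
  have z1 : (p : ZMod (p + i * d)) + i * d = 0 := by
    have := ZMod.natCast_self (p + i * d); push_cast at this; exact this
  have z2 : (p : ZMod (p + (i + D) * d)) + (i + D) * d = 0 := by
    have := ZMod.natCast_self (p + (i + D) * d); push_cast at this; exact this
  congr 1
  · refine R_congr ?_
    push_cast; rw [z0]; ring
  congr 1
  · refine R_congr ?_
    push_cast
    linear_combination (u * t : ZMod (p + i * d)) * z1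
  · refine R_neg h2 ?_
    push_cast
    linear_combination (u * t : ZMod (p + (i + D) * d)) * z2

theorem chain (τ : ℕ → ℝ) (s : ℝ) (D n : ℕ) (h0 : τ 0 ≠ 0)
    (h : ∀ k < n, 0 < s * (τ (k * D) * τ (k * D + D))) : 0 < s ^ n * (τ 0 * τ (n * D)) := by
  induction n with
  | zero => simpa using h0
  | succ n ih =>
    have a := ih fun k hk => h k (by omega)
    have b := h n (by omega)
    have c : 0 < τ (n * D) * τ (n * D) := by
      refine mul_self_pos.2 fun e => ?_
      rw [e] at b; simp at b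
    have := mul_pos a b
    rw [show (n + 1) * D = n * D + D by ring]
    have e : s ^ n * (τ 0 * τ (n * D)) * (s * (τ (n * D) * τ (n * D + D))) =
        s ^ (n + 1) * (τ 0 * τ (n * D + D)) * (τ (n * D) * τ (n * D)) := by ring
    rw [e] at this
    exact (mul_pos_iff_of_pos_right c).1 this

theorem nonpos_of_mul_nonpos_right' {a b : ℝ} (h : a * b ≤ 0) (ha : 0 < a) : b ≤ 0 := by
  by_contra h4
  push Not at h4
  nlinarith [mul_pos ha h4]

theorem nonneg_of_mul_nonneg_right' {a b : ℝ} (h : 0 ≤ a * b) (ha : 0 < a) : 0 ≤ b := by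
  by_contra h4
  push Not at h4
  nlinarith [mul_neg_of_pos_of_neg ha h4]

theorem opp_step {j L p d : ℕ} {M : Finset ℕ} (hM : Opp j M)
    (hL : ∀ m ∈ M, ∀ m' ∈ M, m * m' ≤ L) (hp : L < p) (h2 : 2 < p) (hd : 0 < d)
    (hpr : ∀ i ≤ L, (p + i * d).Prime) : Opp (j + 2) (nxt M L p d) := by
  obtain ⟨hM1, hM2⟩ := hM
  have pos : ∀ m ∈ M, 0 < m := fun m hm => (hM1 m hm).2.1.pos
  have le : ∀ m ∈ M, m ≤ L := fun m hm => (Nat.le_mul_self m).trans (hL m hm m hm)
  have cop : ∀ m ∈ M, ∀ i ≤ L, Nat.Coprime m (p + i * d) := fun m hm i hi =>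
    Nat.Coprime.symm ((Nat.Prime.coprime_iff_not_dvd (hpr i hi)).2 fun h' => by
      have := Nat.le_of_dvd (pos m hm) h'; have := le m hm; omega)
  have mem : ∀ m ∈ M, ∀ i i' : ℕ, i < i' → i' ≤ L →
      m * (p + i * d) * (p + i' * d) ∈ nxt M L p d := fun m hm i i' a b =>
    mem_image.2 ⟨(m, i, i'), mem_filter.2 ⟨mem_product.2 ⟨hm, mem_product.2
      ⟨mem_range.2 (by simp only; omega), mem_range.2 (by simp only; omega)⟩⟩, a⟩, rfl⟩
  constructor
  · intro c hc
    obtain ⟨⟨m, i, i'⟩, hx, rfl⟩ := mem_image.1 hc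
    obtain ⟨hx1, hx2⟩ := mem_filter.1 hx
    simp only [mem_product, mem_range] at hx1 hx2
    obtain ⟨hm, hi, hi'⟩ := hx1
    have p1 := hpr i (by omega)
    have p2 := hpr i' (by omega)
    have lt : p + i * d < p + i' * d := by nlinarith
    have c1 := cop m hm i (by omega)
    have c2 : Nat.Coprime (m * (p + i * d)) (p + i' * d) :=
      Nat.Coprime.mul_left (cop m hm i' (by omega)) ((Nat.coprime_primes p1 p2).2 lt.ne)
    refine ⟨(Nat.squarefree_mul c2).2 ⟨(Nat.squarefree_mul c1).2 ⟨(hM1 m hm).1, p1.squarefree⟩,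
      p2.squarefree⟩, ((hM1 m hm).2.1.mul (p1.odd_of_ne_two (by omega))).mul
      (p2.odd_of_ne_two (by omega)), ?_⟩
    simp only
    rw [card_mul c2, card_mul c1, p1.primeFactors, p2.primeFactors, (hM1 m hm).2.2]
    simp
  · intro u hu
    have hup : ∀ m ∈ M, Nat.Coprime (u * p * p) m := fun m hm => by
      have a := hu _ (mem m hm 0 1 one_pos ((pos m hm).trans_le (le m hm)))
      have b : Nat.Coprime p m := by simpa using (cop m hm 0 (Nat.zero_le _)).symm
      exact Nat.Coprime.mul_left (Nat.Coprime.mul_left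
        (Nat.Coprime.coprime_mul_right_right (Nat.Coprime.coprime_mul_right_right a)) b) b
    obtain ⟨⟨m, hm, sm⟩, ⟨m', hm', sm'⟩⟩ := hM2 _ hup
    set τ : ℕ → ℝ := fun i => R (p + i * d) (u * (m * m') * d) with hτ
    have τne : ∀ i ≤ L, τ i ≠ 0 := fun i hi => R_ne (hpr i hi) _
    have hΛ := hL m hm m' hm'
    have E : ∀ t ∈ M, ∀ D : ℕ, 0 < D → t * D = m * m' → ∀ k < t, ∃ c ∈ nxt M L p d,
        R c u = R t (u * p * p) * (τ (k * D) * τ (k * D + D)) ∧ τ (k * D) * τ (k * D + D) ≠ 0 := by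
      intro t ht D hD e k hk
      have b : k * D + D ≤ L := by nlinarith
      have c := mem t ht (k * D) (k * D + D) (by omega) b
      refine ⟨_, c, ?_, mul_ne_zero (τne _ (by omega)) (τne _ b)⟩
      rw [edge (pos t ht).ne' (dvd_step (hM1 t ht).1 (le t ht) hp hpr) hD hd
        ((le t ht).trans_lt hp) (hpr _ (by omega)) (hpr _ b) (hu _ c), e]
    have E1 := E m hm m' (pos m' hm') rfl
    have E2 := E m' hm' m (pos m hm) (mul_comm _ _)
    have fin : ∀ s : ℝ, (∀ k < m, 0 < s * (τ (k * m') * τ (k * m' + m'))) →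
        (∀ k < m', 0 < -s * (τ (k * m) * τ (k * m + m))) → False := by
      intro s a b
      have a' := chain τ s m' m (τne 0 (Nat.zero_le _)) a
      have b' := chain τ (-s) m m' (τne 0 (Nat.zero_le _)) b
      rw [(hM1 m' hm').2.1.neg_pow, mul_comm m' m] at b'
      have c : 0 < s ^ m * s ^ m' := by
        rw [← pow_add]
        refine Even.pow_pos ((hM1 m hm).2.1.add_odd (hM1 m' hm').2.1) fun e => ?_
        have := a 0 (pos m hm)
        rw [e] at this; simp at this
      nlinarith [mul_pos a' b', mul_nonneg c.le (mul_self_nonneg (τ 0 * τ (m * m')))]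
    constructor
    · by_contra hn
      push Not at hn
      refine fin (-1) (fun k hk => ?_) fun k hk => ?_
      · obtain ⟨c, hc, e, ne⟩ := E1 k hk
        have := hn c hc
        rw [e] at this
        have := lt_of_le_of_ne (nonpos_of_mul_nonpos_right' this sm) ne
        linarith
      · obtain ⟨c, hc, e, ne⟩ := E2 k hk
        have := hn c hc
        rw [e] at this
        have h3 : 0 ≤ τ (k * m) * τ (k * m + m) := by
          by_contra h4
          push Not at h4
          nlinarith [mul_pos_of_neg_of_neg sm' h4]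
        have := lt_of_le_of_ne h3 ne.symm
        linarith
    · by_contra hn
      push Not at hn
      refine fin 1 (fun k hk => ?_) fun k hk => ?_
      · obtain ⟨c, hc, e, ne⟩ := E1 k hk
        have := hn c hc
        rw [e] at this
        have := lt_of_le_of_ne (nonneg_of_mul_nonneg_right' this sm) ne.symm
        linarith
      · obtain ⟨c, hc, e, ne⟩ := E2 k hk
        have := hn c hc
        rw [e] at this
        have h3 : τ (k * m) * τ (k * m + m) ≤ 0 := by
          by_contra h4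
          push Not at h4
          nlinarith [mul_neg_of_neg_of_pos sm' h4]
        have := lt_of_le_of_ne h3 ne
        linarith

end Pool.Agent.Lib.MP_4b8564_nt.GT
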