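import Pool.Agent.Lib.MP_4b8564_nt.GT.VarnK
import Pool.Agent.Lib.MP_4b8564_nt.GT.Counting
import Pool.Agent.Lib.MP_4b8564_nt.GT.DenseArith

open Finset Combinatorics
open scoped Classical

noncomputable section

namespace Pool.Agent.Lib.MP_4b8564_nt.GT

namespace RelSzAux

/-- the linear forms condition bounds the cut norm of `ν - 1` -/
theorem cut_of_lf (ι : Type) [Fintype ι] [DecidableEq ι] (ε : ℝ) (hε : 0 < ε) : ∃ η : ℝ, 0 < η ∧
    ∀ (X : Type) [Fintype X] [Nonempty X] (ν : ι → (ι → X) → ℝ), (∀ j, Indep j (ν j)) →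
      (∀ j x, 0 ≤ ν j x) → LF ν η → ∀ j, Cut j (fun x => ν j x - 1) ε := by
  obtain ⟨η, hη, H⟩ := slf ι ε hε
  refine ⟨η, hη, fun X _ _ ν hi h0 hLF j u hu hu01 => ?_⟩
  have key := H X ν hi h0 hLF j (fun b => if b then fun _ _ => 1 else u) (fun _ _ => false)
    (fun b i hij => by
      cases b
      · simpa using hu i hij
      · intro x a
        simp)
    (fun b i x => by
      cases b
      · simpa using hu01 i x
      · simp)
  rw [av_prod] at key
  simpa [av_const] using key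

end RelSzAux

/-- the relative Szemerédi theorem -/
theorem relSz (k : ℕ) (hk : 2 ≤ k) (δ : ℝ) (hδ : 0 < δ) : ∃ η : ℝ, 0 < η ∧ η ≤ 1 ∧
    ∃ c : ℝ, 0 < c ∧ ∃ N₀ : ℕ, ∀ (N : ℕ) [NeZero N], N.Prime → N₀ ≤ N → ∀ ν f : ZMod N → ℝ,
      (∀ x, 0 ≤ f x ∧ f x ≤ ν x) → δ ≤ av f →
      LF (fun (j : Fin k) (x : Fin k → ZMod N) => ν (psi k N j x)) η → c ≤ lam k N f := by
  obtain ⟨c₀, hc₀, N₁, hV⟩ := varnK k (δ / 2) (by positivity)
  obtain ⟨η₁, hη₁, hC⟩ := counting (Fin k) (c₀ / 2) (by positivity)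
  obtain ⟨η₂, hη₂, hD⟩ := dense_arith k hk (min η₁ (δ / 2)) (by positivity)
  obtain ⟨η₃, hη₃, hS⟩ := RelSzAux.cut_of_lf (Fin k) η₂ hη₂
  refine ⟨min (min η₁ η₃) 1, by positivity, min_le_right _ _, c₀ / 2, by positivity,
    max N₁ (k + 1), fun N _ hN hN₀ ν f hf hδf hLF => ?_⟩
  have hkN : k < N := lt_of_lt_of_le (Nat.lt_succ_self k) ((le_max_right _ _).trans hN₀)
  have hLF₁ := hLF.mono ((min_le_left _ _).trans (min_le_left _ _))
  have hLF₃ := hLF.mono ((min_le_left _ _).trans (min_le_right _ _))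
  have hcut := hS (ZMod N) (fun (j : Fin k) (x : Fin k → ZMod N) => ν (psi k N j x))
    (fun j => indep_psi j ν) (fun j x => (hf _).1.trans (hf _).2) hLF₃
  obtain ⟨f', hf', hav, hc⟩ := hD N hN hkN ν f hf hcut
  have h1 : δ / 2 ≤ av f' := by
    have := (abs_le.1 hav).2
    have := min_le_right η₁ (δ / 2)
    linarith
  have h2 := hV N hN ((le_max_left _ _).trans hN₀) f' (fun x => (hf' x).1) (fun x => (hf' x).2) h1
  have h3 := hC (ZMod N) (fun (j : Fin k) (x : Fin k → ZMod N) => ν (psi k N j x))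
    (fun (j : Fin k) (x : Fin k → ZMod N) => f (psi k N j x))
    (fun (j : Fin k) (x : Fin k → ZMod N) => f' (psi k N j x))
    (fun j => indep_psi j ν) (fun j => indep_psi j f) (fun j => indep_psi j f')
    (fun j x => hf _) (fun j x => hf' _) hLF₁ (fun j => (hc j).mono (min_le_left _ _))
  rw [av_prod_psi hk f, av_prod_psi hk f'] at h3
  have := (abs_le.1 h3).1
  linarith

end Pool.Agent.Lib.MP_4b8564_nt.GT
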