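import Pool.Agent.Lib.MP_4b8564_nt.GT.Both
import Pool.Agent.Lib.MP_4b8564_nt.GT.Exact
import Pool.Agent.Lib.MP_4b8564_nt.GT.ExProg

/-!
Both signs of `S(1,1;c)` for moduli with exactly `k ≥ 3` prime factors, all of them large.
-/

open Finset

noncomputable section

namespace Pool.Agent.Lib.MP_4b8564_nt.GT

open Sg Sg.KlooAux Sg.CountAux

namespace RoughAux

theorem R_ne_sqf (m : ℕ) : Squarefree m → ∀ u : ℕ, Nat.Coprime u m → R m u ≠ 0 := by
  induction m using induction_on_primes with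
  | zero => intro h; exact absurd h not_squarefree_zero
  | one => intro _ u _; rw [R_eq, S_one]; exact one_ne_zero
  | prime_mul p a hp ih =>
    intro h u hu
    have hc := Nat.coprime_of_squarefree_mul h
    have ha := h.of_mul_right
    have h1 := Nat.Coprime.coprime_mul_right_right hu
    have h2 := Nat.Coprime.coprime_mul_left_right hu
    rw [R_mul hp.ne_zero ha.ne_zero hc u h1 h2]
    exact mul_ne_zero (R_ne hp _) (ih ha _ (Nat.Coprime.mul_left h2 hc))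

/-- odd squarefree numbers with `j` prime factors, all above `y` -/
def Rg (j y m : ℕ) : Prop :=
  Squarefree m ∧ Odd m ∧ m.primeFactors.card = j ∧ ∀ p ∈ m.primeFactors, y < p

theorem cop {m p : ℕ} (hm : 0 < m) (hp : p.Prime) (h : m < p) : Nat.Coprime m p :=
  ((Nat.Prime.coprime_iff_not_dvd hp).2 fun e => by have := Nat.le_of_dvd hm e; omega).symm

theorem Rg.mul {j y m p : ℕ} (h : Rg j y m) (hp : p.Prime) (hc : Nat.Coprime m p) (h2 : 2 < p)
    (hy : y < p) : Rg (j + 1) y (m * p) := by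
  refine ⟨(Nat.squarefree_mul hc).2 ⟨h.1, hp.squarefree⟩, h.2.1.mul (hp.odd_of_ne_two (by omega)),
    by rw [card_mul hc, h.2.2.1, hp.primeFactors, card_singleton], fun r hr => ?_⟩
  rw [hc.primeFactors_mul, hp.primeFactors, mem_union, mem_singleton] at hr
  rcases hr with hr | rfl
  · exact h.2.2.2 r hr
  · exact hy

theorem exists_rg (j y : ℕ) : ∃ g, Rg j y g := by
  induction j with
  | zero => exact ⟨1, squarefree_one, odd_one, by simp, by simp⟩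
  | succ n ih =>
    obtain ⟨g, hg⟩ := ih
    obtain ⟨p, h1, hp⟩ := Nat.exists_infinite_primes (g + y + 3)
    exact ⟨g * p, hg.mul hp (cop hg.2.1.pos hp (by omega)) (by omega) (by omega)⟩

theorem exists_three (n : ℕ) : ∃ t, n < t ∧ t.Prime ∧ t % 4 = 3 := by
  obtain ⟨t, h1, h2, h3⟩ := Nat.forall_exists_prime_gt_and_modEq n (q := 4) (a := 3) (by norm_num)
    (by norm_num)
  exact ⟨t, h1, h2, h3⟩

theorem label {g t a α : ℕ} (hg : 0 < g) (ht : t.Prime) (hc : Nat.Coprime g t)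
    (hα : Nat.Coprime α t) (h1 : a ≡ α [MOD t]) (h2 : a ≡ 1 [MOD g]) :
    Nat.Coprime a (g * t) ∧ R (g * t) (a * a) = R g t * R t (α * α * g) := by
  have c1 : Nat.Coprime a g := by
    rw [Nat.Coprime, Nat.ModEq.gcd_eq h2]; simp
  have c2 : Nat.Coprime a t := by
    rw [Nat.Coprime, Nat.ModEq.gcd_eq h1]; exact hα
  refine ⟨Nat.Coprime.mul_right c1 c2, ?_⟩
  rw [R_mul hg.ne' ht.ne_zero hc _ (Nat.Coprime.mul_left c1 c1) (Nat.Coprime.mul_left c2 c2)]
  have e1 := (ZMod.natCast_eq_natCast_iff _ _ _).2 h1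
  have e2 := (ZMod.natCast_eq_natCast_iff _ _ _).2 h2
  congr 1
  · refine R_congr ?_
    push_cast at e2 ⊢
    rw [e2]; ring
  · refine R_congr ?_
    push_cast
    rw [e1]

/-- two labels and a class on which they have opposite signs -/
theorem labels (j y : ℕ) : ∃ m m' a : ℕ, Rg (j + 1) y m ∧ Rg (j + 1) y m' ∧
    Nat.Coprime a (m * m') ∧ 0 < R m (a * a) ∧ R m' (a * a) < 0 := by
  obtain ⟨g, hg⟩ := exists_rg j y
  have g0 := hg.2.1.pos
  obtain ⟨t, h1, pt, ht⟩ := exists_three (g + y + 3)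
  obtain ⟨s, h2, ps, hs⟩ := exists_three t
  have ct := cop g0 pt (by omega)
  have cs := cop g0 ps (by omega)
  have cts : Nat.Coprime t s := cop pt.pos ps h2
  obtain ⟨α, a1, a2⟩ := both_signs pt ht (by omega) g ct (R g t) (R_ne_sqf g hg.1 t ct.symm)
  obtain ⟨β, b1, b2⟩ := both_signs ps hs (by omega) g cs (-R g s)
    (neg_ne_zero.2 (R_ne_sqf g hg.1 s cs.symm))
  obtain ⟨b, e1, e2⟩ := Nat.chineseRemainder cts α β
  obtain ⟨a, e3, e4⟩ := Nat.chineseRemainder (Nat.Coprime.mul_left ct.symm cs.symm) b 1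
  obtain ⟨l1, l2⟩ := label g0 pt ct a1 ((e3.of_mul_right s).trans e1) e4
  obtain ⟨l3, l4⟩ := label g0 ps cs b1 ((e3.of_mul_left t).trans e2) e4
  refine ⟨g * t, g * s, a, hg.mul pt ct (by omega) (by omega), hg.mul ps cs (by omega) (by omega),
    Nat.Coprime.mul_right l1 l3, l2 ▸ a2, ?_⟩
  rw [l4]
  linarith

theorem mem_nxt {M : Finset ℕ} {L p d m i i' : ℕ} (hm : m ∈ M) (a : i < i') (b : i' ≤ L) :
    m * (p + i * d) * (p + i' * d) ∈ nxt M L p d :=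
  mem_image.2 ⟨(m, i, i'), mem_filter.2 ⟨mem_product.2 ⟨hm, mem_product.2
    ⟨mem_range.2 (by simp only; omega), mem_range.2 (by simp only; omega)⟩⟩, a⟩, rfl⟩

theorem pair_step {m m' p d : ℕ} (om : Odd m) (om' : Odd m') (hm : m ∣ d) (hm' : m' ∣ d)
    (hp : m * m' < p) (hd : 0 < d) (hpr : ∀ i ≤ m * m', (p + i * d).Prime)
    (sm : 0 < R m (p * p)) (sm' : R m' (p * p) < 0) (ε : ℝ) (hε : ε ≠ 0) :
    ∃ c ∈ nxt {m, m'} (m * m') p d, 0 < ε * R c 1 := by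
  set τ : ℕ → ℝ := fun i => R (p + i * d) (1 * (m * m') * d) with hτ
  have τne : ∀ i ≤ m * m', τ i ≠ 0 := fun i hi => R_ne (hpr i hi) _
  have E : ∀ t ∈ ({m, m'} : Finset ℕ), t ∣ d → 0 < t → ∀ D : ℕ, 0 < D → t * D = m * m' → ∀ k < t,
      ∃ c ∈ nxt {m, m'} (m * m') p d,
        R c 1 = R t (p * p) * (τ (k * D) * τ (k * D + D)) ∧ τ (k * D) * τ (k * D + D) ≠ 0 := by
    intro t ht htd t0 D hD e k hk
    have b : k * D + D ≤ m * m' := by nlinarith
    have tp : t < p := by nlinarith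
    refine ⟨_, mem_nxt ht (by omega : k * D < k * D + D) b, ?_,
      mul_ne_zero (τne _ (by omega)) (τne _ b)⟩
    rw [edge t0.ne' htd hD hd tp (hpr _ (by omega)) (hpr _ b) (Nat.coprime_one_left _), e, one_mul p]
  have E1 := E m (by simp) hm om.pos m' om'.pos rfl
  have E2 := E m' (by simp) hm' om'.pos m om.pos (mul_comm _ _)
  by_contra hn
  push Not at hn
  have a : ∀ k < m, 0 < -ε * (τ (k * m') * τ (k * m' + m')) := fun k hk => by
    obtain ⟨c, hc, e, ne⟩ := E1 k hk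
    have h1 := hn c hc
    rw [e] at h1
    have h2 := mul_ne_zero hε ne
    have h3 : ε * (τ (k * m') * τ (k * m' + m')) ≤ 0 :=
      nonpos_of_mul_nonpos_right' (by linarith) sm
    have := lt_of_le_of_ne h3 h2
    linarith
  have b : ∀ k < m', 0 < ε * (τ (k * m) * τ (k * m + m)) := fun k hk => by
    obtain ⟨c, hc, e, ne⟩ := E2 k hk
    have h1 := hn c hc
    rw [e] at h1
    have h2 := mul_ne_zero hε ne
    have h3 : 0 ≤ ε * (τ (k * m) * τ (k * m + m)) :=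
      nonneg_of_mul_nonneg_right' (a := -R m' (p * p)) (by linarith) (by linarith)
    exact lt_of_le_of_ne h3 h2.symm
  have a' := chain τ (-ε) m' m (τne 0 (Nat.zero_le _)) a
  have b' := chain τ ε m m' (τne 0 (Nat.zero_le _)) b
  rw [om.neg_pow] at a'
  rw [mul_comm m' m] at b'
  have c : 0 < ε ^ m * ε ^ m' := by
    rw [← pow_add]
    exact Even.pow_pos (om.add_odd om') hε
  nlinarith [mul_pos a' b', mul_nonneg c.le (mul_self_nonneg (τ 0 * τ (m * m')))]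

theorem of_mem {q a B L Y : ℕ} {x : ℕ × ℕ} (hx : x ∈ APc q a B (L + 1) Y) :
    0 < x.2 ∧ ∀ i ≤ L, x.1 + i * x.2 ≤ Y ∧ (x.1 + i * x.2).Prime ∧ B < x.1 + i * x.2 ∧
      x.1 + i * x.2 ≡ a [MOD q] := by
  simp only [APc, mem_filter] at hx
  exact ⟨hx.2.1, fun i hi => hx.2.2 i (by omega)⟩

theorem count (M : Finset ℕ) (q a B L Y : ℕ) (hM : ∀ m ∈ M, 0 < m) (Gd : Finset ℕ)
    (h : ∀ x ∈ APc q a B (L + 1) Y, ∃ c ∈ nxt M L x.1 x.2, c ∈ Gd) :
    (APc q a B (L + 1) Y).card ≤ (idx M L).card * Gd.card := by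
  have sub : APc q a B (L + 1) Y ⊆ (idx M L).biUnion fun y => (APc q a B (L + 1) Y).filter fun x =>
      y.1 * (x.1 + y.2.1 * x.2) * (x.1 + y.2.2 * x.2) ∈ Gd := by
    intro x hx
    obtain ⟨c, hc, hG⟩ := h x hx
    obtain ⟨y, hy, rfl⟩ := mem_image.1 hc
    exact mem_biUnion.2 ⟨y, hy, mem_filter.2 ⟨hx, hG⟩⟩
  refine (card_le_card sub).trans (card_biUnion_le_card_mul _ _ _ fun y hy => ?_)
  obtain ⟨m, i, i'⟩ := y
  obtain ⟨hy1, hy2⟩ := mem_filter.1 hy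
  simp only [mem_product, mem_range] at hy1 hy2
  obtain ⟨hm, hi, hi'⟩ := hy1
  refine card_le_card_of_injOn (fun x => m * (x.1 + i * x.2) * (x.1 + i' * x.2))
    (fun x hx => (mem_filter.1 hx).2) fun x hx z hz E => ?_
  obtain ⟨a1, b⟩ := of_mem (mem_filter.1 hx).1
  obtain ⟨a2, b'⟩ := of_mem (mem_filter.1 hz).1
  simp only [mul_assoc] at E
  have E2 := Nat.eq_of_mul_eq_mul_left (hM m hm) E
  obtain ⟨f, g⟩ := prime_pair (b i (by omega)).2.1 (b i' (by omega)).2.1 (b' i (by omega)).2.1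
    (b' i' (by omega)).2.1 (by nlinarith) (by nlinarith) E2
  obtain ⟨r, rfl⟩ := Nat.exists_eq_add_of_lt hy2
  have k : (r + 1) * x.2 = (r + 1) * z.2 := by nlinarith
  have k2 := Nat.eq_of_mul_eq_mul_left (Nat.succ_pos r) k
  rw [k2] at f
  exact Prod.ext (by omega) k2

end RoughAux

open RoughAux

theorem rough_signs (k : ℕ) (hk : 3 ≤ k) (y : ℕ) : ∃ A : ℕ, ∃ δ : ℝ, 0 < δ ∧ ∃ X₀ : ℕ, ∀ X : ℕ,
    X₀ ≤ X → ∀ ε : ℝ, ε ≠ 0 → δ * X / Real.log X ^ A ≤
      (((Icc 1 X).filter fun c => Squarefree c ∧ c.primeFactors.card = k ∧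
        (∀ p ∈ c.primeFactors, y < p) ∧ 0 < ε * KS c).card : ℝ) := by
  obtain ⟨j, rfl⟩ : ∃ j, k = j + 1 + 1 + 1 := ⟨k - 3, by omega⟩
  obtain ⟨m, m', a, hm, hm', ha, sm, sm'⟩ := labels j y
  have m0 := hm.2.1.pos
  have m0' := hm'.2.1.pos
  have L0 : 0 < m * m' := Nat.mul_pos m0 m0'
  obtain ⟨c, hc, Y₀, hY⟩ := many_APc (m * m' + 1) (by omega) (m * m') a (m * m' + y + 2) L0 ha
  obtain ⟨X₀, hX⟩ := ExactAux.scale c hc (m * m') (m * m' + 1) Y₀ L0
  have hI : (0 : ℝ) < (idx {m, m'} (m * m')).card + 1 := by positivity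
  have hL' : (0 : ℝ) < (m * m' : ℕ) := by exact_mod_cast L0
  refine ⟨m * m' + 1, c / (4 * (m * m' : ℕ)) / ((idx {m, m'} (m * m')).card + 1), by positivity, X₀,
    fun X h ε hε => ?_⟩
  obtain ⟨Y, h1, h2, h3⟩ := hX X h
  have h4 := h3.trans (hY Y h1)
  have hM : ∀ t ∈ ({m, m'} : Finset ℕ), Rg (j + 1) y t ∧ t ≤ m * m' := by
    intro t ht
    rw [mem_insert, mem_singleton] at ht
    rcases ht with rfl | rfl
    · exact ⟨hm, Nat.le_mul_of_pos_right _ m0'⟩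
    · exact ⟨hm', Nat.le_mul_of_pos_left _ m0⟩
  have fin : ∀ Gd : Finset ℕ, (APc (m * m') a (m * m' + y + 2) (m * m' + 1) Y).card ≤
      (idx {m, m'} (m * m')).card * Gd.card →
      c / (4 * (m * m' : ℕ)) / ((idx {m, m'} (m * m')).card + 1) * X / Real.log X ^ (m * m' + 1) ≤
        (Gd.card : ℝ) := fun Gd hG => by
    have a1 : ((APc (m * m') a (m * m' + y + 2) (m * m' + 1) Y).card : ℝ) ≤
        (idx {m, m'} (m * m')).card * Gd.card := by exact_mod_cast hG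
    have b : (0 : ℝ) ≤ Gd.card := by positivity
    rw [div_mul_eq_mul_div, div_right_comm, div_le_iff₀ hI]
    nlinarith
  refine fin _ (RoughAux.count _ _ _ _ _ _ (fun t ht => (hM t ht).1.2.1.pos) _ fun x hx => ?_)
  obtain ⟨d0, f⟩ := of_mem hx
  obtain ⟨-, p0, B0, c0⟩ := f 0 (Nat.zero_le _)
  obtain ⟨-, -, -, c1⟩ := f 1 L0
  rw [zero_mul, add_zero] at p0 B0 c0
  rw [one_mul] at c1
  have dv : m * m' ∣ x.2 := by
    have := (Nat.modEq_iff_dvd' (Nat.le_add_right x.1 x.2)).1 (c0.trans c1.symm)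
    rwa [Nat.add_sub_cancel_left] at this
  have r1 : R m (x.1 * x.1) = R m (a * a) := R_congr ((ZMod.natCast_eq_natCast_iff _ _ _).2
    ((c0.of_mul_right m').mul (c0.of_mul_right m')))
  have r2 : R m' (x.1 * x.1) = R m' (a * a) := R_congr ((ZMod.natCast_eq_natCast_iff _ _ _).2
    ((c0.of_mul_left m).mul (c0.of_mul_left m)))
  obtain ⟨n, hn, s⟩ := pair_step hm.2.1 hm'.2.1 ((Dvd.intro _ rfl).trans dv)
    ((Dvd.intro_left _ rfl).trans dv) (by omega) d0 (fun i hi => (f i hi).2.1) (r1 ▸ sm) (r2 ▸ sm')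
    ε hε
  refine ⟨n, hn, ?_⟩
  obtain ⟨⟨t, i, i'⟩, hy, rfl⟩ := mem_image.1 hn
  obtain ⟨hy1, hy2⟩ := mem_filter.1 hy
  simp only [mem_product, mem_range] at hy1 hy2 s ⊢
  obtain ⟨ht, hi, hi'⟩ := hy1
  obtain ⟨g1, g2⟩ := hM t ht
  obtain ⟨u1, u2, u3, -⟩ := f i (by omega)
  obtain ⟨v1, v2, v3, -⟩ := f i' (by omega)
  have lt : x.1 + i * x.2 < x.1 + i' * x.2 := by nlinarith
  have G1 := g1.mul u2 (cop g1.2.1.pos u2 (by omega)) (by omega) (by omega)
  have G2 := G1.mul v2 (Nat.Coprime.mul_left (cop g1.2.1.pos v2 (by omega))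
    ((Nat.coprime_primes u2 v2).2 lt.ne)) (by omega) (by omega)
  have : NeZero (t * (x.1 + i * x.2) * (x.1 + i' * x.2)) := ⟨G2.2.1.pos.ne'⟩
  refine mem_filter.2 ⟨mem_Icc.2 ⟨G2.2.1.pos, le_trans ?_ h2⟩, G2.1, G2.2.2.1, G2.2.2.2, ?_⟩
  · exact Nat.mul_le_mul (Nat.mul_le_mul g2 u1) v1
  · rwa [KS_eq_S, ← R_eq]

end Pool.Agent.Lib.MP_4b8564_nt.GT
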