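import Pool.Agent.Lib.MP_4b8564_nt.GT.Av

open Finset Combinatorics
open scoped Classical

noncomputable section

namespace Pool.Agent.Lib.MP_4b8564_nt.GT

namespace SlfAux

variable {ι X : Type} [Fintype ι] [DecidableEq ι] [Fintype X]

/-- the vertex of the cube spanned by two points -/
def pt (S : Finset ι) (z : (ι → X) × (ι → X)) : ι → X := S.piecewise z.2 z.1

omit [Fintype ι] [Fintype X] in
theorem pt_swap (S : Finset ι) (d : ι) (x y : ι → X) :
    pt S (Function.update x d (y d), y) = pt (insert d S) (x, y) := by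
  funext i
  by_cases h : i = d
  · subst h
    by_cases hS : i ∈ S <;> simp [pt, hS]
  · by_cases hS : i ∈ S <;> simp [pt, hS, h]

omit [Fintype ι] [Fintype X] in
theorem pt_right {S : Finset ι} {d : ι} (hd : d ∉ S) (x y : ι → X) (a : X) :
    pt S (x, Function.update y d a) = pt S (x, y) := by
  funext i
  by_cases hS : i ∈ S
  · have h : i ≠ d := fun e => hd (e ▸ hS)
    simp [pt, hS, h]
  · simp [pt, hS]

omit [Fintype ι] [Fintype X] in
theorem pt_left {S : Finset ι} {d : ι} (hd : d ∉ S) (x y : ι → X) (a : X) :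
    pt S (Function.update x d a, y) = Function.update (pt S (x, y)) d a := by
  funext i
  by_cases h : i = d
  · subst h
    simp [pt, hd]
  · by_cases hS : i ∈ S <;> simp [pt, hS, h]

/-- one application of the Cauchy-Schwarz inequality -/
theorem cs [Nonempty X] (d : ι) (A A' B : (ι → X) × (ι → X) → ℝ)
    (hA : ∀ x y a, A (Function.update x d a, y) = A (x, y))
    (hA1 : ∀ x y a, A' (Function.update x d a, y) = A' (x, y))
    (hA2 : ∀ x y a, A' (x, Function.update y d a) = A' (x, y))
    (hB : ∀ x y a, B (x, Function.update y d a) = B (x, y)) (hle : ∀ z, |A z| ≤ A' z) :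
    av (fun z => A z * B z) ^ 2 ≤
      av A' * av fun z => A' z * (B z * B (Function.update z.1 d (z.2 d), z.2)) := by
  have e1 : av (fun z => A z * B z) =
      av fun z => A z * av fun a => B (Function.update z.1 d a, z.2) := by
    rw [av_prod, av_prod, av_comm, av_comm fun x y => A (x, y) * _]
    refine av_congr fun y => ?_
    rw [av_update d]
    refine av_congr fun x => ?_
    rw [← av_const_mul]
    exact av_congr fun a => by rw [hA]
  have e2 : av (fun z => A' z * (B z * B (Function.update z.1 d (z.2 d), z.2))) =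
      av fun z => A' z * (av fun a => B (Function.update z.1 d a, z.2)) ^ 2 := by
    rw [av_prod, av_prod]
    have e3 : ∀ x, av (fun y => A' (x, y) * (B (x, y) * B (Function.update x d (y d), y))) =
        av fun y => A' (x, y) * (B (x, y) * av fun a => B (Function.update x d a, y)) := by
      intro x
      rw [av_update d]
      refine av_congr fun y => ?_
      rw [← av_const_mul, ← av_const_mul]
      exact av_congr fun a => by rw [hA2, hB, hB, Function.update_self]
    simp only [e3]
    rw [av_comm, av_comm fun x y => A' (x, y) * _]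
    refine av_congr fun y => ?_
    rw [av_update d]
    refine av_congr fun x => ?_
    simp only [hA1, Function.update_idem]
    rw [av_const_mul, av_mul_const, sq]
  rw [e1, e2]
  exact av_mul_sq_le _ _ _ hle

theorem expand {ν : ι → (ι → X) → ℝ} {η : ℝ} (h : LF ν η) (j₀ : ι) (U : Finset (Finset ι)) :
    (∀ S ∈ U, j₀ ∉ S) → ∀ T : Finset (ι × Finset ι), (∀ t ∈ T, t.1 ∉ t.2) →
      (∀ S ∈ U, (j₀, S) ∉ T) →
      |av (fun z => (∏ S ∈ U, (ν j₀ (pt S z) - 1)) * ∏ t ∈ T, ν t.1 (pt t.2 z)) - 0 ^ U.card| ≤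
        2 ^ U.card * η := by
  induction U using Finset.induction_on with
  | empty =>
    intro _ T hT _
    simp only [prod_empty, one_mul, card_empty, pow_zero]
    exact h T hT
  | insert S U hS ih =>
    intro hU T hT hd
    have hU' : ∀ S' ∈ U, j₀ ∉ S' := fun S' h' => hU S' (mem_insert_of_mem h')
    have h1 := ih hU' T hT fun S' h' => hd S' (mem_insert_of_mem h')
    have h2 := ih hU' (insert (j₀, S) T)
      (fun t ht => by
        rcases mem_insert.1 ht with rfl | ht
        · exact hU S (mem_insert_self _ _)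
        · exact hT t ht)
      (fun S' h' ht => by
        rcases mem_insert.1 ht with e | ht
        · exact hS ((Prod.mk.inj e).2 ▸ h')
        · exact hd S' (mem_insert_of_mem h') ht)
    have e : av (fun z => (∏ S' ∈ insert S U, (ν j₀ (pt S' z) - 1)) * ∏ t ∈ T, ν t.1 (pt t.2 z)) =
        av (fun z => (∏ S' ∈ U, (ν j₀ (pt S' z) - 1)) *
          ∏ t ∈ insert (j₀, S) T, ν t.1 (pt t.2 z)) -
        av (fun z => (∏ S' ∈ U, (ν j₀ (pt S' z) - 1)) * ∏ t ∈ T, ν t.1 (pt t.2 z)) := by
      rw [← av_sub]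
      refine av_congr fun z => ?_
      rw [prod_insert hS, prod_insert (hd S (mem_insert_self _ _))]
      ring
    rw [e, card_insert_of_notMem hS, pow_succ, pow_succ, mul_zero, sub_zero]
    rw [abs_le] at h1 h2 ⊢
    constructor <;> linarith [h1.1, h1.2, h2.1, h2.2]

/-- the terms that carry the majorant -/
def TT (j₀ : ι) (c : Bool → ι → Bool) (J E : Finset ι) : Finset (ι × Finset ι) :=
  (J ×ˢ univ).filter fun t => t.2 ⊆ E.erase t.1 ∧ c (decide (j₀ ∈ t.2)) t.1 = true

theorem TT_adm (j₀ : ι) (c : Bool → ι → Bool) (J E : Finset ι) :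
    ∀ t ∈ TT j₀ c J E, t.1 ∉ t.2 := fun _ ht hm =>
  notMem_erase _ _ ((mem_filter.1 ht).2.1 hm)

omit [Fintype X] in
theorem rep (ν : ι → (ι → X) → ℝ) (j₀ : ι) (c : Bool → ι → Bool) (J E : Finset ι)
    (z : (ι → X) × (ι → X)) :
    (∏ j ∈ J, ∏ T ∈ (E.erase j).powerset,
      if c (decide (j₀ ∈ T)) j then ν j (pt T z) else 1) =
      ∏ t ∈ TT j₀ c J E, ν t.1 (pt t.2 z) := by
  rw [TT, prod_filter, prod_product]
  refine prod_congr rfl fun j _ => ?_
  have : (E.erase j).powerset = univ.filter fun T => T ⊆ E.erase j := by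
    ext T
    simp
  rw [this, prod_filter]
  refine prod_congr rfl fun T _ => ?_
  by_cases h1 : T ⊆ E.erase j <;> by_cases h2 : c (decide (j₀ ∈ T)) j = true <;> simp [h1, h2]

/-- the quantity after doubling the coordinates in `D` -/
def W (ν : ι → (ι → X) → ℝ) (j₀ : ι) (D : Finset ι) (G : Bool → ι → (ι → X) → ℝ) : ℝ :=
  av fun z => (∏ S ∈ D.powerset, (ν j₀ (pt S z) - 1)) *
    ∏ j ∈ univ.erase j₀, ∏ T ∈ ((insert j₀ D).erase j).powerset, G (decide (j₀ ∈ T)) j (pt T z)

theorem W_step [Nonempty X] (ν : ι → (ι → X) → ℝ) (j₀ d : ι) (D : Finset ι)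
    (G G' : Bool → ι → (ι → X) → ℝ) (hd : d ≠ j₀) (hD : d ∉ D)
    (hG : ∀ b, Indep d (G b d)) (hG' : ∀ b, Indep d (G' b d))
    (hle : ∀ b x, 0 ≤ G b d x ∧ G b d x ≤ G' b d x) (heq : ∀ b j, j ≠ d → G' b j = G b j) :
    W ν j₀ D G ^ 2 ≤ av (fun z => ∏ T ∈ (insert j₀ D).powerset,
      G' (decide (j₀ ∈ T)) d (pt T z)) * W ν j₀ (insert d D) G' := by
  have hE : d ∉ insert j₀ D := by simp [hd, hD]
  have hT : ∀ T ∈ (insert j₀ D).powerset, d ∉ T := fun T h hm => hE (mem_powerset.1 h hm)
  have hdJ : d ∈ univ.erase j₀ := by simp [hd]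
  have key := cs d (fun z => ∏ T ∈ (insert j₀ D).powerset, G (decide (j₀ ∈ T)) d (pt T z))
    (fun z => ∏ T ∈ (insert j₀ D).powerset, G' (decide (j₀ ∈ T)) d (pt T z))
    (fun z => (∏ S ∈ D.powerset, (ν j₀ (pt S z) - 1)) *
      ∏ j ∈ (univ.erase j₀).erase d, ∏ T ∈ ((insert j₀ D).erase j).powerset,
        G (decide (j₀ ∈ T)) j (pt T z))
    (fun x y a => prod_congr rfl fun T h => by rw [pt_left (hT T h), hG])
    (fun x y a => prod_congr rfl fun T h => by rw [pt_left (hT T h), hG'])
    (fun x y a => prod_congr rfl fun T h => by rw [pt_right (hT T h)])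
    (fun x y a => by
      congr 1
      · exact prod_congr rfl fun S h => by rw [pt_right fun hm => hD (mem_powerset.1 h hm)]
      · exact prod_congr rfl fun j _ => prod_congr rfl fun T h => by
          rw [pt_right fun hm => hE (mem_of_mem_erase (mem_powerset.1 h hm))])
    (fun z => by
      rw [abs_of_nonneg (prod_nonneg fun T _ => (hle _ _).1)]
      exact prod_le_prod (fun T _ => (hle _ _).1) fun T _ => (hle _ _).2)
  convert key using 2
  · refine av_congr fun z => ?_
    rw [← mul_prod_erase _ _ hdJ, erase_eq_of_notMem hE]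
    ring
  · refine av_congr fun z => ?_
    obtain ⟨x, y⟩ := z
    rw [← mul_prod_erase _ _ hdJ, insert_comm j₀ d, erase_insert hE, prod_powerset_insert hD]
    simp only [pt_swap]
    have e : (∏ j ∈ (univ.erase j₀).erase d, ∏ T ∈ ((insert d (insert j₀ D)).erase j).powerset,
          G' (decide (j₀ ∈ T)) j (pt T (x, y))) =
        (∏ j ∈ (univ.erase j₀).erase d, ∏ T ∈ ((insert j₀ D).erase j).powerset,
          G (decide (j₀ ∈ T)) j (pt T (x, y))) *
        ∏ j ∈ (univ.erase j₀).erase d, ∏ T ∈ ((insert j₀ D).erase j).powerset,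
          G (decide (j₀ ∈ T)) j (pt (insert d T) (x, y)) := by
      rw [← prod_mul_distrib]
      refine prod_congr rfl fun j hj => ?_
      have hj' : j ≠ d := ne_of_mem_erase hj
      rw [erase_insert_of_ne hj'.symm, prod_powerset_insert fun hm => hE (mem_of_mem_erase hm)]
      simp only [heq _ j hj', mem_insert, hd.symm, false_or]
    rw [e]
    ring

theorem main (ι : Type) [Fintype ι] [DecidableEq ι] (r : ℕ) : ∀ ε : ℝ, 0 < ε → ∃ η : ℝ, 0 < η ∧
    ∀ (X : Type) [Fintype X] [Nonempty X] (ν : ι → (ι → X) → ℝ), (∀ j, Indep j (ν j)) →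
      (∀ j x, 0 ≤ ν j x) → LF ν η → ∀ (j₀ : ι) (c : Bool → ι → Bool) (D : Finset ι)
        (G : Bool → ι → (ι → X) → ℝ), j₀ ∉ D → (univ.erase j₀ \ D).card = r →
        (∀ b j, j ≠ j₀ → Indep j (G b j)) →
        (∀ b j x, 0 ≤ G b j x ∧ G b j x ≤ if c b j then ν j x else 1) →
        (∀ b, ∀ j ∈ D, ∀ x, G b j x = if c b j then ν j x else 1) → |W ν j₀ D G| ≤ ε := by
  induction r with
  | zero =>
    intro ε hε
    refine ⟨ε / 2 ^ 2 ^ Fintype.card ι, by positivity,
      fun X _ _ ν _ _ hLF j₀ c D G hj hr _ _ hfull => ?_⟩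
    have hJ : univ.erase j₀ ⊆ D := sdiff_eq_empty_iff_subset.1 (card_eq_zero.1 hr)
    have h := expand hLF j₀ D.powerset (fun S h hm => hj (mem_powerset.1 h hm))
      (TT j₀ c (univ.erase j₀) (insert j₀ D)) (TT_adm _ _ _ _)
      (fun S _ hm => by simpa using (mem_product.1 (mem_filter.1 hm).1).1)
    have e : W ν j₀ D G = av fun z => (∏ S ∈ D.powerset, (ν j₀ (pt S z) - 1)) *
        ∏ t ∈ TT j₀ c (univ.erase j₀) (insert j₀ D), ν t.1 (pt t.2 z) := by
      refine av_congr fun z => ?_
      rw [← rep]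
      congr 1
      exact prod_congr rfl fun j hj => prod_congr rfl fun T _ => hfull _ j (hJ hj) _
    rw [card_powerset, zero_pow (by positivity), sub_zero, ← e] at h
    refine h.trans ?_
    rw [mul_div_assoc', div_le_iff₀ (by positivity), mul_comm]
    gcongr
    · norm_num
    · norm_num
    · exact card_le_univ D
  | succ r ih =>
    intro ε hε
    obtain ⟨η, hη, H⟩ := ih (ε ^ 2 / 2) (by positivity)
    refine ⟨min η 1, lt_min hη one_pos,
      fun X _ _ ν hν hν0 hLF j₀ c D G hj hr hG hle hfull => ?_⟩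
    obtain ⟨d, hd⟩ : (univ.erase j₀ \ D).Nonempty := card_pos.1 (by omega)
    have hd1 : d ≠ j₀ := ne_of_mem_erase (mem_sdiff.1 hd).1
    have hd2 : d ∉ D := (mem_sdiff.1 hd).2
    let G' : Bool → ι → (ι → X) → ℝ := fun b j =>
      if j = d then fun x => if c b j then ν j x else 1 else G b j
    have hGd : ∀ b x, G' b d x = if c b d then ν d x else 1 := fun b x => by simp [G']
    have hGn : ∀ b j, j ≠ d → G' b j = G b j := fun b j h => by simp [G', h]
    have hI : ∀ b, Indep d (G' b d) := fun b x a => by rw [hGd, hGd, hν d x a]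
    have h1 := H X ν hν hν0 (fun T hT => (hLF T hT).trans (min_le_left _ _)) j₀ c (insert d D) G'
      (by simp [hj, hd1.symm])
      (by rw [sdiff_insert, card_erase_of_mem hd, hr]; rfl)
      (fun b j h => by
        by_cases e : j = d
        · rw [e]; exact hI b
        · rw [hGn b j e]; exact hG b j h)
      (fun b j x => by
        by_cases e : j = d
        · rw [e, hGd]; exact ⟨(hle b d x).1.trans (hle b d x).2, le_rfl⟩
        · rw [hGn b j e]; exact hle b j x)
      (fun b j h x => by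
        by_cases e : j = d
        · rw [e, hGd]
        · rw [hGn b j e]; exact hfull b j ((mem_insert.1 h).resolve_left e) x)
    have h2 := W_step ν j₀ d D G G' hd1 hd2 (fun b => hG b d hd1) hI
      (fun b x => by rw [hGd]; exact hle b d x) hGn
    have h3 := (hLF _ (TT_adm j₀ c {d} (insert j₀ D))).trans (min_le_right _ _)
    have e : av (fun z => ∏ T ∈ (insert j₀ D).powerset, G' (decide (j₀ ∈ T)) d (pt T z)) =
        av fun z : (ι → X) × (ι → X) =>
          ∏ t ∈ TT j₀ c {d} (insert j₀ D), ν t.1 (t.2.piecewise z.2 z.1) := by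
      refine av_congr fun z => ?_
      have := rep ν j₀ c {d} (insert j₀ D) z
      rw [prod_singleton, erase_eq_of_notMem (by simp [hd1, hd2])] at this
      simp only [hGd]
      exact this
    rw [← e] at h3
    have h4 : 0 ≤ av (fun z => ∏ T ∈ (insert j₀ D).powerset, G' (decide (j₀ ∈ T)) d (pt T z)) :=
      av_nonneg fun z => prod_nonneg fun T _ => by
        rw [hGd]; exact (hle _ d _).1.trans (hle _ d _).2
    refine abs_le_of_sq_le_sq' ?_ hε.le |> abs_le.2
    have h5 := (abs_le.1 h1).2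
    have h6 := (abs_le.1 h3).2
    nlinarith [mul_le_mul_of_nonneg_left h5 h4, sq_nonneg ε]

end SlfAux

/-- strong linear forms -/
theorem slf (ι : Type) [Fintype ι] [DecidableEq ι] (ε : ℝ) (hε : 0 < ε) : ∃ η : ℝ, 0 < η ∧
    ∀ (X : Type) [Fintype X] [Nonempty X] (ν : ι → (ι → X) → ℝ), (∀ j, Indep j (ν j)) →
      (∀ j x, 0 ≤ ν j x) → LF ν η →
      ∀ (j₀ : ι) (g : Bool → ι → (ι → X) → ℝ) (c : Bool → ι → Bool),
        (∀ b j, j ≠ j₀ → Indep j (g b j)) →
        (∀ b j x, 0 ≤ g b j x ∧ g b j x ≤ if c b j then ν j x else 1) →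
        |av fun z : (ι → X) × X => (ν j₀ z.1 - 1) *
          ∏ j ∈ univ.erase j₀, (g false j z.1 * g true j (Function.update z.1 j₀ z.2))| ≤ ε := by
  obtain ⟨η, hη, H⟩ := SlfAux.main ι (Fintype.card ι - 1) ε hε
  refine ⟨η, hη, fun X _ _ ν hν hν0 hLF j₀ g c hg hle => ?_⟩
  have h := H X ν hν hν0 hLF j₀ c ∅ g (notMem_empty _)
    (by rw [sdiff_empty, card_erase_of_mem (mem_univ _), card_univ]) hg hle
    (fun b j h => absurd h (notMem_empty _))
  convert h using 2
  rw [SlfAux.W, av_prod, av_prod]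
  refine av_congr fun x => ?_
  rw [av_update j₀, ← av_const (X := ι → X) (av _)]
  refine av_congr fun y => av_congr fun a => ?_
  congr 1
  · simp [SlfAux.pt]
  · refine prod_congr rfl fun j hj => ?_
    have hj' : j ≠ j₀ := ne_of_mem_erase hj
    have e : SlfAux.pt (insert j₀ ∅) (x, Function.update y j₀ a) = Function.update x j₀ a := by
      funext i
      by_cases hi : i = j₀
      · subst hi
        simp [SlfAux.pt]
      · simp [SlfAux.pt, hi]
    rw [erase_insert_of_ne hj'.symm, erase_empty, prod_powerset_insert (notMem_empty _),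
      powerset_empty, prod_singleton, prod_singleton, e]
    simp [SlfAux.pt]

end Pool.Agent.Lib.MP_4b8564_nt.GT
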