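import Pool.Agent.Lib.MP_4b8564_nt.GT.Tile

open Finset Combinatorics
open scoped Classical

noncomputable section

namespace Pool.Agent.Lib.MP_4b8564_nt.GT

namespace TileAllAux

theorem le_of_subspace {β : Type} {m n : ℕ} (V : Subspace (Fin m) β (Fin n)) : m ≤ n := by
  choose φ hφ using V.proper
  have : Function.Injective φ := fun e e' h => by
    have h1 := hφ e
    rw [h, hφ e'] at h1
    exact (Sum.inr.inj h1).symm
  simpa using Fintype.card_le_of_injective φ this

theorem le_of_incr {β : Type} [Fintype β] [Nonempty β] {m n : ℕ} {b : ℝ} (hb : b < 1)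
    (h : Incr m (fun _ : Fin n → β => True) b) : m ≤ n := by
  by_contra hn
  have := h (fun _ => 1) (fun _ => by simp) fun V _ => absurd (le_of_subspace V) hn
  simp only [if_true, av_const] at this
  linarith

end TileAllAux

theorem tileAll {α : Type} [Fintype α] [Nonempty α] (h : DHJ α) (s : Finset α) (m : ℕ) (b : ℝ)
    (hb : 0 < b) : ∃ n : ℕ, m ≤ n ∧ ∀ D : α → (Fin n → Option α) → Prop, (∀ a ∈ s, Ins a (D a)) →
      Incr m (fun w => ∀ a ∈ s, D a w) b := by
  induction s using Finset.induction_on generalizing m b with
  | empty =>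
    refine ⟨m, le_rfl, fun D _ f _ H => ?_⟩
    have h0 := H (ofEquiv (Equiv.refl _)) fun x a ha => absurd ha (notMem_empty a)
    rw [av_ofEquiv] at h0
    refine le_trans (le_of_eq (av_congr fun w => ?_)) (h0.trans hb.le)
    exact if_pos fun a ha => absurd ha (notMem_empty a)
  | insert a s _ ih =>
    obtain ⟨c, hc0, hc1, hcb⟩ : ∃ c : ℝ, 0 < c ∧ c ≤ 1 / 3 ∧ 3 * c ≤ b :=
      ⟨min b 1 / 3, by positivity, by linarith [min_le_right b 1], by linarith [min_le_left b 1]⟩
    obtain ⟨n1, hmn, h1⟩ := ih m c hc0
    obtain ⟨n, hn⟩ := tile h a n1 c hc0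
    refine ⟨n, hmn.trans (TileAllAux.le_of_incr (β := Option α) (by linarith)
      (hn (fun _ => True) fun _ _ _ => Iff.rfl)), fun D hD f hf H => ?_⟩
    have hpos : 0 < 1 + c := by linarith
    have key := hn (D a) (hD a (mem_insert_self a s))
      (fun w => ((if ∀ a' ∈ s, D a' w then f w else 0) - c) * (1 + c)⁻¹) (fun w => ?_) fun U hU => ?_
    · have hle : av (fun w => if ∀ a' ∈ insert a s, D a' w then f w else 0) ≤ av fun w =>
          (1 + c) * (if D a w then ((if ∀ a' ∈ s, D a' w then f w else 0) - c) * (1 + c)⁻¹ else 0)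
            + c := by
        refine av_mono fun w => ?_
        by_cases hw : D a w
        · rw [if_pos hw, mul_comm, inv_mul_cancel_right₀ hpos.ne', sub_add_cancel]
          refine le_of_eq (if_congr ?_ rfl rfl)
          rw [forall_mem_insert]
          exact and_iff_right hw
        · rw [if_neg hw, if_neg fun hh => hw (hh a (mem_insert_self a s))]
          linarith
      rw [av_add, av_const, av_const_mul] at hle
      refine le_trans (le_of_eq (av_congr fun w => ?_)) (hle.trans ?_)
      · congr
      · nlinarith
    · rw [abs_mul, abs_of_pos (inv_pos.2 hpos), ← div_eq_mul_inv, div_le_one hpos, abs_le]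
      have := abs_le.1 (hf w)
      split_ifs <;> constructor <;> linarith
    · have h2 := h1 (fun a' x => D a' (U x))
        (fun a' ha' => (hD a' (mem_insert_of_mem ha')).comp U) (fun x => f (U x))
        (fun x => hf _) fun V hV => by
          have := H (comp U V) fun x a' ha' => by
            rw [comp_apply]
            rcases mem_insert.1 ha' with rfl | ha'
            · exact hU _
            · exact hV x a' ha'
          simpa only [comp_apply] using this
      rw [av_mul_const, av_sub, av_const]
      refine mul_nonpos_of_nonpos_of_nonneg (sub_nonpos.2 ?_) (inv_pos.2 hpos).le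
      refine le_trans (le_of_eq (av_congr fun w => ?_)) h2
      congr

end Pool.Agent.Lib.MP_4b8564_nt.GT
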