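import Pool.Agent.Lib.MP_4b8564_nt.GT.Lines
import Pool.Agent.Lib.MP_4b8564_nt.GT.Corr
import Pool.Agent.Lib.MP_4b8564_nt.GT.Corr11
import Pool.Agent.Lib.MP_4b8564_nt.GT.TileAll

open Finset Combinatorics
open scoped Classical

noncomputable section

namespace Pool.Agent.Lib.MP_4b8564_nt.GT

namespace StepAux

/-- a set that correlates with an almost tiled set has a density increment on a subspace -/
theorem incr_of_corr {β ι : Type} [Fintype β] [Nonempty β] [Fintype ι] [DecidableEq ι] (m : ℕ)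
    (D A : (ι → β) → Prop) (b δ σ : ℝ) (hI : Incr m D b) (hδ : 0 ≤ δ) (hσ : 0 < σ) (hb : 0 < b)
    (hD : b ≤ σ * dn D) (hA : (δ + 3 * σ) * dn D ≤ dn fun w => A w ∧ D w) :
    ∃ V : Subspace (Fin m) β ι, δ + σ ≤ dn fun x => A (V x) := by
  have hD0 : 0 < dn D := by
    by_contra hn
    have := mul_nonpos_of_nonneg_of_nonpos hσ.le (not_lt.1 hn)
    linarith
  have hle : dn (fun w => A w ∧ D w) ≤ dn D := dn_mono fun w hw => hw.2
  have h1 : δ + 3 * σ ≤ 1 := by
    by_contra hn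
    have := mul_lt_mul_of_pos_right (not_le.1 hn) hD0
    linarith
  by_contra hn
  have hn' : ∀ V : Subspace (Fin m) β ι, dn (fun x => A (V x)) < δ + σ := fun V =>
    not_le.1 fun hV => hn ⟨V, hV⟩
  have key := hI (fun w => (if A w then 1 else 0) - (δ + σ))
    (fun w => by
      rw [abs_le]
      split_ifs <;> constructor <;> linarith)
    (fun V _ => by
      rw [av_sub, av_const]
      have := hn' V
      unfold dn at this
      linarith)
  have e : av (fun w => if D w then (if A w then (1 : ℝ) else 0) - (δ + σ) else 0) =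
      dn (fun w => A w ∧ D w) - (δ + σ) * dn D := by
    unfold dn
    rw [← av_const_mul, ← av_sub]
    exact av_congr fun w => by by_cases hA : A w <;> by_cases hD : D w <;> simp [hA, hD]
  rw [e] at key
  nlinarith

end StepAux

theorem step {α : Type} [Fintype α] [Nonempty α] (h : DHJ α) (δ₁ : ℝ) (hδ : 0 < δ₁) :
    ∃ γ : ℝ, 0 < γ ∧ ∀ m : ℕ, ∃ n : ℕ, ∀ A : (Fin n → Option α) → Prop, δ₁ ≤ dn A → ¬ HasLine A →
      ∃ V : Subspace (Fin m) (Option α) (Fin n), dn A + γ ≤ dn fun x => A (V x) := by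
  by_cases hδ1 : 1 < δ₁
  · refine ⟨1, one_pos, fun m => ⟨0, fun A hA _ => ?_⟩⟩
    have := dn_le_one A
    linarith
  have hδ1' : δ₁ ≤ 1 := not_lt.1 hδ1
  obtain ⟨θ, hθ, -, hθ1, m₀, hL⟩ := lines7 h δ₁ hδ
  obtain ⟨σ, hσ⟩ : ∃ σ : ℝ, σ = δ₁ * θ / 48 := ⟨_, rfl⟩
  obtain ⟨m₁, hC⟩ := corr11 α δ₁ θ σ hδ hθ hθ1 hσ
  have hσ0 : 0 < σ := by rw [hσ]; positivity
  have hσδ : σ ≤ δ₁ / 48 := by rw [hσ]; nlinarith
  have hσθ : σ < θ := by rw [hσ]; nlinarith
  have hσ1 : σ ≤ 1 := by linarith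
  have hk : (0 : ℝ) < Fintype.card α := by exact_mod_cast Fintype.card_pos
  refine ⟨σ ^ 2 / 2, by positivity, fun m => ?_⟩
  obtain ⟨n₁, hn₁, hT⟩ := tileAll h univ (max m (max m₀ m₁)) (σ * (σ * δ₁ / Fintype.card α))
    (by positivity)
  have hm : m ≤ n₁ := (le_max_left _ _).trans hn₁
  have hm₀ : m₀ ≤ n₁ := ((le_max_left _ _).trans (le_max_right _ _)).trans hn₁
  have hm₁ : m₁ ≤ n₁ := ((le_max_right _ _).trans (le_max_right _ _)).trans hn₁
  obtain ⟨n, hn⟩ := hL n₁ hm₀ (σ ^ 2 / 2) (by positivity) (by nlinarith)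
  refine ⟨n, fun A hA hnl => ?_⟩
  obtain ⟨Y, iY, jY, V, hV1, hV2⟩ := hn A hA
  rcases corr8 (fun y x => A (V y x)) (fun y w => ∀ a, A (V y fun i => some (sub w a i)))
    (fun w : Fin n₁ → Option α => HasVar w) (dn A) σ θ hσ0 hσθ hθ1 hV1 hV2 with
    ⟨y, hy⟩ | ⟨y, hy1, hy2⟩
  · obtain ⟨U, hU⟩ := shrink_dn hm fun x => A (V y x)
    refine ⟨comp (V y) U, hy.trans (hU.trans (le_of_eq (dn_congr fun x => ?_)))⟩
    rw [comp_apply]
  · obtain ⟨D, hD1, hD2, hD3⟩ := hC n₁ hm₁ (fun x => A (V y x)) (dn A) hA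
      (fun hl => hnl (hasLine_of_comp (V y) hl)) hy1 hy2
    have hI := hT D fun a _ => hD1 a
    have eD : (fun w => ∀ a ∈ (univ : Finset α), D a w) = fun w => ∀ a, D a w := by
      funext w
      simp
    rw [eD] at hI
    obtain ⟨W, hW⟩ := StepAux.incr_of_corr _ _ (fun x => A (V y x)) _ (dn A) σ hI (dn_nonneg A) hσ0
      (by positivity) (mul_le_mul_of_nonneg_left hD2 hσ0.le) hD3
    obtain ⟨U, hU⟩ := shrink_dn (le_max_left m (max m₀ m₁)) fun x => A (V y (W x))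
    refine ⟨comp (V y) (comp W U), ?_⟩
    have e : dn (fun x => A (comp (V y) (comp W U) x)) = dn fun x => A (V y (W (U x))) :=
      dn_congr fun x => by rw [comp_apply, comp_apply]
    rw [e]
    nlinarith

end Pool.Agent.Lib.MP_4b8564_nt.GT
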