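import Pool.Agent.Lib.MP_4b8564_nt.GT.Av

open Finset Combinatorics
open scoped Classical

noncomputable section

namespace Pool.Agent.Lib.MP_4b8564_nt.GT

variable {η η' α ι κ : Type}

theorem comp_apply (V : Subspace η α ι) (U : Subspace η' α η) (x : η' → α) :
    comp V U x = V (U x) := by
  funext i
  cases h : V.idxFun i <;> simp [comp, Subspace.coe_apply, h]

theorem lift_some (V : Subspace η α ι) (x : η → α) :
    lift V (fun e => some (x e)) = fun i => some (V x i) := by
  funext i
  cases h : V.idxFun i <;> simp [lift, Subspace.coe_apply, h]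

theorem sub_lift (V : Subspace η α ι) (w : η → Option α) (a : α) :
    sub (lift V w) a = V (sub w a) := by
  funext i
  cases h : V.idxFun i <;> simp [lift, sub, Subspace.coe_apply, h]

theorem hasVar_lift (V : Subspace η α ι) (w : η → Option α) : HasVar (lift V w) ↔ HasVar w := by
  constructor
  · rintro ⟨i, hi⟩
    cases h : V.idxFun i with
    | inl a => simp [lift, Subspace.coe_apply, h] at hi
    | inr e => exact ⟨e, by simpa [lift, Subspace.coe_apply, h] using hi⟩
  · rintro ⟨e, he⟩
    obtain ⟨i, hi⟩ := V.proper e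
    exact ⟨i, by simp [lift, Subspace.coe_apply, hi, he]⟩

theorem lift_comp (V : Subspace η α ι) (U : Subspace η' α η) :
    lift (comp V U) = comp (lift V) (lift U) := by
  ext i
  cases h : V.idxFun i <;> simp [lift, comp, h]

theorem left_apply (V : Subspace η α ι) (y : κ → α) (x : η → α) :
    left V y x = Sum.elim (V x) y := by
  funext i
  cases i <;> rfl

theorem right_apply (x : ι → α) (V : Subspace η α κ) (y : η → α) :
    right x V y = Sum.elim x (V y) := by
  funext i
  cases i <;> rfl

theorem both_apply (U : Subspace η α ι) (V : Subspace η' α κ) (x : η ⊕ η' → α) :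
    both U V x = Sum.elim (U fun e => x (Sum.inl e)) (V fun e => x (Sum.inr e)) := by
  funext i
  rcases i with i | i
  · cases h : U.idxFun i <;> simp [both, Subspace.coe_apply, h]
  · cases h : V.idxFun i <;> simp [both, Subspace.coe_apply, h]

theorem ofEquiv_apply (e : ι ≃ η) (x : η → α) : (ofEquiv e : Subspace η α ι) x = fun i => x (e i) :=
  rfl

theorem subspace_injective (V : Subspace η α ι) : Function.Injective fun x : η → α => V x := by
  intro x y h
  funext e
  obtain ⟨i, hi⟩ := V.proper e
  simpa [Subspace.coe_apply, hi] using congrFun h i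

instance finiteSubspace [Finite η] [Finite α] [Finite ι] : Finite (Subspace η α ι) :=
  Finite.of_injective Subspace.idxFun fun _ _ h => Subspace.ext h

theorem hasLine_of_comp (V : Subspace η α ι) {A : (ι → α) → Prop}
    (h : HasLine fun x => A (V x)) : HasLine A := by
  obtain ⟨w, hw, hA⟩ := h
  exact ⟨lift V w, (hasVar_lift V w).2 hw, fun a => by rw [sub_lift]; exact hA a⟩

theorem Ins.comp {a : α} {D : (ι → Option α) → Prop} (h : Ins a D)
    (V : Subspace η (Option α) ι) : Ins a fun x => D (V x) := by
  intro w w' e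
  refine h _ _ (funext fun i => ?_)
  cases hi : V.idxFun i with
  | inl c => simp [sub, Subspace.coe_apply, hi]
  | inr j => simpa [sub, Subspace.coe_apply, hi] using congrFun e j

theorem Ins.iff_sub {a : α} {D : (ι → Option α) → Prop} (h : Ins a D) (w : ι → Option α) :
    D w ↔ D fun i => some (sub w a i) := h _ _ (funext fun _ => rfl)

theorem av_ofEquiv [Fintype η] [DecidableEq η] [Fintype ι] [DecidableEq ι] [Fintype α] (e : ι ≃ η)
    (f : (ι → α) → ℝ) : av (fun x : η → α => f ((ofEquiv e : Subspace η α ι) x)) = av f :=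
  av_equiv (e.symm.arrowCongr (Equiv.refl α)) f

theorem dn_ofEquiv [Fintype η] [DecidableEq η] [Fintype ι] [DecidableEq ι] [Fintype α] (e : ι ≃ η)
    (A : (ι → α) → Prop) : dn (fun x : η → α => A ((ofEquiv e : Subspace η α ι) x)) = dn A :=
  av_ofEquiv e fun x => if A x then 1 else 0

/-- some subspace of a given smaller dimension carries at least the average -/
theorem shrink [Fintype α] [Nonempty α] {m n : ℕ} (h : m ≤ n) (f : (Fin n → α) → ℝ) :
    ∃ U : Subspace (Fin m) α (Fin n), av f ≤ av fun x => f (U x) := by
  obtain ⟨r, rfl⟩ := Nat.exists_eq_add_of_le h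
  let E : Subspace (Fin m ⊕ Fin r) α (Fin (m + r)) := ofEquiv finSumFinEquiv.symm
  rw [← av_ofEquiv finSumFinEquiv.symm f, av_sumElim, av_comm]
  obtain ⟨y, hy⟩ := exists_av_le fun y : Fin r → α => av fun x : Fin m → α => f (E (Sum.elim x y))
  refine ⟨comp E (left (ofEquiv (Equiv.refl _)) y), hy.trans (le_of_eq (av_congr fun x => ?_))⟩
  rw [comp_apply, left_apply]
  rfl

theorem shrink_dn [Fintype α] [Nonempty α] {m n : ℕ} (h : m ≤ n) (A : (Fin n → α) → Prop) :
    ∃ U : Subspace (Fin m) α (Fin n), dn A ≤ dn fun x => A (U x) :=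
  shrink h fun x => if A x then 1 else 0

end Pool.Agent.Lib.MP_4b8564_nt.GT
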