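import Pool.Agent.Lib.MP_4b8564_nt.GT.Dhj

open Finset Combinatorics
open scoped Classical

noncomputable section

namespace Pool.Agent.Lib.MP_4b8564_nt.GT

/-- Szemerédi's theorem -/
theorem szem (k : ℕ) (δ : ℝ) (hδ : 0 < δ) : ∃ M : ℕ, 0 < M ∧ ∀ B : Finset ℕ, B ⊆ range M →
    δ * M ≤ B.card → ∃ a d : ℕ, 0 < d ∧ ∀ j < k, a + j * d ∈ B := by
  obtain ⟨n, hn⟩ := dhj k δ hδ
  have hM : 0 < (k + 1) ^ n := by positivity
  refine ⟨(k + 1) ^ n, hM, fun B hB hc => ?_⟩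
  have hd : δ ≤ dn fun x : Fin n → Fin (k + 1) => ((finFunctionFinEquiv x : Fin _) : ℕ) ∈ B := by
    rw [dn_equiv finFunctionFinEquiv fun y : Fin ((k + 1) ^ n) => (y : ℕ) ∈ B, dn_eq_card,
      Fintype.card_fin, le_div_iff₀ (by exact_mod_cast hM)]
    refine hc.trans (Nat.cast_le.2 ?_)
    refine card_le_card_of_surjOn (fun y : Fin ((k + 1) ^ n) => (y : ℕ)) fun b hb => ?_
    exact ⟨⟨b, mem_range.1 (hB hb)⟩, by simpa using hb, rfl⟩
  obtain ⟨w, ⟨i0, hi0⟩, hw⟩ := hn _ hd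
  refine ⟨∑ i : Fin n, (((w i).getD 0 : Fin (k + 1)) : ℕ) * (k + 1) ^ (i : ℕ),
    ∑ i : Fin n, if w i = none then (k + 1) ^ (i : ℕ) else 0, ?_, fun j hj => ?_⟩
  · refine lt_of_lt_of_le ?_ (single_le_sum (f := fun i : Fin n =>
      if w i = none then (k + 1) ^ (i : ℕ) else 0) (fun i _ => Nat.zero_le _) (mem_univ i0))
    simp only [hi0, if_true]
    positivity
  · have := hw ⟨j, by omega⟩
    simp only [finFunctionFinEquiv_apply] at this
    convert this using 1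
    rw [mul_sum, ← sum_add_distrib]
    refine sum_congr rfl fun i _ => ?_
    cases h : w i <;> simp [sub, h]

end Pool.Agent.Lib.MP_4b8564_nt.GT
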