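import Pool.Agent.Lib.MP_4b8564_nt.GT.Mstar

open Finset Combinatorics
open scoped Classical

noncomputable section

namespace Pool.Agent.Lib.MP_4b8564_nt.GT

namespace TileAux

theorem av_range {X Y : Type} [Fintype X] [Fintype Y] [Nonempty X] (e : X → Y)
    (he : Function.Injective e) (φ : Y → ℝ) :
    av (fun u => if ∃ w, e w = u then φ u else 0) =
      (Fintype.card X : ℝ) / Fintype.card Y * av fun w => φ (e w) := by
  have hX : (Fintype.card X : ℝ) ≠ 0 := by exact_mod_cast Fintype.card_ne_zero
  have : (∑ u, if ∃ w, e w = u then φ u else 0) = ∑ w, φ (e w) := by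
    rw [← sum_filter, ← sum_image (s := univ) (g := e) (f := φ) fun x _ y _ h => he h]
    refine sum_congr ?_ fun _ _ => rfl
    ext u
    simp
  simp only [av, this]
  field_simp

theorem av_le_dn {X : Type} [Fintype X] (D : X → Prop) (f : X → ℝ) (hf : ∀ x, |f x| ≤ 1) :
    av (fun w => if D w then f w else 0) ≤ dn D :=
  av_mono fun x => by
    split_ifs
    · exact (abs_le.1 (hf x)).2
    · exact le_rfl

theorem ins_elim {α ι κ : Type} {a : α} {D : (ι ⊕ κ → Option α) → Prop} (h : Ins a D)
    (u : ι → Option α) : Ins a fun x => D (Sum.elim u x) := by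
  intro w w' e
  refine h _ _ (funext fun i => ?_)
  rcases i with i | i
  · rfl
  · exact congrFun e i

/-- removing the copies of one subspace of the left block -/
theorem split {β η ι κ Y : Type} [Fintype β] [Nonempty β] [Fintype η] [DecidableEq η] [Fintype ι]
    [DecidableEq ι] [Fintype κ] [DecidableEq κ] [Fintype Y] (V : Subspace η β ι)
    (D : Y → (ι ⊕ κ → β) → Prop) (φ : Y → (ι ⊕ κ → β) → ℝ) :
    av (fun y => av fun w => if D y w then φ y w else 0) =
      av (fun z : Y × (ι → β) => av fun x : κ → β =>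
        if D z.1 (Sum.elim z.2 x) ∧ ¬ ((∃ w, V w = z.2) ∧ ∀ w, D z.1 (Sum.elim (V w) x))
          then φ z.1 (Sum.elim z.2 x) else 0) +
      (Fintype.card (η → β) : ℝ) / Fintype.card (ι → β) * av fun z : Y × (κ → β) =>
        if ∀ w, D z.1 (Sum.elim (V w) z.2) then av fun w => φ z.1 (Sum.elim (V w) z.2) else 0 := by
  rw [av_prod, av_prod, ← av_const_mul, ← av_add]
  refine av_congr fun y => ?_
  rw [av_sumElim, av_comm, av_comm (X := ι → β), ← av_const_mul, ← av_add]
  refine av_congr fun x => ?_
  by_cases hS : ∀ w, D y (Sum.elim (V w) x)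
  · rw [if_pos hS, ← av_range (fun w => V w) (subspace_injective V) fun u => φ y (Sum.elim u x),
      ← av_add]
    refine av_congr fun u => ?_
    by_cases hu : ∃ w, V w = u
    · obtain ⟨w, rfl⟩ := hu
      simp [hS]
    · simp [hu]
  · simp [hS]

/-- the family form of the tiling statement -/
def Fam {α : Type} [Fintype α] (a : α) (m : ℕ) (b c : ℝ) (κ : Type) [Fintype κ] [DecidableEq κ] :
    Prop :=
  ∀ (Y : Type) [Fintype Y] [Nonempty Y] (D : Y → (κ → Option α) → Prop)
    (f : Y → (κ → Option α) → ℝ), (∀ y, Ins a (D y)) → (∀ y w, |f y w| ≤ 1) →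
    (∀ y (V : Subspace (Fin m) (Option α) κ), (∀ x, D y (V x)) → av (fun x => f y (V x)) ≤ 0) →
    av (fun y => av fun w => if D y w then f y w else 0) ≤ max b (av (fun y => dn (D y)) - c)

theorem fam_zero {α : Type} [Fintype α] (a : α) (m : ℕ) (b : ℝ) (κ : Type) [Fintype κ]
    [DecidableEq κ] : Fam a m b 0 κ := by
  intro Y _ _ D f _ hf _
  rw [sub_zero]
  exact le_max_of_le_right (av_mono fun y => av_le_dn _ _ (hf y))

theorem fam_step {α : Type} [Fintype α] (a : α) {m M : ℕ} {b c : ℝ} (hb : 0 < b)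
    [Fintype (Subspace (Fin m) (Option α) (Fin M))] [Nonempty (Subspace (Fin m) (Option α) (Fin M))]
    (hM : ∀ A : (Fin M → Option α) → Prop, b / 2 ≤ dn A →
      ∃ V : Subspace (Fin m) (Option α) (Fin M), ∀ x : Fin m → α, A (V fun i => some (x i)))
    {κ : Type} [Fintype κ] [DecidableEq κ] (h : Fam a m b c κ) :
    Fam a m b (c + 1 / Fintype.card (Fin M → Option α) *
      (b / 2 / Fintype.card (Subspace (Fin m) (Option α) (Fin M)))) (Fin M ⊕ κ) := by
  intro Y _ _ D f hD hf hV
  by_cases hρ : av (fun y => dn (D y)) ≤ b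
  · exact le_max_of_le_left ((av_mono fun y => av_le_dn _ _ (hf y)).trans hρ)
  push Not at hρ
  have h1 : av (fun z : Y × (κ → Option α) => dn fun u => D z.1 (Sum.elim u z.2)) =
      av fun y => dn (D y) := by
    rw [av_prod]
    refine av_congr fun y => ?_
    rw [dn_sumElim, dn_comm]
  have h2 := markov (fun z : Y × (κ → Option α) => dn fun u => D z.1 (Sum.elim u z.2)) 1 (b / 2)
    (fun z => dn_le_one _) (by positivity)
  obtain ⟨V, hS⟩ := pigeon
    (fun z : Y × (κ → Option α) => b / 2 ≤ dn fun u => D z.1 (Sum.elim u z.2))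
    (fun (V : Subspace (Fin m) (Option α) (Fin M)) z => ∀ w, D z.1 (Sum.elim (V w) z.2))
    fun z hz => by
      obtain ⟨V, hV⟩ := hM _ hz
      refine ⟨V, fun w => ?_⟩
      have := ((hD z.1).comp (left V z.2)).iff_sub w
      simp only [left_apply] at this
      exact this.2 (hV _)
  have h3 : b / 2 / Fintype.card (Subspace (Fin m) (Option α) (Fin M)) ≤
      dn fun z : Y × (κ → Option α) => ∀ w, D z.1 (Sum.elim (V w) z.2) :=
    le_trans (div_le_div_of_nonneg_right (by linarith) (Nat.cast_nonneg _)) hS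
  have IH := h (Y × (Fin M → Option α))
    (fun z x => D z.1 (Sum.elim z.2 x) ∧ ¬ ((∃ w, V w = z.2) ∧ ∀ w, D z.1 (Sum.elim (V w) x)))
    (fun z x => f z.1 (Sum.elim z.2 x))
    (fun z x x' e => and_congr (ins_elim (hD z.1) z.2 x x' e) (not_congr (and_congr Iff.rfl
      (forall_congr' fun w => ins_elim (hD z.1) (V w) x x' e))))
    (fun z x => hf _ _)
    (fun z U hU => by
      have := hV z.1 (right z.2 U) fun x => by rw [right_apply]; exact (hU x).1
      simpa only [right_apply] using this)
  have s1 := split V D f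
  have s2 := split V D fun _ _ => 1
  simp only [av_const] at s2
  have r1 : av (fun z : Y × (κ → Option α) => if ∀ w, D z.1 (Sum.elim (V w) z.2) then
      av fun w => f z.1 (Sum.elim (V w) z.2) else 0) ≤ 0 := av_le_of_le fun z => by
    split_ifs with hz
    · have := hV z.1 (left V z.2) fun x => by rw [left_apply]; exact hz x
      simpa only [left_apply] using this
    · exact le_rfl
  have r2 : (1 : ℝ) / Fintype.card (Fin M → Option α) ≤
      (Fintype.card (Fin m → Option α) : ℝ) / Fintype.card (Fin M → Option α) :=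
    div_le_div_of_nonneg_right (by exact_mod_cast Fintype.card_pos) (Nat.cast_nonneg _)
  have r3 := mul_le_mul r2 h3 (by positivity) (by positivity)
  have r4 := mul_nonpos_of_nonneg_of_nonpos
    (show (0 : ℝ) ≤ (Fintype.card (Fin m → Option α) : ℝ) / Fintype.card (Fin M → Option α) by
      positivity) r1
  refine le_trans (le_trans ?_ IH) (max_le_max le_rfl ?_)
  · rw [s1]
    convert add_le_of_nonpos_right r4 using 6
  · have s3 : av (fun y => dn (D y)) = av (fun z : Y × (Fin M → Option α) => dn fun x =>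
        D z.1 (Sum.elim z.2 x) ∧ ¬ ((∃ w, V w = z.2) ∧ ∀ w, D z.1 (Sum.elim (V w) x))) +
        (Fintype.card (Fin m → Option α) : ℝ) / Fintype.card (Fin M → Option α) *
          dn fun z : Y × (κ → Option α) => ∀ w, D z.1 (Sum.elim (V w) z.2) := by
      unfold dn
      convert s2 using 7
    linarith

end TileAux

open TileAux in
theorem tile {α : Type} [Fintype α] [Nonempty α] (h : DHJ α) (a : α) (m : ℕ) (b : ℝ) (hb : 0 < b) :
    ∃ n : ℕ, ∀ D : (Fin n → Option α) → Prop, Ins a D → Incr m D b := by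
  by_cases hb1 : 1 ≤ b
  · exact ⟨0, fun D _ f hf _ => (av_le_dn D f hf).trans ((dn_le_one D).trans hb1)⟩
  obtain ⟨M, hM⟩ := mstar h m (b / 2) (by positivity)
  have : Fintype (Subspace (Fin m) (Option α) (Fin M)) := Fintype.ofFinite _
  have : Nonempty (Subspace (Fin m) (Option α) (Fin M)) := by
    obtain ⟨V, -⟩ := hM (fun _ => True) (by rw [dn_true]; linarith)
    exact ⟨V⟩
  set Θ : ℝ := 1 / Fintype.card (Fin M → Option α) *
    (b / 2 / Fintype.card (Subspace (Fin m) (Option α) (Fin M))) with hΘ
  have hΘ0 : 0 < Θ := by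
    have h1 : (0 : ℝ) < Fintype.card (Fin M → Option α) := by exact_mod_cast Fintype.card_pos
    have h2 : (0 : ℝ) < Fintype.card (Subspace (Fin m) (Option α) (Fin M)) := by
      exact_mod_cast Fintype.card_pos
    positivity
  have key : ∀ t : ℕ, ∃ (κ : Type) (_ : Fintype κ) (_ : DecidableEq κ), Fam a m b (t * Θ) κ := by
    intro t
    induction t with
    | zero => exact ⟨Fin 0, inferInstance, inferInstance, by simpa using fam_zero a m b (Fin 0)⟩
    | succ t ih =>
      obtain ⟨κ, _, _, hκ⟩ := ih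
      refine ⟨Fin M ⊕ κ, inferInstance, inferInstance, ?_⟩
      have := fam_step a hb hM hκ
      rwa [← hΘ, ← add_one_mul, ← Nat.cast_succ] at this
  obtain ⟨t, ht⟩ := exists_nat_ge (1 / Θ)
  rw [div_le_iff₀ hΘ0] at ht
  obtain ⟨κ, _, _, hκ⟩ := key t
  refine ⟨Fintype.card κ, fun D hD f hf hV => ?_⟩
  let E : Subspace κ (Option α) (Fin (Fintype.card κ)) := ofEquiv (Fintype.equivFin κ).symm
  have := hκ Unit (fun _ x => D (E x)) (fun _ x => f (E x)) (fun _ => hD.comp E)
    (fun _ x => hf _) fun _ U hU => by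
      have := hV (comp E U) fun x => by rw [comp_apply]; exact hU x
      simpa only [comp_apply] using this
  simp only [av_const] at this
  rw [← av_ofEquiv (Fintype.equivFin κ).symm]
  refine le_trans this (max_le le_rfl ?_)
  linarith [dn_le_one fun x => D (E x)]

end Pool.Agent.Lib.MP_4b8564_nt.GT
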