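import Pool.Agent.Lib.MP_4b8564_nt.GT.Subs

open Finset Combinatorics
open scoped Classical

noncomputable section

namespace Pool.Agent.Lib.MP_4b8564_nt.GT

namespace UnifAux

/-- a value well below the average forces a value above the average -/
theorem exists_above {X : Type} [Fintype X] [Nonempty X] (g : X → ℝ) (ε : ℝ) (hε : 0 < ε) (x0 : X)
    (h : g x0 < av g - ε) : ∃ x1, av g + ε / Fintype.card X ≤ g x1 := by
  obtain ⟨x1, h1⟩ := exists_av_le fun x => g x + if x = x0 then ε else 0
  have h2 : av (fun x : X => if x = x0 then ε else 0) = ε / Fintype.card X := by simp [av]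
  rw [av_add, h2] at h1
  have h3 : 0 ≤ ε / Fintype.card X := by positivity
  by_cases hx : x1 = x0
  · subst hx
    rw [if_pos rfl] at h1
    linarith
  · rw [if_neg hx, add_zero] at h1
    exact ⟨x1, h1⟩

/-- the conclusion of the uniformity lemma -/
def Good {β : Type} [Fintype β] (m : ℕ) (ε : ℝ) {n : ℕ} (A : (Fin n → β) → Prop) : Prop :=
  ∃ (Y : Type) (_ : Fintype Y) (_ : Nonempty Y)
    (V : Y → Subspace (Fin m) β (Fin n)), ∀ x, dn A - ε ≤ dn fun y => A (V y x)

theorem step (β : Type) [Fintype β] [Nonempty β] (m : ℕ) (ε : ℝ) (hε : 0 < ε) (t : ℕ) :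
    ∃ n : ℕ, ∀ A : (Fin n → β) → Prop,
      Good m ε A ∨ dn A + t * (ε / Fintype.card (Fin m → β)) ≤ 1 := by
  induction t with
  | zero => exact ⟨0, fun A => Or.inr (by simpa using dn_le_one A)⟩
  | succ t ih =>
    obtain ⟨n, hn⟩ := ih
    refine ⟨m + n, fun A => ?_⟩
    let E : Subspace (Fin m ⊕ Fin n) β (Fin (m + n)) := ofEquiv finSumFinEquiv.symm
    have hA : dn A = av fun x : Fin m → β => dn fun y : Fin n → β => A (E (Sum.elim x y)) := by
      rw [← dn_ofEquiv finSumFinEquiv.symm A, dn_sumElim]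
    by_cases hall : ∀ x : Fin m → β, dn A - ε ≤ dn fun y : Fin n → β => A (E (Sum.elim x y))
    · refine Or.inl ⟨Fin n → β, inferInstance, inferInstance,
        fun y => comp E (left (ofEquiv (Equiv.refl _)) y), fun x => (hall x).trans (le_of_eq ?_)⟩
      refine dn_congr fun y => ?_
      rw [comp_apply, left_apply]
      rfl
    · push Not at hall
      obtain ⟨x0, hx0⟩ := hall
      obtain ⟨x1, hx1⟩ := exists_above
        (fun x : Fin m → β => dn fun y : Fin n → β => A (E (Sum.elim x y))) ε hε x0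
        (by rw [← hA]; exact hx0)
      rw [← hA] at hx1
      have h3 : 0 ≤ ε / Fintype.card (Fin m → β) := by positivity
      rcases hn fun y => A (E (Sum.elim x1 y)) with ⟨Y, hY, hY', V, hV⟩ | h
      · refine Or.inl ⟨Y, hY, hY', fun y => comp E (right x1 (V y)), fun x => ?_⟩
        have h4 : (dn fun y => A (comp E (right x1 (V y)) x)) =
            dn fun y => A (E (Sum.elim x1 (V y x))) :=
          dn_congr fun y => by rw [comp_apply, right_apply]
        rw [h4]
        linarith [hV x]
      · right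
        push_cast
        linarith

end UnifAux

theorem unif (β : Type) [Fintype β] [Nonempty β] (m : ℕ) (ε : ℝ) (hε : 0 < ε) :
    ∃ n : ℕ, ∀ A : (Fin n → β) → Prop, ∃ (Y : Type) (_ : Fintype Y) (_ : Nonempty Y)
      (V : Y → Subspace (Fin m) β (Fin n)), ∀ x, dn A - ε ≤ dn fun y => A (V y x) := by
  have hρ : 0 < ε / Fintype.card (Fin m → β) :=
    div_pos hε (Nat.cast_pos.2 Fintype.card_pos)
  obtain ⟨t, ht⟩ := exists_nat_gt (1 / (ε / Fintype.card (Fin m → β)))
  obtain ⟨n, hn⟩ := UnifAux.step β m ε hε t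
  refine ⟨n, fun A => (hn A).resolve_right fun h => ?_⟩
  rw [div_lt_iff₀ hρ] at ht
  linarith [dn_nonneg A]

end Pool.Agent.Lib.MP_4b8564_nt.GT
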