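import Pool.Agent.Lib.MP_4b8564_nt.GT.Szem

open Finset Combinatorics
open scoped Classical

noncomputable section

namespace Pool.Agent.Lib.MP_4b8564_nt.GT

namespace VarnKAux

/-- the affine change of variables on pairs -/
def aff {F : Type} [Field F] (a e : F) (he : e ≠ 0) : F × F ≃ F × F where
  toFun p := (p.1 + a * p.2, e * p.2)
  invFun p := (p.1 - a * (e⁻¹ * p.2), e⁻¹ * p.2)
  left_inv p := by simp [he]
  right_inv p := by simp [he]

theorem count (k M : ℕ) (ε : ℝ) (hε : 0 < ε) (hM : 0 < M)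
    (hS : ∀ B : Finset ℕ, B ⊆ range M → ε * M ≤ B.card →
      ∃ a d : ℕ, 0 < d ∧ ∀ j < k + 2, a + j * d ∈ B)
    (N : ℕ) [NeZero N] (hN : N.Prime) (hMN : M ≤ N) (L : ZMod N → Prop) (hL : 2 * ε ≤ dn L) :
    ε / (M : ℝ) ^ 2 ≤ dn fun p : ZMod N × ZMod N => ∀ j < k, L (p.1 + (j : ZMod N) * p.2) := by
  have := Fact.mk hN
  have hM1 : (0 : ℝ) < M := by exact_mod_cast hM
  have : Nonempty (Fin M) := ⟨⟨0, hM⟩⟩
  let B : ZMod N × ZMod N → Finset ℕ := fun p => (range M).filter fun i => L (p.1 + i * p.2)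
  have h1 : av (fun p => ((B p).card : ℝ)) = M * dn L := by
    have e : ∀ i : ℕ, av (fun p : ZMod N × ZMod N =>
        if L (p.1 + i * p.2) then (1 : ℝ) else 0) = dn L := by
      intro i
      rw [av_prod, av_comm]
      refine (av_congr fun d => ?_).trans (av_const _)
      exact dn_equiv (Equiv.addRight ((i : ZMod N) * d)) L
    simp only [B, card_filter, Nat.cast_sum, Nat.cast_ite, Nat.cast_one, Nat.cast_zero]
    rw [av_sum]
    simp [e]
  have h2 := markov (fun p => ((B p).card : ℝ)) M (ε * M)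
    (fun p => by exact_mod_cast (card_filter_le _ _).trans (card_range M).le) (by positivity)
  rw [h1] at h2
  have h3 : ε ≤ dn fun p => ε * M ≤ ((B p).card : ℝ) := by
    refine le_of_mul_le_mul_left ?_ hM1
    nlinarith
  obtain ⟨s, hs⟩ := pigeon (fun p => ε * M ≤ ((B p).card : ℝ))
    (fun (s : Fin M × Fin M) (p : ZMod N × ZMod N) => 0 < (s.2 : ℕ) ∧
      ∀ j < k, L (p.1 + ((s.1 : ℕ) : ZMod N) * p.2 + (j : ZMod N) * (((s.2 : ℕ) : ZMod N) * p.2)))
    (fun p hp => by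
      obtain ⟨a, d, hd, h⟩ := hS (B p) (filter_subset _ _) hp
      have ha := mem_range.1 (mem_filter.1 (h 0 (by omega))).1
      have hd' := mem_range.1 (mem_filter.1 (h 1 (by omega))).1
      refine ⟨(⟨a, by omega⟩, ⟨d, by omega⟩), hd, fun j hj => ?_⟩
      have := (mem_filter.1 (h j (by omega))).2
      convert this using 1
      push_cast
      ring)
  have h4 : ε / (M : ℝ) ^ 2 ≤ (dn fun p => ε * M ≤ ((B p).card : ℝ)) /
      Fintype.card (Fin M × Fin M) := by
    rw [Fintype.card_prod, Fintype.card_fin, Nat.cast_mul, sq]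
    gcongr
  have h5 := h4.trans hs
  obtain ⟨p, hp, -⟩ := exists_of_dn_pos (lt_of_lt_of_le (by positivity) h5)
  have hne : (((s.2 : ℕ) : ZMod N)) ≠ 0 := by
    rw [Ne, ZMod.natCast_eq_zero_iff]
    exact Nat.not_dvd_of_pos_of_lt hp (s.2.2.trans_le hMN)
  refine h5.trans (le_trans ?_ (dn_equiv (aff ((s.1 : ℕ) : ZMod N) _ hne) _).le)
  exact dn_mono fun q hq => hq.2

end VarnKAux

/-- Szemerédi's theorem in the form of Varnavides -/
theorem varnK (k : ℕ) (δ : ℝ) (hδ : 0 < δ) : ∃ c : ℝ, 0 < c ∧ ∃ N₀ : ℕ, ∀ (N : ℕ) [NeZero N],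
    N.Prime → N₀ ≤ N → ∀ g : ZMod N → ℝ, (∀ x, 0 ≤ g x) → (∀ x, g x ≤ 1) → δ ≤ av g →
      c ≤ lam k N g := by
  obtain ⟨M, hM, hS⟩ := szem (k + 2) (δ / 4) (by positivity)
  have hM1 : (0 : ℝ) < M := by exact_mod_cast hM
  refine ⟨(δ / 2) ^ k * (δ / 4 / (M : ℝ) ^ 2), by positivity, M, fun N _ hN hMN g h0 h1 hg => ?_⟩
  have h2 := markov g 1 (δ / 2) h1 (by positivity)
  have h3 := VarnKAux.count k M (δ / 4) (by positivity) hM hS N hN hMN (fun x => δ / 2 ≤ g x)
    (by linarith)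
  refine (mul_le_mul_of_nonneg_left h3 (by positivity)).trans ?_
  rw [lam, dn, ← av_const_mul]
  refine av_mono fun z => ?_
  split_ifs with h
  · rw [mul_one]
    calc (δ / 2) ^ k = ∏ _j : Fin k, δ / 2 := by rw [prod_const, card_univ, Fintype.card_fin]
      _ ≤ _ := prod_le_prod (fun _ _ => by positivity) fun j _ => h j j.2
  · rw [mul_zero]
    exact prod_nonneg fun _ _ => h0 _

end Pool.Agent.Lib.MP_4b8564_nt.GT
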